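import Pool.Agent.Lib.MP_8fac0f_nt.C3.Defs

/-!
# Typical cells: the pair of slopes is far from all small rational relations
-/

set_option autoImplicit false

namespace Pool.Agent.Lib.MP_8fac0f_nt.C3

open Finset Filter Topology

theorem card_le_of_diff (S : Finset ℕ) (L : ℝ) (hL : 0 ≤ L)
    (h : ∀ x ∈ S, ∀ y ∈ S, (x : ℝ) - y ≤ L) : (S.card : ℝ) ≤ L + 1 := by
  rcases S.eq_empty_or_nonempty with rfl | hS
  · simp; linarith
  · have hsub : S ⊆ Icc (S.min' hS) (S.max' hS) := fun x hx =>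
      mem_Icc.2 ⟨S.min'_le x hx, S.le_max' x hx⟩
    have hc := card_le_card hsub
    rw [Nat.card_Icc] at hc
    have hmm := h _ (S.max'_mem hS) _ (S.min'_mem hS)
    have hle : S.min' hS ≤ S.max' hS := S.min'_le_max' hS
    have : (S.card : ℝ) ≤ ((S.max' hS + 1 - S.min' hS : ℕ) : ℝ) := by exact_mod_cast hc
    rw [Nat.cast_sub (by omega)] at this
    push_cast at this
    linarith

/-- Sublevel sets of a quadratic polynomial on a fine grid. -/
theorem quad_sublevel (S : Finset ℕ) (Q s u v w m : ℝ) (hQ : 0 < Q) (hs0 : 0 < s) (hs : s < 1)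
    (huv : 1 ≤ |u| ∨ (u = 0 ∧ 1 ≤ |v|))
    (h : ∀ n ∈ S, |u * (n / Q) ^ 2 + v * (n / Q) + w - m| ≤ s ^ 2 / 2) :
    (S.card : ℝ) ≤ 4 * s * Q + 2 := by
  classical
  rcases S.eq_empty_or_nonempty with rfl | ⟨n0, hn0⟩
  · simp; positivity
  set S1 := S.filter fun n : ℕ => |(n : ℝ) / Q - n0 / Q| ≤ s with hS1
  set S2 := S.filter fun n : ℕ => |u * ((n : ℝ) / Q + n0 / Q) + v| ≤ s with hS2
  have hsub : S ⊆ S1 ∪ S2 := by
    intro n hn
    rw [mem_union, hS1, hS2, mem_filter, mem_filter]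
    by_contra hcon
    push Not at hcon
    obtain ⟨c1, c2⟩ := hcon
    have c1 := c1 hn
    have c2 := c2 hn
    have e1 := h n hn
    have e2 := h n0 hn0
    have e3 : ((n : ℝ) / Q - n0 / Q) * (u * ((n : ℝ) / Q + n0 / Q) + v)
        = (u * (n / Q) ^ 2 + v * (n / Q) + w - m)
          - (u * (n0 / Q) ^ 2 + v * (n0 / Q) + w - m) := by ring
    have e4 : |((n : ℝ) / Q - n0 / Q) * (u * ((n : ℝ) / Q + n0 / Q) + v)| ≤ s ^ 2 := by
      rw [e3]
      refine (abs_sub _ _).trans ?_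
      linarith
    rw [abs_mul] at e4
    nlinarith [abs_nonneg ((n : ℝ) / Q - n0 / Q), abs_nonneg (u * ((n : ℝ) / Q + n0 / Q) + v)]
  have h1 : (S1.card : ℝ) ≤ 2 * s * Q + 1 := by
    refine card_le_of_diff _ _ (by positivity) fun x hx y hy => ?_
    rw [hS1, mem_filter] at hx hy
    have hx := (abs_le.1 hx.2).2
    have hy := (abs_le.1 hy.2).1
    have : ((x : ℝ) - y) / Q ≤ 2 * s := by rw [sub_div]; linarith
    rwa [div_le_iff₀ hQ] at this
  have h2 : (S2.card : ℝ) ≤ 2 * s * Q + 1 := by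
    rcases huv with hu | ⟨hu, hv⟩
    · refine card_le_of_diff _ _ (by positivity) fun x hx y hy => ?_
      rw [hS2, mem_filter] at hx hy
      have e : u * (((x : ℝ) - y) / Q)
          = (u * ((x : ℝ) / Q + n0 / Q) + v) - (u * ((y : ℝ) / Q + n0 / Q) + v) := by ring
      have e4 : |u * (((x : ℝ) - y) / Q)| ≤ 2 * s := by
        rw [e]
        refine (abs_sub _ _).trans ?_
        linarith [hx.2, hy.2]
      rw [abs_mul] at e4
      have e5 : |((x : ℝ) - y) / Q| ≤ 2 * s := by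
        nlinarith [abs_nonneg (((x : ℝ) - y) / Q)]
      have := (abs_le.1 e5).2
      rwa [div_le_iff₀ hQ] at this
    · have : S2 = ∅ := by
        rw [hS2, filter_eq_empty_iff]
        intro n _ hn
        rw [hu, zero_mul, zero_add] at hn
        linarith
      rw [this]
      simp
      positivity
  have hc : (S.card : ℝ) ≤ (S1.card : ℝ) + S2.card := by
    exact_mod_cast (card_le_card hsub).trans (card_union_le _ _)
  linarith

/-- The linear combination of the two slopes is a quadratic polynomial in `n / 2 ^ (134 e)`. -/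
theorem slope_eq (a b c e n : ℕ) (z1 z2 : ℤ) :
    (z1 * (P1 a b c (2 ^ (65 * e) * n) / 2 ^ (398 * e))
          + z2 * (2 * P2 a b (2 ^ (65 * e) * n) / 2 ^ (199 * e)) : ℝ)
    = (3 * a * z1) * ((n : ℝ) / 2 ^ (134 * e)) ^ 2
      + (2 * b * z1 / 2 ^ (199 * e) + 6 * a * z2) * ((n : ℝ) / 2 ^ (134 * e))
      + (c * z1 / 2 ^ (398 * e) + 2 * b * z2 / 2 ^ (199 * e)) := by
  have h1 : (2 : ℝ) ^ (199 * e) = 2 ^ (65 * e) * 2 ^ (134 * e) := by rw [← pow_add]; ring_nf
  have h2 : (2 : ℝ) ^ (398 * e) = (2 ^ (65 * e) * 2 ^ (134 * e)) ^ 2 := by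
    rw [← pow_add, ← pow_mul]; ring_nf
  have h3 : (2 : ℝ) ^ (65 * e) ≠ 0 := by positivity
  have h4 : (2 : ℝ) ^ (134 * e) ≠ 0 := by positivity
  unfold P1 P2
  rw [h1, h2]
  push_cast
  field_simp
  ring

theorem sublevel (a b c : ℕ) (ha : 1 ≤ a) (ε : ℝ) (hε : 0 < ε) : ∀ᶠ e : ℕ in atTop,
    ∃ bad : Finset ℕ, (bad.card : ℝ) ≤ ε * 2 ^ (134 * e) ∧
      ∀ n < 2 ^ (134 * e), n ∉ bad → ∀ z1 z2 : ℤ, (z1 ≠ 0 ∨ z2 ≠ 0) → |z1| ≤ 2 ^ (7 * e) →
        |z2| ≤ 2 ^ (7 * e) →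
        1 / 2 ^ (44 * e) ≤ di (z1 * (P1 a b c (2 ^ (65 * e) * n) / 2 ^ (398 * e))
          + z2 * (2 * P2 a b (2 ^ (65 * e) * n) / 2 ^ (199 * e))) := by
  classical
  set C0 : ℕ := 9 * a + 4 * b + c + 1 with hC0
  have hev : ∀ᶠ e : ℕ in atTop, (270 * C0 : ℝ) / ε ≤ (2 : ℝ) ^ e :=
    (tendsto_pow_atTop_atTop_of_one_lt (by norm_num : (1 : ℝ) < 2)).eventually_ge_atTop _
  filter_upwards [hev, eventually_ge_atTop 1] with e he he1
  set X : ℤ := 2 ^ (7 * e) with hX
  have hX1 : (1 : ℤ) ≤ X := one_le_pow₀ (by norm_num)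
  set F : ℤ → ℤ → ℕ → ℝ := fun z1 z2 n =>
    z1 * (P1 a b c (2 ^ (65 * e) * n) / 2 ^ (398 * e))
          + z2 * (2 * P2 a b (2 ^ (65 * e) * n) / 2 ^ (199 * e)) with hF
  set T : Finset (ℤ × ℤ × ℤ) := Icc (-X) X ×ˢ (Icc (-X) X ×ˢ Icc (-(C0 * X)) (C0 * X)) with hT
  set g : ℤ × ℤ × ℤ → Finset ℕ := fun z => (range (2 ^ (134 * e))).filter fun n =>
    (z.1 ≠ 0 ∨ z.2.1 ≠ 0) ∧ |F z.1 z.2.1 n - z.2.2| ≤ 1 / 2 ^ (44 * e) with hg
  have hgcard : ∀ z ∈ T, ((g z).card : ℝ) ≤ 10 * 2 ^ (112 * e) := by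
    intro z _
    by_cases hz : z.1 ≠ 0 ∨ z.2.1 ≠ 0
    · have key := quad_sublevel (g z) (2 ^ (134 * e)) (2 / 2 ^ (22 * e)) (3 * a * z.1)
        (2 * b * z.1 / 2 ^ (199 * e) + 6 * a * z.2.1)
        (c * z.1 / 2 ^ (398 * e) + 2 * b * z.2.1 / 2 ^ (199 * e)) z.2.2 (by positivity)
        (by positivity) ?_ ?_ ?_
      · refine key.trans ?_
        have e1 : (2 : ℝ) ^ (134 * e) = 2 ^ (22 * e) * 2 ^ (112 * e) := by
          rw [← pow_add]; ring_nf
        rw [e1]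
        have e2 : (1 : ℝ) ≤ 2 ^ (112 * e) := one_le_pow₀ (by norm_num)
        have e3 : (2 : ℝ) ^ (22 * e) ≠ 0 := by positivity
        have e4 : 4 * (2 / (2 : ℝ) ^ (22 * e)) * (2 ^ (22 * e) * 2 ^ (112 * e))
            = 8 * 2 ^ (112 * e) := by field_simp; ring
        rw [e4]
        linarith
      · rw [div_lt_one (by positivity)]
        calc (2 : ℝ) = 2 ^ 1 := by norm_num
          _ < 2 ^ (22 * e) := pow_lt_pow_right₀ (by norm_num) (by omega)
      · have ha' : (1 : ℝ) ≤ a := by exact_mod_cast ha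
        by_cases h1 : z.1 = 0
        · right
          refine ⟨by rw [h1]; simp, ?_⟩
          have h2 : z.2.1 ≠ 0 := by tauto
          have h3 : (1 : ℝ) ≤ |(z.2.1 : ℝ)| := by
            exact_mod_cast Int.one_le_abs h2
          rw [h1]
          simp only [Int.cast_zero, mul_zero, zero_div, zero_add]
          rw [abs_mul, abs_of_nonneg (by positivity : (0 : ℝ) ≤ 6 * a)]
          nlinarith
        · left
          have h3 : (1 : ℝ) ≤ |(z.1 : ℝ)| := by
            exact_mod_cast Int.one_le_abs h1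
          rw [abs_mul, abs_of_nonneg (by positivity : (0 : ℝ) ≤ 3 * a)]
          nlinarith
      · intro n hn
        rw [hg, mem_filter] at hn
        have h3 := hn.2.2
        rw [hF] at h3
        simp only at h3
        rw [slope_eq] at h3
        refine h3.trans ?_
        rw [div_pow, ← pow_mul]
        have : (2 : ℝ) ^ (22 * e * 2) = 2 ^ (44 * e) := by ring_nf
        rw [this]
        have e5 : (0 : ℝ) < 1 / 2 ^ (44 * e) := by positivity
        have : (2 : ℝ) ^ 2 / 2 ^ (44 * e) / 2 = 2 * (1 / 2 ^ (44 * e)) := by ring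
        rw [this]
        linarith
    · have : g z = ∅ := by
        rw [hg]
        simp only
        rw [filter_eq_empty_iff]
        intro n _ hn
        exact hz hn.1
      rw [this]
      simp
  refine ⟨T.biUnion g, ?_, ?_⟩
  · have h1 : ((T.biUnion g).card : ℝ) ≤ ∑ z ∈ T, ((g z).card : ℝ) := by
      exact_mod_cast card_biUnion_le
    have h2 : ∑ z ∈ T, ((g z).card : ℝ) ≤ T.card * (10 * 2 ^ (112 * e)) := by
      refine (sum_le_sum hgcard).trans ?_
      rw [sum_const, nsmul_eq_mul]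
    have h3 : (T.card : ℤ) = (2 * X + 1) * ((2 * X + 1) * (2 * (C0 * X) + 1)) := by
      rw [hT, card_product, card_product]
      push_cast
      rw [Int.card_Icc, Int.card_Icc]
      have p1 : (0 : ℤ) ≤ X + 1 - -X := by linarith
      have hX0 : (0 : ℤ) ≤ C0 * X := by positivity
      have p2 : (0 : ℤ) ≤ C0 * X + 1 - -(C0 * X) := by linarith
      rw [Int.toNat_of_nonneg p1, Int.toNat_of_nonneg p2]
      ring
    have h4 : (T.card : ℤ) ≤ 27 * C0 * X ^ 3 := by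
      rw [h3]
      have q1 : 2 * X + 1 ≤ 3 * X := by linarith
      have q0 : (1 : ℤ) ≤ C0 := by rw [hC0]; push_cast; omega
      have q2 : 2 * (C0 * X) + 1 ≤ 3 * (C0 * X) := by nlinarith
      calc (2 * X + 1) * ((2 * X + 1) * (2 * (C0 * X) + 1))
          ≤ (3 * X) * ((3 * X) * (3 * (C0 * X))) := by gcongr
        _ = 27 * C0 * X ^ 3 := by ring
    have h5 : (T.card : ℝ) ≤ 27 * C0 * 2 ^ (21 * e) := by
      have : ((T.card : ℤ) : ℝ) ≤ ((27 * C0 * X ^ 3 : ℤ) : ℝ) := by exact_mod_cast h4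
      rw [hX] at this
      push_cast at this
      rw [← pow_mul] at this
      refine this.trans_eq ?_
      ring_nf
    have h6 : (2 : ℝ) ^ (134 * e) = 2 ^ e * (2 ^ (21 * e) * 2 ^ (112 * e)) := by
      rw [← pow_add, ← pow_add]; ring_nf
    have h7 : 270 * (C0 : ℝ) ≤ ε * 2 ^ e := by
      rw [div_le_iff₀ hε] at he
      linarith
    calc ((T.biUnion g).card : ℝ) ≤ T.card * (10 * 2 ^ (112 * e)) := h1.trans h2
      _ ≤ (27 * C0 * 2 ^ (21 * e)) * (10 * 2 ^ (112 * e)) := by gcongr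
      _ = (270 * C0) * (2 ^ (21 * e) * 2 ^ (112 * e)) := by ring
      _ ≤ (ε * 2 ^ e) * (2 ^ (21 * e) * 2 ^ (112 * e)) := by gcongr
      _ = ε * 2 ^ (134 * e) := by rw [h6]; ring
  · intro n hn hnb z1 z2 hz hz1 hz2
    by_contra hcon
    push Not at hcon
    apply hnb
    obtain ⟨m, hm⟩ := di_exists (F z1 z2 n)
    have hFm : |F z1 z2 n - m| ≤ 1 / 2 ^ (44 * e) := by
      rw [← hm]
      exact hcon.le
    rw [mem_biUnion]
    refine ⟨(z1, z2, m), ?_, ?_⟩
    · rw [hT, mem_product, mem_product, mem_Icc, mem_Icc, mem_Icc]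
      refine ⟨abs_le.1 hz1, abs_le.1 hz2, ?_⟩
      rw [← abs_le]
      have ht0 : (0 : ℝ) ≤ (n : ℝ) / 2 ^ (134 * e) := by positivity
      have ht1 : (n : ℝ) / 2 ^ (134 * e) ≤ 1 := by
        rw [div_le_one (by positivity)]
        exact_mod_cast hn.le
      have hz1' : |(z1 : ℝ)| ≤ X := by exact_mod_cast hz1
      have hz2' : |(z2 : ℝ)| ≤ X := by exact_mod_cast hz2
      have hXr : (1 : ℝ) ≤ X := by exact_mod_cast hX1
      have hJ1 : (1 : ℝ) ≤ 2 ^ (199 * e) := one_le_pow₀ (by norm_num)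
      have hJ2 : (1 : ℝ) ≤ 2 ^ (398 * e) := one_le_pow₀ (by norm_num)
      have hη : 1 / (2 : ℝ) ^ (44 * e) ≤ 1 := by
        rw [div_le_one (by positivity)]
        exact one_le_pow₀ (by norm_num)
      set t : ℝ := (n : ℝ) / 2 ^ (134 * e) with ht
      have hdiv : ∀ (y J : ℝ), 1 ≤ J → |y / J| ≤ |y| := by
        intro y J hJ
        rw [abs_div, abs_of_pos (by linarith : (0 : ℝ) < J)]
        exact div_le_self (abs_nonneg _) hJ
      have b1 : |3 * (a : ℝ) * z1 * t ^ 2| ≤ 3 * a * (X : ℝ) := by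
        rw [abs_mul, abs_mul, abs_of_nonneg (by positivity : (0 : ℝ) ≤ 3 * a),
          abs_of_nonneg (by positivity : (0 : ℝ) ≤ t ^ 2)]
        have : t ^ 2 ≤ 1 := pow_le_one₀ ht0 ht1
        calc 3 * (a : ℝ) * |(z1 : ℝ)| * t ^ 2 ≤ 3 * a * (X : ℝ) * 1 := by gcongr
          _ = 3 * a * (X : ℝ) := by ring
      have b2 : |(2 * b * z1 / 2 ^ (199 * e) : ℝ)| ≤ 2 * b * (X : ℝ) := by
        refine (hdiv _ _ hJ1).trans ?_
        rw [abs_mul, abs_of_nonneg (by positivity : (0 : ℝ) ≤ 2 * b)]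
        gcongr
      have b3 : |(6 * a * z2 : ℝ)| ≤ 6 * a * (X : ℝ) := by
        rw [abs_mul, abs_of_nonneg (by positivity : (0 : ℝ) ≤ 6 * a)]
        gcongr
      have b4 : |(c * z1 / 2 ^ (398 * e) : ℝ)| ≤ c * (X : ℝ) := by
        refine (hdiv _ _ hJ2).trans ?_
        rw [abs_mul, abs_of_nonneg (by positivity : (0 : ℝ) ≤ c)]
        gcongr
      have b5 : |(2 * b * z2 / 2 ^ (199 * e) : ℝ)| ≤ 2 * b * (X : ℝ) := by
        refine (hdiv _ _ hJ1).trans ?_
        rw [abs_mul, abs_of_nonneg (by positivity : (0 : ℝ) ≤ 2 * b)]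
        gcongr
      have b6 : |(2 * b * z1 / 2 ^ (199 * e) + 6 * a * z2 : ℝ) * t| ≤ (2 * b + 6 * a) * (X : ℝ) := by
        rw [abs_mul, abs_of_nonneg ht0]
        calc |(2 * b * z1 / 2 ^ (199 * e) + 6 * a * z2 : ℝ)| * t
            ≤ (2 * b * (X : ℝ) + 6 * a * X) * 1 := by
              gcongr
              exact (abs_add_le _ _).trans (add_le_add b2 b3)
          _ = (2 * b + 6 * a) * (X : ℝ) := by ring
      have hFb : |F z1 z2 n| ≤ (9 * a + 4 * b + c) * (X : ℝ) := by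
        rw [hF]
        simp only
        rw [slope_eq]
        calc _ ≤ |3 * (a : ℝ) * z1 * t ^ 2|
              + |(2 * b * z1 / 2 ^ (199 * e) + 6 * a * z2 : ℝ) * t|
              + (|(c * z1 / 2 ^ (398 * e) : ℝ)| + |(2 * b * z2 / 2 ^ (199 * e) : ℝ)|) := by
              refine (abs_add_le _ _).trans (add_le_add ((abs_add_le _ _)) (abs_add_le _ _))
          _ ≤ _ := by linarith
      have hmr : |(m : ℝ)| ≤ (C0 : ℝ) * (X : ℝ) := by
        have : (m : ℝ) = F z1 z2 n - (F z1 z2 n - m) := by ring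
        rw [this]
        refine (abs_sub _ _).trans ?_
        rw [hC0]
        push_cast
        nlinarith
      change |m| ≤ (C0 : ℤ) * X
      exact_mod_cast hmr
    · rw [hg, mem_filter, mem_range]
      exact ⟨hn, hz, hFm⟩

end Pool.Agent.Lib.MP_8fac0f_nt.C3
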