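import Pool.Agent.Lib.MP_8fac0f_nt.C3.BEval1

/-!
# BEVAL: the window `[2k - lam, 2k + rho)` for one good `ν`, main theorem
-/

set_option autoImplicit false

namespace Pool.Agent.Lib.MP_8fac0f_nt.C3

open Finset Filter Topology
open Pool.Agent.Lib.MP_8fac0f_nt.N (sg CorrZero)

theorem choose_l1 (C l0 x0 : ℕ) (hx0 : x0 < 2 ^ l0) (δ η : ℝ) (hδ : 0 < δ)
    (hδ1 : δ ≤ 1) (hη : 0 < η) :
    ∃ l1 : ℕ, 1 ≤ l1 ∧ (C : ℝ) / (η * 2 ^ (l1 * l0)) * ∑ n ∈ range (C * 2 ^ (l1 * l0)),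
      (1 - δ) ^ (((range l1).filter fun i => n / 2 ^ (i * l0) % 2 ^ l0 = x0).card) ≤ η := by
  have h2 : (1 : ℝ) ≤ 2 ^ l0 := one_le_pow₀ (by norm_num)
  have h2' : (0 : ℝ) < 2 ^ l0 := by positivity
  set θ : ℝ := (2 ^ l0 - δ) / 2 ^ l0 with hθ
  have hθ0 : 0 ≤ θ := div_nonneg (by linarith) h2'.le
  have hθ1 : θ < 1 := by rw [hθ, div_lt_one h2']; linarith
  obtain ⟨n, hn⟩ := exists_pow_lt_of_lt_one (show (0 : ℝ) < η ^ 2 / (C ^ 2 + 1) by positivity) hθ1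
  refine ⟨n + 1, by omega, ?_⟩
  rw [digsum l0 x0 (n + 1) C hx0 δ]
  have e1 : (C : ℝ) / (η * 2 ^ ((n + 1) * l0)) * (C * (2 ^ l0 - δ) ^ (n + 1)) =
      C ^ 2 / η * θ ^ (n + 1) := by
    rw [hθ, div_pow, mul_comm (n + 1) l0, pow_mul]
    field_simp
  rw [e1]
  have h3 : θ ^ (n + 1) ≤ η ^ 2 / (C ^ 2 + 1) := by
    refine le_trans ?_ hn.le
    exact pow_le_pow_of_le_one hθ0 hθ1.le (Nat.le_succ n)
  calc (C : ℝ) ^ 2 / η * θ ^ (n + 1) ≤ C ^ 2 / η * (η ^ 2 / (C ^ 2 + 1)) :=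
        mul_le_mul_of_nonneg_left h3 (by positivity)
    _ = η * (C ^ 2 / (C ^ 2 + 1)) := by field_simp
    _ ≤ η * 1 := by
        apply mul_le_mul_of_nonneg_left _ hη.le
        rw [div_le_one (by positivity)]; linarith
    _ = η := mul_one _

theorem beval_alg (P0 m jP1 j2P2 u P1v w1 r Y D z Kk Wp KK Xh : ℝ) (hK : Kk ≠ 0) (hW : Wp ≠ 0)
    (hKK : KK = Wp * Kk) :
    (P0 + m * jP1 + m ^ 2 * j2P2 + u * P1v + w1 * (r * Y * Kk) + D + z * KK) / Kk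
      - (Wp * (P0 / KK + m * (jP1 / KK)) + (m ^ 2 * j2P2 / Kk + u * Xh + w1 * r * Y)) - Wp * z
      = u * (P1v / Kk - Xh) + D / Kk := by
  subst hKK
  field_simp
  ring

theorem P1_mono (a b c : ℕ) : Monotone (P1 a b c) := by
  intro x y h
  unfold P1
  gcongr

/-- The angles. -/
noncomputable def Th (a b c d ρ e ν M : ℕ) (h : Fin M → ℕ) (v : ℕ) (i : Option (Fin M)) : ℝ :=
  i.elim ((P a b c d (ν + 2 ^ (199 * e) * v) : ℝ) / 2 ^ (400 * e + ρ))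
    fun k => h k * (2 ^ (199 * e) * P1 a b c (ν + 2 ^ (199 * e) * v) / 2 ^ (400 * e + ρ))

theorem Th_sum (a b c d ρ e ν M : ℕ) (h : Fin M → ℕ) (v : ℕ) (ξ : Option (Fin M) → ℤ) :
    ∑ i, (ξ i : ℝ) * Th a b c d ρ e ν M h v i =
      (ξ none : ℝ) * (P a b c d (ν + 2 ^ (199 * e) * v) / 2 ^ (400 * e + ρ))
        + ((∑ k, ξ (some k) * (h k : ℤ) : ℤ) : ℝ)
          * (2 ^ (199 * e) * P1 a b c (ν + 2 ^ (199 * e) * v) / 2 ^ (400 * e + ρ)) := by
  rw [Fintype.sum_option]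
  congr 1
  push_cast
  rw [sum_mul]
  refine sum_congr rfl fun k _ => ?_
  simp only [Th, Option.elim]
  ring

theorem Th_CC (a b c d ρ e ν M : ℕ) (h : Fin M → ℕ) (v : ℕ) {S : Type}
    (t : Finset (Fin M) × S) :
    ∑ i, (CC t i : ℝ) * Th a b c d ρ e ν M h v i =
      P a b c d (ν + 2 ^ (199 * e) * v) / 2 ^ (400 * e + ρ)
        + ((∑ k ∈ t.1, h k : ℕ) : ℝ)
          * (2 ^ (199 * e) * P1 a b c (ν + 2 ^ (199 * e) * v) / 2 ^ (400 * e + ρ)) := by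
  rw [Fintype.sum_option]
  congr 1
  · simp [CC, Th]
  · push_cast
    rw [sum_mul]
    have : ∀ k, (CC t (some k) : ℝ) * Th a b c d ρ e ν M h v (some k) =
        if k ∈ t.1 then (h k : ℝ)
          * (2 ^ (199 * e) * P1 a b c (ν + 2 ^ (199 * e) * v) / 2 ^ (400 * e + ρ)) else 0 := by
      intro k
      simp only [CC_some, Th, Option.elim]
      split_ifs <;> simp
    rw [sum_congr rfl fun k _ => this k, ← sum_filter]
    congr 1
    ext k; simp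

theorem fl_pow (m k : ℕ) : ⌊(m : ℝ) / 2 ^ k⌋₊ = m / 2 ^ k := by
  have := Nat.floor_div_eq_div (K := ℝ) m (2 ^ k)
  push_cast at this
  exact this

/-- The points of the correlation. -/
noncomputable def Xt (a b c d ρ lam e ν q r M : ℕ) (h : Fin M → ℕ) {U : Finset ℕ}
    (t : Finset (Fin M) × ↥(U ×ˢ range 2)) (v : ℕ) : ℝ :=
  ((P a b c d (ν + 2 ^ (199 * e) * (v + ∑ i ∈ t.1, h i) + t.2.1.1
    + t.2.1.2 * (2 ^ (2 * e + ρ) * q * r)) : ℕ) : ℝ) / 2 ^ (400 * e - lam)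

theorem Xt_floor (a b c d ρ lam e ν q r M : ℕ) (h : Fin M → ℕ) {U : Finset ℕ}
    (t : Finset (Fin M) × ↥(U ×ˢ range 2)) (v : ℕ) :
    ⌊Xt a b c d ρ lam e ν q r M h t v⌋₊ = P a b c d (ν + 2 ^ (199 * e) * (v + ∑ i ∈ t.1, h i)
      + t.2.1.1 + t.2.1.2 * (2 ^ (2 * e + ρ) * q * r)) / 2 ^ (400 * e - lam) := by
  exact fl_pow _ _

theorem Xt_prod (a b c d ρ lam e ν q r M W : ℕ) (h : Fin M → ℕ) (U : Finset ℕ) (v : ℕ) :
    ∏ w : Finset (Fin M), ∏ u ∈ U, ∏ w1 ∈ range 2,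
      sg (P a b c d (ν + 2 ^ (199 * e) * (v + ∑ i ∈ w, h i) + u
        + w1 * (2 ^ (2 * e + ρ) * q * r)) / 2 ^ (400 * e - lam) % 2 ^ W) =
    ∏ t : Finset (Fin M) × ↥(U ×ˢ range 2),
      sg (⌊Xt a b c d ρ lam e ν q r M h t v⌋₊ % 2 ^ W) := by
  classical
  rw [Fintype.prod_prod_type]
  refine prod_congr rfl fun w _ => ?_
  rw [← prod_product' U (range 2) (fun u w1 => sg (P a b c d (ν + 2 ^ (199 * e) *
    (v + ∑ i ∈ w, h i) + u + w1 * (2 ^ (2 * e + ρ) * q * r)) / 2 ^ (400 * e - lam) % 2 ^ W)),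
    ← prod_coe_sort (U ×ˢ range 2)]
  refine prod_congr rfl fun s _ => ?_
  rw [Xt_floor]

/-- The expansion in real form. -/
theorem Xt_approx (a b c d κ R ρ lam w' : ℕ) (U : Finset ℕ) : ∀ᶠ e : ℕ in atTop,
    ∀ ν < 2 ^ (199 * e), ∀ (M : ℕ) (q r Y : ℕ) (h : Fin M → ℕ) (v v0 : ℕ), v ≤ κ * 2 ^ e →
    r < R → q ≤ 2 ^ (60 * e) →
    di (q * P1 a b c ν / 2 ^ (398 * e) - Y / 2 ^ (lam + ρ)) ≤ 1 / 2 ^ (3 * e) →
    di (q * (2 * P2 a b ν) / 2 ^ (199 * e)) ≤ 1 / 2 ^ (3 * e) →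
    ∑ i, h i ≤ 2 ^ (e / 2) → v0 ≤ v →
    (P1 a b c (ν + 2 ^ (199 * e) * v) : ℝ) / 2 ^ (400 * e - lam)
        - P1 a b c (ν + 2 ^ (199 * e) * v0) / 2 ^ (400 * e - lam)
          ≤ 1 / 2 ^ (w' + 1 + U.sup id) →
    ∀ t : Finset (Fin M) × ↥(U ×ˢ range 2), ∃ z : ℤ,
      |Xt a b c d ρ lam e ν q r M h t v
        - (2 ^ (lam + ρ) * (∑ i, (CC t i : ℝ) * Th a b c d ρ e ν M h v i)
          + (((∑ k ∈ t.1, h k : ℕ) : ℝ) ^ 2 * (2 ^ (398 * e) * P2 a b ν) / 2 ^ (400 * e - lam)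
            + t.2.1.1 * ((P1 a b c (ν + 2 ^ (199 * e) * v0) : ℝ) / 2 ^ (400 * e - lam))
            + t.2.1.2 * r * Y)) - 2 ^ (lam + ρ) * z| ≤ 1 / 2 ^ w' := by
  filter_upwards [expand a b c d (U.sup id) κ R ρ lam,
    eventually_ge_atTop (4 * (lam + w' + 1) + 4)] with e hexp he
  intro ν hν M q r Y h v v0 hv hr hq hd1 hd2 hh hv0 hX t
  have hu : t.2.1.1 ≤ U.sup id := Finset.le_sup (f := id) (mem_product.mp t.2.2).1
  have hw1 : t.2.1.2 ≤ 1 := by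
    have := mem_range.mp (mem_product.mp t.2.2).2
    omega
  have hm : ∑ k ∈ t.1, h k ≤ 2 ^ (e / 2) :=
    le_trans (sum_le_univ_sum_of_nonneg fun _ => Nat.zero_le _) hh
  obtain ⟨D, z, hZ, hD⟩ := hexp ν v (∑ k ∈ t.1, h k) t.2.1.1 q r Y hν hv hm hu hr hq hd1 hd2
    t.2.1.2 hw1
  refine ⟨z, ?_⟩
  have hlam : lam ≤ 400 * e := by omega
  have hKK : (2 : ℝ) ^ (400 * e + ρ) = 2 ^ (lam + ρ) * 2 ^ (400 * e - lam) := by
    rw [← pow_add]; congr 1; omega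
  have hZ' := congrArg (fun z : ℤ => (z : ℝ)) hZ
  rw [Int.cast_natCast] at hZ'
  have hKpos : (0 : ℝ) < 2 ^ (400 * e - lam) := by positivity
  have hx : Xt a b c d ρ lam e ν q r M h t v
        - (2 ^ (lam + ρ) * (∑ i, (CC t i : ℝ) * Th a b c d ρ e ν M h v i)
          + (((∑ k ∈ t.1, h k : ℕ) : ℝ) ^ 2 * (2 ^ (398 * e) * P2 a b ν) / 2 ^ (400 * e - lam)
            + t.2.1.1 * ((P1 a b c (ν + 2 ^ (199 * e) * v0) : ℝ) / 2 ^ (400 * e - lam))
            + t.2.1.2 * r * Y)) - 2 ^ (lam + ρ) * z =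
      t.2.1.1 * ((P1 a b c (ν + 2 ^ (199 * e) * v) : ℝ) / 2 ^ (400 * e - lam)
        - P1 a b c (ν + 2 ^ (199 * e) * v0) / 2 ^ (400 * e - lam))
        + D / 2 ^ (400 * e - lam) := by
    rw [Th_CC]
    unfold Xt
    rw [hZ']
    push_cast
    exact beval_alg _ _ _ _ _ _ _ _ _ _ _ _ _ _ _ hKpos.ne' (by positivity) hKK
  rw [hx]
  have hX0 : 0 ≤ (P1 a b c (ν + 2 ^ (199 * e) * v) : ℝ) / 2 ^ (400 * e - lam)
        - P1 a b c (ν + 2 ^ (199 * e) * v0) / 2 ^ (400 * e - lam) := by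
    rw [← sub_div]
    apply div_nonneg _ hKpos.le
    rw [sub_nonneg]
    exact_mod_cast P1_mono a b c (by gcongr)
  have t1 : |(t.2.1.1 : ℝ) * ((P1 a b c (ν + 2 ^ (199 * e) * v) : ℝ) / 2 ^ (400 * e - lam)
        - P1 a b c (ν + 2 ^ (199 * e) * v0) / 2 ^ (400 * e - lam))| ≤ 1 / 2 ^ (w' + 1) := by
    rw [abs_of_nonneg (mul_nonneg (Nat.cast_nonneg _) hX0)]
    have hsup : (t.2.1.1 : ℝ) ≤ 2 ^ (U.sup id) := by
      have : t.2.1.1 ≤ 2 ^ (U.sup id) := hu.trans (Nat.lt_two_pow_self).le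
      exact_mod_cast this
    calc (t.2.1.1 : ℝ) * ((P1 a b c (ν + 2 ^ (199 * e) * v) : ℝ) / 2 ^ (400 * e - lam)
        - P1 a b c (ν + 2 ^ (199 * e) * v0) / 2 ^ (400 * e - lam))
        ≤ 2 ^ (U.sup id) * (1 / 2 ^ (w' + 1 + U.sup id)) :=
          mul_le_mul hsup hX hX0 (by positivity)
      _ = 1 / 2 ^ (w' + 1) := by rw [pow_add]; field_simp
  have t2 : |(D : ℝ) / 2 ^ (400 * e - lam)| ≤ 1 / 2 ^ (w' + 1) := by
    rw [abs_div, abs_of_pos hKpos, div_le_div_iff₀ hKpos (by positivity), one_mul]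
    have hD' : |(D : ℝ)| ≤ 2 ^ (400 * e - e / 4) := by exact_mod_cast hD
    calc |(D : ℝ)| * 2 ^ (w' + 1) ≤ 2 ^ (400 * e - e / 4) * 2 ^ (w' + 1) :=
          mul_le_mul_of_nonneg_right hD' (by positivity)
      _ = 2 ^ (400 * e - e / 4 + (w' + 1)) := by rw [← pow_add]
      _ ≤ 2 ^ (400 * e - lam) := pow_le_pow_right₀ (by norm_num) (by omega)
  refine (abs_add_le _ _).trans ((add_le_add t1 t2).trans_eq ?_)
  rw [pow_succ]; field_simp; norm_num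

theorem beval (a b c d : ℕ) (ha : 1 ≤ a) (U : Finset ℕ) (hU : U.Nonempty) (M R κ : ℕ) (ε : ℝ)
    (hε : 0 < ε) : ∃ l0 y0 : ℕ, 1 ≤ l0 ∧ y0 < 2 ^ l0 ∧ ∀ r0 : ℕ, 1 ≤ r0 →
      ∃ l1 Ξ : ℕ, 1 ≤ l1 ∧ ∀ᶠ e : ℕ in atTop, ∀ ν < 2 ^ (199 * e),
        Good a b (r0 * l0) κ Ξ e ν → ∀ (V q r : ℕ) (h : Fin M → ℕ), 2 ^ e ≤ V →
        V ≤ κ * 2 ^ e → 1 ≤ r → r < R → q ≤ 2 ^ (60 * e) →
        di (q * P1 a b c ν / 2 ^ (398 * e) - rep y0 l0 (l1 + r0) / 2 ^ ((l1 + r0) * l0))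
          ≤ 1 / 2 ^ (3 * e) →
        di (q * (2 * P2 a b ν) / 2 ^ (199 * e)) ≤ 1 / 2 ^ (3 * e) →
        ∑ i, h i ≤ 2 ^ (e / 2) →
        (∀ ξ : Fin M → ℤ, ξ ≠ 0 → (∀ i, |ξ i| ≤ Ξ) → ∑ i, ξ i * (h i : ℤ) ≠ 0) →
        |∑ v ∈ range V, ∏ w : Finset (Fin M), ∏ u ∈ U, ∏ w1 ∈ range 2,
          sg (P a b c d (ν + 2 ^ (199 * e) * (v + ∑ i ∈ w, h i) + u
            + w1 * (2 ^ (2 * e + r0 * l0) * q * r)) / 2 ^ (400 * e - l1 * l0)
            % 2 ^ ((l1 + r0) * l0))| ≤ ε * V := by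
  classical
  obtain ⟨C, hC⟩ := cells a b c κ ha
  obtain ⟨l0, x0, y0, δ, hl0, hx0, hy0, hδ, hδ1, hcontr⟩ := contr_use M R U hU
  refine ⟨l0, y0, hl0, hy0, fun r0 hr0 => ?_⟩
  set η : ℝ := min (ε / 8) 1 with hη
  have hη0 : 0 < η := lt_min (by linarith) one_pos
  have hη1 : η ≤ 1 := min_le_right _ _
  have hηε : η ≤ ε / 8 := min_le_left _ _
  obtain ⟨l1, hl1, hsum⟩ := choose_l1 C l0 x0 hx0 δ η hδ hδ1 hη0
  obtain ⟨w', Ξ, ε0, hε0, heval⟩ := evalb (Pt := Finset (Fin M) × ↥(U ×ˢ range 2)) CC none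
    CC_none ((l1 + r0) * l0) (ε / 4) (by linarith)
  refine ⟨l1, Ξ, hl1, ?_⟩
  obtain ⟨H0, hH0⟩ := hC (l1 * l0) η hη0 hη1
  obtain ⟨H1, hH1⟩ := xvar a b c κ (l1 * l0) (w' + 1 + U.sup id)
  set H := max H0 H1 + 1 with hHdef
  have hHpos : 1 ≤ H := by omega
  have hHR : (0 : ℝ) < H := by exact_mod_cast hHpos
  filter_upwards [hH0 H (by omega), hH1 H (by omega),
    weyl_good a b c d (r0 * l0) κ Ξ (ε0 / (2 * H)) (by positivity),
    Xt_approx a b c d κ R (r0 * l0) (l1 * l0) w' U,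
    eventually_ge_atTop (2 * H)] with e h1 h2 h3 h4 h5
  intro ν hν hgood V q r h hV1 hV2 hr1 hrR hq hd1 hd2 hh hhξ
  have hVH : 2 * H ≤ V := by
    have : e < 2 ^ e := Nat.lt_two_pow_self
    omega
  have hVpos : (0 : ℝ) < V := by
    have : 0 < V := by omega
    exact_mod_cast this
  set wt : ℕ → ℝ := fun n =>
    (1 - δ) ^ (((range l1).filter fun i => n / 2 ^ (i * l0) % 2 ^ l0 = x0).card) with hwt
  have hwt01 : ∀ n, 0 ≤ wt n ∧ wt n ≤ 1 := fun n =>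
    ⟨pow_nonneg (by linarith) _, pow_le_one₀ (by linarith) (by linarith)⟩
  -- one piece
  have piece : ∀ n < H, |∑ v ∈ Ico (n * V / H) ((n + 1) * V / H),
      ∏ w : Finset (Fin M), ∏ u ∈ U, ∏ w1 ∈ range 2,
          sg (P a b c d (ν + 2 ^ (199 * e) * (v + ∑ i ∈ w, h i) + u
            + w1 * (2 ^ (2 * e + r0 * l0) * q * r)) / 2 ^ (400 * e - l1 * l0)
            % 2 ^ ((l1 + r0) * l0))| ≤
      (wt (P1 a b c (ν + 2 ^ (199 * e) * (n * V / H)) / 2 ^ (400 * e - l1 * l0)) + ε / 4) *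
        (V / H + 1) := by
    intro n hn
    set I := Ico (n * V / H) ((n + 1) * V / H) with hI
    obtain ⟨hI1, hI2⟩ := piece_card V H n hHpos
    rw [← hI] at hI1 hI2
    have hle : n * V / H ≤ (n + 1) * V / H :=
      Nat.div_le_div_right (Nat.mul_le_mul_right _ (Nat.le_succ n))
    have hleV : (n + 1) * V / H ≤ V := piece_le V H n hHpos hn
    have hVHR : (1 : ℝ) ≤ V / (2 * H) := by
      rw [le_div_iff₀ (by positivity), one_mul]
      exact_mod_cast hVH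
    have hIcard : (V : ℝ) / (2 * H) ≤ I.card := by
      have : (V : ℝ) / H = V / (2 * H) + V / (2 * H) := by field_simp; norm_num
      linarith
    have hIne : I.Nonempty := by
      rw [← card_pos]
      have : (0 : ℝ) < I.card := by linarith
      exact_mod_cast this
    rw [sum_congr rfl fun v _ => Xt_prod a b c d (r0 * l0) (l1 * l0) e ν q r M ((l1 + r0) * l0)
      h U v]
    set Xh : ℝ := (P1 a b c (ν + 2 ^ (199 * e) * (n * V / H)) : ℝ) / 2 ^ (400 * e - l1 * l0)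
      with hXh
    have hXh0 : 0 ≤ Xh := by positivity
    have hfl : ⌊Xh⌋₊ = P1 a b c (ν + 2 ^ (199 * e) * (n * V / H)) / 2 ^ (400 * e - l1 * l0) := by
      exact fl_pow _ _
    set κr : Finset (Fin M) → ℝ := fun g =>
      ((∑ k ∈ g, h k : ℕ) : ℝ) ^ 2 * (2 ^ (398 * e) * P2 a b ν) / 2 ^ (400 * e - l1 * l0)
      with hκr
    have hκr0 : ∀ g, 0 ≤ κr g := fun g => by positivity
    have hev := heval I (Th a b c d (r0 * l0) e ν M h)
      (fun t => κr t.1 + t.2.1.1 * Xh + t.2.1.2 * r * rep y0 l0 (l1 + r0))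
      (fun t v => Xt a b c d (r0 * l0) (l1 * l0) e ν q r M h t v) (wt ⌊Xh⌋₊) hIne
      (fun t => by have := hκr0 t.1; positivity)
      (fun t v => by unfold Xt; positivity)
      (by
        intro ξ hξ hξΞ
        simp only [Th_sum]
        have hcond : ((ξ none ≠ 0 ∧ |ξ none| ≤ Ξ) ∨ (ξ none = 0 ∧
            (∑ k, ξ (some k) * (h k : ℤ)) ≠ 0 ∧
            |∑ k, ξ (some k) * (h k : ℤ)| ≤ Ξ * 2 ^ (e / 2))) := by
          by_cases h0 : ξ none = 0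
          · right
            refine ⟨h0, ?_, ?_⟩
            · apply hhξ (fun k => ξ (some k))
              · intro hcon
                apply hξ
                funext i
                cases i with
                | none => exact h0
                | some k => exact congrFun hcon k
              · intro k; exact hξΞ (some k)
            · calc |∑ k, ξ (some k) * (h k : ℤ)| ≤ ∑ k, |ξ (some k) * (h k : ℤ)| :=
                    abs_sum_le_sum_abs _ _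
                _ ≤ ∑ k, (Ξ : ℤ) * (h k : ℤ) := by
                    apply sum_le_sum
                    intro k _
                    rw [abs_mul, Nat.abs_cast]
                    exact mul_le_mul_of_nonneg_right (hξΞ (some k)) (Int.natCast_nonneg _)
                _ = Ξ * ((∑ k, h k : ℕ) : ℤ) := by rw [← mul_sum]; push_cast; rfl
                _ ≤ Ξ * 2 ^ (e / 2) := by
                    apply mul_le_mul_of_nonneg_left _ (Int.natCast_nonneg _)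
                    exact_mod_cast hh
          · left; exact ⟨h0, hξΞ none⟩
        have hw := h3 ν hν hgood (ξ none) (∑ k, ξ (some k) * (h k : ℤ)) hcond
          (n * V / H) ((n + 1) * V / H) hle (hleV.trans hV2)
        refine hw.trans ?_
        have hV1' : ((2 : ℝ) ^ e) ≤ V := by exact_mod_cast hV1
        calc ε0 / (2 * H) * 2 ^ e ≤ ε0 / (2 * H) * V :=
              mul_le_mul_of_nonneg_left hV1' (by positivity)
          _ = ε0 * (V / (2 * H)) := by ring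
          _ ≤ ε0 * I.card := mul_le_mul_of_nonneg_left hIcard hε0.le)
      (by
        intro t v hv
        rw [hI, mem_Ico] at hv
        have hvV : v ≤ κ * 2 ^ e := by omega
        have hx := h2 ν hν V hV1 hV2 n v hn hv.1 hv.2.le
        have hW : (l1 + r0) * l0 = l1 * l0 + r0 * l0 := by ring
        obtain ⟨z, hz⟩ := h4 ν hν M q r (rep y0 l0 (l1 + r0)) h v (n * V / H) hvV hrR hq
          (by rw [hW] at hd1; exact hd1) hd2 hh hv.1 hx t
        refine ⟨z, ?_⟩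
        rw [hW]
        exact hz)
      (by
        intro cc hcc
        have := hcontr l1 r0 r hr1 hrR κr hκr0 Xh hXh0 cc hcc
        refine this.trans_eq ?_
        rw [Fintype.card_option, Fintype.card_fin])
    refine hev.trans ?_
    rw [hfl]
    apply mul_le_mul_of_nonneg_left hI1
    have := (hwt01 (P1 a b c (ν + 2 ^ (199 * e) * (n * V / H)) / 2 ^ (400 * e - l1 * l0))).1
    linarith
  rw [pieces V H hHpos]
  refine (abs_sum_le_sum_abs _ _).trans ?_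
  have hsumle : ∑ n ∈ range H, |∑ v ∈ Ico (n * V / H) ((n + 1) * V / H),
      ∏ w : Finset (Fin M), ∏ u ∈ U, ∏ w1 ∈ range 2,
          sg (P a b c d (ν + 2 ^ (199 * e) * (v + ∑ i ∈ w, h i) + u
            + w1 * (2 ^ (2 * e + r0 * l0) * q * r)) / 2 ^ (400 * e - l1 * l0)
            % 2 ^ ((l1 + r0) * l0))| ≤
      ∑ n ∈ range H, (wt (P1 a b c (ν + 2 ^ (199 * e) * (n * V / H))
        / 2 ^ (400 * e - l1 * l0)) + ε / 4) * (V / H + 1) :=
    sum_le_sum fun n hn => piece n (mem_range.mp hn)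
  refine hsumle.trans ?_
  rw [← sum_mul, sum_add_distrib, sum_const, card_range, nsmul_eq_mul]
  have hcell := h1 ν hν V hV1 hV2 wt hwt01
  have hcell2 : ∑ n ∈ range H, wt (P1 a b c (ν + 2 ^ (199 * e) * (n * V / H))
      / 2 ^ (400 * e - l1 * l0)) ≤ H * (η + η) :=
    hcell.trans (mul_le_mul_of_nonneg_left (by linarith [hsum]) hHR.le)
  have hVH' : (H : ℝ) ≤ V := by
    have : H ≤ V := by omega
    exact_mod_cast this
  have hfac : (0 : ℝ) ≤ V / H + 1 := by positivity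
  calc (∑ n ∈ range H, wt (P1 a b c (ν + 2 ^ (199 * e) * (n * V / H))
      / 2 ^ (400 * e - l1 * l0)) + H * (ε / 4)) * (V / H + 1)
      ≤ (H * (η + η) + H * (ε / 4)) * (V / H + 1) := by
        apply mul_le_mul_of_nonneg_right _ hfac
        linarith
    _ = (η + η + ε / 4) * (V + H) := by field_simp
    _ ≤ (ε / 8 + ε / 8 + ε / 4) * (V + V) := by
        apply mul_le_mul _ _ (by positivity) (by positivity)
        · linarith
        · linarith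
    _ = ε * V := by ring

end Pool.Agent.Lib.MP_8fac0f_nt.C3
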