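import Pool.Agent.Lib.MP_8fac0f_nt.C3.Defs

/-!
# The derivative along the cells (module CELLS)
-/

set_option autoImplicit false

namespace Pool.Agent.Lib.MP_8fac0f_nt.C3

open Finset Filter Topology

/-- A finite set of naturals of diameter at most `L` has at most `L + 1` elements. -/
theorem card_le_of_diam_nat (S : Finset ℕ) (L : ℝ) (hL : 0 ≤ L)
    (h : ∀ x ∈ S, ∀ y ∈ S, x ≤ y → ((y : ℝ) - x) ≤ L) : (S.card : ℝ) ≤ L + 1 := by
  rcases S.eq_empty_or_nonempty with rfl | hS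
  · simp; linarith
  · have h1 : S ⊆ Finset.Icc (S.min' hS) (S.max' hS) := fun x hx =>
      Finset.mem_Icc.2 ⟨S.min'_le x hx, S.le_max' x hx⟩
    have h2 := Finset.card_le_card h1
    rw [Nat.card_Icc] at h2
    have h4 : S.min' hS ≤ S.max' hS := S.min'_le _ (S.max'_mem hS)
    have h3 := h _ (S.min'_mem hS) _ (S.max'_mem hS) h4
    have h5 : ((S.max' hS + 1 - S.min' hS : ℕ) : ℝ) = (S.max' hS : ℝ) + 1 - S.min' hS := by
      rw [Nat.cast_sub (by omega)]; push_cast; ring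
    have h6 : (S.card : ℝ) ≤ ((S.max' hS + 1 - S.min' hS : ℕ) : ℝ) := by exact_mod_cast h2
    rw [h5] at h6
    linarith

/-- Differences of `P1`. -/
theorem P1_diff (a b c n m : ℕ) : (P1 a b c m : ℝ) - P1 a b c n
    = (m - n) * (3 * a * (m + n) + 2 * b) := by
  unfold P1; push_cast; ring

/-- Floor of `h V / H`. -/
theorem div_bounds (h V H : ℕ) (hH : 0 < H) :
    ((h * V / H : ℕ) : ℝ) ≤ h * V / H ∧ (h * V / H : ℝ) < ((h * V / H : ℕ) : ℝ) + 1 := by
  have hH' : (0 : ℝ) < H := by exact_mod_cast hH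
  constructor
  · rw [le_div_iff₀ hH']
    have := Nat.div_mul_le_self (h * V) H
    exact_mod_cast this
  · rw [div_lt_iff₀ hH']
    have := Nat.lt_div_mul_add (a := h * V) (b := H) hH
    have h2 : h * V < (h * V / H + 1) * H := by linarith [this, Nat.succ_mul (h * V / H) H]
    exact_mod_cast h2

/-- Upper bound for `P1` on the range. -/
theorem P1_le (a b c κ e ν v : ℕ) (hν : ν < 2 ^ (199 * e)) (hv : v ≤ κ * 2 ^ e) :
    P1 a b c (ν + 2 ^ (199 * e) * v) ≤ ((3 * a + 2 * b + c) * (κ + 1) ^ 2) * 2 ^ (400 * e) := by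
  set m : ℕ := (κ + 1) * 2 ^ (200 * e) with hm
  have hm1 : 1 ≤ m := by
    rw [hm]; exact Nat.mul_pos (by omega) (by positivity)
  have hn : ν + 2 ^ (199 * e) * v ≤ m := by
    have e1 : 2 ^ (200 * e) = 2 ^ (199 * e) * 2 ^ e := by rw [← pow_add]; congr 1; ring
    have e2 : 2 ^ (199 * e) * v ≤ 2 ^ (199 * e) * (κ * 2 ^ e) := Nat.mul_le_mul_left _ hv
    have e3 : (1 : ℕ) ≤ 2 ^ e := Nat.one_le_two_pow
    have e4 : 2 ^ (199 * e) * 1 ≤ 2 ^ (199 * e) * 2 ^ e := Nat.mul_le_mul_left _ e3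
    rw [hm, e1]
    nlinarith
  have h1 : P1 a b c (ν + 2 ^ (199 * e) * v) ≤ (3 * a + 2 * b + c) * m ^ 2 := by
    unfold P1
    have q1 : (ν + 2 ^ (199 * e) * v) ^ 2 ≤ m ^ 2 := Nat.pow_le_pow_left hn 2
    have q2 : ν + 2 ^ (199 * e) * v ≤ m ^ 2 := hn.trans (by nlinarith)
    have q3 : 1 ≤ m ^ 2 := Nat.one_le_pow _ _ hm1
    have r1 := Nat.mul_le_mul_left (3 * a) q1
    have r2 := Nat.mul_le_mul_left (2 * b) q2
    have r3 := Nat.mul_le_mul_left c q3
    linarith
  have h2 : m ^ 2 = (κ + 1) ^ 2 * 2 ^ (400 * e) := by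
    rw [hm, mul_pow, ← pow_mul]; congr 2; ring
  rw [h2] at h1
  linarith

theorem cells (a b c κ : ℕ) (ha : 1 ≤ a) : ∃ C : ℕ, ∀ (lam : ℕ) (η : ℝ), 0 < η → η ≤ 1 →
    ∃ H0 : ℕ, ∀ H : ℕ, H0 ≤ H → ∀ᶠ e : ℕ in atTop, ∀ ν < 2 ^ (199 * e), ∀ V : ℕ, 2 ^ e ≤ V →
      V ≤ κ * 2 ^ e → ∀ w : ℕ → ℝ, (∀ n, 0 ≤ w n ∧ w n ≤ 1) →
      ∑ h ∈ range H, w (P1 a b c (ν + 2 ^ (199 * e) * (h * V / H)) / 2 ^ (400 * e - lam))
        ≤ H * (η + C / (η * 2 ^ lam) * ∑ n ∈ range (C * 2 ^ lam), w n) := by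
  classical
  refine ⟨(3 * a + 2 * b + c) * (κ + 1) ^ 2 + 4, fun lam η hη hη1 => ?_⟩
  set C : ℕ := (3 * a + 2 * b + c) * (κ + 1) ^ 2 + 4 with hC
  refine ⟨max (2 ^ lam) (⌈2 / η⌉₊ + 1), fun H hH => ?_⟩
  have hH1 : 2 ^ lam ≤ H := le_trans (le_max_left _ _) hH
  have hH2 : ⌈2 / η⌉₊ + 1 ≤ H := le_trans (le_max_right _ _) hH
  have hHpos : 0 < H := by omega
  have hHr : (0 : ℝ) < H := by exact_mod_cast hHpos
  have hH2r : 2 / η ≤ H := by
    have : 2 / η ≤ (⌈2 / η⌉₊ : ℝ) := Nat.le_ceil _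
    have h2 : ((⌈2 / η⌉₊ + 1 : ℕ) : ℝ) ≤ H := by exact_mod_cast hH2
    push_cast at h2
    linarith
  have hHη : 2 ≤ η * H := by
    rw [div_le_iff₀ hη] at hH2r; linarith
  have hH1r : (2 : ℝ) ^ lam ≤ H := by exact_mod_cast hH1
  -- `e` large : `H ≤ 2 ^ e`, `4 / η ≤ 2 ^ e`, `lam ≤ e`
  have htend : Tendsto (fun e : ℕ => (2 : ℝ) ^ e) atTop atTop :=
    tendsto_pow_atTop_atTop_of_one_lt (by norm_num)
  filter_upwards [htend.eventually (eventually_ge_atTop (H : ℝ)),
    htend.eventually (eventually_ge_atTop (4 / η)), eventually_ge_atTop lam] with e he1 he2 he3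
  intro ν hν V hV1 hV2 w hw
  have hV1r : (2 : ℝ) ^ e ≤ V := by exact_mod_cast hV1
  have h2e : (0 : ℝ) < 2 ^ e := by positivity
  have hVpos : (0 : ℝ) < V := lt_of_lt_of_le h2e hV1r
  set X : ℕ → ℕ := fun h =>
    P1 a b c (ν + 2 ^ (199 * e) * (h * V / H)) / 2 ^ (400 * e - lam) with hX
  have hsplit : ∑ h ∈ range H, w (X h)
      = ∑ h ∈ (range H).filter (fun h : ℕ => (h : ℝ) < η / 2 * H), w (X h)
        + ∑ h ∈ (range H).filter (fun h : ℕ => ¬ (h : ℝ) < η / 2 * H), w (X h) :=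
    (Finset.sum_filter_add_sum_filter_not _ _ _).symm
  -- first part
  have hpart1 : ∑ h ∈ (range H).filter (fun h : ℕ => (h : ℝ) < η / 2 * H), w (X h)
      ≤ H * η := by
    have h1 : ∑ h ∈ (range H).filter (fun h : ℕ => (h : ℝ) < η / 2 * H), w (X h)
        ≤ ∑ h ∈ (range H).filter (fun h : ℕ => (h : ℝ) < η / 2 * H), (1 : ℝ) :=
      Finset.sum_le_sum fun h _ => (hw _).2
    refine h1.trans ?_
    rw [Finset.sum_const, nsmul_eq_mul, mul_one]
    have h2 := card_le_of_diam_nat ((range H).filter (fun h : ℕ => (h : ℝ) < η / 2 * H))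
      (η / 2 * H) (by positivity) (fun x _ y hy _ => by
        have := (Finset.mem_filter.1 hy).2
        have hx0 : (0 : ℝ) ≤ x := by positivity
        linarith)
    linarith
  -- second part
  have hXlt : ∀ h < H, X h < C * 2 ^ lam := by
    intro h hh
    have hv : h * V / H ≤ κ * 2 ^ e := by
      apply Nat.div_le_of_le_mul
      calc h * V ≤ H * V := Nat.mul_le_mul_right _ hh.le
        _ ≤ H * (κ * 2 ^ e) := Nat.mul_le_mul_left _ hV2
    have h1 := P1_le a b c κ e ν (h * V / H) hν hv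
    have e1 : 2 ^ (400 * e) = 2 ^ lam * 2 ^ (400 * e - lam) := by
      rw [← pow_add]; congr 1; omega
    rw [hX]
    simp only
    rw [Nat.div_lt_iff_lt_mul (by positivity)]
    have e2 : C * 2 ^ lam * 2 ^ (400 * e - lam) = C * 2 ^ (400 * e) := by
      rw [e1]; ring
    rw [e2]
    refine lt_of_le_of_lt h1 ?_
    apply Nat.mul_lt_mul_of_pos_right _ (by positivity)
    omega
  have hfib : ∀ n : ℕ, ((((range H).filter (fun h : ℕ => ¬ (h : ℝ) < η / 2 * H)).filter
      fun h => X h = n).card : ℝ) ≤ H * (C / (η * 2 ^ lam)) := by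
    intro n
    have key := card_le_of_diam_nat
      (((range H).filter (fun h : ℕ => ¬ (h : ℝ) < η / 2 * H)).filter fun h => X h = n)
      (1 + H / (3 * a * (η / 2) * 2 ^ lam)) (by positivity) ?_
    · refine key.trans ?_
      have e1 : H * ((C : ℝ) / (η * 2 ^ lam)) = C * H / (η * 2 ^ lam) := by ring
      rw [e1, le_div_iff₀ (by positivity)]
      have ha' : (1 : ℝ) ≤ a := by exact_mod_cast ha
      have e2 : (H : ℝ) / (3 * a * (η / 2) * 2 ^ lam) ≤ H / (η * 2 ^ lam) := by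
        apply div_le_div_of_nonneg_left hHr.le (by positivity)
        apply mul_le_mul_of_nonneg_right _ (by positivity)
        nlinarith
      have e3 : (H : ℝ) / (η * 2 ^ lam) * (η * 2 ^ lam) = H := by
        field_simp
      have e4 : η * 2 ^ lam ≤ H := by
        have : η * 2 ^ lam ≤ 1 * 2 ^ lam := mul_le_mul_of_nonneg_right hη1 (by positivity)
        linarith
      have e5 : (4 : ℝ) * H ≤ C * H := by
        apply mul_le_mul_of_nonneg_right _ hHr.le
        rw [hC]; push_cast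
        have : (0 : ℝ) ≤ (3 * a + 2 * b + c) * (κ + 1) ^ 2 := by positivity
        linarith
      have e6 : (0 : ℝ) ≤ η * 2 ^ lam := by positivity
      nlinarith [mul_le_mul_of_nonneg_right e2 e6]
    · intro x hx y hy hxy
      obtain ⟨hx1, hx2⟩ := Finset.mem_filter.1 hx
      obtain ⟨hy1, hy2⟩ := Finset.mem_filter.1 hy
      obtain ⟨hx3, hx4⟩ := Finset.mem_filter.1 hx1
      rw [not_lt] at hx4
      set vx : ℕ := x * V / H with hvx
      set vy : ℕ := y * V / H with hvy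
      obtain ⟨bx1, bx2⟩ := div_bounds x V H hHpos
      obtain ⟨by1, by2⟩ := div_bounds y V H hHpos
      rw [← hvx] at bx1 bx2
      rw [← hvy] at by1 by2
      by_contra hcon
      rw [not_le] at hcon
      -- the difference of the values of `P1`
      have hlt : (P1 a b c (ν + 2 ^ (199 * e) * vy) : ℝ) - P1 a b c (ν + 2 ^ (199 * e) * vx)
          < 2 ^ (400 * e - lam) := by
        have q1 : P1 a b c (ν + 2 ^ (199 * e) * vy) / 2 ^ (400 * e - lam)
            = P1 a b c (ν + 2 ^ (199 * e) * vx) / 2 ^ (400 * e - lam) := by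
          have := hy2.trans hx2.symm
          simpa [hX] using this
        have q2 := Nat.lt_div_mul_add (a := P1 a b c (ν + 2 ^ (199 * e) * vy))
          (b := 2 ^ (400 * e - lam)) (by positivity)
        have q3 := Nat.div_mul_le_self (P1 a b c (ν + 2 ^ (199 * e) * vx)) (2 ^ (400 * e - lam))
        rw [q1] at q2
        have q4 : P1 a b c (ν + 2 ^ (199 * e) * vy)
            < P1 a b c (ν + 2 ^ (199 * e) * vx) + 2 ^ (400 * e - lam) := by linarith
        have q5 : (P1 a b c (ν + 2 ^ (199 * e) * vy) : ℝ)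
            < P1 a b c (ν + 2 ^ (199 * e) * vx) + 2 ^ (400 * e - lam) := by exact_mod_cast q4
        linarith
      rw [P1_diff] at hlt
      push_cast at hlt
      have ha' : (1 : ℝ) ≤ a := by exact_mod_cast ha
      -- lower bounds
      have r1 : (η / 2) * V ≤ x * V / H := by
        rw [le_div_iff₀ hHr]
        have := mul_le_mul_of_nonneg_right hx4 hVpos.le
        linarith
      have r2 : 2 ≤ (η / 2) * V := by
        have : 4 / η ≤ V := he2.trans hV1r
        rw [div_le_iff₀ hη] at this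
        linarith
      have r3 : (x : ℝ) * V / H ≤ y * V / H := by
        apply div_le_div_of_nonneg_right _ hHr.le
        apply mul_le_mul_of_nonneg_right _ hVpos.le
        exact_mod_cast hxy
      have r4 : (η / 2) * V ≤ (vy : ℝ) + vx := by linarith
      have r5 : ((y : ℝ) - x) * V / H - 1 ≤ (vy : ℝ) - vx := by
        have : ((y : ℝ) - x) * V / H = y * V / H - x * V / H := by ring
        rw [this]; linarith
      have r6 : (2 : ℝ) ^ (400 * e - lam) * 2 ^ lam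
          = (2 ^ (199 * e)) ^ 2 * (2 ^ e) ^ 2 := by
        rw [← pow_add, ← pow_mul, ← pow_mul, ← pow_add]; congr 1; omega
      set J : ℝ := 2 ^ (199 * e) with hJ
      have hJ0 : 0 < J := by positivity
      have s1 : ((y : ℝ) - x) * V / H - 1 ≥ V / (3 * a * (η / 2) * 2 ^ lam) := by
        have t1 : (1 + H / (3 * a * (η / 2) * 2 ^ lam)) * V / H ≤ ((y : ℝ) - x) * V / H := by
          apply div_le_div_of_nonneg_right _ hHr.le
          exact mul_le_mul_of_nonneg_right hcon.le hVpos.le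
        have t2 : (1 + H / (3 * a * (η / 2) * 2 ^ lam)) * V / H
            = V / H + V / (3 * a * (η / 2) * 2 ^ lam) := by
          field_simp
        have t3 : 1 ≤ (V : ℝ) / H := by
          rw [le_div_iff₀ hHr]; linarith
        rw [t2] at t1
        linarith
      have s2 : 0 < (V : ℝ) / (3 * a * (η / 2) * 2 ^ lam) := by positivity
      have s3 : (V : ℝ) / (3 * a * (η / 2) * 2 ^ lam) ≤ (vy : ℝ) - vx := by linarith
      have s4 : ((ν : ℝ) + J * vy - (ν + J * vx)) * (3 * a * (ν + J * vy + (ν + J * vx)) + 2 * b)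
          ≥ (J * (V / (3 * a * (η / 2) * 2 ^ lam))) * (3 * a * (J * ((η / 2) * V))) := by
        have u1 : J * (V / (3 * a * (η / 2) * 2 ^ lam))
            ≤ (ν : ℝ) + J * vy - (ν + J * vx) := by
          have := mul_le_mul_of_nonneg_left s3 hJ0.le
          linarith
        have u2 : 3 * a * (J * ((η / 2) * V))
            ≤ 3 * a * (ν + J * vy + (ν + J * vx)) + 2 * b := by
          have v1 := mul_le_mul_of_nonneg_left r4 hJ0.le
          have v2 : J * ((η / 2) * V) ≤ ν + J * vy + (ν + J * vx) := by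
            have : (0 : ℝ) ≤ ν := by positivity
            linarith
          have v3 := mul_le_mul_of_nonneg_left v2 (show (0 : ℝ) ≤ 3 * a by positivity)
          have v4 : (0 : ℝ) ≤ 2 * b := by positivity
          linarith
        exact mul_le_mul u1 u2 (by positivity) (le_trans (by positivity) u1)
      have s5 : (J * (V / (3 * a * (η / 2) * 2 ^ lam))) * (3 * a * (J * ((η / 2) * V)))
          = J ^ 2 * V ^ 2 / 2 ^ lam := by
        have : (a : ℝ) ≠ 0 := by positivity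
        field_simp
      have s6 : (2 : ℝ) ^ (400 * e - lam) ≤ J ^ 2 * V ^ 2 / 2 ^ lam := by
        rw [le_div_iff₀ (by positivity), r6]
        apply mul_le_mul_of_nonneg_left _ (by positivity)
        exact pow_le_pow_left₀ h2e.le hV1r 2
      rw [s5] at s4
      linarith
  have hpart2 : ∑ h ∈ (range H).filter (fun h : ℕ => ¬ (h : ℝ) < η / 2 * H), w (X h)
      ≤ H * (C / (η * 2 ^ lam)) * ∑ n ∈ range (C * 2 ^ lam), w n := by
    have h1 : ∑ h ∈ (range H).filter (fun h : ℕ => ¬ (h : ℝ) < η / 2 * H), w (X h)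
        = ∑ n ∈ range (C * 2 ^ lam),
          ∑ h ∈ ((range H).filter (fun h : ℕ => ¬ (h : ℝ) < η / 2 * H)).filter
            (fun h => X h = n), w (X h) := by
      rw [Finset.sum_fiberwise_of_maps_to]
      intro h hh
      rw [Finset.mem_range]
      exact hXlt h (Finset.mem_range.1 (Finset.mem_filter.1 hh).1)
    rw [h1, Finset.mul_sum]
    apply Finset.sum_le_sum
    intro n _
    have h2 : ∑ h ∈ ((range H).filter (fun h : ℕ => ¬ (h : ℝ) < η / 2 * H)).filter
            (fun h => X h = n), w (X h)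
        = ∑ h ∈ ((range H).filter (fun h : ℕ => ¬ (h : ℝ) < η / 2 * H)).filter
            (fun h => X h = n), w n :=
      Finset.sum_congr rfl fun h hh => by rw [(Finset.mem_filter.1 hh).2]
    rw [h2, Finset.sum_const, nsmul_eq_mul]
    exact mul_le_mul_of_nonneg_right (hfib n) (hw n).1
  rw [hsplit]
  have : (H : ℝ) * (η + C / (η * 2 ^ lam) * ∑ n ∈ range (C * 2 ^ lam), w n)
      = H * η + H * (C / (η * 2 ^ lam)) * ∑ n ∈ range (C * 2 ^ lam), w n := by ring
  rw [this]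
  exact add_le_add hpart1 hpart2

theorem xvar (a b c κ lam w : ℕ) : ∃ H0 : ℕ, ∀ H : ℕ, H0 ≤ H → ∀ᶠ e : ℕ in atTop,
    ∀ ν < 2 ^ (199 * e), ∀ V : ℕ, 2 ^ e ≤ V → V ≤ κ * 2 ^ e → ∀ h v : ℕ, h < H →
      h * V / H ≤ v → v ≤ (h + 1) * V / H →
      (P1 a b c (ν + 2 ^ (199 * e) * v) : ℝ) / 2 ^ (400 * e - lam)
        - P1 a b c (ν + 2 ^ (199 * e) * (h * V / H)) / 2 ^ (400 * e - lam) ≤ 1 / 2 ^ w := by
  set C : ℕ := (6 * a + 2 * b) * (κ + 1) ^ 2 with hC
  refine ⟨C * 2 ^ (lam + w) + 1, fun H hH => ?_⟩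
  have hHpos : 0 < H := by omega
  have hHr : (0 : ℝ) < H := by exact_mod_cast hHpos
  have hHC : (C : ℝ) * 2 ^ (lam + w) ≤ H := by
    have : C * 2 ^ (lam + w) ≤ H := by omega
    exact_mod_cast this
  have htend : Tendsto (fun e : ℕ => (2 : ℝ) ^ e) atTop atTop :=
    tendsto_pow_atTop_atTop_of_one_lt (by norm_num)
  filter_upwards [htend.eventually (eventually_ge_atTop (H : ℝ)),
    eventually_ge_atTop lam] with e he1 he3
  intro ν hν V hV1 hV2 h v hh hv1 hv2
  have hV2r : (V : ℝ) ≤ κ * 2 ^ e := by exact_mod_cast hV2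
  have h2e : (0 : ℝ) < 2 ^ e := by positivity
  set v0 : ℕ := h * V / H with hv0
  obtain ⟨b1, b2⟩ := div_bounds h V H hHpos
  rw [← hv0] at b1 b2
  obtain ⟨b3, b4⟩ := div_bounds (h + 1) V H hHpos
  have hv2r : (v : ℝ) ≤ (((h + 1) * V / H : ℕ) : ℝ) := by exact_mod_cast hv2
  have hv1r : (v0 : ℝ) ≤ v := by exact_mod_cast hv1
  push_cast at b3
  have hvV : v ≤ κ * 2 ^ e := by
    refine hv2.trans ?_
    apply Nat.div_le_of_le_mul
    calc (h + 1) * V ≤ H * V := Nat.mul_le_mul_right _ hh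
      _ ≤ H * (κ * 2 ^ e) := Nat.mul_le_mul_left _ hV2
  have hvVr : (v : ℝ) ≤ κ * 2 ^ e := by exact_mod_cast hvV
  have r1 : (v : ℝ) - v0 ≤ (κ + 1) * 2 ^ e / H := by
    have e1 : ((h : ℝ) + 1) * V / H = h * V / H + V / H := by ring
    have e2 : (v : ℝ) - v0 ≤ V / H + 1 := by linarith
    have e3 : (V : ℝ) / H + 1 ≤ (κ + 1) * 2 ^ e / H := by
      rw [le_div_iff₀ hHr, add_mul, div_mul_cancel₀ _ hHr.ne']
      linarith
    linarith
  rw [← sub_div, P1_diff]
  set J : ℝ := 2 ^ (199 * e) with hJ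
  have hJ0 : 0 < J := by positivity
  have hνr : (ν : ℝ) ≤ J := by
    rw [hJ]; exact_mod_cast hν.le
  push_cast
  rw [← hJ]
  have h1e : (1 : ℝ) ≤ 2 ^ e := one_le_pow₀ (by norm_num)
  have hJ1 : (1 : ℝ) ≤ J := one_le_pow₀ (by norm_num)
  have s1 : (ν : ℝ) + J * v - (ν + J * v0) ≤ J * ((κ + 1) * 2 ^ e / H) := by
    have := mul_le_mul_of_nonneg_left r1 hJ0.le
    linarith
  have s1' : 0 ≤ (ν : ℝ) + J * v - (ν + J * v0) := by
    have := mul_le_mul_of_nonneg_left hv1r hJ0.le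
    linarith
  have hn : (ν : ℝ) + J * v ≤ J * ((κ + 1) * 2 ^ e) := by
    have q1 := mul_le_mul_of_nonneg_left hvVr hJ0.le
    have q2 : J * 1 ≤ J * 2 ^ e := mul_le_mul_of_nonneg_left h1e hJ0.le
    nlinarith
  have hn0 : (ν : ℝ) + J * v0 ≤ J * ((κ + 1) * 2 ^ e) := by
    have := mul_le_mul_of_nonneg_left hv1r hJ0.le
    linarith
  have hone : (1 : ℝ) ≤ J * ((κ + 1) * 2 ^ e) := by
    have : (1 : ℝ) ≤ (κ + 1) * 2 ^ e := by
      have hk : (0 : ℝ) ≤ κ := by positivity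
      nlinarith
    nlinarith
  have s2 : 3 * (a : ℝ) * (ν + J * v + (ν + J * v0)) + 2 * b
      ≤ (6 * a + 2 * b) * (J * ((κ + 1) * 2 ^ e)) := by
    have q1 := mul_le_mul_of_nonneg_left (add_le_add hn hn0) (show (0 : ℝ) ≤ 3 * a by positivity)
    have q2 := mul_le_mul_of_nonneg_left hone (show (0 : ℝ) ≤ 2 * b by positivity)
    linarith
  have s3 : ((ν : ℝ) + J * v - (ν + J * v0)) * (3 * a * (ν + J * v + (ν + J * v0)) + 2 * b)
      ≤ (J * ((κ + 1) * 2 ^ e / H)) * ((6 * a + 2 * b) * (J * ((κ + 1) * 2 ^ e))) :=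
    mul_le_mul s1 s2 (by positivity) (by positivity)
  rw [div_le_div_iff₀ (by positivity) (by positivity), one_mul]
  have r6 : (2 : ℝ) ^ (400 * e - lam) * 2 ^ lam = J ^ 2 * (2 ^ e) ^ 2 := by
    rw [hJ, ← pow_add, ← pow_mul, ← pow_mul, ← pow_add]; congr 1; omega
  have s4 : (J * ((κ + 1) * 2 ^ e / H)) * ((6 * a + 2 * b) * (J * ((κ + 1) * 2 ^ e)))
      = C * (J ^ 2 * (2 ^ e) ^ 2) / H := by
    rw [hC]; push_cast; ring
  rw [s4, ← r6] at s3
  have s5 := mul_le_mul_of_nonneg_right s3 (show (0 : ℝ) ≤ 2 ^ w by positivity)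
  refine s5.trans ?_
  have s6 : (C : ℝ) * (2 ^ (400 * e - lam) * 2 ^ lam) / H * 2 ^ w
      = (C * 2 ^ (lam + w)) * 2 ^ (400 * e - lam) / H := by
    rw [pow_add]; ring
  rw [s6, div_le_iff₀ hHr]
  have := mul_le_mul_of_nonneg_right hHC (show (0 : ℝ) ≤ 2 ^ (400 * e - lam) by positivity)
  linarith

end Pool.Agent.Lib.MP_8fac0f_nt.C3
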