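import Pool.Agent.Lib.MP_8fac0f_nt.C3.Defs

/-!
# Sums over numbers with a weight for each digit block
-/

set_option autoImplicit false

namespace Pool.Agent.Lib.MP_8fac0f_nt.C3

open Finset

theorem dig_sum_mul (f : ℕ → ℝ) (A B : ℕ) :
    ∑ n ∈ range (A * B), f n = ∑ m ∈ range A, ∑ b ∈ range B, f (B * m + b) := by
  induction A with
  | zero => simp
  | succ A ih =>
    rw [Nat.succ_mul, Finset.sum_range_add, ih, Finset.sum_range_succ, mul_comm A B]

theorem dig_count (l0 x0 l1 m b : ℕ) (hb : b < 2 ^ l0) :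
    ((range (l1 + 1)).filter fun i => (2 ^ l0 * m + b) / 2 ^ (i * l0) % 2 ^ l0 = x0).card
      = (if b = x0 then 1 else 0)
        + ((range l1).filter fun i => m / 2 ^ (i * l0) % 2 ^ l0 = x0).card := by
  rw [Finset.card_filter, Finset.card_filter, Finset.sum_range_succ', add_comm]
  congr 1
  · rw [zero_mul, pow_zero, Nat.div_one, Nat.mul_add_mod, Nat.mod_eq_of_lt hb]
  · refine Finset.sum_congr rfl fun i _ => ?_
    have : (2 ^ l0 * m + b) / 2 ^ ((i + 1) * l0) = m / 2 ^ (i * l0) := by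
      rw [show (i + 1) * l0 = l0 + i * l0 by ring, pow_add, ← Nat.div_div_eq_div_mul]
      congr 1
      rw [Nat.mul_add_div (by positivity), Nat.div_eq_of_lt hb, add_zero]
    rw [this]

theorem digsum (l0 x0 l1 A : ℕ) (hx : x0 < 2 ^ l0) (δ : ℝ) :
    ∑ n ∈ range (A * 2 ^ (l1 * l0)),
      (1 - δ) ^ (((range l1).filter fun i => n / 2 ^ (i * l0) % 2 ^ l0 = x0).card)
      = A * (2 ^ l0 - δ) ^ l1 := by
  induction l1 with
  | zero => simp
  | succ l1 ih =>
    rw [show A * 2 ^ ((l1 + 1) * l0) = (A * 2 ^ (l1 * l0)) * 2 ^ l0 by ring, dig_sum_mul]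
    have h1 : ∀ m ∈ range (A * 2 ^ (l1 * l0)), ∑ b ∈ range (2 ^ l0),
        (1 - δ) ^ (((range (l1 + 1)).filter fun i =>
          (2 ^ l0 * m + b) / 2 ^ (i * l0) % 2 ^ l0 = x0).card)
        = (2 ^ l0 - δ) *
          (1 - δ) ^ (((range l1).filter fun i => m / 2 ^ (i * l0) % 2 ^ l0 = x0).card) := by
      intro m _
      have h2 : ∀ b ∈ range (2 ^ l0),
          (1 - δ) ^ (((range (l1 + 1)).filter fun i =>
            (2 ^ l0 * m + b) / 2 ^ (i * l0) % 2 ^ l0 = x0).card)
          = (if b = x0 then (1 - δ) else 1) *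
            (1 - δ) ^ (((range l1).filter fun i => m / 2 ^ (i * l0) % 2 ^ l0 = x0).card) := by
        intro b hb
        rw [dig_count l0 x0 l1 m b (mem_range.1 hb), pow_add]
        split_ifs <;> simp
      rw [Finset.sum_congr rfl h2, ← Finset.sum_mul]
      congr 1
      have h3 : ∀ b ∈ range (2 ^ l0), (if b = x0 then (1 - δ) else (1 : ℝ))
          = 1 + (if b = x0 then (-δ) else 0) := by
        intro b _
        split_ifs <;> ring
      rw [Finset.sum_congr rfl h3, Finset.sum_add_distrib, Finset.sum_ite_eq',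
        if_pos (mem_range.2 hx)]
      simp
      ring
    rw [Finset.sum_congr rfl h1, ← Finset.mul_sum, ih]
    ring

end Pool.Agent.Lib.MP_8fac0f_nt.C3
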