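import Pool.Agent.Lib.MP_8fac0f_nt.C3.WC

/-!
# Average of the digits of linear forms along an equidistributed family (module EVALB)
-/

set_option autoImplicit false

namespace Pool.Agent.Lib.MP_8fac0f_nt.C3

open Finset Filter Topology
open Pool.Agent.Lib.MP_8fac0f_nt.N (sg CorrZero)

/-- Floor of a perturbed dyadic number. -/
theorem floor_stab (N w W S : ℕ) (x r : ℝ) (z : ℤ) (hx : 0 ≤ x)
    (h : x * 2 ^ w = N + r + 2 ^ (W + w) * z) (hr : -1 ≤ r) (hr' : r ≤ S + 2)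
    (h1 : 1 ≤ N % 2 ^ w) (h2 : N % 2 ^ w + S + 2 < 2 ^ w) :
    ⌊x⌋₊ % 2 ^ W = N / 2 ^ w % 2 ^ W := by
  have hw : (0 : ℝ) < 2 ^ w := by positivity
  obtain ⟨m, hm⟩ : ∃ m, m = N / 2 ^ w := ⟨_, rfl⟩
  obtain ⟨s, hs⟩ : ∃ s, s = N % 2 ^ w := ⟨_, rfl⟩
  have hdm : (N : ℝ) = 2 ^ w * (m : ℝ) + (s : ℝ) := by
    rw [hm, hs]
    exact_mod_cast (Nat.div_add_mod N (2 ^ w)).symm
  rw [← hm]
  rw [← hs] at h1 h2
  have h1' : (1 : ℝ) ≤ (s : ℝ) := by exact_mod_cast h1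
  have h2' : (s : ℝ) + S + 2 < 2 ^ w := by exact_mod_cast h2
  have hfl : ⌊x⌋ = (m : ℤ) + 2 ^ W * z := by
    rw [Int.floor_eq_iff]
    push_cast
    have e : x = (m : ℝ) + 2 ^ W * z + ((s : ℝ) + r) / 2 ^ w := by
      rw [eq_comm]
      have : x = (N + r + 2 ^ (W + w) * z) / 2 ^ w := by
        rw [← h]; field_simp
      rw [this, hdm, pow_add]
      field_simp
      ring
    have g1 : 0 ≤ ((s : ℝ) + r) / 2 ^ w := by
      apply div_nonneg _ hw.le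
      linarith
    have g2 : ((s : ℝ) + r) / 2 ^ w < 1 := by
      rw [div_lt_one hw]; linarith
    constructor <;> linarith
  have hn : ((⌊x⌋₊ : ℕ) : ℤ) = (m : ℤ) + 2 ^ W * z := by
    rw [← hfl]
    exact Int.natCast_floor_eq_floor hx
  have : ((⌊x⌋₊ % 2 ^ W : ℕ) : ℤ) = ((m % 2 ^ W : ℕ) : ℤ) := by
    rw [Int.natCast_mod, Int.natCast_mod, hn]
    push_cast
    rw [Int.add_mul_emod_self_left]
  exact_mod_cast this

/-- The fine digits determine the digits of the forms. -/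
theorem form_stab {ι : Type} [Fintype ι] (C : ι → ℕ) (W w : ℕ) (θ : ι → ℝ) (κ x : ℝ)
    (hκ : 0 ≤ κ) (hx : 0 ≤ x) (z : ℤ)
    (h : |x - (2 ^ W * (∑ i, (C i : ℝ) * θ i) + κ) - 2 ^ W * z| ≤ 1 / 2 ^ w)
    (h1 : 1 ≤ (∑ i, C i * (⌊((2 ^ (W + w) : ℕ) : ℝ) * θ i⌋ % ((2 ^ (W + w) : ℕ) : ℤ)).toNat
      + ⌊2 ^ w * κ⌋₊) % 2 ^ w)
    (h2 : (∑ i, C i * (⌊((2 ^ (W + w) : ℕ) : ℝ) * θ i⌋ % ((2 ^ (W + w) : ℕ) : ℤ)).toNat
      + ⌊2 ^ w * κ⌋₊) % 2 ^ w + (∑ i, C i) + 2 < 2 ^ w) :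
    ⌊x⌋₊ % 2 ^ W =
      (∑ i, C i * (⌊((2 ^ (W + w) : ℕ) : ℝ) * θ i⌋ % ((2 ^ (W + w) : ℕ) : ℤ)).toNat
      + ⌊2 ^ w * κ⌋₊) / 2 ^ w % 2 ^ W := by
  have hw : (0 : ℝ) < 2 ^ w := by positivity
  set q : ι → ℕ := fun i => (⌊((2 ^ (W + w) : ℕ) : ℝ) * θ i⌋ % ((2 ^ (W + w) : ℕ) : ℤ)).toNat
    with hq
  set f : ι → ℝ := fun i => Int.fract (((2 ^ (W + w) : ℕ) : ℝ) * θ i) with hf
  set k : ι → ℤ := fun i => ⌊((2 ^ (W + w) : ℕ) : ℝ) * θ i⌋ / ((2 ^ (W + w) : ℕ) : ℤ) with hk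
  have hdec : ∀ i, (2 : ℝ) ^ (W + w) * θ i = q i + f i + 2 ^ (W + w) * (k i : ℝ) := by
    intro i
    have hL : (0 : ℤ) < ((2 ^ (W + w) : ℕ) : ℤ) := by positivity
    have e1 : ((q i : ℕ) : ℤ) = ⌊((2 ^ (W + w) : ℕ) : ℝ) * θ i⌋ % ((2 ^ (W + w) : ℕ) : ℤ) :=
      Int.toNat_of_nonneg (Int.emod_nonneg _ hL.ne')
    have e2 : (⌊((2 ^ (W + w) : ℕ) : ℝ) * θ i⌋ : ℤ)
        = q i + ((2 ^ (W + w) : ℕ) : ℤ) * k i := by
      rw [e1]; exact (Int.emod_add_mul_ediv _ _).symm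
    have e3 : ((⌊((2 ^ (W + w) : ℕ) : ℝ) * θ i⌋ : ℤ) : ℝ) = q i + 2 ^ (W + w) * (k i : ℝ) := by
      rw [e2]; push_cast; ring
    have e4 := Int.floor_add_fract (((2 ^ (W + w) : ℕ) : ℝ) * θ i)
    rw [e3] at e4
    have e5 : (((2 ^ (W + w) : ℕ) : ℝ)) * θ i = 2 ^ (W + w) * θ i := by push_cast; rfl
    have e6 : f i = Int.fract (((2 ^ (W + w) : ℕ) : ℝ) * θ i) := rfl
    rw [e6, ← e5]
    linarith
  set g : ℝ := 2 ^ w * κ - ⌊2 ^ w * κ⌋₊ with hg
  set e : ℝ := 2 ^ w * (x - (2 ^ W * (∑ i, (C i : ℝ) * θ i) + κ) - 2 ^ W * z) with he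
  have he1 : |e| ≤ 1 := by
    rw [he, abs_mul, abs_of_pos hw]
    calc (2 : ℝ) ^ w * |x - (2 ^ W * (∑ i, (C i : ℝ) * θ i) + κ) - 2 ^ W * z|
        ≤ 2 ^ w * (1 / 2 ^ w) := by gcongr
      _ = 1 := by field_simp
  have hg0 : 0 ≤ g := by
    rw [hg]; have := Nat.floor_le (show 0 ≤ 2 ^ w * κ by positivity); linarith
  have hg1 : g ≤ 1 := by
    rw [hg]; have := Nat.lt_floor_add_one (2 ^ w * κ); linarith
  have hf0 : 0 ≤ ∑ i, (C i : ℝ) * f i :=
    Finset.sum_nonneg fun i _ => mul_nonneg (Nat.cast_nonneg _) (Int.fract_nonneg _)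
  have hf1 : ∑ i, (C i : ℝ) * f i ≤ ((∑ i, C i : ℕ) : ℝ) := by
    push_cast
    apply Finset.sum_le_sum
    intro i _
    have := (Int.fract_lt_one (((2 ^ (W + w) : ℕ) : ℝ) * θ i)).le
    calc (C i : ℝ) * f i ≤ C i * 1 := by gcongr
      _ = C i := mul_one _
  rw [abs_le] at he1
  refine floor_stab (∑ i, C i * q i + ⌊2 ^ w * κ⌋₊) w W (∑ i, C i) x
    (∑ i, (C i : ℝ) * f i + g + e) (∑ i, (C i : ℤ) * k i + z) hx ?_ ?_ ?_ h1 h2
  · have hs : ∑ i, (C i : ℝ) * (2 ^ (W + w) * θ i)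
        = ∑ i, (C i : ℝ) * q i + ∑ i, (C i : ℝ) * f i + 2 ^ (W + w) * ∑ i, (C i : ℝ) * k i := by
      rw [Finset.mul_sum, ← Finset.sum_add_distrib, ← Finset.sum_add_distrib]
      apply Finset.sum_congr rfl
      intro i _
      rw [hdec i]; ring
    have hs' : ∑ i, (C i : ℝ) * (2 ^ (W + w) * θ i)
        = 2 ^ (W + w) * ∑ i, (C i : ℝ) * θ i := by
      rw [Finset.mul_sum]
      apply Finset.sum_congr rfl
      intro i _
      ring
    rw [hs'] at hs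
    have e6 : x * 2 ^ w = 2 ^ (W + w) * (∑ i, (C i : ℝ) * θ i) + 2 ^ w * κ
        + 2 ^ (W + w) * z + e := by
      rw [he, pow_add]; ring
    rw [e6, hs]
    push_cast
    rw [hg]
    ring
  · linarith
  · linarith

/-- Splitting of the digits into high and low digits. -/
theorem sum_hi_lo {ι : Type} [Fintype ι] [DecidableEq ι] (W w : ℕ) (F : (ι → ℕ) → ℝ) :
    ∑ p ∈ Fintype.piFinset (fun _ : ι => range (2 ^ (W + w))), F p
      = ∑ lo ∈ Fintype.piFinset (fun _ : ι => range (2 ^ w)),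
        ∑ hi ∈ Fintype.piFinset (fun _ : ι => range (2 ^ W)),
          F (fun i => 2 ^ w * hi i + lo i) := by
  rw [← Finset.sum_product']
  refine Finset.sum_nbij' (fun p => (fun i => p i % 2 ^ w, fun i => p i / 2 ^ w))
    (fun q i => 2 ^ w * q.2 i + q.1 i) ?_ ?_ ?_ ?_ ?_
  · intro p hp
    simp only [Fintype.mem_piFinset, mem_range, Finset.mem_product] at hp ⊢
    refine ⟨fun i => Nat.mod_lt _ (by positivity), fun i => ?_⟩
    apply Nat.div_lt_of_lt_mul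
    have := hp i
    rwa [pow_add, mul_comm] at this
  · intro q hq
    simp only [Fintype.mem_piFinset, mem_range, Finset.mem_product] at hq ⊢
    intro i
    have h1 := hq.1 i
    have h2 := hq.2 i
    calc 2 ^ w * q.2 i + q.1 i < 2 ^ w * q.2 i + 2 ^ w := by omega
      _ = 2 ^ w * (q.2 i + 1) := by ring
      _ ≤ 2 ^ w * 2 ^ W := Nat.mul_le_mul_left _ h2
      _ = 2 ^ (W + w) := by rw [pow_add, mul_comm]
  · intro p _
    funext i
    exact Nat.div_add_mod _ _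
  · intro q hq
    simp only [Fintype.mem_piFinset, mem_range, Finset.mem_product] at hq
    refine Prod.ext ?_ ?_
    · funext i
      show (2 ^ w * q.2 i + q.1 i) % 2 ^ w = q.1 i
      rw [Nat.mul_add_mod, Nat.mod_eq_of_lt (hq.1 i)]
    · funext i
      show (2 ^ w * q.2 i + q.1 i) / 2 ^ w = q.2 i
      rw [Nat.mul_add_div (by positivity), Nat.div_eq_of_lt (hq.1 i), add_zero]
  · intro p _
    congr 1
    funext i
    exact (Nat.div_add_mod _ _).symm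

/-- Number of the points at which one form has a prescribed residue. -/
theorem bad_count {ι : Type} [Fintype ι] [DecidableEq ι] (C : ι → ℕ) (i0 : ι) (h1 : C i0 = 1)
    (W w K : ℕ) (Bd : Finset ℕ) :
    ((Fintype.piFinset (fun _ : ι => range (2 ^ (W + w)))).filter
      (fun p => (∑ i, C i * p i + K) % 2 ^ w ∈ Bd)).card * 2 ^ w
      ≤ Bd.card * (2 ^ (W + w)) ^ Fintype.card ι := by
  have key : ((Fintype.piFinset (fun _ : ι => range (2 ^ (W + w)))).filter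
      (fun p => (∑ i, C i * p i + K) % 2 ^ w ∈ Bd)).card
      ≤ (Bd ×ˢ (range (2 ^ W) ×ˢ Fintype.piFinset
        (fun i : ι => range (if i = i0 then 1 else 2 ^ (W + w))))).card := by
    apply Finset.card_le_card_of_injOn
      (fun p => ((∑ i, C i * p i + K) % 2 ^ w, p i0 / 2 ^ w, Function.update p i0 0))
    · intro p hp
      simp only [coe_filter, Fintype.mem_piFinset, mem_range, Set.mem_ofPred_eq] at hp
      simp only [coe_product, Set.mem_prod, mem_coe, mem_range, Fintype.mem_piFinset]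
      refine ⟨hp.2, ?_, fun i => ?_⟩
      · apply Nat.div_lt_of_lt_mul
        have := hp.1 i0
        rwa [pow_add, mul_comm] at this
      · by_cases hi : i = i0
        · subst hi; simp
        · rw [Function.update_of_ne hi, if_neg hi]
          exact hp.1 i
    · intro p hp p' hp' h
      simp only [Prod.mk.injEq] at h
      obtain ⟨ha, hb, hc⟩ := h
      have hne : ∀ i, i ≠ i0 → p i = p' i := by
        intro i hi
        have := congrFun hc i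
        rwa [Function.update_of_ne hi, Function.update_of_ne hi] at this
      have e1 : ∑ i, C i * p i = p i0 + ∑ i ∈ univ.erase i0, C i * p i := by
        rw [← Finset.add_sum_erase univ _ (mem_univ i0), h1, one_mul]
      have e2 : ∑ i, C i * p' i = p' i0 + ∑ i ∈ univ.erase i0, C i * p i := by
        rw [← Finset.add_sum_erase univ _ (mem_univ i0), h1, one_mul]
        congr 1
        apply Finset.sum_congr rfl
        intro i hi
        rw [hne i (Finset.ne_of_mem_erase hi)]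
      rw [e1, e2, add_assoc, add_assoc] at ha
      have hd : p i0 ≡ p' i0 [MOD 2 ^ w] := Nat.ModEq.add_right_cancel' _ ha
      have h0 : p i0 = p' i0 := by
        rw [← Nat.div_add_mod (p i0) (2 ^ w), ← Nat.div_add_mod (p' i0) (2 ^ w), hb]
        congr 1
      funext i
      by_cases hi : i = i0
      · subst hi; exact h0
      · exact hne i hi
  rw [Finset.card_product, Finset.card_product, Fintype.card_piFinset, card_range] at key
  simp only [card_range] at key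
  have hprod : (∏ i : ι, (if i = i0 then 1 else 2 ^ (W + w))) * 2 ^ (W + w)
      = (2 ^ (W + w)) ^ Fintype.card ι := by
    have : (2 : ℕ) ^ (W + w) = ∏ i : ι, (if i = i0 then 2 ^ (W + w) else 1) := by
      rw [Finset.prod_ite_eq' univ i0]; simp
    conv_lhs => rw [this]
    rw [← Finset.prod_mul_distrib]
    rw [show (2 ^ (W + w)) ^ Fintype.card ι = ∏ _i : ι, 2 ^ (W + w) by
      rw [Finset.prod_const, Finset.card_univ]]
    apply Finset.prod_congr rfl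
    intro i _
    rw [← this]
    by_cases hi : i = i0 <;> simp [hi]
  calc _ ≤ Bd.card * (2 ^ W * ∏ i : ι, (if i = i0 then 1 else 2 ^ (W + w))) * 2 ^ w :=
        Nat.mul_le_mul_right _ key
    _ = Bd.card * ((∏ i : ι, (if i = i0 then 1 else 2 ^ (W + w))) * 2 ^ (W + w)) := by
        rw [pow_add]; ring
    _ = _ := by rw [hprod]

theorem abs_prod_sg {Pt : Type} [Fintype Pt] (f : Pt → ℕ) : |∏ t, sg (f t)| = 1 := by
  rw [Finset.abs_prod]
  exact Finset.prod_eq_one fun t _ => N.abs_sg _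

/-- The average over the box of the digits of the forms. -/
theorem box_avg {ι Pt : Type} [Fintype ι] [DecidableEq ι] [Fintype Pt] (C : Pt → ι → ℕ)
    (W w : ℕ) (κ : Pt → ℝ) (B : ℝ)
    (hB : ∀ c : Pt → ℕ, (∀ t, ⌊κ t⌋₊ ≤ c t ∧ c t ≤ ⌊κ t⌋₊ + ∑ i, C t i + 1) →
        |∑ p ∈ Fintype.piFinset (fun _ : ι => range (2 ^ W)),
          ∏ t, sg ((∑ i, C t i * p i + c t) % 2 ^ W)| ≤ B * 2 ^ (W * Fintype.card ι)) :
    |∑ p ∈ Fintype.piFinset (fun _ : ι => range (2 ^ (W + w))),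
      ∏ t, sg ((∑ i, C t i * p i + ⌊2 ^ w * κ t⌋₊) / 2 ^ w % 2 ^ W)|
      ≤ B * ((2 ^ (W + w) : ℕ) : ℝ) ^ Fintype.card ι := by
  rw [sum_hi_lo]
  refine (Finset.abs_sum_le_sum_abs _ _).trans ?_
  have hstep : ∀ lo ∈ Fintype.piFinset (fun _ : ι => range (2 ^ w)),
      |∑ hi ∈ Fintype.piFinset (fun _ : ι => range (2 ^ W)),
        ∏ t, sg ((∑ i, C t i * (2 ^ w * hi i + lo i) + ⌊2 ^ w * κ t⌋₊) / 2 ^ w % 2 ^ W)|
      ≤ B * 2 ^ (W * Fintype.card ι) := by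
    intro lo hlo
    simp only [Fintype.mem_piFinset, mem_range] at hlo
    have hfl : ∀ t, ⌊2 ^ w * κ t⌋₊ / 2 ^ w = ⌊κ t⌋₊ := by
      intro t
      have := Nat.floor_div_natCast (2 ^ w * κ t) (2 ^ w)
      rw [← this]
      congr 1
      push_cast
      field_simp
    have hc := hB (fun t => (∑ i, C t i * lo i + ⌊2 ^ w * κ t⌋₊) / 2 ^ w) (by
      intro t
      constructor
      · rw [← hfl t]
        exact Nat.div_le_div_right (Nat.le_add_left _ _)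
      · have h2 : ∑ i, C t i * lo i ≤ 2 ^ w * ∑ i, C t i := by
          rw [Finset.mul_sum]
          apply Finset.sum_le_sum
          intro i _
          rw [mul_comm]
          exact Nat.mul_le_mul_right _ (hlo i).le
        calc (∑ i, C t i * lo i + ⌊2 ^ w * κ t⌋₊) / 2 ^ w
            ≤ (2 ^ w * ∑ i, C t i + ⌊2 ^ w * κ t⌋₊) / 2 ^ w :=
              Nat.div_le_div_right (Nat.add_le_add_right h2 _)
          _ = ∑ i, C t i + ⌊κ t⌋₊ := by
              rw [Nat.mul_add_div (by positivity), hfl t]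
          _ ≤ _ := by omega)
    refine le_trans (le_of_eq ?_) hc
    congr 1
    apply Finset.sum_congr rfl
    intro hi _
    apply Finset.prod_congr rfl
    intro t _
    congr 2
    have : ∑ i, C t i * (2 ^ w * hi i + lo i) + ⌊2 ^ w * κ t⌋₊
        = 2 ^ w * (∑ i, C t i * hi i) + (∑ i, C t i * lo i + ⌊2 ^ w * κ t⌋₊) := by
      rw [Finset.mul_sum, ← add_assoc, ← Finset.sum_add_distrib]
      congr 1
      apply Finset.sum_congr rfl
      intro i _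
      ring
    rw [this, Nat.mul_add_div (by positivity)]
  refine (Finset.sum_le_sum hstep).trans (le_of_eq ?_)
  rw [Finset.sum_const, Fintype.card_piFinset, nsmul_eq_mul]
  simp only [card_range, Finset.prod_const, Finset.card_univ]
  push_cast
  rw [← pow_mul, ← pow_mul, add_mul, pow_add, mul_comm w (Fintype.card ι)]
  ring

/-- (EVAL): average of the digits of linear forms along an equidistributed family. -/
theorem evalb {ι Pt : Type} [Fintype ι] [DecidableEq ι] [Fintype Pt] (C : Pt → ι → ℕ) (i0 : ι)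
    (h1 : ∀ t, C t i0 = 1) (W : ℕ) (ε : ℝ) (hε : 0 < ε) :
    ∃ (w Ξ : ℕ) (ε0 : ℝ), 0 < ε0 ∧ ∀ (I : Finset ℕ) (θ : ℕ → ι → ℝ) (κ : Pt → ℝ)
      (x : Pt → ℕ → ℝ) (B : ℝ), I.Nonempty → (∀ t, 0 ≤ κ t) → (∀ t v, 0 ≤ x t v) →
      (∀ ξ : ι → ℤ, ξ ≠ 0 → (∀ i, |ξ i| ≤ Ξ) →
        ‖∑ v ∈ I, ex (∑ i, (ξ i : ℝ) * θ v i)‖ ≤ ε0 * I.card) →
      (∀ t, ∀ v ∈ I, ∃ z : ℤ,
        |x t v - (2 ^ W * (∑ i, (C t i : ℝ) * θ v i) + κ t) - 2 ^ W * z| ≤ 1 / 2 ^ w) →
      (∀ c : Pt → ℕ, (∀ t, ⌊κ t⌋₊ ≤ c t ∧ c t ≤ ⌊κ t⌋₊ + ∑ i, C t i + 1) →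
        |∑ p ∈ Fintype.piFinset (fun _ : ι => range (2 ^ W)),
          ∏ t, sg ((∑ i, C t i * p i + c t) % 2 ^ W)| ≤ B * 2 ^ (W * Fintype.card ι)) →
      |∑ v ∈ I, ∏ t, sg (⌊x t v⌋₊ % 2 ^ W)| ≤ (B + ε) * I.card := by
  classical
  set A : ℝ := ∑ t, (((∑ i, C t i : ℕ) : ℝ) + 3) with hA
  obtain ⟨w, hw⟩ : ∃ w : ℕ, A ≤ ε / 8 * 2 ^ w := by
    obtain ⟨w, hw⟩ := pow_unbounded_of_one_lt (A / (ε / 8)) one_lt_two
    refine ⟨w, ?_⟩
    rw [div_lt_iff₀ (by positivity)] at hw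
    linarith
  obtain ⟨Ξ, ε0, hε0, H⟩ := weyl_box (ι := ι) (2 ^ (W + w)) (by positivity) (ε / 8) (by positivity)
  refine ⟨w, Ξ, ε0, hε0, ?_⟩
  intro I θ κ x B hI hκ hx hWeyl hz hB
  have HG := H I θ hI hWeyl
  have hn : (0 : ℝ) < I.card := by exact_mod_cast hI.card_pos
  have hw2 : (0 : ℝ) < 2 ^ w := by positivity
  obtain ⟨Bd, hBd⟩ : ∃ Bd : Pt → Finset ℕ, Bd = fun t => (range (2 ^ w)).filter
    (fun s => ¬ (1 ≤ s ∧ s + (∑ i, C t i) + 2 < 2 ^ w)) := ⟨_, rfl⟩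
  have hBdc : ∀ t, (Bd t).card ≤ (∑ i, C t i) + 3 := by
    intro t
    have hsub : Bd t ⊆ insert 0 (Ico (2 ^ w - ((∑ i, C t i) + 2)) (2 ^ w)) := by
      intro s hs
      rw [hBd] at hs
      simp only [mem_filter, mem_range] at hs
      simp only [mem_insert, mem_Ico]
      omega
    refine (Finset.card_le_card hsub).trans ((Finset.card_insert_le _ _).trans ?_)
    rw [Nat.card_Ico]
    omega
  obtain ⟨G, hG⟩ : ∃ G : (ι → ℕ) → ℝ, G = fun p =>
    ∏ t, sg ((∑ i, C t i * p i + ⌊2 ^ w * κ t⌋₊) / 2 ^ w % 2 ^ W) := ⟨_, rfl⟩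
  obtain ⟨G', hG'⟩ : ∃ G' : (ι → ℕ) → ℝ, G' = fun p =>
    if ∃ t, (∑ i, C t i * p i + ⌊2 ^ w * κ t⌋₊) % 2 ^ w ∈ Bd t then 1 else 0 := ⟨_, rfl⟩
  have hG1 : ∀ p, |G p| ≤ 1 := by
    intro p
    rw [hG]
    exact (abs_prod_sg _).le
  have hG'1 : ∀ p, |G' p| ≤ 1 := by
    intro p
    rw [hG']
    simp only
    split_ifs <;> simp
  have HG1 := HG G hG1
  have HG2 := HG G' hG'1
  obtain ⟨q, hq⟩ : ∃ q : ℕ → ι → ℕ, q = fun v i =>
    (⌊((2 ^ (W + w) : ℕ) : ℝ) * θ v i⌋ % ((2 ^ (W + w) : ℕ) : ℤ)).toNat := ⟨_, rfl⟩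
  have hpt : ∀ v ∈ I, |∏ t, sg (⌊x t v⌋₊ % 2 ^ W) - G (q v)| ≤ 2 * G' (q v) := by
    intro v hv
    by_cases hb : ∃ t, (∑ i, C t i * q v i + ⌊2 ^ w * κ t⌋₊) % 2 ^ w ∈ Bd t
    · have e1 : G' (q v) = 1 := by rw [hG']; simp only; rw [if_pos hb]
      rw [e1]
      have e2 := abs_prod_sg (fun t => ⌊x t v⌋₊ % 2 ^ W)
      have e3 := hG1 (q v)
      calc _ ≤ |∏ t, sg (⌊x t v⌋₊ % 2 ^ W)| + |G (q v)| := abs_sub _ _
        _ ≤ 1 + 1 := by linarith
        _ = 2 * 1 := by norm_num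
    · have e1 : G' (q v) = 0 := by rw [hG']; simp only; rw [if_neg hb]
      rw [e1, hG]
      simp only
      have : ∏ t, sg (⌊x t v⌋₊ % 2 ^ W)
          = ∏ t, sg ((∑ i, C t i * q v i + ⌊2 ^ w * κ t⌋₊) / 2 ^ w % 2 ^ W) := by
        apply Finset.prod_congr rfl
        intro t _
        congr 1
        obtain ⟨z, hz⟩ := hz t v hv
        have hnb : ¬ (∑ i, C t i * q v i + ⌊2 ^ w * κ t⌋₊) % 2 ^ w ∈ Bd t :=
          fun h => hb ⟨t, h⟩
        have hnb' : 1 ≤ (∑ i, C t i * q v i + ⌊2 ^ w * κ t⌋₊) % 2 ^ w ∧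
            (∑ i, C t i * q v i + ⌊2 ^ w * κ t⌋₊) % 2 ^ w + (∑ i, C t i) + 2 < 2 ^ w := by
          by_contra hcon
          apply hnb
          rw [hBd]
          exact mem_filter.mpr ⟨mem_range.mpr (Nat.mod_lt _ (by positivity)), hcon⟩
        rw [hq] at hnb' ⊢
        exact form_stab (C t) W w (θ v) (κ t) (x t v) (hκ t) (hx t v) z hz hnb'.1 hnb'.2
      rw [this]; simp
  have hsumG := box_avg C W w κ B hB
  have hsumG' : (∑ p ∈ Fintype.piFinset (fun _ : ι => range (2 ^ (W + w))), G' p) * 2 ^ w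
      ≤ A * ((2 ^ (W + w) : ℕ) : ℝ) ^ Fintype.card ι := by
    have hle : ∀ p, G' p ≤ ∑ t, (if (∑ i, C t i * p i + ⌊2 ^ w * κ t⌋₊) % 2 ^ w ∈ Bd t
        then (1 : ℝ) else 0) := by
      intro p
      rw [hG']
      simp only
      split_ifs with hb
      · obtain ⟨t, ht⟩ := hb
        have : (1 : ℝ) ≤ if (∑ i, C t i * p i + ⌊2 ^ w * κ t⌋₊) % 2 ^ w ∈ Bd t
          then (1 : ℝ) else 0 := by rw [if_pos ht]
        refine this.trans ?_
        exact Finset.single_le_sum (f := fun t => if (∑ i, C t i * p i + ⌊2 ^ w * κ t⌋₊) % 2 ^ w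
          ∈ Bd t then (1 : ℝ) else 0) (fun t _ => by positivity) (mem_univ t)
      · exact Finset.sum_nonneg fun t _ => by positivity
    calc (∑ p ∈ Fintype.piFinset (fun _ : ι => range (2 ^ (W + w))), G' p) * 2 ^ w
        ≤ (∑ p ∈ Fintype.piFinset (fun _ : ι => range (2 ^ (W + w))),
          ∑ t, (if (∑ i, C t i * p i + ⌊2 ^ w * κ t⌋₊) % 2 ^ w ∈ Bd t
            then (1 : ℝ) else 0)) * 2 ^ w := by
          gcongr with p _
          exact hle p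
      _ = ∑ t, ((((Fintype.piFinset (fun _ : ι => range (2 ^ (W + w)))).filter
          (fun p => (∑ i, C t i * p i + ⌊2 ^ w * κ t⌋₊) % 2 ^ w ∈ Bd t)).card * 2 ^ w : ℕ) : ℝ) := by
          rw [Finset.sum_comm, Finset.sum_mul]
          apply Finset.sum_congr rfl
          intro t _
          rw [Finset.sum_boole]
          push_cast
          rfl
      _ ≤ ∑ t, (((∑ i, C t i : ℕ) : ℝ) + 3) * ((2 ^ (W + w) : ℕ) : ℝ) ^ Fintype.card ι := by
          apply Finset.sum_le_sum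
          intro t _
          have e1 := bad_count (C t) i0 (h1 t) W w ⌊2 ^ w * κ t⌋₊ (Bd t)
          have e2 : (Bd t).card * (2 ^ (W + w)) ^ Fintype.card ι
              ≤ ((∑ i, C t i) + 3) * (2 ^ (W + w)) ^ Fintype.card ι :=
            Nat.mul_le_mul_right _ (hBdc t)
          exact_mod_cast e1.trans e2
      _ = A * ((2 ^ (W + w) : ℕ) : ℝ) ^ Fintype.card ι := by
          rw [hA, Finset.sum_mul]
  have hL : (0 : ℝ) < ((2 ^ (W + w) : ℕ) : ℝ) ^ Fintype.card ι := by positivity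
  have hGq : |∑ v ∈ I, G (q v)| ≤ (B + ε / 8) * I.card := by
    have e1 : |(∑ v ∈ I, G (q v)) / I.card| ≤ B + ε / 8 := by
      have e2 : |(∑ p ∈ Fintype.piFinset (fun _ : ι => range (2 ^ (W + w))), G p)
          / ((2 ^ (W + w) : ℕ) : ℝ) ^ Fintype.card ι| ≤ B := by
        rw [abs_div, abs_of_pos hL, div_le_iff₀ hL, hG]
        exact hsumG
      have e3 := abs_add_le ((∑ v ∈ I, G (q v)) / I.card
        - (∑ p ∈ Fintype.piFinset (fun _ : ι => range (2 ^ (W + w))), G p)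
          / ((2 ^ (W + w) : ℕ) : ℝ) ^ Fintype.card ι)
        ((∑ p ∈ Fintype.piFinset (fun _ : ι => range (2 ^ (W + w))), G p)
          / ((2 ^ (W + w) : ℕ) : ℝ) ^ Fintype.card ι)
      rw [sub_add_cancel] at e3
      rw [hq] at e3 ⊢
      linarith
    rwa [abs_div, abs_of_pos hn, div_le_iff₀ hn] at e1
  have hG'q : ∑ v ∈ I, G' (q v) ≤ (ε / 8 + ε / 8) * I.card := by
    have e1 : (∑ v ∈ I, G' (q v)) / I.card ≤ ε / 8 + ε / 8 := by
      have e2 : (∑ p ∈ Fintype.piFinset (fun _ : ι => range (2 ^ (W + w))), G' p)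
          / ((2 ^ (W + w) : ℕ) : ℝ) ^ Fintype.card ι ≤ ε / 8 := by
        rw [div_le_iff₀ hL]
        have : (∑ p ∈ Fintype.piFinset (fun _ : ι => range (2 ^ (W + w))), G' p) * 2 ^ w
            ≤ (ε / 8 * ((2 ^ (W + w) : ℕ) : ℝ) ^ Fintype.card ι) * 2 ^ w := by
          refine hsumG'.trans ?_
          calc A * ((2 ^ (W + w) : ℕ) : ℝ) ^ Fintype.card ι
              ≤ (ε / 8 * 2 ^ w) * ((2 ^ (W + w) : ℕ) : ℝ) ^ Fintype.card ι := by gcongr
            _ = _ := by ring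
        exact le_of_mul_le_mul_right this hw2
      have e3 := (abs_le.mp HG2).2
      rw [hq]
      linarith
    rwa [div_le_iff₀ hn] at e1
  calc |∑ v ∈ I, ∏ t, sg (⌊x t v⌋₊ % 2 ^ W)|
      = |∑ v ∈ I, G (q v) + ∑ v ∈ I, (∏ t, sg (⌊x t v⌋₊ % 2 ^ W) - G (q v))| := by
        rw [← Finset.sum_add_distrib]
        congr 1
        apply Finset.sum_congr rfl
        intro v _
        ring
    _ ≤ |∑ v ∈ I, G (q v)| + |∑ v ∈ I, (∏ t, sg (⌊x t v⌋₊ % 2 ^ W) - G (q v))| :=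
        abs_add_le _ _
    _ ≤ (B + ε / 8) * I.card + ∑ v ∈ I, |∏ t, sg (⌊x t v⌋₊ % 2 ^ W) - G (q v)| := by
        gcongr
        exact Finset.abs_sum_le_sum_abs _ _
    _ ≤ (B + ε / 8) * I.card + ∑ v ∈ I, 2 * G' (q v) := by
        gcongr with v hv
        exact hpt v hv
    _ = (B + ε / 8) * I.card + 2 * ∑ v ∈ I, G' (q v) := by rw [Finset.mul_sum]
    _ ≤ (B + ε / 8) * I.card + 2 * ((ε / 8 + ε / 8) * I.card) := by gcongr
    _ = (B + 5 * ε / 8) * I.card := by ring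
    _ ≤ (B + ε) * I.card := by
        gcongr
        linarith
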