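import Pool.Agent.Lib.MP_8fac0f_nt.C3.Stab

/-!
# Expansion of the cubic polynomial at the points of the window (module EXP)
-/

set_option autoImplicit false

namespace Pool.Agent.Lib.MP_8fac0f_nt.C3

open Finset Filter Topology

/-- `|x| ≤ 2 ^ k`. -/
def EBd (x : ℤ) (k : ℕ) : Prop := |x| ≤ 2 ^ k

theorem EBd.mul {x y : ℤ} {k l : ℕ} (hx : EBd x k) (hy : EBd y l) : EBd (x * y) (k + l) := by
  unfold EBd at *
  rw [abs_mul, pow_add]
  exact mul_le_mul hx hy (abs_nonneg _) (by positivity)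

theorem EBd.mono {x : ℤ} {k l : ℕ} (hx : EBd x k) (h : k ≤ l) : EBd x l :=
  le_trans hx (pow_le_pow_right₀ (by norm_num) h)

theorem EBd.add {x y : ℤ} {k : ℕ} (hx : EBd x k) (hy : EBd y k) : EBd (x + y) (k + 1) := by
  unfold EBd at *
  rw [pow_succ]
  linarith [abs_add_le x y]

theorem EBd.two_pow (k : ℕ) : EBd (2 ^ k) k := by
  unfold EBd; rw [abs_of_pos (by positivity)]

theorem EBd.nat {n k : ℕ} (h : n ≤ 2 ^ k) : EBd (n : ℤ) k := by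
  unfold EBd; rw [Nat.abs_cast]; exact_mod_cast h

theorem EBd.pow {x : ℤ} {k : ℕ} (hx : EBd x k) (n : ℕ) : EBd (x ^ n) (n * k) := by
  induction n with
  | zero => simp [EBd]
  | succ n ih => rw [pow_succ, Nat.add_mul, one_mul]; exact ih.mul hx

/-- Multiplication of `P1` by the shift `x = 2 ^ (2 e + ρ) q r`. -/
theorem exp_xP1 (a b c ν vv q r Y e ρ lam cst : ℕ) (h1 : lam + ρ ≤ 398 * e)
    (h4 : 3 * e + cst ≤ 199 * e)
    (h2 : di (q * P1 a b c ν / 2 ^ (398 * e) - Y / 2 ^ (lam + ρ)) ≤ 1 / 2 ^ (3 * e + cst))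
    (h3 : di (q * (2 * P2 a b ν) / 2 ^ (199 * e)) ≤ 1 / 2 ^ (3 * e + cst)) :
    ∃ z D1 D2 : ℤ, ((2 : ℤ) ^ (2 * e + ρ) * q * r) * P1 a b c (ν + 2 ^ (199 * e) * vv)
      = r * Y * 2 ^ (400 * e - lam) + (2 ^ (2 * e + ρ) * r * D1
        + 2 ^ (2 * e + ρ) * r * vv * 2 ^ (199 * e) * D2) + z * 2 ^ (400 * e + ρ) ∧
      EBd D1 (395 * e - cst) ∧ EBd D2 (196 * e - cst) := by
  obtain ⟨z1, D1, hz1, hD1⟩ := int_of_di (q * P1 a b c ν - Y * 2 ^ (398 * e - (lam + ρ)))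
    (398 * e) (1 / 2 ^ (3 * e + cst)) (by
      refine le_trans (le_of_eq ?_) h2
      congr 1
      push_cast
      rw [sub_div]
      congr 1
      rw [show (2 : ℝ) ^ (398 * e) = 2 ^ (398 * e - (lam + ρ)) * 2 ^ (lam + ρ) by
        rw [← pow_add]; congr 1; omega]
      field_simp)
  obtain ⟨z2, D2, hz2, hD2⟩ := int_of_di (q * (2 * P2 a b ν))
    (199 * e) (1 / 2 ^ (3 * e + cst)) (by push_cast; exact h3)
  have hb : ∀ (D : ℤ) (N M : ℕ), M ≤ N → |(D : ℝ)| ≤ 1 / 2 ^ M * 2 ^ N → EBd D (N - M) := by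
    intro D N M hM hD
    unfold EBd
    have : (1 : ℝ) / 2 ^ M * 2 ^ N = 2 ^ (N - M) := by
      rw [show (2 : ℝ) ^ N = 2 ^ (N - M) * 2 ^ M by rw [← pow_add]; congr 1; omega]
      field_simp
    rw [this] at hD
    exact_mod_cast hD
  refine ⟨3 * a * vv ^ 2 * q * r + r * vv * z2 + r * z1, D1, D2, ?_, ?_, ?_⟩
  · have e1 := P1_add a b c ν (2 ^ (199 * e) * vv)
    rw [e1]
    push_cast
    have p1 : (2 : ℤ) ^ (2 * e + ρ) * 2 ^ (398 * e) = 2 ^ (400 * e + ρ) := by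
      rw [← pow_add]; congr 1; ring
    have p2 : (2 : ℤ) ^ (2 * e + ρ) * 2 ^ (398 * e - (lam + ρ)) = 2 ^ (400 * e - lam) := by
      rw [← pow_add]; congr 1; omega
    have p3 : (2 : ℤ) ^ (199 * e) * 2 ^ (199 * e) = 2 ^ (398 * e) := by
      rw [← pow_add]; congr 1; ring
    have hz1' : (q : ℤ) * P1 a b c ν = Y * 2 ^ (398 * e - (lam + ρ)) + z1 * 2 ^ (398 * e) + D1 := by
      linarith
    calc (2 : ℤ) ^ (2 * e + ρ) * q * r * (P1 a b c ν + 2 * (2 ^ (199 * e) * vv) * P2 a b ν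
          + 3 * a * (2 ^ (199 * e) * vv) ^ 2)
        = 2 ^ (2 * e + ρ) * r * (q * P1 a b c ν) + 2 ^ (2 * e + ρ) * r * vv * 2 ^ (199 * e) *
            (q * (2 * P2 a b ν)) + 3 * a * vv ^ 2 * q * r * (2 ^ (2 * e + ρ) *
              (2 ^ (199 * e) * 2 ^ (199 * e))) := by ring
      _ = 2 ^ (2 * e + ρ) * r * (Y * 2 ^ (398 * e - (lam + ρ)) + z1 * 2 ^ (398 * e) + D1)
            + 2 ^ (2 * e + ρ) * r * vv * 2 ^ (199 * e) * (z2 * 2 ^ (199 * e) + D2)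
            + 3 * a * vv ^ 2 * q * r * (2 ^ (2 * e + ρ) * (2 ^ (199 * e) * 2 ^ (199 * e))) := by
          rw [hz1', hz2]
      _ = r * Y * (2 ^ (2 * e + ρ) * 2 ^ (398 * e - (lam + ρ)))
            + (2 ^ (2 * e + ρ) * r * D1 + 2 ^ (2 * e + ρ) * r * vv * 2 ^ (199 * e) * D2)
            + (r * z1 * (2 ^ (2 * e + ρ) * 2 ^ (398 * e))
              + r * vv * z2 * (2 ^ (2 * e + ρ) * (2 ^ (199 * e) * 2 ^ (199 * e)))
              + 3 * a * vv ^ 2 * q * r * (2 ^ (2 * e + ρ) * (2 ^ (199 * e) * 2 ^ (199 * e)))) := by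
          ring
      _ = _ := by rw [p3, p2, p1]; ring
  · refine (hb D1 _ _ (by omega) hD1).mono (by omega)
  · refine (hb D2 _ _ (by omega) hD2).mono (by omega)

/-- Bound for the arguments. -/
theorem exp_arg (κ s e ν w u : ℕ) (hν : ν ≤ 2 ^ (199 * e)) (hκ : κ ≤ 2 ^ s)
    (hw : w ≤ κ * 2 ^ e + 2 ^ (e / 2)) (hu : u ≤ 2 ^ s) :
    ν + 2 ^ (199 * e) * w + u ≤ 2 ^ (200 * e + s + 3) := by
  have h1 : κ * 2 ^ e ≤ 2 ^ (s + e) := by
    rw [pow_add]; exact Nat.mul_le_mul_right _ hκ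
  have h2 : 2 ^ (e / 2) ≤ 2 ^ (s + e) := Nat.pow_le_pow_right (by norm_num) (by omega)
  have h3 : 2 ^ (199 * e) * w ≤ 2 ^ (199 * e) * (2 * 2 ^ (s + e)) :=
    Nat.mul_le_mul_left _ (by omega)
  have h4 : 2 ^ (199 * e) * (2 * 2 ^ (s + e)) = 2 * 2 ^ (200 * e + s) := by
    rw [show 200 * e + s = 199 * e + (s + e) by ring, pow_add 2 (199 * e)]; ring
  have h5 : 2 ^ (199 * e) ≤ 2 ^ (200 * e + s) := Nat.pow_le_pow_right (by norm_num) (by omega)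
  have h6 : 2 ^ s ≤ 2 ^ (200 * e + s) := Nat.pow_le_pow_right (by norm_num) (by omega)
  have h7 : 2 ^ (200 * e + s + 3) = 8 * 2 ^ (200 * e + s) := by rw [pow_add]; ring
  omega

theorem exp_P2 (a b s k t : ℕ) (ha : 3 * a ≤ 2 ^ s) (hb : b ≤ 2 ^ s) (ht : t ≤ 2 ^ k) :
    EBd (P2 a b t : ℤ) (k + s + 1) := by
  apply EBd.nat
  unfold P2
  have h1 : 3 * a * t ≤ 2 ^ s * 2 ^ k := Nat.mul_le_mul ha ht
  have h2 : 2 ^ s ≤ 2 ^ s * 2 ^ k := Nat.le_mul_of_pos_right _ (by positivity)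
  have h3 : 2 ^ (k + s + 1) = 2 * (2 ^ s * 2 ^ k) := by rw [pow_succ, pow_add]; ring
  omega

/-- The remainder from the shift `x`. -/
theorem exp_shift (a b c d s ν vv u q r Y e ρ lam cst κ : ℕ) (h1 : lam + ρ ≤ 398 * e)
    (h4 : 3 * e + cst ≤ 199 * e)
    (ha : 3 * a ≤ 2 ^ s) (hb : b ≤ 2 ^ s) (hκ : κ ≤ 2 ^ s) (hν : ν ≤ 2 ^ (199 * e))
    (hv : vv ≤ κ * 2 ^ e + 2 ^ (e / 2)) (hu : u ≤ 2 ^ s) (hr : r ≤ 2 ^ s) (hq : q ≤ 2 ^ (60 * e))
    (hρ : ρ ≤ s) (he : 100 * s + 100 * cst + 1000 ≤ e)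
    (h2 : di (q * P1 a b c ν / 2 ^ (398 * e) - Y / 2 ^ (lam + ρ)) ≤ 1 / 2 ^ (3 * e + cst))
    (h3 : di (q * (2 * P2 a b ν) / 2 ^ (199 * e)) ≤ 1 / 2 ^ (3 * e + cst)) :
    ∃ z D : ℤ, (P a b c d (ν + 2 ^ (199 * e) * vv + u + 2 ^ (2 * e + ρ) * q * r) : ℤ)
      = P a b c d (ν + 2 ^ (199 * e) * vv + u) + r * Y * 2 ^ (400 * e - lam) + D
        + z * 2 ^ (400 * e + ρ) ∧ EBd D (398 * e + 3 * s + 6 - cst) := by
  obtain ⟨z, D1, D2, hz, hD1, hD2⟩ := exp_xP1 a b c ν vv q r Y e ρ lam cst h1 h4 h2 h3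
  set n := ν + 2 ^ (199 * e) * vv with hn
  set x := 2 ^ (2 * e + ρ) * q * r with hx
  have hxB : EBd (x : ℤ) (62 * e + 2 * s) := by
    rw [hx]
    push_cast
    exact (((EBd.two_pow (2 * e + ρ)).mul (EBd.nat hq)).mul (EBd.nat hr)).mono (by omega)
  have harg := exp_arg κ s e ν vv u hν hκ hv hu
  rw [← hn] at harg
  have harg0 : n ≤ 2 ^ (200 * e + s + 3) := by omega
  have hP2 := exp_P2 a b s _ _ ha hb harg
  have hP20 := exp_P2 a b s _ _ ha hb harg0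
  have ha' : EBd (a : ℤ) s := EBd.nat (by omega)
  have h3a : EBd (3 * a : ℤ) s := by exact_mod_cast EBd.nat ha
  have hu' : EBd (u : ℤ) s := EBd.nat hu
  have hr' : EBd (r : ℤ) s := EBd.nat hr
  have hv' : EBd (vv : ℤ) (e + s + 1) := by
    apply EBd.nat
    have h1 : κ * 2 ^ e ≤ 2 ^ (e + s) := by
      rw [add_comm, pow_add]; exact Nat.mul_le_mul_right _ hκ
    have h2 : 2 ^ (e / 2) ≤ 2 ^ (e + s) := Nat.pow_le_pow_right (by norm_num) (by omega)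
    rw [pow_succ]; omega
  refine ⟨z, (2 ^ (2 * e + ρ) * r * D1 + 2 ^ (2 * e + ρ) * r * vv * 2 ^ (199 * e) * D2)
    + (x * (2 * u * P2 a b n) + x * (3 * a * u ^ 2) + (x ^ 2 * P2 a b (n + u) + a * x ^ 3)),
    ?_, ?_⟩
  · have e1 := P_add a b c d (n + u) x
    have e2 := P1_add a b c n u
    rw [e1]
    have e3 : ((x * P1 a b c (n + u) : ℕ) : ℤ) = x * P1 a b c n + (x * (2 * u * P2 a b n)
        + x * (3 * a * u ^ 2)) := by
      rw [e2]; push_cast; ring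
    have e4 : (x : ℤ) * P1 a b c n = r * Y * 2 ^ (400 * e - lam) + (2 ^ (2 * e + ρ) * r * D1
        + 2 ^ (2 * e + ρ) * r * vv * 2 ^ (199 * e) * D2) + z * 2 ^ (400 * e + ρ) := by
      rw [← hz, hx]; push_cast; ring
    rw [e4] at e3
    push_cast at e3 ⊢
    rw [e3]
    ring
  · have t6 : EBd (2 ^ (2 * e + ρ) * r * D1) (398 * e + 3 * s + 2 - cst) :=
      (((EBd.two_pow (2 * e + ρ)).mul hr').mul hD1).mono (by omega)
    have t7 : EBd (2 ^ (2 * e + ρ) * r * vv * 2 ^ (199 * e) * D2) (398 * e + 3 * s + 2 - cst + 1) :=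
      (((((EBd.two_pow (2 * e + ρ)).mul hr').mul hv').mul (EBd.two_pow _)).mul hD2).mono (by omega)
    have t8 : EBd (x * (2 * u * P2 a b n)) (398 * e + 3 * s + 2 - cst) := by
      have h2 : EBd (2 : ℤ) 1 := by simp [EBd]
      exact (hxB.mul ((h2.mul hu').mul hP20)).mono (by omega)
    have t9 : EBd (x * (3 * a * u ^ 2)) (398 * e + 3 * s + 2 - cst) :=
      (hxB.mul (h3a.mul (hu'.pow 2))).mono (by omega)
    have t10 : EBd (x ^ 2 * P2 a b (n + u)) (398 * e + 3 * s + 2 - cst) :=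
      ((hxB.pow 2).mul hP2).mono (by omega)
    have t11 : EBd (a * x ^ 3) (398 * e + 3 * s + 2 - cst) :=
      (ha'.mul (hxB.pow 3)).mono (by omega)
    have s1 := (t6.mono (show _ ≤ 398 * e + 3 * s + 2 - cst + 1 by omega)).add t7
    have s2 := ((t8.add t9).add (t10.add t11))
    exact (s1.add (s2.mono (show _ ≤ 398 * e + 3 * s + 2 - cst + 1 + 1 by omega))).mono (by omega)

theorem expand (a b c d Umax κ R ρ lam : ℕ) : ∀ᶠ e : ℕ in atTop, ∀ ν v m u q r Y : ℕ,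
    ν < 2 ^ (199 * e) → v ≤ κ * 2 ^ e → m ≤ 2 ^ (e / 2) → u ≤ Umax → r < R →
    q ≤ 2 ^ (60 * e) →
    di (q * P1 a b c ν / 2 ^ (398 * e) - Y / 2 ^ (lam + ρ)) ≤ 1 / 2 ^ (3 * e) →
    di (q * (2 * P2 a b ν) / 2 ^ (199 * e)) ≤ 1 / 2 ^ (3 * e) → ∀ w1 : ℕ, w1 ≤ 1 →
    ∃ D z : ℤ,
      (P a b c d (ν + 2 ^ (199 * e) * (v + m) + u + w1 * (2 ^ (2 * e + ρ) * q * r)) : ℤ)
        = P a b c d (ν + 2 ^ (199 * e) * v) + m * (2 ^ (199 * e) * P1 a b c (ν + 2 ^ (199 * e) * v))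
          + m ^ 2 * (2 ^ (398 * e) * P2 a b ν) + u * P1 a b c (ν + 2 ^ (199 * e) * v)
          + w1 * (r * Y * 2 ^ (400 * e - lam)) + D + z * 2 ^ (400 * e + ρ) ∧
      |D| ≤ 2 ^ (400 * e - e / 4) := by
  set s := 3 * a + b + Umax + κ + R + ρ + lam with hs
  have hpow : ∀ t : ℕ, t ≤ s → t ≤ 2 ^ s := fun t ht =>
    ht.trans (Nat.lt_two_pow_self).le
  filter_upwards [eventually_ge_atTop (100 * s + 1000)] with e he
  intro ν v m u q r Y hν hv hm hu hr hq h2 h3 w1 hw1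
  have ha : 3 * a ≤ 2 ^ s := hpow _ (by omega)
  have hb : b ≤ 2 ^ s := hpow _ (by omega)
  have hκ : κ ≤ 2 ^ s := hpow _ (by omega)
  have hu' : u ≤ 2 ^ s := hpow _ (by omega)
  have hr' : r ≤ 2 ^ s := hpow _ (by omega)
  have ha1 : EBd (a : ℤ) s := EBd.nat (by omega)
  have h3a : EBd (3 * a : ℤ) s := by exact_mod_cast EBd.nat ha
  have hu1 : EBd (u : ℤ) s := EBd.nat hu'
  have hm1 : EBd (m : ℤ) (e / 2) := EBd.nat hm
  have h21 : EBd (2 : ℤ) 1 := by simp [EBd]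
  set n := ν + 2 ^ (199 * e) * v with hn
  have hn1 : n ≤ 2 ^ (200 * e + s + 3) := by
    have := exp_arg κ s e ν v 0 hν.le hκ (by omega) (Nat.zero_le _)
    simpa using this
  have hP2 := exp_P2 a b s _ _ ha hb hn1
  -- the unshifted expansion
  have hz0 : (P a b c d (ν + 2 ^ (199 * e) * (v + m) + u) : ℤ)
        = P a b c d n + m * (2 ^ (199 * e) * P1 a b c n)
          + m ^ 2 * (2 ^ (398 * e) * P2 a b ν) + u * P1 a b c n
          + (2 * (2 ^ (199 * e) * m * u) * P2 a b n + u ^ 2 * P2 a b n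
            + (3 * a * (2 ^ (398 * e) * m ^ 2 * u) + 3 * a * (2 ^ (199 * e) * m * u ^ 2)
              + a * u ^ 3))
          + (3 * a * v * m ^ 2 + a * m ^ 3) * 2 ^ (197 * e - ρ) * 2 ^ (400 * e + ρ) := by
    have e0 : ν + 2 ^ (199 * e) * (v + m) + u = n + (2 ^ (199 * e) * m + u) := by
      rw [hn]; ring
    rw [e0, P_add]
    have e1 : (P2 a b n : ℤ) = P2 a b ν + 3 * a * (2 ^ (199 * e) * v) := by
      rw [hn, P2_add]; push_cast; ring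
    have p3 : (2 : ℤ) ^ (398 * e) = 2 ^ (199 * e) * 2 ^ (199 * e) := by
      rw [← pow_add]; congr 1; ring
    have p4 : (2 : ℤ) ^ (197 * e - ρ) * 2 ^ (400 * e + ρ)
        = 2 ^ (199 * e) * 2 ^ (199 * e) * 2 ^ (199 * e) := by
      rw [← pow_add, ← pow_add, ← pow_add]; congr 1; omega
    push_cast
    rw [mul_assoc ((3 : ℤ) * a * v * m ^ 2 + a * m ^ 3), p4, p3, e1]
    ring
  have t1 : EBd (2 * (2 ^ (199 * e) * m * u) * P2 a b n) (399 * e + e / 2 + 3 * s + 5) :=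
    ((h21.mul (((EBd.two_pow _).mul hm1).mul hu1)).mul hP2).mono (by omega)
  have t2 : EBd ((u : ℤ) ^ 2 * P2 a b n) (399 * e + e / 2 + 3 * s + 5) :=
    ((hu1.pow 2).mul hP2).mono (by omega)
  have t3 : EBd (3 * a * (2 ^ (398 * e) * m ^ 2 * u)) (399 * e + e / 2 + 3 * s + 5) :=
    (h3a.mul (((EBd.two_pow _).mul (hm1.pow 2)).mul hu1)).mono (by omega)
  have t4 : EBd (3 * a * (2 ^ (199 * e) * m * u ^ 2)) (399 * e + e / 2 + 3 * s + 5) :=
    (h3a.mul (((EBd.two_pow _).mul hm1).mul (hu1.pow 2))).mono (by omega)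
  have t5 : EBd (a * (u : ℤ) ^ 3) (399 * e + e / 2 + 3 * s + 5 + 1) :=
    (ha1.mul (hu1.pow 3)).mono (by omega)
  have hD0 := ((t1.add t2).mono (show _ ≤ 399 * e + e / 2 + 3 * s + 7 by omega)).add
    (((t3.add t4).add t5).mono (show _ ≤ 399 * e + e / 2 + 3 * s + 7 by omega))
  obtain rfl | rfl : w1 = 0 ∨ w1 = 1 := by omega
  · refine ⟨2 * (2 ^ (199 * e) * m * u) * P2 a b n + u ^ 2 * P2 a b n
            + (3 * a * (2 ^ (398 * e) * m ^ 2 * u) + 3 * a * (2 ^ (199 * e) * m * u ^ 2)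
              + a * u ^ 3), (3 * a * v * m ^ 2 + a * m ^ 3) * 2 ^ (197 * e - ρ), ?_, ?_⟩
    · rw [zero_mul, add_zero, hz0]
      push_cast
      ring
    · exact (hD0.mono (show _ ≤ 400 * e - e / 4 by omega) : EBd _ _)
  · obtain ⟨z, D, hz, hD⟩ := exp_shift a b c d s ν (v + m) u q r Y e ρ lam 0 κ (by omega)
      (by omega) ha hb hκ hν.le (by omega) hu' hr' hq (by omega) (by omega) (by simpa using h2)
      (by simpa using h3)
    refine ⟨2 * (2 ^ (199 * e) * m * u) * P2 a b n + u ^ 2 * P2 a b n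
            + (3 * a * (2 ^ (398 * e) * m ^ 2 * u) + 3 * a * (2 ^ (199 * e) * m * u ^ 2)
              + a * u ^ 3) + D, (3 * a * v * m ^ 2 + a * m ^ 3) * 2 ^ (197 * e - ρ) + z, ?_, ?_⟩
    · rw [one_mul, hz, hz0]
      push_cast
      ring
    · exact ((hD0.add (hD.mono (by omega))).mono (show _ ≤ 400 * e - e / 4 by omega) : EBd _ _)

end Pool.Agent.Lib.MP_8fac0f_nt.C3
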