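import Pool.Agent.Lib.MP_8fac0f_nt.C3.QW

/-!
# Weyl sums for good `ν`
-/

set_option autoImplicit false

namespace Pool.Agent.Lib.MP_8fac0f_nt.C3

open Finset Filter Topology

theorem di_natAbs (z : ℤ) (x : ℝ) : di ((z.natAbs : ℝ) * x) = di ((z : ℝ) * x) := by
  obtain ⟨n, rfl | rfl⟩ := z.eq_nat_or_neg
  · simp
  · rw [Int.natAbs_neg, Int.natAbs_natCast]
    push_cast
    rw [neg_mul, di_neg]

theorem weyl_good (a b c d ρ κ Ξ : ℕ) (ε0 : ℝ) (hε0 : 0 < ε0) : ∀ᶠ e : ℕ in atTop,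
    ∀ ν < 2 ^ (199 * e), Good a b ρ κ Ξ e ν → ∀ ξ m : ℤ,
      ((ξ ≠ 0 ∧ |ξ| ≤ Ξ) ∨ (ξ = 0 ∧ m ≠ 0 ∧ |m| ≤ Ξ * 2 ^ (e / 2))) →
      ∀ v1 v2 : ℕ, v1 ≤ v2 → v2 ≤ κ * 2 ^ e →
      ‖∑ v ∈ Ico v1 v2, ex (ξ * (P a b c d (ν + 2 ^ (199 * e) * v) / 2 ^ (400 * e + ρ))
        + m * (2 ^ (199 * e) * P1 a b c (ν + 2 ^ (199 * e) * v) / 2 ^ (400 * e + ρ)))‖
        ≤ ε0 * 2 ^ e := by
  obtain ⟨n1, hn1⟩ := pow_unbounded_of_one_lt (4 * κ / ε0 ^ 2) (by norm_num : (1 : ℝ) < 2)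
  obtain ⟨n2, hn2⟩ := pow_unbounded_of_one_lt (1 / (2 * ε0)) (by norm_num : (1 : ℝ) < 2)
  filter_upwards [eventually_ge_atTop ρ, eventually_ge_atTop (4 * n1),
    eventually_ge_atTop (4 * n2)] with e he0 he1 he2
  intro ν _ hgood ξ m hξm v1 v2 hv hv2
  set C' : ℝ := (P2 a b ν : ℝ) / 2 ^ (2 * e + ρ) with hC'
  set A : ℝ := (P a b c d ν : ℝ) / 2 ^ (400 * e + ρ) with hA
  set B : ℝ := 2 ^ (199 * e) * (P1 a b c ν : ℝ) / 2 ^ (400 * e + ρ) with hB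
  -- powers of two
  have p1 : (2 : ℝ) ^ (199 * e) * 2 ^ (199 * e) = 2 ^ (400 * e + ρ) / 2 ^ (2 * e + ρ) := by
    rw [eq_div_iff (by positivity), ← pow_add, ← pow_add]; congr 1; ring
  have p2 : (2 : ℝ) ^ (199 * e) * 2 ^ (199 * e) * 2 ^ (199 * e)
      = 2 ^ (400 * e + ρ) * 2 ^ (197 * e - ρ) := by
    rw [← pow_add, ← pow_add, ← pow_add]; congr 1; omega
  have hK : (2 : ℝ) ^ (400 * e + ρ) ≠ 0 := by positivity
  have hexp : ∀ v : ℕ, (P a b c d (ν + 2 ^ (199 * e) * v) : ℝ) / 2 ^ (400 * e + ρ)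
      = A + B * v + C' * v ^ 2 + ((a * v ^ 3 * 2 ^ (197 * e - ρ) : ℕ) : ℤ) := by
    intro v
    rw [P_add]
    push_cast
    have e1 : (2 ^ (199 * e) * (v : ℝ)) ^ 2 * (P2 a b ν : ℝ)
        = (2 ^ (199 * e) * 2 ^ (199 * e)) * (v ^ 2 * (P2 a b ν : ℝ)) := by ring
    have e2 : (a : ℝ) * (2 ^ (199 * e) * (v : ℝ)) ^ 3
        = a * v ^ 3 * (2 ^ (199 * e) * 2 ^ (199 * e) * 2 ^ (199 * e)) := by ring
    rw [e1, e2, p2, p1, hA, hB, hC']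
    field_simp
  have hexp1 : ∀ v : ℕ, (2 : ℝ) ^ (199 * e) * (P1 a b c (ν + 2 ^ (199 * e) * v) : ℝ)
        / 2 ^ (400 * e + ρ)
      = B + 2 * C' * v + ((3 * a * v ^ 2 * 2 ^ (197 * e - ρ) : ℕ) : ℤ) := by
    intro v
    rw [P1_add]
    push_cast
    have e1 : (2 : ℝ) ^ (199 * e) * ((P1 a b c ν : ℝ) + 2 * (2 ^ (199 * e) * v) * (P2 a b ν : ℝ)
          + 3 * a * (2 ^ (199 * e) * v) ^ 2)
        = 2 ^ (199 * e) * (P1 a b c ν : ℝ)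
          + (2 ^ (199 * e) * 2 ^ (199 * e)) * (2 * v * (P2 a b ν : ℝ))
          + 3 * a * v ^ 2 * (2 ^ (199 * e) * 2 ^ (199 * e) * 2 ^ (199 * e)) := by ring
    rw [e1, p2, p1, hB, hC']
    field_simp
  have hterm : ∀ v : ℕ, ex (ξ * (P a b c d (ν + 2 ^ (199 * e) * v) / 2 ^ (400 * e + ρ))
        + m * (2 ^ (199 * e) * P1 a b c (ν + 2 ^ (199 * e) * v) / 2 ^ (400 * e + ρ)))
      = ex (ξ * A + m * B) * ex (ξ * C' * v ^ 2 + (ξ * B + 2 * m * C') * v) := by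
    intro v
    rw [hexp, hexp1, ← ex_add]
    have : (ξ : ℝ) * (A + B * v + C' * v ^ 2 + ((a * v ^ 3 * 2 ^ (197 * e - ρ) : ℕ) : ℤ))
        + m * (B + 2 * C' * v + ((3 * a * v ^ 2 * 2 ^ (197 * e - ρ) : ℕ) : ℤ))
        = (ξ * A + m * B + (ξ * C' * v ^ 2 + (ξ * B + 2 * m * C') * v))
          + ((ξ * ((a * v ^ 3 * 2 ^ (197 * e - ρ) : ℕ) : ℤ)
            + m * ((3 * a * v ^ 2 * 2 ^ (197 * e - ρ) : ℕ) : ℤ) : ℤ) : ℝ) := by
      push_cast; ring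
    rw [this, ex_add_int]
  simp_rw [hterm]
  rw [← Finset.mul_sum, norm_mul, norm_ex, one_mul]
  have hT : (2 : ℝ) ^ e = 2 ^ (e - e / 4) * 2 ^ (e / 4) := by
    rw [← pow_add]; congr 1; omega
  rcases hξm with ⟨hξ, hξΞ⟩ | ⟨hξ, hm, hmΞ⟩
  · -- quadratic sums
    have hq := quad_weyl (ξ * C') (ξ * B + 2 * m * C') (1 / 2 ^ (e / 2)) (by positivity)
      (κ * 2 ^ e) v1 v2 (by omega)
    have hz1 : 1 ≤ ξ.natAbs := Int.natAbs_pos.2 hξ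
    have hz2 : ξ.natAbs ≤ Ξ := by
      have : ((ξ.natAbs : ℕ) : ℤ) ≤ Ξ := by rw [Int.natCast_natAbs]; exact hξΞ
      exact_mod_cast this
    have hbad := hgood.1 ξ.natAbs (κ * 2 ^ e) hz1 hz2 le_rfl
    have hsame : ((Ico 1 (κ * 2 ^ e)).filter fun t : ℕ => di (2 * t * (ξ * C')) < 1 / 2 ^ (e / 2))
        = ((Ico 1 (κ * 2 ^ e)).filter fun t : ℕ => di (2 * t * ξ.natAbs
          * (P2 a b ν / 2 ^ (2 * e + ρ) : ℝ)) < 1 / 2 ^ (e / 2)) := by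
      refine Finset.filter_congr fun t _ => ?_
      have : di (2 * t * (ξ * C')) = di (2 * t * ξ.natAbs * (P2 a b ν / 2 ^ (2 * e + ρ) : ℝ)) := by
        have h := di_natAbs ξ (2 * t * C')
        rw [← hC']
        rw [show 2 * (t : ℝ) * (ξ * C') = (ξ : ℝ) * (2 * t * C') by ring, ← h]
        congr 1; ring
      rw [this]
    rw [hsame] at hq
    set nb := ((Ico 1 (κ * 2 ^ e)).filter fun t : ℕ => di (2 * t * ξ.natAbs
          * (P2 a b ν / 2 ^ (2 * e + ρ) : ℝ)) < 1 / 2 ^ (e / 2)).card with hnb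
    have hbad' : (nb : ℝ) ≤ 2 ^ (e - e / 4) := by exact_mod_cast hbad
    have h1 : (2 : ℝ) ^ (e / 2) ≤ 2 ^ (e - e / 4) :=
      pow_le_pow_right₀ (by norm_num) (by omega)
    have h2 : (1 : ℝ) ≤ 2 ^ (e - e / 4) := one_le_pow₀ (by norm_num)
    have h3 : (2 : ℝ) ^ n1 ≤ 2 ^ (e / 4) := pow_le_pow_right₀ (by norm_num) (by omega)
    have h4 : 4 * κ ≤ ε0 ^ 2 * 2 ^ (e / 4) := by
      have := hn1.le.trans h3
      rw [div_le_iff₀ (by positivity)] at this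
      linarith
    have hq' : ‖∑ v ∈ Ico v1 v2, ex (ξ * C' * v ^ 2 + (ξ * B + 2 * m * C') * v)‖ ^ 2
        ≤ (ε0 * 2 ^ e) ^ 2 := by
      refine hq.trans ?_
      push_cast
      have hdiv : (κ : ℝ) * 2 ^ e / (1 / 2 ^ (e / 2)) = κ * 2 ^ e * 2 ^ (e / 2) := by
        field_simp
      rw [hdiv]
      have hV0 : (0 : ℝ) ≤ κ * 2 ^ e := by positivity
      have s1 : (κ : ℝ) * 2 ^ e + 2 * (κ * 2 ^ e) * nb + κ * 2 ^ e * 2 ^ (e / 2)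
          ≤ κ * 2 ^ e * (4 * 2 ^ (e - e / 4)) := by nlinarith
      refine s1.trans ?_
      have s2 : (κ : ℝ) * 2 ^ e * (4 * 2 ^ (e - e / 4)) = (4 * κ) * (2 ^ e * 2 ^ (e - e / 4)) := by
        ring
      have s3 : (ε0 * 2 ^ e) ^ 2 = (ε0 ^ 2 * 2 ^ (e / 4)) * (2 ^ e * 2 ^ (e - e / 4)) := by
        rw [mul_pow, sq ((2 : ℝ) ^ e)]
        nth_rewrite 2 [hT]
        ring
      rw [s2, s3]
      exact mul_le_mul_of_nonneg_right h4 (by positivity)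
    exact (pow_le_pow_iff_left₀ (norm_nonneg _) (by positivity) two_ne_zero).1 hq'
  · -- linear sums
    subst hξ
    have hm1 : 1 ≤ m.natAbs := Int.natAbs_pos.2 hm
    have hm2 : m.natAbs ≤ Ξ * 2 ^ (e / 2) := by
      have : ((m.natAbs : ℕ) : ℤ) ≤ Ξ * 2 ^ (e / 2) := by rw [Int.natCast_natAbs]; exact hmΞ
      exact_mod_cast this
    have hd := hgood.2 m.natAbs hm1 hm2
    have hd' : 1 / 2 ^ (e - e / 4) ≤ di (2 * m * C') := by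
      refine hd.trans (le_of_eq ?_)
      have h := di_natAbs m (2 * C')
      rw [← hC']
      rw [show 2 * (m : ℝ) * C' = (m : ℝ) * (2 * C') by ring, ← h]
      congr 1; ring
    have hl := lin_weyl (2 * m * C') (1 / 2 ^ (e - e / 4)) (by positivity) hd' v1 v2
    have hs : ∀ v : ℕ, ((0 : ℤ) : ℝ) * C' * v ^ 2 + (((0 : ℤ) : ℝ) * B + 2 * m * C') * v
        = 2 * m * C' * v := by intro v; push_cast; ring
    simp_rw [hs]
    refine hl.trans ?_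
    have h3 : (2 : ℝ) ^ n2 ≤ 2 ^ (e / 4) := pow_le_pow_right₀ (by norm_num) (by omega)
    have h4 : 1 ≤ 2 * ε0 * 2 ^ (e / 4) := by
      have := hn2.le.trans h3
      rw [div_le_iff₀ (by positivity)] at this
      linarith
    have h5 : 1 / (2 * (1 / 2 ^ (e - e / 4))) = (2 : ℝ) ^ (e - e / 4) / 2 := by
      field_simp
    rw [h5, hT]
    have : (0 : ℝ) < 2 ^ (e - e / 4) := by positivity
    nlinarith

end Pool.Agent.Lib.MP_8fac0f_nt.C3
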