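import Pool.Agent.Lib.MP_8fac0f_nt.C3.CONTR
import Pool.Agent.Lib.MP_8fac0f_nt.C3.EvalB
import Pool.Agent.Lib.MP_8fac0f_nt.C3.WGood
import Pool.Agent.Lib.MP_8fac0f_nt.C3.Exp
import Pool.Agent.Lib.MP_8fac0f_nt.C3.Dig
import Pool.Agent.Lib.MP_8fac0f_nt.C3.Cells

/-!
# BEVAL: the window `[2k - lam, 2k + rho)` for one good `ν`
-/

set_option autoImplicit false

namespace Pool.Agent.Lib.MP_8fac0f_nt.C3

open Finset Filter Topology
open Pool.Agent.Lib.MP_8fac0f_nt.N (sg CorrZero)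

theorem rep_succ (y0 l0 B : ℕ) : rep y0 l0 (B + 1) = rep y0 l0 B + y0 * 2 ^ (B * l0) := by
  unfold rep; rw [sum_range_succ]

theorem rep_lt (y0 l0 B : ℕ) (hy : y0 < 2 ^ l0) : rep y0 l0 B < 2 ^ (B * l0) := by
  induction B with
  | zero => simp [rep]
  | succ B ih =>
    rw [rep_succ, add_mul, one_mul, pow_add]
    have h1 : (y0 + 1) * 2 ^ (B * l0) ≤ 2 ^ l0 * 2 ^ (B * l0) := Nat.mul_le_mul_right _ hy
    nlinarith

theorem rep_block (y0 l0 B i : ℕ) (_hl : 1 ≤ l0) (hy : y0 < 2 ^ l0) (hi : i < B) :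
    rep y0 l0 B / 2 ^ (i * l0) % 2 ^ l0 = y0 := by
  induction B with
  | zero => omega
  | succ B ih =>
    rw [rep_succ]
    rcases Nat.lt_succ_iff_lt_or_eq.mp hi with h | h
    · obtain ⟨k, rfl⟩ : ∃ k, B = i + 1 + k := ⟨B - (i + 1), by omega⟩
      have e1 : y0 * 2 ^ ((i + 1 + k) * l0) = 2 ^ (i * l0) * (2 ^ l0 * (y0 * 2 ^ (k * l0))) := by
        rw [show (i + 1 + k) * l0 = i * l0 + l0 + k * l0 by ring, pow_add, pow_add]; ring
      rw [e1, Nat.add_mul_div_left _ _ (by positivity), Nat.add_mul_mod_self_left]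
      exact ih h
    · subst h
      rw [mul_comm y0, Nat.add_mul_div_left _ _ (by positivity),
        Nat.div_eq_of_lt (rep_lt y0 l0 i hy), zero_add, Nat.mod_eq_of_lt hy]

/-- Coefficients of the linear forms. -/
def CC {M : ℕ} {S : Type} (t : Finset (Fin M) × S) (i : Option (Fin M)) : ℕ :=
  i.elim 1 fun k => if k ∈ t.1 then 1 else 0

theorem CC_none {M : ℕ} {S : Type} (t : Finset (Fin M) × S) : CC t none = 1 := rfl

theorem CC_some {M : ℕ} {S : Type} (t : Finset (Fin M) × S) (k : Fin M) :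
    CC t (some k) = if k ∈ t.1 then 1 else 0 := rfl

theorem sum_CC_le {M : ℕ} {S : Type} (t : Finset (Fin M) × S) : ∑ i, CC t i ≤ M + 1 := by
  rw [Fintype.sum_option, CC_none]
  have : ∑ k, CC t (some k) ≤ ∑ _k : Fin M, 1 := by
    apply sum_le_sum
    intro k _
    rw [CC_some]; split_ifs <;> simp
  simp at this
  omega

theorem contr_use (M R : ℕ) (U : Finset ℕ) (hU : U.Nonempty) :
    ∃ (l0 x0 y0 : ℕ) (δ : ℝ), 1 ≤ l0 ∧ x0 < 2 ^ l0 ∧ y0 < 2 ^ l0 ∧ 0 < δ ∧ δ ≤ 1 ∧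
      ∀ l1 r0 r : ℕ, 1 ≤ r → r < R → ∀ (κr : Finset (Fin M) → ℝ), (∀ g, 0 ≤ κr g) →
      ∀ Xr : ℝ, 0 ≤ Xr → ∀ c : Finset (Fin M) × ↥(U ×ˢ range 2) → ℕ,
      (∀ t, ⌊κr t.1 + t.2.1.1 * Xr + t.2.1.2 * r * rep y0 l0 (l1 + r0)⌋₊ ≤ c t ∧
        c t ≤ ⌊κr t.1 + t.2.1.1 * Xr + t.2.1.2 * r * rep y0 l0 (l1 + r0)⌋₊ + ∑ i, CC t i + 1) →
      |∑ p ∈ Fintype.piFinset (fun _ : Option (Fin M) => range (2 ^ ((l1 + r0) * l0))),
        ∏ t, sg ((∑ i, CC t i * p i + c t) % 2 ^ ((l1 + r0) * l0))|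
      ≤ (1 - δ) ^ (((range l1).filter fun i => ⌊Xr⌋₊ / 2 ^ (i * l0) % 2 ^ l0 = x0).card)
          * 2 ^ ((l1 + r0) * l0 * (M + 1)) := by
  classical
  obtain ⟨l0, x0, y0, δ, hl0, hx0, hy0, hδ, hδ1, H⟩ := contr (G := Finset (Fin M)) (D := Fin M)
    (fun w i => if i ∈ w then 1 else 0) univ (by
      intro g hg
      obtain ⟨i, hi⟩ : ∃ i, i ∉ g := by
        by_contra hcon
        push Not at hcon
        exact hg (eq_univ_iff_forall.mpr hcon)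
      exact ⟨i, by simp [hi], by simp⟩)
    ((Ico 1 R).image fun r => (U ×ˢ range 2).image fun s : ℕ × ℕ => (s.1, s.2 * r)) (by
      intro O hO
      obtain ⟨r, -, rfl⟩ := mem_image.mp hO
      exact (hU.product ⟨0, by simp⟩).image _)
    (U.sup id + M + 3)
  refine ⟨l0, x0, y0, δ, hl0, hx0, hy0, hδ, hδ1, ?_⟩
  intro l1 r0 r hr1 hrR κr hκ Xr hX c hc
  set B := l1 + r0 with hB
  set Y := rep y0 l0 B with hY
  set O : Finset (ℕ × ℕ) := (U ×ˢ range 2).image fun s : ℕ × ℕ => (s.1, s.2 * r) with hO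
  have hOO : O ∈ ((Ico 1 R).image fun r => (U ×ˢ range 2).image fun s : ℕ × ℕ => (s.1, s.2 * r)) :=
    mem_image.mpr ⟨r, by simp [hr1, hrR], rfl⟩
  have hlow : ∀ t : Finset (Fin M) × ↥(U ×ˢ range 2),
      ⌊κr t.1⌋₊ + t.2.1.1 * ⌊Xr⌋₊ + (t.2.1.2 * r) * Y ≤ c t := by
    intro t
    refine le_trans ?_ (hc t).1
    apply Nat.le_floor
    push_cast
    have h1 := Nat.floor_le (hκ t.1)
    have h2 := Nat.floor_le hX
    have h3 : (t.2.1.1 : ℝ) * ⌊Xr⌋₊ ≤ t.2.1.1 * Xr :=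
      mul_le_mul_of_nonneg_left h2 (Nat.cast_nonneg _)
    linarith
  have hupp : ∀ t : Finset (Fin M) × ↥(U ×ˢ range 2),
      c t ≤ ⌊κr t.1⌋₊ + t.2.1.1 * ⌊Xr⌋₊ + (t.2.1.2 * r) * Y + (U.sup id + M + 3) := by
    intro t
    have h0 : ⌊κr t.1 + t.2.1.1 * Xr + t.2.1.2 * r * Y⌋₊
        ≤ ⌊κr t.1⌋₊ + t.2.1.1 * ⌊Xr⌋₊ + (t.2.1.2 * r) * Y + (1 + t.2.1.1) := by
      have h1 := Nat.lt_floor_add_one (κr t.1)
      have h2 := Nat.lt_floor_add_one Xr
      have h3 : (t.2.1.1 : ℝ) * Xr ≤ t.2.1.1 * (⌊Xr⌋₊ + 1) :=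
        mul_le_mul_of_nonneg_left h2.le (Nat.cast_nonneg _)
      have hnn : (0 : ℝ) ≤ κr t.1 + t.2.1.1 * Xr + t.2.1.2 * r * Y := by
        have := hκ t.1
        positivity
      have h4 := Nat.floor_le hnn
      have h5 : ((⌊κr t.1 + t.2.1.1 * Xr + t.2.1.2 * r * Y⌋₊ : ℕ) : ℝ) <
          ((⌊κr t.1⌋₊ + t.2.1.1 * ⌊Xr⌋₊ + (t.2.1.2 * r) * Y + (1 + t.2.1.1) : ℕ) : ℝ) := by
        push_cast
        linarith
      exact (Nat.cast_lt.mp h5).le
    have h6 := (hc t).2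
    have h7 := sum_CC_le t
    have h8 : t.2.1.1 ≤ U.sup id := Finset.le_sup (f := id) (mem_product.mp t.2.2).1
    omega
  set c' : Finset (Fin M) → ℕ × ℕ → ℕ := fun g o =>
    if h : (o.1, o.2 / r) ∈ U ×ˢ range 2 then
      c (g, ⟨(o.1, o.2 / r), h⟩) - (⌊κr g⌋₊ + o.1 * ⌊Xr⌋₊ + o.2 / r * r * Y) else 0 with hc'
  have hc'le : ∀ g o, c' g o ≤ U.sup id + M + 3 := by
    intro g o
    simp only [hc']
    split_ifs with h
    · have := hupp (g, ⟨(o.1, o.2 / r), h⟩)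
      simp only at this
      omega
    · exact Nat.zero_le _
  have key := H B O hOO (fun g => ⌊κr g⌋₊) ⌊Xr⌋₊ Y c' hc'le
  have hcount : ((range l1).filter fun i => ⌊Xr⌋₊ / 2 ^ (i * l0) % 2 ^ l0 = x0).card ≤
      ((range B).filter fun i => ⌊Xr⌋₊ / 2 ^ (i * l0) % 2 ^ l0 = x0 ∧
        Y / 2 ^ (i * l0) % 2 ^ l0 = y0).card := by
    apply card_le_card
    intro i hi
    rw [mem_filter, mem_range] at hi ⊢
    exact ⟨by omega, hi.2, rep_block y0 l0 B i hl0 hy0 (by omega)⟩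
  have hpow : (1 - δ) ^ ((range B).filter fun i => ⌊Xr⌋₊ / 2 ^ (i * l0) % 2 ^ l0 = x0 ∧
        Y / 2 ^ (i * l0) % 2 ^ l0 = y0).card ≤
      (1 - δ) ^ ((range l1).filter fun i => ⌊Xr⌋₊ / 2 ^ (i * l0) % 2 ^ l0 = x0).card :=
    pow_le_pow_of_le_one (by linarith) (by linarith) hcount
  have hsum : ∀ p : Option (Fin M) → ℕ,
      ∏ t, sg ((∑ i, CC t i * p i + c t) % 2 ^ (B * l0)) =
      ∏ g : Finset (Fin M), ∏ o ∈ O, sg ((p none + ∑ i, (if i ∈ g then 1 else 0) * p (some i)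
        + ⌊κr g⌋₊ + o.1 * ⌊Xr⌋₊ + o.2 * Y + c' g o) % 2 ^ (B * l0)) := by
    intro p
    rw [Fintype.prod_prod_type]
    refine prod_congr rfl fun g _ => ?_
    rw [hO, prod_image, ← prod_coe_sort (U ×ˢ range 2)]
    · refine prod_congr rfl fun s _ => ?_
      have hs : s.1.2 * r / r = s.1.2 := Nat.mul_div_cancel _ hr1
      have h1 : c' g (s.1.1, s.1.2 * r) = c (g, s) - (⌊κr g⌋₊ + s.1.1 * ⌊Xr⌋₊ + s.1.2 * r * Y) := by
        simp only [hc', hs]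
        rw [dif_pos s.2]
      have h2 := hlow (g, s)
      simp only at h2
      have h3 : ∑ i, CC (g, s) i * p i + c (g, s) =
          p none + ∑ i, (if i ∈ g then 1 else 0) * p (some i)
            + ⌊κr g⌋₊ + s.1.1 * ⌊Xr⌋₊ + s.1.2 * r * Y + c' g (s.1.1, s.1.2 * r) := by
        rw [Fintype.sum_option, h1]
        simp only [CC_none, CC_some, one_mul]
        omega
      simp only
      rw [h3]
    · intro s _ s' _ hss
      simp only [Prod.mk.injEq] at hss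
      exact Prod.ext hss.1 (Nat.eq_of_mul_eq_mul_right hr1 hss.2)
  rw [sum_congr rfl fun p _ => hsum p]
  refine key.trans ?_
  rw [Fintype.card_fin]
  exact mul_le_mul_of_nonneg_right hpow (by positivity)

/-! ### Subintervals -/

theorem pieces (V H : ℕ) (hH : 1 ≤ H) (f : ℕ → ℝ) :
    ∑ v ∈ range V, f v = ∑ h ∈ range H, ∑ v ∈ Ico (h * V / H) ((h + 1) * V / H), f v := by
  have key : ∀ n : ℕ, ∑ h ∈ range n, ∑ v ∈ Ico (h * V / H) ((h + 1) * V / H), f v =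
      ∑ v ∈ range (n * V / H), f v := by
    intro n
    induction n with
    | zero => simp
    | succ n ih =>
      rw [sum_range_succ, ih, range_eq_Ico, range_eq_Ico, sum_Ico_consecutive]
      · exact Nat.zero_le _
      · exact Nat.div_le_div_right (Nat.mul_le_mul_right _ (Nat.le_succ n))
  rw [key H, Nat.mul_div_cancel_left _ hH]

theorem piece_card (V H h : ℕ) (hH : 1 ≤ H) :
    (((Ico (h * V / H) ((h + 1) * V / H)).card : ℕ) : ℝ) ≤ V / H + 1 ∧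
      (V : ℝ) / H - 1 ≤ (((Ico (h * V / H) ((h + 1) * V / H)).card : ℕ) : ℝ) := by
  have hH' : (0 : ℝ) < H := by exact_mod_cast hH
  have hle : h * V / H ≤ (h + 1) * V / H :=
    Nat.div_le_div_right (Nat.mul_le_mul_right _ (Nat.le_succ h))
  rw [Nat.card_Ico, Nat.cast_sub hle]
  have h1 : ((h * V / H : ℕ) : ℝ) ≤ (h * V : ℕ) / H := Nat.cast_div_le
  have h2 : (((h + 1) * V / H : ℕ) : ℝ) ≤ ((h + 1) * V : ℕ) / H := Nat.cast_div_le
  have h3 : ((h * V : ℕ) : ℝ) / H < ((h * V / H : ℕ) : ℝ) + 1 := by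
    rw [div_lt_iff₀ hH']
    have : h * V < (h * V / H + 1) * H := by
      have := Nat.lt_div_mul_add (a := h * V) hH
      rw [add_mul, one_mul]; exact this
    exact_mod_cast this
  have h4 : (((h + 1) * V : ℕ) : ℝ) / H < (((h + 1) * V / H : ℕ) : ℝ) + 1 := by
    rw [div_lt_iff₀ hH']
    have : (h + 1) * V < ((h + 1) * V / H + 1) * H := by
      have := Nat.lt_div_mul_add (a := (h + 1) * V) hH
      rw [add_mul ((h + 1) * V / H), one_mul]; exact this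
    exact_mod_cast this
  have h5 : (((h + 1) * V : ℕ) : ℝ) / H = ((h * V : ℕ) : ℝ) / H + V / H := by
    push_cast; ring
  constructor <;> linarith

theorem piece_le (V H h : ℕ) (_hH : 1 ≤ H) (hh : h < H) : (h + 1) * V / H ≤ V := by
  apply Nat.div_le_of_le_mul
  exact Nat.mul_le_mul_right _ hh

end Pool.Agent.Lib.MP_8fac0f_nt.C3
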