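import Pool.Agent.Lib.MP_8fac0f_nt.C3.Defs
import Pool.Agent.Lib.MP_8fac0f_nt.N.V

/-!
# Iterated van der Corput with constant shifts
-/

set_option autoImplicit false

namespace Pool.Agent.Lib.MP_8fac0f_nt.C3

open Finset Filter Topology

theorem lp_shift (F : ℕ → ℝ) (hF : ∀ n, |F n| ≤ 1) (N k : ℕ) :
    |∑ n ∈ range N, F n - ∑ n ∈ range N, F (n + k)| ≤ 2 * k := by
  have := Pool.Agent.Lib.MP_8fac0f_nt.N.V_shift (fun n => (F n : ℂ))
    (fun n => by simpa [Complex.norm_real] using hF n) N k
  rw [← Complex.ofReal_sum, ← Complex.ofReal_sum, ← Complex.ofReal_sub, Complex.norm_real,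
    Real.norm_eq_abs] at this
  exact this

/-- One step of the inequality of van der Corput, with the shifts `q r`. -/
theorem lp_step (V Q R q : ℕ) (F : ℕ → ℝ) (hF : ∀ n, |F n| ≤ 1) (hV : 0 < V) (hR : 0 < R)
    (hq : q ≤ Q) (T : ℝ) (hT0 : 0 ≤ T)
    (hT : ∀ r, 1 ≤ r → r < R → |∑ v ∈ range V, F v * F (v + q * r)| ≤ T * V) :
    |∑ v ∈ range V, F v| ≤ (√(1 / R + (T + 2 * (Q * R) / V)) + 2 * (Q * R) / V) * V := by
  have hV' : (0 : ℝ) < V := by exact_mod_cast hV
  have hle : ∀ i j : ℕ, i < j → j < R →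
      |∑ n ∈ range V, F (n + q * i) * F (n + q * j)| ≤ (T + 2 * (Q * R) / V) * V := by
    intro i j hij hj
    have h1 := lp_shift (fun n => F n * F (n + q * (j - i)))
      (fun n => by rw [abs_mul]; exact mul_le_one₀ (hF _) (abs_nonneg _) (hF _)) V (q * i)
    have h2 := hT (j - i) (by omega) (by omega)
    have h3 : ∀ n, F (n + q * i) * F (n + q * i + q * (j - i)) = F (n + q * i) * F (n + q * j) := by
      intro n
      have : n + q * i + q * (j - i) = n + q * j := by
        rw [add_assoc, ← Nat.mul_add]; congr 2; omega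
      rw [this]
    simp_rw [h3] at h1
    have h4 : (2 : ℝ) * ((q * i : ℕ) : ℝ) ≤ 2 * (Q * R) := by
      have : q * i ≤ Q * R := Nat.mul_le_mul hq (by omega)
      have : ((q * i : ℕ) : ℝ) ≤ Q * R := by exact_mod_cast this
      linarith
    have h5 : (T + 2 * (Q * R) / V) * V = T * V + 2 * (Q * R) := by field_simp
    rw [h5]
    rw [abs_le] at h1 h2 ⊢
    constructor <;> linarith [h1.1, h1.2, h2.1, h2.2]
  have key := Pool.Agent.Lib.MP_8fac0f_nt.N.vdcR F hF V R (Q * R) hV hR (fun i => q * i)
    (fun i hi => Nat.mul_le_mul hq hi.le) (T + 2 * (Q * R) / V) (by positivity) (by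
      intro i hi j hj hij
      rcases lt_or_gt_of_ne hij with h | h
      · exact hle i j h hj
      · have := hle j i h hi
        simp_rw [mul_comm (F (_ + q * j))] at this
        exact this)
  push_cast at key
  exact key

theorem prod_finset_succ (M : ℕ) (g : Finset (Fin (M + 1)) → ℝ) :
    ∏ w, g w = ∏ w : Finset (Fin M),
      (g (w.map (Fin.succEmb M)) * g (insert 0 (w.map (Fin.succEmb M)))) := by
  have h1 : (univ : Finset (Finset (Fin (M + 1))))
      = (insert 0 ((univ : Finset (Fin M)).map (Fin.succEmb M))).powerset := by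
    rw [← Finset.powerset_univ]
    congr 1
    ext i
    refine Fin.cases ?_ (fun i => ?_) i <;> simp
  have h0 : (0 : Fin (M + 1)) ∉ (univ : Finset (Fin M)).map (Fin.succEmb M) := by
    simp [Fin.succ_ne_zero]
  have h2 : ∀ f : Finset (Fin (M + 1)) → ℝ,
      ∏ t ∈ ((univ : Finset (Fin M)).map (Fin.succEmb M)).powerset, f t
        = ∏ w : Finset (Fin M), f (w.map (Fin.succEmb M)) := by
    intro f
    symm
    refine Finset.prod_bij (fun w _ => w.map (Fin.succEmb M)) ?_ ?_ ?_ ?_
    · intro w _
      rw [Finset.mem_powerset]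
      exact Finset.map_subset_map.2 (Finset.subset_univ _)
    · intro w _ w' _ h
      exact Finset.map_injective _ h
    · intro t ht
      rw [Finset.mem_powerset, Finset.subset_map_iff] at ht
      obtain ⟨w, _, hw⟩ := ht
      exact ⟨w, Finset.mem_univ _, hw.symm⟩
    · intro w _; rfl
  rw [h1, Finset.prod_powerset_insert h0, h2, h2, ← Finset.prod_mul_distrib]

theorem count_or (V s : ℕ) (B : ℕ → Prop) [DecidablePred B]
    [DecidablePred fun v => B v ∨ B (v + s)] :
    ((range V).filter fun v => B v ∨ B (v + s)).card ≤ 2 * ((range V).filter B).card + s := by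
  classical
  have h1 : ((range V).filter fun v => B v ∨ B (v + s)).card
      ≤ ((range V).filter B).card + ((range V).filter fun v => B (v + s)).card := by
    refine le_trans (le_of_eq ?_) (Finset.card_union_le _ _)
    congr 1
    ext v
    simp only [Finset.mem_filter, Finset.mem_union]
    tauto
  have h2 : ((range V).filter fun v => B (v + s)).card
      ≤ ((range (V + s)).filter B).card := by
    refine Finset.card_le_card_of_injOn (fun v => v + s) ?_ ?_
    · intro v hv
      simp only [Finset.coe_filter, Finset.mem_range, Set.mem_setOf_eq] at hv ⊢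
      exact ⟨by omega, hv.2⟩
    · intro v _ v' _ h; simpa using h
  have h3 : ((range (V + s)).filter B).card ≤ ((range V).filter B).card + s := by
    have : (range (V + s)).filter B ⊆ (range V).filter B ∪ Ico V (V + s) := by
      intro v hv
      simp only [Finset.mem_filter, Finset.mem_range, Finset.mem_union, Finset.mem_Ico] at hv ⊢
      by_cases h : v < V
      · left; exact ⟨h, hv.2⟩
      · right; omega
    refine (Finset.card_le_card this).trans ((Finset.card_union_le _ _).trans ?_)
    rw [Nat.card_Ico]; omega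
  omega

/-- Changing a bounded summand on few places. -/
theorem change_few (V : ℕ) (B : ℕ → Prop) [DecidablePred B] (f g : ℕ → ℝ) (hf : ∀ v, |f v| ≤ 1)
    (hg : ∀ v, |g v| ≤ 1) (h : ∀ v, ¬ B v → f v = g v) :
    |∑ v ∈ range V, f v| ≤ |∑ v ∈ range V, g v| + 2 * ((range V).filter B).card := by
  have h1 : ∑ v ∈ range V, f v - ∑ v ∈ range V, g v = ∑ v ∈ (range V).filter B, (f v - g v) := by
    rw [← Finset.sum_sub_distrib, Finset.sum_filter]
    refine Finset.sum_congr rfl fun v _ => ?_
    split_ifs with hb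
    · rfl
    · rw [h v hb, sub_self]
  have h2 : |∑ v ∈ (range V).filter B, (f v - g v)| ≤ 2 * ((range V).filter B).card := by
    refine (Finset.abs_sum_le_sum_abs _ _).trans ?_
    refine (Finset.sum_le_sum (g := fun _ => (2 : ℝ)) fun v _ => ?_).trans ?_
    · have a := hf v
      have b := hg v
      rw [abs_le] at a b ⊢
      constructor <;> linarith
    · rw [Finset.sum_const, nsmul_eq_mul]; linarith
  have h3 : ∑ v ∈ range V, f v = ∑ v ∈ range V, g v + ∑ v ∈ (range V).filter B, (f v - g v) := by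
    rw [← h1]; ring
  rw [h3]
  exact (abs_add_le _ _).trans (by linarith)

theorem lp (M : ℕ) (ε : ℝ) (hε : 0 < ε) : ∃ R1 : ℕ, 2 ≤ R1 ∧ ∀ R : ℕ, R1 ≤ R → ∃ ε' : ℝ,
    0 < ε' ∧ ∀ (V Q : ℕ) (q : Fin M → ℕ) (φ : Fin M → ℕ → ℝ) (Ψ : ℕ → ℝ)
      (Bd : Fin M → ℕ → Prop) [∀ i, DecidablePred (Bd i)], 0 < V → (Q : ℝ) * R ≤ ε' * V →
      (∀ i, q i ≤ Q) → (∀ i v, φ i v = 1 ∨ φ i v = -1) → (∀ v, |Ψ v| ≤ 1) →
      (∀ i r v, 1 ≤ r → r < R → ¬ Bd i v → φ i v * φ i (v + q i * r) = 1) →
      (∀ i, (((range V).filter (Bd i)).card : ℝ) ≤ ε' * V) →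
      (∀ r : Fin M → ℕ, (∀ i, 1 ≤ r i ∧ r i < R) →
        |∑ v ∈ range V, ∏ w : Finset (Fin M), Ψ (v + ∑ i ∈ w, q i * r i)| ≤ ε' * V) →
      |∑ v ∈ range V, (∏ i, φ i v) * Ψ v| ≤ ε * V := by
  classical
  induction M generalizing ε with
  | zero =>
    refine ⟨2, le_rfl, fun R hR => ⟨ε, hε, ?_⟩⟩
    intro V Q q φ Ψ Bd _ hV hQ hq hφ hΨ hkill hBd hr
    have := hr (fun _ => 1) (fun i => i.elim0)
    have e : ∀ v, ∏ w : Finset (Fin 0), Ψ (v + ∑ i ∈ w, q i * 1) = Ψ v := by
      intro v
      rw [Fintype.prod_unique, Finset.eq_empty_of_isEmpty (default : Finset (Fin 0))]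
      simp
    simp_rw [e] at this
    simpa using this
  | succ M ih =>
    obtain ⟨R0, hR0, hih⟩ := ih (ε ^ 2 / 16) (by positivity)
    obtain ⟨n, hn⟩ := exists_nat_ge (8 / ε ^ 2)
    refine ⟨max R0 n, le_max_of_le_left hR0, fun R hR => ?_⟩
    obtain ⟨ε1, hε1, H⟩ := hih R (le_trans (le_max_left _ _) hR)
    have hRn : n ≤ R := le_trans (le_max_right _ _) hR
    have hR2 : 2 ≤ R := hR0.trans (le_trans (le_max_left _ _) hR)
    refine ⟨min (ε1 / 3) (min (ε ^ 2 / 64) (ε / 4)), by positivity, ?_⟩
    set ε' := min (ε1 / 3) (min (ε ^ 2 / 64) (ε / 4)) with hε'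
    have he1 : ε' ≤ ε1 / 3 := min_le_left _ _
    have he2 : ε' ≤ ε ^ 2 / 64 := (min_le_right _ _).trans (min_le_left _ _)
    have he3 : ε' ≤ ε / 4 := (min_le_right _ _).trans (min_le_right _ _)
    have he0 : 0 < ε' := by positivity
    intro V Q q φ Ψ Bd _ hV hQ hq hφ hΨ hkill hBd hr
    have hV' : (0 : ℝ) < V := by exact_mod_cast hV
    have hRr : (0 : ℝ) < R := by exact_mod_cast (by omega : 0 < R)
    have habs : ∀ i v, |φ i v| ≤ 1 := by
      intro i v
      rcases hφ i v with h | h <;> rw [h] <;> simp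
    have hprod : ∀ (s : Finset (Fin M)) v, |∏ i ∈ s, φ i.succ v| ≤ 1 := by
      intro s v
      rw [Finset.abs_prod]
      exact Finset.prod_le_one (fun _ _ => abs_nonneg _) (fun _ _ => habs _ _)
    set G : ℕ → ℝ := fun v => (∏ i : Fin M, φ i.succ v) * Ψ v with hG
    have hG1 : ∀ v, |G v| ≤ 1 := by
      intro v
      rw [hG]
      simp only
      rw [abs_mul]
      exact mul_le_one₀ (hprod _ _) (abs_nonneg _) (hΨ _)
    set F : ℕ → ℝ := fun v => φ 0 v * G v with hF
    have hF1 : ∀ v, |F v| ≤ 1 := by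
      intro v
      rw [hF]
      simp only
      rw [abs_mul]
      exact mul_le_one₀ (habs _ _) (abs_nonneg _) (hG1 _)
    have hFeq : ∀ v, (∏ i, φ i v) * Ψ v = F v := by
      intro v
      rw [Fin.prod_univ_succ, hF, hG]; ring
    simp_rw [hFeq]
    -- the correlations of F
    have hcorr : ∀ r, 1 ≤ r → r < R → |∑ v ∈ range V, F v * F (v + q 0 * r)|
        ≤ (ε ^ 2 / 16 + 2 * ε') * V := by
      intro r hr1 hr2
      have h1 := change_few V (Bd 0) (fun v => F v * F (v + q 0 * r))
        (fun v => G v * G (v + q 0 * r))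
        (fun v => by rw [abs_mul]; exact mul_le_one₀ (hF1 _) (abs_nonneg _) (hF1 _))
        (fun v => by rw [abs_mul]; exact mul_le_one₀ (hG1 _) (abs_nonneg _) (hG1 _))
        (fun v hv => by
          have := hkill 0 r v hr1 hr2 hv
          simp only [hF]
          linear_combination (G v * G (v + q 0 * r)) * this)
      have h2 := hBd 0
      have h3 : |∑ v ∈ range V, G v * G (v + q 0 * r)| ≤ ε ^ 2 / 16 * V := by
        have h4 : ∀ v, G v * G (v + q 0 * r)
            = (∏ i : Fin M, (φ i.succ v * φ i.succ (v + q 0 * r))) * (Ψ v * Ψ (v + q 0 * r)) := by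
          intro v
          simp only [hG]
          rw [Finset.prod_mul_distrib]; ring
        simp_rw [h4]
        refine H V Q (fun i => q i.succ) (fun i v => φ i.succ v * φ i.succ (v + q 0 * r))
          (fun v => Ψ v * Ψ (v + q 0 * r)) (fun i v => Bd i.succ v ∨ Bd i.succ (v + q 0 * r))
          hV ?_ (fun i => hq _) ?_ ?_ ?_ ?_ ?_
        · refine hQ.trans ?_
          nlinarith
        · intro i v
          rcases hφ i.succ v with h | h <;> rcases hφ i.succ (v + q 0 * r) with h' | h' <;>
            rw [h, h'] <;> simp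
        · intro v
          rw [abs_mul]
          exact mul_le_one₀ (hΨ _) (abs_nonneg _) (hΨ _)
        · intro i r' v hr1' hr2' hb
          rw [not_or] at hb
          have e1 := hkill i.succ r' v hr1' hr2' hb.1
          have e2 := hkill i.succ r' (v + q 0 * r) hr1' hr2' hb.2
          have e3 : v + q i.succ * r' + q 0 * r = v + q 0 * r + q i.succ * r' := by ring
          rw [e3]
          calc φ i.succ v * φ i.succ (v + q 0 * r) *
                (φ i.succ (v + q i.succ * r') * φ i.succ (v + q 0 * r + q i.succ * r'))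
              = (φ i.succ v * φ i.succ (v + q i.succ * r')) *
                (φ i.succ (v + q 0 * r) * φ i.succ (v + q 0 * r + q i.succ * r')) := by ring
            _ = 1 := by rw [e1, e2, one_mul]
        · intro i
          have h5 := count_or V (q 0 * r) (Bd i.succ)
          have h6 := hBd i.succ
          have h7 : ((q 0 * r : ℕ) : ℝ) ≤ Q * R := by
            exact_mod_cast Nat.mul_le_mul (hq 0) hr2.le
          have h8 : (((range V).filter fun v => Bd i.succ v ∨ Bd i.succ (v + q 0 * r)).card : ℝ)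
              ≤ 2 * ((range V).filter (Bd i.succ)).card + (q 0 * r : ℕ) := by exact_mod_cast h5
          refine h8.trans ?_
          nlinarith
        · intro r' hr'
          have h9 := hr (Fin.cons r r') (by
            intro i
            refine Fin.cases ?_ (fun i => ?_) i
            · simpa using ⟨hr1, hr2⟩
            · simpa using hr' i)
          have h10 : ∀ v, ∏ w : Finset (Fin (M + 1)),
              Ψ (v + ∑ i ∈ w, q i * (Fin.cons r r' : Fin (M + 1) → ℕ) i)
              = ∏ w : Finset (Fin M), (Ψ (v + ∑ i ∈ w, q i.succ * r' i)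
                * Ψ (v + ∑ i ∈ w, q i.succ * r' i + q 0 * r)) := by
            intro v
            rw [prod_finset_succ]
            refine Finset.prod_congr rfl fun w _ => ?_
            have h0 : (0 : Fin (M + 1)) ∉ w.map (Fin.succEmb M) := by
              simp [Fin.succ_ne_zero]
            rw [Finset.sum_insert h0, Finset.sum_map]
            simp only [Fin.coe_succEmb, Fin.cons_succ, Fin.cons_zero]
            congr 2
            ring
          simp_rw [h10] at h9
          refine h9.trans ?_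
          have : 0 ≤ (V : ℝ) := hV'.le
          nlinarith
      refine h1.trans ?_
      nlinarith
    have key := lp_step V Q R (q 0) F hF1 hV (by omega) (hq 0) (ε ^ 2 / 16 + 2 * ε')
      (by positivity) hcorr
    refine key.trans ?_
    have hQR : ((Q : ℝ) * R) / V ≤ ε' := by
      rw [div_le_iff₀ hV']; exact hQ
    have hQR' : 2 * ((Q : ℝ) * R) / V = 2 * (((Q : ℝ) * R) / V) := by ring
    rw [hQR']
    have h1R : (1 : ℝ) / R ≤ ε ^ 2 / 8 := by
      rw [div_le_iff₀ hRr]
      have : (n : ℝ) ≤ R := by exact_mod_cast hRn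
      have h8 : 8 / ε ^ 2 ≤ R := hn.trans this
      rw [div_le_iff₀ (by positivity)] at h8
      linarith
    have hsq : √(1 / R + (ε ^ 2 / 16 + 2 * ε' + 2 * (((Q : ℝ) * R) / V))) ≤ ε / 2 := by
      rw [Real.sqrt_le_left (by positivity)]
      nlinarith
    have : √(1 / R + (ε ^ 2 / 16 + 2 * ε' + 2 * (((Q : ℝ) * R) / V))) + 2 * (((Q : ℝ) * R) / V)
        ≤ ε := by linarith
    exact mul_le_mul_of_nonneg_right this hV'.le

end Pool.Agent.Lib.MP_8fac0f_nt.C3
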