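import Pool.Agent.Lib.MP_8fac0f_nt.C3.Defs

/-!
# Selection of multipliers without short integer relations
-/

set_option autoImplicit false

namespace Pool.Agent.Lib.MP_8fac0f_nt.C3

open Finset

theorem select (M Ξ : ℕ) (K : Fin M → Finset ℕ) (h : ∀ i, (2 * Ξ + 1) ^ M < (K i).card) :
    ∃ q : Fin M → ℕ, (∀ i, q i ∈ K i) ∧ ∀ ξ : Fin M → ℤ, ξ ≠ 0 → (∀ i, |ξ i| ≤ Ξ) →
      ∑ i, ξ i * (q i : ℤ) ≠ 0 := by
  induction M with
  | zero =>
    exact ⟨fun i => i.elim0, fun i => i.elim0, fun ξ hξ _ => (hξ (Subsingleton.elim _ _)).elim⟩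
  | succ M ih =>
    obtain ⟨q, hq, hq2⟩ := ih (fun i => K i.castSucc) (fun i =>
      lt_of_le_of_lt (Nat.pow_le_pow_right (by omega) (by omega)) (h _))
    set box := Fintype.piFinset (fun _ : Fin (M + 1) => Finset.Icc (-(Ξ : ℤ)) Ξ) with hboxd
    set f : (Fin (M + 1) → ℤ) → ℕ := fun ξ =>
      ((-∑ i : Fin M, ξ i.castSucc * (q i : ℤ)) / ξ (Fin.last M)).toNat with hf
    have hbox : box.card = (2 * Ξ + 1) ^ (M + 1) := by
      rw [hboxd, Fintype.card_piFinset, Finset.prod_const, Finset.card_univ, Fintype.card_fin,
        Int.card_Icc]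
      congr 1
      omega
    obtain ⟨x, hx, hx2⟩ : ∃ x ∈ K (Fin.last M), x ∉ box.image f := by
      by_contra hcon
      push Not at hcon
      have h1 := Finset.card_le_card (show K (Fin.last M) ⊆ box.image f from hcon)
      have h2 := Finset.card_image_le (s := box) (f := f)
      have h3 := h (Fin.last M)
      omega
    refine ⟨Fin.snoc (α := fun _ => ℕ) q x, ?_, ?_⟩
    · intro i
      induction i using Fin.lastCases with
      | last => simpa using hx
      | cast i => simpa using hq i
    · intro ξ hξ hξb hsum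
      rw [Fin.sum_univ_castSucc] at hsum
      simp only [Fin.snoc_castSucc, Fin.snoc_last] at hsum
      by_cases h0 : ξ (Fin.last M) = 0
      · rw [h0, zero_mul, add_zero] at hsum
        refine hq2 (fun i => ξ i.castSucc) ?_ (fun i => hξb _) hsum
        intro hz
        apply hξ
        funext i
        induction i using Fin.lastCases with
        | last => simpa using h0
        | cast i => exact congrFun hz i
      · apply hx2
        rw [Finset.mem_image]
        refine ⟨ξ, ?_, ?_⟩
        · rw [hboxd, Fintype.mem_piFinset]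
          intro i
          rw [Finset.mem_Icc]
          exact abs_le.1 (hξb i)
        · rw [hf]
          have : (-∑ i : Fin M, ξ i.castSucc * (q i : ℤ)) = (x : ℤ) * ξ (Fin.last M) := by
            linarith
          simp only [this]
          rw [Int.mul_ediv_cancel _ h0]
          simp

end Pool.Agent.Lib.MP_8fac0f_nt.C3
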