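import Pool.Agent.Lib.MP_8fac0f_nt.C3.Defs

/-!
# Stability of digits (module STAB)
-/

set_option autoImplicit false

namespace Pool.Agent.Lib.MP_8fac0f_nt.C3

open Finset

theorem stab (m m' s L : ℕ) (D z : ℤ) (h : (m' : ℤ) = m + D + z * 2 ^ (s + L))
    (hD : |(D : ℝ)| < di (m / 2 ^ s) * 2 ^ s) : m' / 2 ^ s % 2 ^ L = m / 2 ^ s % 2 ^ L := by
  have hs : (0 : ℝ) < 2 ^ s := by positivity
  set q := m / 2 ^ s with hq
  set r := m % 2 ^ s with hr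
  have hm : m = 2 ^ s * q + r := (Nat.div_add_mod m (2 ^ s)).symm
  have hmR : (m : ℝ) = 2 ^ s * q + r := by exact_mod_cast hm
  have h1 : di (m / 2 ^ s) * 2 ^ s ≤ r := by
    have := di_le ((m : ℝ) / 2 ^ s) q
    have h2 : (m : ℝ) / 2 ^ s - (q : ℤ) = r / 2 ^ s := by
      rw [hmR]; push_cast; field_simp; ring
    rw [h2, abs_of_nonneg (by positivity)] at this
    calc di (m / 2 ^ s) * 2 ^ s ≤ r / 2 ^ s * 2 ^ s := by gcongr
      _ = r := by field_simp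
  have h2 : di (m / 2 ^ s) * 2 ^ s ≤ 2 ^ s - r := by
    have := di_le ((m : ℝ) / 2 ^ s) (q + 1 : ℕ)
    have hr' : (r : ℝ) ≤ 2 ^ s := by
      have : r < 2 ^ s := Nat.mod_lt _ (by positivity)
      exact_mod_cast this.le
    have h2 : (m : ℝ) / 2 ^ s - ((q + 1 : ℕ) : ℤ) = -((2 ^ s - r) / 2 ^ s) := by
      rw [hmR]; push_cast; field_simp; ring
    rw [h2, abs_neg, abs_of_nonneg (by apply div_nonneg _ hs.le; linarith)] at this
    calc di (m / 2 ^ s) * 2 ^ s ≤ (2 ^ s - r) / 2 ^ s * 2 ^ s := by gcongr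
      _ = 2 ^ s - r := by field_simp
  have h3 : |(D : ℝ)| < (r : ℤ) := by push_cast; exact hD.trans_le h1
  have h4 : |(D : ℝ)| < ((2 ^ s - r : ℤ) : ℝ) := by push_cast; exact hD.trans_le h2
  have h3' : |D| < (r : ℤ) := by exact_mod_cast h3
  have h4' : |D| < 2 ^ s - (r : ℤ) := by exact_mod_cast h4
  rw [abs_lt] at h3' h4'
  have hpos : (0 : ℤ) < 2 ^ s := by positivity
  have hdiv : (m' : ℤ) / 2 ^ s = q + z * 2 ^ L := by
    have e : (m' : ℤ) = (r + D) + 2 ^ s * (q + z * 2 ^ L) := by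
      rw [h, hm, pow_add]; push_cast; ring
    rw [e, Int.add_mul_ediv_left _ _ hpos.ne', Int.ediv_eq_zero_of_lt (by linarith) (by linarith),
      zero_add]
  have : ((m' / 2 ^ s % 2 ^ L : ℕ) : ℤ) = ((q % 2 ^ L : ℕ) : ℤ) := by
    push_cast
    rw [hdiv, Int.add_mul_emod_self_right]
  exact_mod_cast this

theorem int_of_di (X : ℤ) (n : ℕ) (δ : ℝ) (h : di ((X : ℝ) / 2 ^ n) ≤ δ) :
    ∃ z D : ℤ, X = z * 2 ^ n + D ∧ |(D : ℝ)| ≤ δ * 2 ^ n := by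
  obtain ⟨k, hk⟩ := di_exists ((X : ℝ) / 2 ^ n)
  refine ⟨k, X - k * 2 ^ n, by ring, ?_⟩
  rw [hk] at h
  have hp : (0 : ℝ) < 2 ^ n := by positivity
  have e : ((X - k * 2 ^ n : ℤ) : ℝ) = ((X : ℝ) / 2 ^ n - k) * 2 ^ n := by
    push_cast; field_simp
  rw [e, abs_mul, abs_of_pos hp]
  gcongr

theorem slice_kill (a b c d ν y j s L q r v : ℕ) (hj : j ≤ s) (hs : s + L ≤ 2 * j) (δ : ℝ)
    (hq : di (q * P1 a b c (ν + y) / 2 ^ (s + L - j)) ≤ δ)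
    (hd : r * δ * 2 ^ L < di (P a b c d (ν + y + 2 ^ j * v) / 2 ^ s)) :
    P a b c d (ν + y + 2 ^ j * (v + q * r)) / 2 ^ s % 2 ^ L
      = P a b c d (ν + y + 2 ^ j * v) / 2 ^ s % 2 ^ L := by
  obtain ⟨z, D, hz, hD⟩ := int_of_di (q * P1 a b c (ν + y)) (s + L - j) δ (by
    push_cast; exact hq)
  obtain ⟨k, hk⟩ := Nat.exists_eq_add_of_le hs
  set n := ν + y with hn
  have hpow : (2 : ℤ) ^ j * 2 ^ (s + L - j) = 2 ^ (s + L) := by
    rw [← pow_add]; congr 1; omega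
  have hpow2 : (2 : ℤ) ^ j * 2 ^ j = 2 ^ (s + L) * 2 ^ k := by
    rw [← pow_add, ← pow_add]; congr 1; omega
  refine stab _ _ s L (r * 2 ^ j * D) (r * z + 2 ^ k * (((v + q * r : ℕ) : ℤ) ^ 2 - v ^ 2) * P2 a b n
    + 2 ^ k * 2 ^ j * a * (((v + q * r : ℕ) : ℤ) ^ 3 - v ^ 3)) ?_ ?_
  · have e1 := P_add a b c d n (2 ^ j * (v + q * r))
    have e2 := P_add a b c d n (2 ^ j * v)
    rw [e1, e2]
    push_cast
    have e3 : (2 : ℤ) ^ j * (q * r) * P1 a b c n = r * z * 2 ^ (s + L) + r * 2 ^ j * D := by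
      calc (2 : ℤ) ^ j * (q * r) * P1 a b c n = r * 2 ^ j * (q * P1 a b c n) := by ring
        _ = r * 2 ^ j * (z * 2 ^ (s + L - j) + D) := by rw [hz]
        _ = r * z * (2 ^ j * 2 ^ (s + L - j)) + r * 2 ^ j * D := by ring
        _ = _ := by rw [hpow]
    have e4 : ((2 : ℤ) ^ j * (v + q * r)) ^ 2 * P2 a b n = (2 ^ j * 2 ^ j) * ((v + q * r) ^ 2 * P2 a b n) := by ring
    have e5 : ((2 : ℤ) ^ j * v) ^ 2 * P2 a b n = (2 ^ j * 2 ^ j) * (v ^ 2 * P2 a b n) := by ring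
    have e6 : (a : ℤ) * (2 ^ j * (v + q * r)) ^ 3 = (2 ^ j * 2 ^ j) * (2 ^ j * a * (v + q * r) ^ 3) := by ring
    have e7 : (a : ℤ) * (2 ^ j * v) ^ 3 = (2 ^ j * 2 ^ j) * (2 ^ j * a * v ^ 3) := by ring
    have e8 : (2 : ℤ) ^ j * (v + q * r) * P1 a b c n = 2 ^ j * v * P1 a b c n + 2 ^ j * (q * r) * P1 a b c n := by ring
    rw [e4, e5, e6, e7, e8, e3, hpow2]
    ring
  · push_cast
    rw [abs_mul, abs_mul, Nat.abs_cast, abs_of_pos (by positivity : (0 : ℝ) < 2 ^ j)]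
    have hs' : (0 : ℝ) < 2 ^ s := by positivity
    calc (r : ℝ) * 2 ^ j * |(D : ℝ)| ≤ r * 2 ^ j * (δ * 2 ^ (s + L - j)) := by gcongr
      _ = r * δ * (2 ^ j * 2 ^ (s + L - j)) := by ring
      _ = r * δ * 2 ^ (s + L) := by rw [← pow_add]; congr 2; omega
      _ = (r * δ * 2 ^ L) * 2 ^ s := by rw [pow_add]; ring
      _ < _ := by gcongr

end Pool.Agent.Lib.MP_8fac0f_nt.C3
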