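import Pool.Agent.Lib.MP_8fac0f_nt.C3.Pigeon
import Pool.Agent.Lib.MP_8fac0f_nt.C3.Select
import Pool.Agent.Lib.MP_8fac0f_nt.C3.LP
import Pool.Agent.Lib.MP_8fac0f_nt.C3.Stab
import Pool.Agent.Lib.MP_8fac0f_nt.C3.BEval

/-!
# BPHASE: the digits below `2 j` for one `ν`
-/

set_option autoImplicit false

namespace Pool.Agent.Lib.MP_8fac0f_nt.C3

open Finset Filter Topology
open Pool.Agent.Lib.MP_8fac0f_nt.N (sg sg_cases abs_sg sg_mod_div sg_sq)

/-- Splitting of the digits. -/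
theorem BPhase_split (j l x M : ℕ) :
    sg (x % 2 ^ (j + M * l)) =
      sg (x % 2 ^ j) * ∏ i : Fin M, sg (x / 2 ^ (j + (i : ℕ) * l) % 2 ^ l) := by
  induction M with
  | zero => simp
  | succ M ih =>
    rw [Fin.prod_univ_castSucc, ← mul_assoc]
    simp only [Fin.val_castSucc, Fin.val_last]
    rw [← ih]
    have h := sg_mod_div (j + M * l) (x % 2 ^ (j + (M + 1) * l))
    have e1 : 2 ^ (j + (M + 1) * l) = 2 ^ (j + M * l) * 2 ^ l := by
      rw [← pow_add]; congr 1; ring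
    rw [h, Nat.mod_mod_of_dvd _ (e1 ▸ Dvd.intro _ rfl), e1, Nat.mod_mul_right_div_self]

theorem BPhase_prod (s : Finset ℕ) (F : ℕ → ℕ → ℝ) (h : ∀ u w, F u w = 1 ∨ F u w = -1) :
    (∏ u ∈ s, ∏ w ∈ range 2, F u w = 1) ∨ (∏ u ∈ s, ∏ w ∈ range 2, F u w = -1) := by
  have h1 : (∏ u ∈ s, ∏ w ∈ range 2, F u w) * (∏ u ∈ s, ∏ w ∈ range 2, F u w) = 1 := by
    simp only [← prod_mul_distrib]
    refine prod_eq_one fun u _ => prod_eq_one fun w _ => ?_
    rcases h u w with h | h <;> rw [h] <;> norm_num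
  exact mul_self_eq_one_iff.1 h1

theorem BPhase_mod (a b c d j n v y : ℕ) :
    P a b c d (n + 2 ^ j * v + y) % 2 ^ j = P a b c d (n + y) % 2 ^ j := by
  have e : n + 2 ^ j * v + y = (n + y) + 2 ^ j * v := by ring
  rw [e, P_add]
  have : P a b c d (n + y) + 2 ^ j * v * P1 a b c (n + y) + (2 ^ j * v) ^ 2 * P2 a b (n + y) +
      a * (2 ^ j * v) ^ 3 = P a b c d (n + y) + 2 ^ j * (v * P1 a b c (n + y) +
        2 ^ j * v ^ 2 * P2 a b (n + y) + a * 2 ^ j * 2 ^ j * v ^ 3) := by ring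
  rw [this, Nat.add_mul_mod_self_left]

theorem bphase (a b c d : ℕ) (ha : 1 ≤ a) (U : Finset ℕ) (hU : U.Nonempty) (κ : ℕ) (ε : ℝ)
    (hε : 0 < ε) : ∃ R1 : ℕ, 2 ≤ R1 ∧ ∀ R : ℕ, R1 ≤ R → ∃ (l0 y0 : ℕ) (ε' : ℝ), 1 ≤ l0 ∧
      y0 < 2 ^ l0 ∧ 0 < ε' ∧ ∀ r0 : ℕ, 1 ≤ r0 → ∃ l1 Ξ : ℕ, 1 ≤ l1 ∧ ∀ t : ℕ,
      ∀ᶠ l : ℕ in atTop, ∀ e : ℕ, e = (4 * U.card + 6) * l → ∀ ν < 2 ^ (199 * e),
        Good a b (r0 * l0) κ Ξ e ν → ∀ V q r : ℕ, 2 ^ e ≤ V →
        V ≤ κ * 2 ^ e → 1 ≤ r → r < R → q ≤ 2 ^ (60 * e) →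
        di (q * P1 a b c ν / 2 ^ (398 * e) - rep y0 l0 (l1 + r0) / 2 ^ ((l1 + r0) * l0))
          ≤ 1 / 2 ^ (3 * e) →
        di (q * (2 * P2 a b ν) / 2 ^ (199 * e)) ≤ 1 / 2 ^ (3 * e) →
        (∀ i < 199 * (4 * U.card + 6), (((range V).filter fun v : ℕ => ∃ u ∈ U, ∃ w1 ∈ range 2,
          di (P a b c d (ν + 2 ^ (199 * e) * v + u + w1 * (2 ^ (2 * e + r0 * l0) * q * r))
            / 2 ^ (199 * e + i * l)) ≤ 1 / 2 ^ t).card : ℝ) ≤ ε' * V) →
        |∑ v ∈ range V, ∏ u ∈ U, ∏ w1 ∈ range 2,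
          (sg (P a b c d (ν + 2 ^ (199 * e) * v + u + w1 * (2 ^ (2 * e + r0 * l0) * q * r))
              % 2 ^ (398 * e)) *
            sg (P a b c d (ν + 2 ^ (199 * e) * v + u + w1 * (2 ^ (2 * e + r0 * l0) * q * r))
              / 2 ^ (400 * e - l1 * l0) % 2 ^ ((l1 + r0) * l0)))| ≤ ε * V := by
  classical
  obtain ⟨E, hE⟩ : ∃ E, E = 4 * U.card + 6 := ⟨_, rfl⟩
  obtain ⟨M, hM⟩ : ∃ M, M = 199 * (4 * U.card + 6) := ⟨_, rfl⟩
  obtain ⟨R1, hR1, hLP⟩ := lp M ε hε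
  refine ⟨R1, hR1, fun R hR => ?_⟩
  obtain ⟨ε', hε', hLP⟩ := hLP R hR
  obtain ⟨l0, y0, hl0, hy0, hBE⟩ := beval a b c d ha U hU M R κ ε' hε'
  refine ⟨l0, y0, ε', hl0, hy0, hε', fun r0 hr0 => ?_⟩
  obtain ⟨l1, Ξ, hl1, hBE⟩ := hBE r0 hr0
  refine ⟨l1, Ξ, hl1, fun t => ?_⟩
  obtain ⟨e0, hBE⟩ := eventually_atTop.1 hBE
  obtain ⟨n1, hn1⟩ := exists_nat_gt ((R : ℝ) / ε')
  obtain ⟨W, hW⟩ : ∃ W, W = (2 * (Ξ * R) + 1) ^ M + 1 := ⟨_, rfl⟩
  refine eventually_atTop.2 ⟨e0 + n1 + M * R + W + 2 * U.card * (t + R) + 1,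
    fun l hl e he ν hν hGood V q r hV1 hV2 hr1 hr2 hq h1 h2 hBd => ?_⟩
  rw [← hE] at he
  rw [← hM] at hBd
  have hMe : M * l = 199 * e := by rw [hM, he, hE]; ring
  have hle : l ≤ e := by
    rw [he]; exact Nat.le_mul_of_pos_left _ (by omega)
  have hl2 : l < 2 ^ l := Nat.lt_two_pow_self
  -- the points
  obtain ⟨x, hx⟩ : ∃ x, x = 2 ^ (2 * e + r0 * l0) * q * r := ⟨_, rfl⟩
  rw [← hx] at hBd
  rw [← hx]
  have hBE' := fun h => hBE e (by omega) ν hν hGood V q r h hV1 hV2 hr1 hr2 hq h1 h2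
  rw [← hx] at hBE'
  set Y : Finset ℕ := (U ×ˢ range 2).image (fun p => p.1 + p.2 * x) with hY
  have hYc : Y.card ≤ 2 * U.card := by
    refine card_image_le.trans ?_
    rw [card_product, card_range, mul_comm]
  have hYmem : ∀ u ∈ U, ∀ w ∈ range 2, u + w * x ∈ Y := fun u hu w hw =>
    mem_image.2 ⟨(u, w), mem_product.2 ⟨hu, hw⟩, rfl⟩
  -- the multipliers
  obtain ⟨Q, hQ⟩ : ∃ Q, Q = 2 ^ ((2 * U.card + 2) * l) := ⟨_, rfl⟩
  have hQ1 : 1 ≤ Q := by rw [hQ]; exact Nat.one_le_two_pow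
  choose K hK1 hK2 using fun i : Fin M =>
    pigeon Y (fun y => P1 a b c (ν + y)) (((i : ℕ) + 1) * l) (l + (t + R)) Q hQ1
  have hKc : ∀ i, (2 * (Ξ * R) + 1) ^ M < (K i).card := by
    intro i
    have h3 : 2 ^ ((l + (t + R)) * Y.card) ≤ 2 ^ ((l + (t + R)) * (2 * U.card)) :=
      Nat.pow_le_pow_right (by norm_num) (Nat.mul_le_mul_left _ hYc)
    have h4 : Q = 2 ^ (2 * l - 2 * U.card * (t + R)) * 2 ^ ((l + (t + R)) * (2 * U.card)) := by
      rw [hQ, ← pow_add]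
      congr 1
      have : 2 * U.card * (t + R) ≤ 2 * l := by omega
      zify [this]
      ring
    have h5 : 2 ^ (2 * l - 2 * U.card * (t + R)) ≤ (K i).card + 1 := by
      have h6 := (hK2 i).trans (Nat.mul_le_mul_left _ h3)
      rw [h4] at h6
      exact Nat.le_of_mul_le_mul_right h6 (by positivity)
    have h7 : 2 ^ l ≤ 2 ^ (2 * l - 2 * U.card * (t + R)) :=
      Nat.pow_le_pow_right (by norm_num) (by omega)
    omega
  obtain ⟨qq, hqK, hqind⟩ := select M (Ξ * R) K hKc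
  have hqQ : ∀ i, qq i ≤ Q := fun i => (hK1 i (qq i) (hqK i)).2.1.le
  -- the functions
  set φ : Fin M → ℕ → ℝ := fun i v => ∏ u ∈ U, ∏ w1 ∈ range 2,
    sg (P a b c d (ν + 2 ^ (199 * e) * v + u + w1 * x) / 2 ^ (199 * e + i * l) % 2 ^ l) with hφ
  set Ψ : ℕ → ℝ := fun v => ∏ u ∈ U, ∏ w1 ∈ range 2,
    sg (P a b c d (ν + 2 ^ (199 * e) * v + u + w1 * x)
      / 2 ^ (400 * e - l1 * l0) % 2 ^ ((l1 + r0) * l0)) with hΨ
  set Bd : Fin M → ℕ → Prop := fun i v => ∃ u ∈ U, ∃ w1 ∈ range 2,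
    di (P a b c d (ν + 2 ^ (199 * e) * v + u + w1 * x) / 2 ^ (199 * e + i * l)) ≤ 1 / 2 ^ t
    with hBdd
  have hφ1 : ∀ i v, φ i v = 1 ∨ φ i v = -1 := fun i v => BPhase_prod U _ fun u w => sg_cases _
  have hΨ1 : ∀ v, |Ψ v| ≤ 1 := by
    intro v
    rcases BPhase_prod U (fun u w1 => sg (P a b c d (ν + 2 ^ (199 * e) * v + u + w1 * x)
      / 2 ^ (400 * e - l1 * l0) % 2 ^ ((l1 + r0) * l0))) (fun u w => sg_cases _) with h | h
    · rw [hΨ]; simp only; rw [h]; simp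
    · rw [hΨ]; simp only; rw [h]; simp
  have hV0 : 0 < V := lt_of_lt_of_le (by positivity) hV1
  have hVR : (2 : ℝ) ^ e ≤ V := by exact_mod_cast hV1
  have hQe : Q * 2 ^ l ≤ 2 ^ (e / 2) := by
    rw [hQ, ← pow_add]
    refine Nat.pow_le_pow_right (by norm_num) ?_
    rw [Nat.le_div_iff_mul_le (by norm_num), he, hE]
    have : ((2 * U.card + 2) * l + l) * 2 = (4 * U.card + 6) * l := by ring
    rw [this]
  have hQRV : (Q : ℝ) * R ≤ ε' * V := by
    have h3 : (R : ℝ) ≤ ε' * 2 ^ l := by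
      have : (R : ℝ) / ε' < 2 ^ l := hn1.trans_le (by
        have : n1 ≤ 2 ^ l := by omega
        exact_mod_cast this)
      rw [div_lt_iff₀ hε'] at this
      linarith
    have h4 : (Q : ℝ) * 2 ^ l ≤ 2 ^ e := by
      have : Q * 2 ^ l ≤ 2 ^ e :=
        hQe.trans (Nat.pow_le_pow_right (by norm_num) (Nat.div_le_self _ _))
      exact_mod_cast this
    calc (Q : ℝ) * R ≤ Q * (ε' * 2 ^ l) := by gcongr
      _ = ε' * (Q * 2 ^ l) := by ring
      _ ≤ ε' * 2 ^ e := by gcongr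
      _ ≤ ε' * V := by gcongr
  have hkill : ∀ i r v, 1 ≤ r → r < R → ¬ Bd i v → φ i v * φ i (v + qq i * r) = 1 := by
    intro i r' v hr'1 hr'2 hnb
    simp only [hφ]
    simp only [← prod_mul_distrib]
    refine prod_eq_one fun u hu => prod_eq_one fun w hw => ?_
    have hi : ((i : ℕ) + 1) * l ≤ 199 * e := by
      rw [← hMe]; exact Nat.mul_le_mul_right _ i.2
    have hi' : ((i : ℕ) + 1) * l = i * l + l := by ring
    have hq' := (hK1 i (qq i) (hqK i)).2.2 (u + w * x) (hYmem u hu w hw)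
    have hd : (1 : ℝ) / 2 ^ t < di (P a b c d (ν + 2 ^ (199 * e) * v + u + w * x)
        / 2 ^ (199 * e + i * l)) := by
      by_contra hcon
      exact hnb ⟨u, hu, w, hw, not_lt.1 hcon⟩
    have key := slice_kill a b c d ν (u + w * x) (199 * e) (199 * e + i * l) l (qq i) r' v
      (by omega) (by omega) (1 / 2 ^ (l + (t + R))) (by
        rw [show 199 * e + (i : ℕ) * l + l - 199 * e = ((i : ℕ) + 1) * l by omega]
        exact hq') (by
        rw [show ν + (u + w * x) + 2 ^ (199 * e) * v = ν + 2 ^ (199 * e) * v + u + w * x by ring]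
        refine lt_of_le_of_lt ?_ hd
        have h3 : (r' : ℝ) ≤ 2 ^ R := by
          have : r' ≤ 2 ^ R := by
            have : R < 2 ^ R := Nat.lt_two_pow_self
            omega
          exact_mod_cast this
        rw [pow_add, pow_add]
        have h4 : (r' : ℝ) * (1 / (2 ^ l * (2 ^ t * 2 ^ R))) * 2 ^ l = r' / 2 ^ R * (1 / 2 ^ t) := by
          field_simp
        rw [h4]
        have h5 : (r' : ℝ) / 2 ^ R ≤ 1 := by
          rw [div_le_one (by positivity)]; exact h3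
        calc (r' : ℝ) / 2 ^ R * (1 / 2 ^ t) ≤ 1 * (1 / 2 ^ t) := by gcongr
          _ = _ := one_mul _)
    rw [show ν + 2 ^ (199 * e) * (v + qq i * r') + u + w * x =
      ν + (u + w * x) + 2 ^ (199 * e) * (v + qq i * r') by ring, key,
      show ν + (u + w * x) + 2 ^ (199 * e) * v = ν + 2 ^ (199 * e) * v + u + w * x by ring,
      sg_sq]
  have hfin := hLP V Q qq φ Ψ Bd hV0 hQRV hqQ hφ1 hΨ1 hkill (fun i => by
      have := hBd i i.2
      exact this) (by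
    intro rr hrr
    have hsum : ∑ i, qq i * rr i ≤ 2 ^ (e / 2) := by
      calc ∑ i, qq i * rr i ≤ ∑ _i : Fin M, Q * R :=
            sum_le_sum fun i _ => Nat.mul_le_mul (hqQ i) (hrr i).2.le
        _ = Q * (M * R) := by
            rw [sum_const, card_univ, Fintype.card_fin, smul_eq_mul]; ring
        _ ≤ Q * 2 ^ l := Nat.mul_le_mul_left _ (by omega)
        _ ≤ _ := hQe
    have hB := hBE' (fun i => qq i * rr i) hsum (by
      intro ξ hξ hξΞ
      have h3 := hqind (fun i => ξ i * (rr i : ℤ)) (by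
        intro h0
        apply hξ
        funext i
        have h4 := congrFun h0 i
        simp only [Pi.zero_apply, mul_eq_zero] at h4
        rcases h4 with h4 | h4
        · exact h4
        · have := (hrr i).1
          omega) (by
        intro i
        rw [abs_mul]
        push_cast
        exact mul_le_mul (hξΞ i) (by
          rw [Nat.abs_cast]; exact_mod_cast (hrr i).2.le) (abs_nonneg _) (by positivity))
      convert h3 using 2
      push_cast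
      ring)
    exact hB)
  -- assembly
  have hconst : ∀ v, (∏ u ∈ U, ∏ w1 ∈ range 2,
          (sg (P a b c d (ν + 2 ^ (199 * e) * v + u + w1 * x) % 2 ^ (398 * e)) *
            sg (P a b c d (ν + 2 ^ (199 * e) * v + u + w1 * x)
              / 2 ^ (400 * e - l1 * l0) % 2 ^ ((l1 + r0) * l0)))) =
      (∏ u ∈ U, ∏ w1 ∈ range 2, sg (P a b c d (ν + (u + w1 * x)) % 2 ^ (199 * e))) *
        ((∏ i, φ i v) * Ψ v) := by
    intro v
    simp only [prod_mul_distrib]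
    rw [← mul_assoc]
    congr 1
    have h3 : ∀ u w1, sg (P a b c d (ν + 2 ^ (199 * e) * v + u + w1 * x) % 2 ^ (398 * e)) =
        sg (P a b c d (ν + (u + w1 * x)) % 2 ^ (199 * e)) *
          ∏ i : Fin M, sg (P a b c d (ν + 2 ^ (199 * e) * v + u + w1 * x)
            / 2 ^ (199 * e + (i : ℕ) * l) % 2 ^ l) := by
      intro u w1
      have h4 := BPhase_split (199 * e) l (P a b c d (ν + 2 ^ (199 * e) * v + u + w1 * x)) M
      have h5 := BPhase_mod a b c d (199 * e) ν v (u + w1 * x)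
      rw [← add_assoc] at h5
      rw [← h5, ← h4, hMe]
      congr 3
      ring
    simp only [h3, prod_mul_distrib]
    congr 1
    simp only [hφ]
    have h6 : ∀ u ∈ U, (∏ w1 ∈ range 2, ∏ i : Fin M, sg (P a b c d
        (ν + 2 ^ (199 * e) * v + u + w1 * x) / 2 ^ (199 * e + (i : ℕ) * l) % 2 ^ l)) =
        ∏ i : Fin M, ∏ w1 ∈ range 2, sg (P a b c d
        (ν + 2 ^ (199 * e) * v + u + w1 * x) / 2 ^ (199 * e + (i : ℕ) * l) % 2 ^ l) :=
      fun u _ => Finset.prod_comm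
    rw [prod_congr rfl h6, Finset.prod_comm]
  simp only [hconst, ← mul_sum, abs_mul]
  have h7 : |∏ u ∈ U, ∏ w1 ∈ range 2, sg (P a b c d (ν + (u + w1 * x)) % 2 ^ (199 * e))| = 1 := by
    rcases BPhase_prod U (fun u w1 => sg (P a b c d (ν + (u + w1 * x)) % 2 ^ (199 * e)))
      (fun u w => sg_cases _) with h | h <;> rw [h] <;> simp
  rw [h7, one_mul]
  exact hfin

end Pool.Agent.Lib.MP_8fac0f_nt.C3
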