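import Pool.Agent.Lib.MP_8fac0f_nt.C3.GB

/-!
# Thue-Morse along cubic polynomials: contraction with an arbitrary environment
-/

set_option autoImplicit false

namespace Pool.Agent.Lib.MP_8fac0f_nt.C3

open Finset
open Pool.Agent.Lib.MP_8fac0f_nt.N (sg lin)

theorem contr {G D : Type} [Fintype G] [DecidableEq G] [Fintype D] [DecidableEq D]
    (C : G → D → ℕ) (gs : G) (hC : ∀ g, g ≠ gs → ∃ i, C g i = 0 ∧ 0 < C gs i)
    (OO : Finset (Finset (ℕ × ℕ))) (hOO : ∀ O ∈ OO, O.Nonempty) (c0 : ℕ) :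
    ∃ (l0 x0 y0 : ℕ) (δ : ℝ), 1 ≤ l0 ∧ x0 < 2 ^ l0 ∧ y0 < 2 ^ l0 ∧ 0 < δ ∧ δ ≤ 1 ∧
      ∀ (B : ℕ) (O : Finset (ℕ × ℕ)), O ∈ OO → ∀ (κ : G → ℕ) (X Y : ℕ) (c : G → ℕ × ℕ → ℕ),
        (∀ g o, c g o ≤ c0) →
        |∑ p ∈ Fintype.piFinset (fun _ : Option D => range (2 ^ (B * l0))),
          ∏ g, ∏ o ∈ O, sg ((p none + ∑ i, C g i * p (some i) + κ g + o.1 * X + o.2 * Y + c g o)
            % 2 ^ (B * l0))|
        ≤ (1 - δ) ^ (((range B).filter fun i =>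
            X / 2 ^ (i * l0) % 2 ^ l0 = x0 ∧ Y / 2 ^ (i * l0) % 2 ^ l0 = y0).card)
          * 2 ^ ((B * l0) * (Fintype.card D + 1)) := by
  obtain ⟨l0, x0, y0, δ, hl, hx, hy, hδ, hδ1, hmain⟩ :=
    Pool.Agent.Lib.MP_8fac0f_nt.N.contr_aux (extC C) none (fun g => rfl) gs (fun g hg => by
      obtain ⟨i, hi1, hi2⟩ := hC g hg
      exact ⟨some i, hi1, hi2⟩) OO hOO c0
  refine ⟨l0, x0, y0, δ, hl, hx, hy, hδ, hδ1, fun B O hO κ X Y c hc => ?_⟩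
  have h := hmain B O hO κ X Y c fun g o _ => hc g o
  unfold Pool.Agent.Lib.MP_8fac0f_nt.N.SB at h
  rw [Fintype.card_option] at h
  simp only [lin_extC] at h
  exact h

end Pool.Agent.Lib.MP_8fac0f_nt.C3
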