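import Pool.Agent.Lib.MP_8fac0f_nt.C3.Defs

/-!
# A quantitative form of Kronecker's theorem in dimension two
-/

set_option autoImplicit false

namespace Pool.Agent.Lib.MP_8fac0f_nt.C3

open Finset

theorem kron_ex_sub_one (x : ℝ) : 4 * di x ≤ ‖ex x - 1‖ := by
  have h1 : ex x = ex (x - round x) := by
    have := ex_add_int (x - round x) (round x)
    rw [sub_add_cancel] at this
    exact this
  have hdi : di x = |x - round x| := rfl
  have hle : |x - round x| ≤ 1 / 2 := abs_sub_round x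
  rw [h1, hdi]
  generalize x - round x = t at hle
  have h2 : ex t = Complex.exp (Complex.I * ((2 * Real.pi * t : ℝ) : ℂ)) := by
    unfold ex
    congr 1
    push_cast
    ring
  rw [h2, Complex.norm_exp_I_mul_ofReal_sub_one, norm_mul, Real.norm_eq_abs, Real.norm_eq_abs,
    abs_two]
  have hpi := Real.pi_pos
  have habs : |2 * Real.pi * t / 2| = Real.pi * |t| := by
    rw [show 2 * Real.pi * t / 2 = Real.pi * t by ring, abs_mul, abs_of_pos hpi]
  have h3 := Real.mul_abs_le_abs_sin (x := 2 * Real.pi * t / 2) (by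
    rw [habs]
    nlinarith)
  rw [habs, show 2 / Real.pi * (Real.pi * |t|) = 2 * |t| by field_simp] at h3
  linarith

theorem kron_ex_nat_mul (n : ℕ) (x : ℝ) : ex (n * x) = ex x ^ n := by
  induction n with
  | zero => simp [ex_zero]
  | succ n ih =>
    rw [pow_succ, ← ih, ← ex_add]
    congr 1
    push_cast
    ring

theorem kron_geom (β c γ : ℝ) (hγ : 0 < γ) (h : γ ≤ di β) (N : ℕ) :
    ‖∑ i ∈ range N, ex (i * β + c)‖ ≤ 1 / (2 * γ) := by
  have h4 := kron_ex_sub_one β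
  have hne : ex β ≠ 1 := by
    intro h0
    rw [h0, sub_self, norm_zero] at h4
    linarith
  have h1 : ∑ i ∈ range N, ex (i * β + c) = (ex β ^ N - 1) / (ex β - 1) * ex c := by
    rw [← geom_sum_eq hne, Finset.sum_mul]
    exact Finset.sum_congr rfl fun i _ => by rw [ex_add, kron_ex_nat_mul]
  rw [h1, norm_mul, norm_ex, mul_one, norm_div]
  have h2 : ‖ex β ^ N - 1‖ ≤ 2 := by
    refine (norm_sub_le _ _).trans ?_
    rw [norm_pow, norm_ex, one_pow, norm_one]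
    norm_num
  rw [div_le_div_iff₀ (by linarith) (by linarith)]
  nlinarith

/-- The square of the modulus of a geometric sum. -/
noncomputable def kronF (X : ℕ) (x : ℝ) : ℝ := ‖∑ i ∈ range X, ex (i * x)‖ ^ 2

theorem kronF_nonneg (X : ℕ) (x : ℝ) : 0 ≤ kronF X x := sq_nonneg _

theorem kronF_le (X : ℕ) (x δ : ℝ) (hδ : 0 < δ) (h : δ ≤ di x) : kronF X x ≤ 1 / (4 * δ ^ 2) := by
  have h1 := kron_geom x 0 δ hδ h X
  simp only [add_zero] at h1
  unfold kronF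
  calc ‖∑ i ∈ range X, ex (i * x)‖ ^ 2 ≤ (1 / (2 * δ)) ^ 2 :=
        pow_le_pow_left₀ (norm_nonneg _) h1 2
    _ = 1 / (4 * δ ^ 2) := by
        field_simp
        norm_num

theorem kron_conj (x : ℝ) : (starRingEnd ℂ) (ex x) = ex (-x) := by
  unfold ex
  rw [← Complex.exp_conj]
  congr 1
  simp only [map_mul, Complex.conj_ofReal, Complex.conj_I, map_ofNat]
  push_cast
  ring

theorem kronF_eq (X : ℕ) (x : ℝ) :
    ((kronF X x : ℝ) : ℂ) = ∑ p ∈ range X ×ˢ range X, ex (((p.1 : ℝ) - p.2) * x) := by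
  unfold kronF
  rw [Complex.ofReal_pow, ← Complex.mul_conj', map_sum, Finset.sum_mul_sum, Finset.sum_product]
  refine Finset.sum_congr rfl fun i _ => Finset.sum_congr rfl fun j _ => ?_
  rw [kron_conj, ← ex_add]
  congr 1
  ring

theorem kron_card_diag (X : ℕ) :
    ((range X ×ˢ range X).filter fun p : ℕ × ℕ => p.1 = p.2).card = X := by
  rw [show ((range X ×ˢ range X).filter fun p : ℕ × ℕ => p.1 = p.2)
      = (range X).image fun i => (i, i) from ?_]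
  · rw [Finset.card_image_of_injective _ (fun a b h => (Prod.ext_iff.1 h).1), card_range]
  · ext ⟨a, b⟩
    simp only [mem_filter, mem_product, mem_range, mem_image, Prod.mk.injEq]
    constructor
    · rintro ⟨⟨h1, _⟩, h3⟩
      exact ⟨a, h1, rfl, h3⟩
    · rintro ⟨c, h1, h2, h3⟩
      subst h2
      subst h3
      exact ⟨⟨h1, h1⟩, rfl⟩

/-- One factor: the sum over `q` of the Fejer kernel. -/
theorem kron_one (X Q : ℕ) (η τ y : ℝ) (hη : 0 < η)
    (h : ∀ z : ℤ, z ≠ 0 → |z| ≤ X → η ≤ di (z * τ)) :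
    ∑ q ∈ range Q, kronF X (((q : ℝ) + 1) * τ - y) ≤ X * Q + X ^ 2 * (1 / (2 * η)) := by
  set Pr := range X ×ˢ range X with hPr
  have h1 : ((∑ q ∈ range Q, kronF X (((q : ℝ) + 1) * τ - y) : ℝ) : ℂ)
      = ∑ p ∈ Pr, ∑ q ∈ range Q, ex (((p.1 : ℝ) - p.2) * (((q : ℝ) + 1) * τ - y)) := by
    rw [Complex.ofReal_sum, Finset.sum_comm]
    exact Finset.sum_congr rfl fun q _ => kronF_eq _ _
  have h2 : ∀ p ∈ Pr, ‖∑ q ∈ range Q, ex (((p.1 : ℝ) - p.2) * (((q : ℝ) + 1) * τ - y))‖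
      ≤ (if p.1 = p.2 then (Q : ℝ) else 0) + 1 / (2 * η) := by
    intro p hp
    rw [hPr, mem_product, mem_range, mem_range] at hp
    split_ifs with hd
    · have : (0 : ℝ) < 1 / (2 * η) := by positivity
      refine (norm_sum_le _ _).trans ?_
      simp only [norm_ex]
      simp
      positivity
    · rw [zero_add]
      have h3 := kron_geom ((((p.1 : ℤ) - p.2 : ℤ) : ℝ) * τ)
        (((p.1 : ℝ) - p.2) * τ - ((p.1 : ℝ) - p.2) * y) η hη
        (h _ (by omega) (by rw [abs_le]; omega)) Q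
      refine le_trans (le_of_eq ?_) h3
      congr 1
      refine Finset.sum_congr rfl fun q _ => ?_
      congr 1
      push_cast
      ring
  have h3 : ∑ q ∈ range Q, kronF X (((q : ℝ) + 1) * τ - y)
      ≤ ‖((∑ q ∈ range Q, kronF X (((q : ℝ) + 1) * τ - y) : ℝ) : ℂ)‖ := by
    rw [Complex.norm_real]
    exact le_abs_self _
  refine h3.trans ?_
  rw [h1]
  refine (norm_sum_le _ _).trans ?_
  refine (Finset.sum_le_sum h2).trans ?_
  rw [Finset.sum_add_distrib, ← Finset.sum_filter, Finset.sum_const, Finset.sum_const,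
    kron_card_diag, hPr, card_product, card_range]
  simp only [nsmul_eq_mul]
  push_cast
  nlinarith

/-- Two factors: the main term. -/
theorem kron_two (X Q : ℕ) (η τ1 τ2 y1 y2 : ℝ) (hη : 0 < η)
    (h : ∀ z1 z2 : ℤ, (z1 ≠ 0 ∨ z2 ≠ 0) → |z1| ≤ X → |z2| ≤ X → η ≤ di (z1 * τ1 + z2 * τ2)) :
    (X : ℝ) ^ 2 * Q - X ^ 4 * (1 / (2 * η)) ≤ ∑ q ∈ range Q,
      kronF X (((q : ℝ) + 1) * τ1 - y1) * kronF X (((q : ℝ) + 1) * τ2 - y2) := by
  set Pr := range X ×ˢ range X with hPr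
  set g : (ℕ × ℕ) × (ℕ × ℕ) → ℂ := fun p => ∑ q ∈ range Q,
    ex (((p.1.1 : ℝ) - p.1.2) * (((q : ℝ) + 1) * τ1 - y1)
      + ((p.2.1 : ℝ) - p.2.2) * (((q : ℝ) + 1) * τ2 - y2)) with hg
  set m : (ℕ × ℕ) × (ℕ × ℕ) → ℝ := fun p => if p.1.1 = p.1.2 ∧ p.2.1 = p.2.2 then (Q : ℝ) else 0
    with hm
  have h1 : ((∑ q ∈ range Q, kronF X (((q : ℝ) + 1) * τ1 - y1)
      * kronF X (((q : ℝ) + 1) * τ2 - y2) : ℝ) : ℂ) = ∑ p ∈ Pr ×ˢ Pr, g p := by
    rw [Complex.ofReal_sum, Finset.sum_comm]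
    refine Finset.sum_congr rfl fun q _ => ?_
    rw [Complex.ofReal_mul, kronF_eq, kronF_eq, Finset.sum_mul_sum]
    refine Eq.trans ?_ (Finset.sum_product _ _ _).symm
    exact Finset.sum_congr rfl fun i _ => Finset.sum_congr rfl fun j _ => (ex_add _ _).symm
  have h2 : ∀ p ∈ Pr ×ˢ Pr, ‖g p - (m p : ℂ)‖ ≤ 1 / (2 * η) := by
    intro p hp
    rw [hPr, mem_product, mem_product, mem_product, mem_range, mem_range, mem_range,
      mem_range] at hp
    obtain ⟨⟨hp1, hp2⟩, hp3, hp4⟩ := hp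
    simp only [hm, hg]
    split_ifs with hd
    · rw [hd.1, hd.2]
      simp only [sub_self, zero_mul, add_zero, ex_zero]
      simp
      positivity
    · rw [Complex.ofReal_zero, sub_zero]
      have h3 := kron_geom ((((p.1.1 : ℤ) - p.1.2 : ℤ) : ℝ) * τ1
          + (((p.2.1 : ℤ) - p.2.2 : ℤ) : ℝ) * τ2)
        (((p.1.1 : ℝ) - p.1.2) * (τ1 - y1) + ((p.2.1 : ℝ) - p.2.2) * (τ2 - y2)) η hη
        (h _ _ (by omega) (by rw [abs_le]; omega) (by rw [abs_le]; omega)) Q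
      refine le_trans (le_of_eq ?_) h3
      congr 1
      refine Finset.sum_congr rfl fun q _ => ?_
      congr 1
      push_cast
      ring
  have h3 : ‖∑ p ∈ Pr ×ˢ Pr, g p - ∑ p ∈ Pr ×ˢ Pr, (m p : ℂ)‖ ≤ X ^ 4 * (1 / (2 * η)) := by
    rw [← Finset.sum_sub_distrib]
    refine (norm_sum_le _ _).trans ((Finset.sum_le_sum h2).trans ?_)
    rw [Finset.sum_const, hPr, card_product, card_product, card_range, nsmul_eq_mul]
    push_cast
    exact le_of_eq (by ring)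
  have h4 : ∑ p ∈ Pr ×ˢ Pr, m p = (X : ℝ) ^ 2 * Q := by
    have h5 : ((Pr ×ˢ Pr).filter fun p => p.1.1 = p.1.2 ∧ p.2.1 = p.2.2)
        = (Pr.filter fun p => p.1 = p.2) ×ˢ (Pr.filter fun p => p.1 = p.2) := by
      ext p
      simp only [mem_filter, mem_product]
      tauto
    rw [hm, ← Finset.sum_filter, Finset.sum_const, h5, card_product, kron_card_diag, nsmul_eq_mul]
    push_cast
    ring
  have h5 : (∑ p ∈ Pr ×ˢ Pr, g p - ∑ p ∈ Pr ×ˢ Pr, (m p : ℂ))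
      = (((∑ q ∈ range Q, kronF X (((q : ℝ) + 1) * τ1 - y1)
      * kronF X (((q : ℝ) + 1) * τ2 - y2)) - (X : ℝ) ^ 2 * Q : ℝ) : ℂ) := by
    rw [← h1, ← h4]
    push_cast
    rfl
  rw [h5, Complex.norm_real, Real.norm_eq_abs, abs_le] at h3
  linarith [h3.1]

theorem kron (X Q : ℕ) (δ η τ1 τ2 : ℝ) (hδ : 0 < δ) (hη : 0 < η) (hX : 8 / δ ^ 2 ≤ X)
    (hQ : 16 * X ^ 2 / η ≤ Q)
    (h : ∀ z1 z2 : ℤ, (z1 ≠ 0 ∨ z2 ≠ 0) → |z1| ≤ X → |z2| ≤ X → η ≤ di (z1 * τ1 + z2 * τ2))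
    (y1 y2 : ℝ) : ∃ q : ℕ, 1 ≤ q ∧ q ≤ Q ∧ di (q * τ1 - y1) ≤ δ ∧ di (q * τ2 - y2) ≤ δ := by
  by_contra hcon
  push Not at hcon
  have hδ2 : (0 : ℝ) < δ ^ 2 := by positivity
  have hX0 : (0 : ℝ) < X := lt_of_lt_of_le (by positivity) hX
  have hX1 : (1 : ℝ) ≤ X := by
    have : 0 < X := by exact_mod_cast hX0
    exact_mod_cast this
  have hQ0 : (0 : ℝ) < Q := lt_of_lt_of_le (by positivity) hQ
  have h1 := kron_two X Q η τ1 τ2 y1 y2 hη h
  have h2 := kron_one X Q η τ1 y1 hη (fun z hz hzX => by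
    have := h z 0 (Or.inl hz) hzX (by simp)
    simpa using this)
  have h3 := kron_one X Q η τ2 y2 hη (fun z hz hzX => by
    have := h 0 z (Or.inr hz) (by simp) hzX
    simpa using this)
  have h4 : ∀ q ∈ range Q,
      kronF X (((q : ℝ) + 1) * τ1 - y1) * kronF X (((q : ℝ) + 1) * τ2 - y2)
      ≤ 1 / (4 * δ ^ 2) *
        (kronF X (((q : ℝ) + 1) * τ1 - y1) + kronF X (((q : ℝ) + 1) * τ2 - y2)) := by
    intro q hq
    have hA := kronF_nonneg X (((q : ℝ) + 1) * τ1 - y1)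
    have hB := kronF_nonneg X (((q : ℝ) + 1) * τ2 - y2)
    have hc := hcon (q + 1) (by omega) (mem_range.1 hq)
    push_cast at hc
    have hpos : (0 : ℝ) < 1 / (4 * δ ^ 2) := by positivity
    by_cases h5 : di (((q : ℝ) + 1) * τ1 - y1) ≤ δ
    · have h6 := kronF_le X _ δ hδ (hc h5).le
      nlinarith
    · have h6 := kronF_le X _ δ hδ (not_le.1 h5).le
      nlinarith
  have h5 := h1.trans (Finset.sum_le_sum h4)
  rw [← Finset.mul_sum, Finset.sum_add_distrib] at h5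
  have h6 : 1 / (4 * δ ^ 2) ≤ X / 32 := by
    have : 1 / (4 * δ ^ 2) = (8 / δ ^ 2) / 32 := by
      field_simp
      norm_num
    rw [this]
    linarith
  have h7 : (X : ℝ) ^ 2 * (1 / (2 * η)) ≤ Q / 32 := by
    have : (X : ℝ) ^ 2 * (1 / (2 * η)) = (16 * X ^ 2 / η) / 32 := by
      field_simp
      norm_num
    rw [this]
    linarith
  have h8 : (X : ℝ) ^ 2 * Q - X ^ 4 * (1 / (2 * η)) ≥ 31 / 32 * (X ^ 2 * Q) := by
    have : (X : ℝ) ^ 4 * (1 / (2 * η)) = X ^ 2 * (X ^ 2 * (1 / (2 * η))) := by ring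
    rw [this]
    have h9 : (X : ℝ) ^ 2 * (X ^ 2 * (1 / (2 * η))) ≤ X ^ 2 * (Q / 32) :=
      mul_le_mul_of_nonneg_left h7 (by positivity)
    linarith
  have h10 : ∑ q ∈ range Q, kronF X (((q : ℝ) + 1) * τ1 - y1)
      + ∑ q ∈ range Q, kronF X (((q : ℝ) + 1) * τ2 - y2) ≤ 2 * (X * Q) + X * Q / 16 := by
    have : (Q : ℝ) ≤ X * Q := by nlinarith
    linarith
  have h11 : 0 ≤ ∑ q ∈ range Q, kronF X (((q : ℝ) + 1) * τ1 - y1)
      + ∑ q ∈ range Q, kronF X (((q : ℝ) + 1) * τ2 - y2) :=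
    add_nonneg (Finset.sum_nonneg fun q _ => kronF_nonneg _ _)
      (Finset.sum_nonneg fun q _ => kronF_nonneg _ _)
  have h12 : 1 / (4 * δ ^ 2) * (∑ q ∈ range Q, kronF X (((q : ℝ) + 1) * τ1 - y1)
      + ∑ q ∈ range Q, kronF X (((q : ℝ) + 1) * τ2 - y2))
      ≤ X / 32 * (2 * (X * Q) + X * Q / 16) :=
    mul_le_mul h6 h10 h11 (by positivity)
  have h13 : (0 : ℝ) < X ^ 2 * Q := by positivity
  nlinarith

end Pool.Agent.Lib.MP_8fac0f_nt.C3
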