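import Pool.Agent.Lib.MP_8fac0f_nt.C3.A1
import Pool.Agent.Lib.MP_8fac0f_nt.C3.Kron

/-!
# The multiplier of a typical cell
-/

set_option autoImplicit false

namespace Pool.Agent.Lib.MP_8fac0f_nt.C3

open Finset Filter Topology

theorem cellq (a b c cst : ℕ) (ha : 1 ≤ a) (ε : ℝ) (hε : 0 < ε) : ∀ᶠ e : ℕ in atTop,
    ∃ bad : Finset ℕ, (bad.card : ℝ) ≤ ε * 2 ^ (134 * e) ∧
      ∀ n < 2 ^ (134 * e), n ∉ bad → ∀ ys : ℝ, ∃ q : ℕ, 1 ≤ q ∧ q ≤ 2 ^ (60 * e) ∧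
        ∀ ν0 < 2 ^ (65 * e),
          di (q * P1 a b c (2 ^ (65 * e) * n + ν0) / 2 ^ (398 * e) - ys) ≤ 1 / 2 ^ (3 * e + cst) ∧
          di (q * (2 * P2 a b (2 ^ (65 * e) * n + ν0)) / 2 ^ (199 * e))
            ≤ 1 / 2 ^ (3 * e + cst) := by
  have hev : ∀ᶠ e : ℕ in atTop, ((9 * a + 2 * b : ℕ) : ℝ) * 2 ^ (cst + 1) ≤ (2 : ℝ) ^ e :=
    (tendsto_pow_atTop_atTop_of_one_lt (by norm_num : (1 : ℝ) < 2)).eventually_ge_atTop _
  filter_upwards [hev, eventually_ge_atTop (2 * cst + 5), sublevel a b c ha ε hε]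
    with e he he1 hsub
  obtain ⟨bad, hbad, hgood⟩ := hsub
  refine ⟨bad, hbad, fun n hn hnb ys => ?_⟩
  set N0 := 2 ^ (65 * e) * n with hN0
  obtain ⟨q, hq1, hq2, hd1, hd2⟩ := kron (2 ^ (7 * e)) (2 ^ (60 * e)) (1 / 2 ^ (3 * e + cst + 1))
    (1 / 2 ^ (44 * e)) (P1 a b c N0 / 2 ^ (398 * e)) (2 * P2 a b N0 / 2 ^ (199 * e))
    (by positivity) (by positivity) (by
      have : (8 : ℝ) / (1 / 2 ^ (3 * e + cst + 1)) ^ 2 = 2 ^ (6 * e + 2 * cst + 5) := by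
        rw [one_div, inv_pow, div_inv_eq_mul, ← pow_mul]
        have : (8 : ℝ) = 2 ^ 3 := by norm_num
        rw [this, ← pow_add]
        congr 1
        ring
      rw [this]
      push_cast
      exact pow_le_pow_right₀ (by norm_num) (by omega)) (by
      push_cast
      have : (16 : ℝ) * (2 ^ (7 * e)) ^ 2 / (1 / 2 ^ (44 * e)) = 2 ^ (58 * e + 4) := by
        rw [one_div, div_inv_eq_mul, ← pow_mul]
        have : (16 : ℝ) = 2 ^ 4 := by norm_num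
        rw [this, ← pow_add, ← pow_add]
        congr 1
        ring
      rw [this]
      exact pow_le_pow_right₀ (by norm_num) (by omega)) (by
      intro z1 z2 hz h1 h2
      push_cast at h1 h2
      exact hgood n hn hnb z1 z2 hz h1 h2) ys 0
  refine ⟨q, hq1, hq2, fun ν0 hν0 => ?_⟩
  have hN0lt : N0 < 2 ^ (199 * e) := by
    rw [hN0, show 199 * e = 65 * e + 134 * e by ring, pow_add]
    exact Nat.mul_lt_mul_of_pos_left hn (by positivity)
  have hN0r : (N0 : ℝ) ≤ 2 ^ (199 * e) := by exact_mod_cast hN0lt.le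
  have hνr : (ν0 : ℝ) ≤ 2 ^ (65 * e) := by exact_mod_cast hν0.le
  have hqr : (q : ℝ) ≤ 2 ^ (60 * e) := by exact_mod_cast hq2
  have hhalf : (1 : ℝ) / 2 ^ (3 * e + cst) = 1 / 2 ^ (3 * e + cst + 1) + 1 / 2 ^ (3 * e + cst + 1) := by
    rw [pow_succ]; field_simp; norm_num
  have hsmall : ((9 * a + 2 * b : ℕ) : ℝ) / 2 ^ (74 * e) ≤ 1 / 2 ^ (3 * e + cst + 1) := by
    rw [div_le_div_iff₀ (by positivity) (by positivity)]
    calc ((9 * a + 2 * b : ℕ) : ℝ) * 2 ^ (3 * e + cst + 1)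
        = (((9 * a + 2 * b : ℕ) : ℝ) * 2 ^ (cst + 1)) * 2 ^ (3 * e) := by
          rw [show 3 * e + cst + 1 = (cst + 1) + 3 * e by ring, pow_add]; ring
      _ ≤ 2 ^ e * 2 ^ (3 * e) := by gcongr
      _ = 2 ^ (4 * e) := by rw [← pow_add]; ring_nf
      _ ≤ 1 * 2 ^ (74 * e) := by
          rw [one_mul]
          exact pow_le_pow_right₀ (by norm_num) (by omega)
  constructor
  · have e1 : (q * P1 a b c (N0 + ν0) / 2 ^ (398 * e) - ys : ℝ)
        = (q * (P1 a b c N0 / 2 ^ (398 * e)) - ys)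
          + q * (2 * ν0 * P2 a b N0 + 3 * a * ν0 ^ 2) / 2 ^ (398 * e) := by
      rw [P1_add]; push_cast; ring
    have e2 : (0 : ℝ) ≤ q * (2 * ν0 * P2 a b N0 + 3 * a * ν0 ^ 2) / 2 ^ (398 * e) := by
      positivity
    have e3 : (q * (2 * ν0 * P2 a b N0 + 3 * a * ν0 ^ 2) / 2 ^ (398 * e) : ℝ)
        ≤ ((9 * a + 2 * b : ℕ) : ℝ) / 2 ^ (74 * e) := by
      have p2 : (P2 a b N0 : ℝ) ≤ (3 * a + b) * 2 ^ (199 * e) := by
        unfold P2
        push_cast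
        have : (1 : ℝ) ≤ 2 ^ (199 * e) := one_le_pow₀ (by norm_num)
        nlinarith [Nat.cast_nonneg (α := ℝ) a, Nat.cast_nonneg (α := ℝ) b]
      have p3 : (2 : ℝ) ^ (65 * e) * 2 ^ (65 * e) ≤ 2 ^ (65 * e) * 2 ^ (199 * e) := by
        gcongr <;> [norm_num; omega]
      have p4 : (2 * ν0 * P2 a b N0 + 3 * a * ν0 ^ 2 : ℝ)
          ≤ (9 * a + 2 * b) * (2 ^ (65 * e) * 2 ^ (199 * e)) := by
        calc (2 * ν0 * P2 a b N0 + 3 * a * ν0 ^ 2 : ℝ)
            ≤ 2 * 2 ^ (65 * e) * ((3 * a + b) * 2 ^ (199 * e)) + 3 * a * (2 ^ (65 * e)) ^ 2 := by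
              gcongr
          _ = (6 * a + 2 * b) * (2 ^ (65 * e) * 2 ^ (199 * e))
              + 3 * a * (2 ^ (65 * e) * 2 ^ (65 * e)) := by ring
          _ ≤ (6 * a + 2 * b) * (2 ^ (65 * e) * 2 ^ (199 * e))
              + 3 * a * (2 ^ (65 * e) * 2 ^ (199 * e)) := by gcongr
          _ = _ := by ring
      rw [div_le_div_iff₀ (by positivity) (by positivity)]
      calc (q * (2 * ν0 * P2 a b N0 + 3 * a * ν0 ^ 2) : ℝ) * 2 ^ (74 * e)
          ≤ 2 ^ (60 * e) * ((9 * a + 2 * b) * (2 ^ (65 * e) * 2 ^ (199 * e))) * 2 ^ (74 * e) := by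
            gcongr
        _ = (9 * a + 2 * b) * (2 ^ (60 * e) * 2 ^ (65 * e) * 2 ^ (199 * e) * 2 ^ (74 * e)) := by
            ring
        _ = ((9 * a + 2 * b : ℕ) : ℝ) * 2 ^ (398 * e) := by
            rw [← pow_add, ← pow_add, ← pow_add]
            push_cast
            congr 2
            ring
    rw [e1]
    refine (di_add _ _).trans ?_
    rw [hhalf]
    refine add_le_add hd1 ((di_le_abs _).trans ?_)
    rw [abs_of_nonneg e2]
    exact e3.trans hsmall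
  · have e1 : (q * (2 * P2 a b (N0 + ν0)) / 2 ^ (199 * e) : ℝ)
        = (q * (2 * P2 a b N0 / 2 ^ (199 * e)) - 0) + q * (6 * a * ν0) / 2 ^ (199 * e) := by
      rw [P2_add]; push_cast; ring
    have e2 : (0 : ℝ) ≤ q * (6 * a * ν0) / 2 ^ (199 * e) := by positivity
    have e3 : (q * (6 * a * ν0) / 2 ^ (199 * e) : ℝ) ≤ ((9 * a + 2 * b : ℕ) : ℝ) / 2 ^ (74 * e) := by
      rw [div_le_div_iff₀ (by positivity) (by positivity)]
      calc (q * (6 * a * ν0) : ℝ) * 2 ^ (74 * e)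
          ≤ 2 ^ (60 * e) * (6 * a * 2 ^ (65 * e)) * 2 ^ (74 * e) := by gcongr
        _ = 6 * a * (2 ^ (60 * e) * 2 ^ (65 * e) * 2 ^ (74 * e)) := by ring
        _ = 6 * a * 2 ^ (199 * e) := by
            rw [← pow_add, ← pow_add]
            congr 2
            ring
        _ ≤ ((9 * a + 2 * b : ℕ) : ℝ) * 2 ^ (199 * e) := by
            push_cast
            gcongr
            nlinarith [Nat.cast_nonneg (α := ℝ) a, Nat.cast_nonneg (α := ℝ) b]
    rw [e1]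
    refine (di_add _ _).trans ?_
    rw [hhalf]
    refine add_le_add hd2 ((di_le_abs _).trans ?_)
    rw [abs_of_nonneg e2]
    exact e3.trans hsmall

end Pool.Agent.Lib.MP_8fac0f_nt.C3
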