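import Pool.Agent.Lib.MP_8fac0f_nt.C3.Cub2

/-!
# CUB: the truncated product averages to zero
-/

set_option autoImplicit false

namespace Pool.Agent.Lib.MP_8fac0f_nt.C3

open Finset Filter Topology
open Pool.Agent.Lib.MP_8fac0f_nt.N (sg CorrZero)

theorem tendsto_log_div (c : ℕ) (hc : 1 ≤ c) :
    Tendsto (fun N : ℕ => Nat.log 2 N / c) atTop atTop := by
  rw [tendsto_atTop]
  intro b
  filter_upwards [eventually_ge_atTop (2 ^ (c * b))] with N hN
  rw [Nat.le_div_iff_mul_le hc, mul_comm]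
  exact Nat.le_log_of_pow_le (by norm_num) hN

/-- The core estimate for one scale. -/
theorem cub_core (a b c d : ℕ) (U : Finset ℕ) (κ R ρ lam t e l V m Y Wd cst : ℕ)
    (ε σ ε' ε3 : ℝ) (good : ℕ → Prop) [DecidablePred good] (bad badν : Finset ℕ)
    (_hε : 0 < ε) (hσ : 0 < σ) (hε' : 0 < ε') (hε3 : 0 < ε3)
    (hR : 1 ≤ R) (hRσ : 1 / (R : ℝ) ≤ σ)
    (hc3 : (12 * U.card + 1 / ε' * (m * (6 * U.card))) * ε3 ≤ σ / 2)
    (hlam : lam ≤ 2 * e) (hV1 : 2 ^ e ≤ V) (hV2 : V ≤ κ * 2 ^ e)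
    (hX : U.sup id + 2 ^ ρ * R ≤ 2 ^ e) (he3 : 1 ≤ ε3 * 2 ^ (2 * e)) (heσ : 4 ≤ σ * 2 ^ (2 * e))
    (hbad : (bad.card : ℝ) ≤ ε / 4 * 2 ^ (134 * e))
    (hcell : ∀ n < 2 ^ (134 * e), n ∉ bad → ∃ q : ℕ, q ≤ 2 ^ (60 * e) ∧
        ∀ ν0 < 2 ^ (65 * e),
          di (q * P1 a b c (2 ^ (65 * e) * n + ν0) / 2 ^ (398 * e) - Y / 2 ^ Wd)
            ≤ 1 / 2 ^ (3 * e + cst) ∧
          di (q * (2 * P2 a b (2 ^ (65 * e) * n + ν0)) / 2 ^ (199 * e))
            ≤ 1 / 2 ^ (3 * e + cst))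
    (hbadν : (badν.card : ℝ) ≤ σ / 4 * 2 ^ (199 * e))
    (hgood : ∀ ν < 2 ^ (199 * e), ν ∉ badν → good ν)
    (heqm : ∀ β, β = 398 * e ∨ (∃ i < m, β = 199 * e + i * l) →
      (((range (2 ^ (199 * e) * V + 2 ^ (63 * e))).filter fun n : ℕ =>
        di (P a b c d n / 2 ^ β) ≤ 1 / 2 ^ t).card : ℝ) ≤ ε3 * (2 ^ (199 * e) * V + 2 ^ (63 * e)))
    (hxk : ∀ ν v u q r : ℕ, ν < 2 ^ (199 * e) → v ≤ κ * 2 ^ e → u ≤ U.sup id → r < R →
      q ≤ 2 ^ (60 * e) →
      di (q * P1 a b c ν / 2 ^ (398 * e) - Y / 2 ^ Wd) ≤ 1 / 2 ^ (3 * e + cst) →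
      di (q * (2 * P2 a b ν) / 2 ^ (199 * e)) ≤ 1 / 2 ^ (3 * e + cst) →
      1 / 2 ^ t < di (P a b c d (ν + 2 ^ (199 * e) * v + u) / 2 ^ (398 * e)) →
      P a b c d (ν + 2 ^ (199 * e) * v + u + 2 ^ (2 * e + ρ) * q * r) / 2 ^ (398 * e)
        % 2 ^ (2 * e - lam)
      = P a b c d (ν + 2 ^ (199 * e) * v + u) / 2 ^ (398 * e) % 2 ^ (2 * e - lam))
    (hbp : ∀ ν < 2 ^ (199 * e), good ν → ∀ q r : ℕ, 1 ≤ r → r < R → q ≤ 2 ^ (60 * e) →
      di (q * P1 a b c ν / 2 ^ (398 * e) - Y / 2 ^ Wd) ≤ 1 / 2 ^ (3 * e + cst) →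
      di (q * (2 * P2 a b ν) / 2 ^ (199 * e)) ≤ 1 / 2 ^ (3 * e + cst) →
      (∀ i < m, (cnt a b c d t e (199 * e + i * l) V ν U (2 ^ (2 * e + ρ) * q * r) : ℝ)
        ≤ ε' * V) →
      |∑ v ∈ range V, ∏ u ∈ U, ∏ w1 ∈ range 2,
          (sg (P a b c d (ν + 2 ^ (199 * e) * v + u + w1 * (2 ^ (2 * e + ρ) * q * r))
              % 2 ^ (398 * e)) *
            sg (P a b c d (ν + 2 ^ (199 * e) * v + u + w1 * (2 ^ (2 * e + ρ) * q * r))
              / 2 ^ (400 * e - lam) % 2 ^ (lam + ρ)))| ≤ σ / 4 * V) :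
    |∑ n ∈ range (2 ^ (199 * e) * V), FU a b c d U (400 * e + ρ) n|
      ≤ (ε / 4 + √(4 * σ)) * (2 ^ (199 * e) * V) := by
  classical
  have hVpos : 0 < V := lt_of_lt_of_le (by positivity) hV1
  have hVR : (0 : ℝ) < V := by exact_mod_cast hVpos
  have hRR : (0 : ℝ) < R := by exact_mod_cast hR
  -- choice of q
  have hq : ∀ n, ∃ q : ℕ, q ≤ 2 ^ (60 * e) ∧ (n < 2 ^ (134 * e) → n ∉ bad →
      ∀ ν0 < 2 ^ (65 * e),
          di (q * P1 a b c (2 ^ (65 * e) * n + ν0) / 2 ^ (398 * e) - Y / 2 ^ Wd)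
            ≤ 1 / 2 ^ (3 * e + cst) ∧
          di (q * (2 * P2 a b (2 ^ (65 * e) * n + ν0)) / 2 ^ (199 * e))
            ≤ 1 / 2 ^ (3 * e + cst)) := by
    intro n
    by_cases h : n < 2 ^ (134 * e) ∧ n ∉ bad
    · obtain ⟨q, h1, h2⟩ := hcell n h.1 h.2
      exact ⟨q, h1, fun _ _ => h2⟩
    · exact ⟨0, Nat.zero_le _, fun h1 h2 => absurd ⟨h1, h2⟩ h⟩
  choose q hq1 hq2 using hq
  set T : ℝ := 2 ^ (199 * e) * V with hT
  have hTpos : 0 < T := by positivity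
  set G : Finset ℕ := (range (2 ^ (134 * e))) \ bad with hG
  have hGcard : G.card ≤ 2 ^ (134 * e) := by
    refine (card_le_card sdiff_subset).trans ?_
    rw [card_range]
  have hqR : ∀ n, 2 ^ (2 * e + ρ) * q n * R + U.sup id ≤ 2 ^ (63 * e) := by
    intro n
    have h1 : 2 ^ (2 * e + ρ) * q n * R ≤ 2 ^ (62 * e) * (2 ^ ρ * R) := by
      calc 2 ^ (2 * e + ρ) * q n * R ≤ 2 ^ (2 * e + ρ) * 2 ^ (60 * e) * R := by
            gcongr; exact hq1 n
        _ = 2 ^ (62 * e) * (2 ^ ρ * R) := by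
            rw [show 62 * e = 2 * e + 60 * e by ring, pow_add, pow_add]; ring
    have h2 : U.sup id ≤ 2 ^ (62 * e) * U.sup id := Nat.le_mul_of_pos_left _ (by positivity)
    calc 2 ^ (2 * e + ρ) * q n * R + U.sup id ≤ 2 ^ (62 * e) * (U.sup id + 2 ^ ρ * R) := by
          rw [mul_add]; omega
      _ ≤ 2 ^ (62 * e) * 2 ^ e := Nat.mul_le_mul_left _ hX
      _ = 2 ^ (63 * e) := by rw [← pow_add]; congr 1; ring
  have hxX : ∀ r < R, ∀ n, U.sup id + 2 ^ (2 * e + ρ) * q n * r ≤ 2 ^ (63 * e) := by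
    intro r hr n
    have h1 : 2 ^ (2 * e + ρ) * q n * r ≤ 2 ^ (2 * e + ρ) * q n * R :=
      Nat.mul_le_mul_left _ hr.le
    have := hqR n
    omega
  -- counting
  have hcount : ∀ r < R, ∀ β, β = 398 * e ∨ (∃ i < m, β = 199 * e + i * l) →
      (∑ n ∈ range (2 ^ (134 * e)), ∑ ν0 ∈ range (2 ^ (65 * e)),
        (cnt a b c d t e β V (2 ^ (65 * e) * n + ν0) U (2 ^ (2 * e + ρ) * q n * r) : ℝ))
        ≤ 6 * U.card * ε3 * T := by
    intro r hr β hβ
    have h1 := cnt_sum_le a b c d t e β V U (2 ^ (63 * e)) (fun n => 2 ^ (2 * e + ρ) * q n * r)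
      (fun n _ => hxX r hr n)
    have h2 : (∑ n ∈ range (2 ^ (134 * e)), ∑ ν0 ∈ range (2 ^ (65 * e)),
        (cnt a b c d t e β V (2 ^ (65 * e) * n + ν0) U (2 ^ (2 * e + ρ) * q n * r) : ℝ)) ≤
        2 * U.card * ((((range (2 ^ (199 * e) * V + 2 ^ (63 * e))).filter fun n : ℕ =>
        di (P a b c d n / 2 ^ β) ≤ 1 / 2 ^ t).card : ℝ) + 2 ^ (134 * e) * V * 2 ^ (63 * e)) := by
      exact_mod_cast h1
    refine h2.trans ?_
    have h3 := heqm β hβ
    have h4 : (2 : ℝ) ^ (134 * e) * V * 2 ^ (63 * e) ≤ ε3 * T := by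
      rw [hT]
      calc (2 : ℝ) ^ (134 * e) * V * 2 ^ (63 * e) = 1 * (2 ^ (197 * e) * V) := by
            rw [show 197 * e = 134 * e + 63 * e by ring, pow_add]; ring
        _ ≤ (ε3 * 2 ^ (2 * e)) * (2 ^ (197 * e) * V) :=
            mul_le_mul_of_nonneg_right he3 (by positivity)
        _ = ε3 * (2 ^ (199 * e) * V) := by
            rw [show 199 * e = 2 * e + 197 * e by ring, pow_add]; ring
    have h5 : (2 : ℝ) ^ (63 * e) ≤ T := by
      rw [hT]
      calc (2 : ℝ) ^ (63 * e) ≤ 2 ^ (199 * e) := pow_le_pow_right₀ (by norm_num) (by omega)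
        _ ≤ 2 ^ (199 * e) * V := le_mul_of_one_le_right (by positivity) (by exact_mod_cast hVpos)
    have h6 : ε3 * (2 ^ (199 * e) * V + 2 ^ (63 * e)) ≤ ε3 * (T + T) :=
      mul_le_mul_of_nonneg_left (by rw [← hT]; linarith) hε3.le
    calc 2 * U.card * ((((range (2 ^ (199 * e) * V + 2 ^ (63 * e))).filter fun n : ℕ =>
        di (P a b c d n / 2 ^ β) ≤ 1 / 2 ^ t).card : ℝ) + 2 ^ (134 * e) * V * 2 ^ (63 * e))
        ≤ 2 * U.card * (ε3 * (T + T) + ε3 * T) :=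
          mul_le_mul_of_nonneg_left (by linarith) (by positivity)
      _ = 6 * U.card * ε3 * T := by ring
  -- the bad ν
  have hbadsum : ∑ n ∈ range (2 ^ (134 * e)), ∑ ν0 ∈ range (2 ^ (65 * e)),
      (if good (2 ^ (65 * e) * n + ν0) then 0 else (V : ℝ)) ≤ σ / 4 * T := by
    have h1 := sum_mul_split (2 ^ (65 * e)) (2 ^ (134 * e))
      (fun ν => if good ν then 0 else (V : ℝ))
    rw [sum_comm] at h1
    have h2 : ∑ n ∈ range (2 ^ (134 * e)), ∑ ν0 ∈ range (2 ^ (65 * e)),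
      (if good (2 ^ (65 * e) * n + ν0) then 0 else (V : ℝ)) =
      ∑ ν ∈ range (2 ^ (65 * e) * 2 ^ (134 * e)), (if good ν then 0 else (V : ℝ)) := by
      rw [h1]
      exact sum_congr rfl fun n _ => sum_congr rfl fun ν0 _ => by rw [add_comm]
    rw [h2, ← pow_add, show 65 * e + 134 * e = 199 * e by ring]
    have h3 : ∀ ν ∈ range (2 ^ (199 * e)), (if good ν then 0 else (V : ℝ)) ≤
        if ν ∈ badν then (V : ℝ) else 0 := by
      intro ν hν
      by_cases hb : ν ∈ badν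
      · rw [if_pos hb]; split_ifs <;> linarith
      · rw [if_pos (hgood ν (mem_range.mp hν) hb), if_neg hb]
    refine (sum_le_sum h3).trans ?_
    rw [← sum_filter, sum_const, nsmul_eq_mul]
    have h4 : (((range (2 ^ (199 * e))).filter fun ν => ν ∈ badν).card : ℝ) ≤ badν.card := by
      exact_mod_cast card_le_card fun ν hν => (mem_filter.mp hν).2
    calc (((range (2 ^ (199 * e))).filter fun ν => ν ∈ badν).card : ℝ) * V
        ≤ (σ / 4 * 2 ^ (199 * e)) * V := mul_le_mul_of_nonneg_right (h4.trans hbadν) hVR.le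
      _ = σ / 4 * T := by rw [hT]; ring
  set W : ℝ := 2 ^ (65 * e) * V with hW
  have hW0 : 0 ≤ W := by positivity
  have hAW : ((2 ^ (134 * e) : ℕ) : ℝ) * W = T := by
    rw [hW, hT, show 199 * e = 134 * e + 65 * e by ring, pow_add]; push_cast; ring
  set S : ℕ → ℝ := fun n => ∑ ν0 ∈ range (2 ^ (65 * e)), ∑ v ∈ range V,
    FU a b c d U (400 * e + ρ) (2 ^ (65 * e) * n + ν0 + 2 ^ (199 * e) * v) with hS
  set Tm : ℕ → ℕ → ℝ := fun n r => ∑ ν0 ∈ range (2 ^ (65 * e)),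
    (σ / 4 * V + 2 * cnt a b c d t e (398 * e) V (2 ^ (65 * e) * n + ν0) U
        (2 ^ (2 * e + ρ) * q n * r)
      + (if good (2 ^ (65 * e) * n + ν0) then 0 else (V : ℝ))
      + 1 / ε' * ∑ i ∈ range m, (cnt a b c d t e (199 * e + i * l) V (2 ^ (65 * e) * n + ν0) U
        (2 ^ (2 * e + ρ) * q n * r) : ℝ)) with hTm
  have hterm0 : ∀ n r ν0, 0 ≤ σ / 4 * V + 2 * cnt a b c d t e (398 * e) V (2 ^ (65 * e) * n + ν0) U
        (2 ^ (2 * e + ρ) * q n * r)
      + (if good (2 ^ (65 * e) * n + ν0) then 0 else (V : ℝ))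
      + 1 / ε' * ∑ i ∈ range m, (cnt a b c d t e (199 * e + i * l) V (2 ^ (65 * e) * n + ν0) U
        (2 ^ (2 * e + ρ) * q n * r) : ℝ) := by
    intro n r ν0
    have : 0 ≤ (if good (2 ^ (65 * e) * n + ν0) then 0 else (V : ℝ)) := by
      split_ifs <;> linarith
    positivity
  have hT2 : ∀ r ∈ Ico 1 R, ∑ n ∈ G, Tm n r ≤ σ * (((2 ^ (134 * e) : ℕ) : ℝ) * W) := by
    intro r hr
    rw [mem_Ico] at hr
    have h1 : ∑ n ∈ G, Tm n r ≤ ∑ n ∈ range (2 ^ (134 * e)), Tm n r :=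
      sum_le_sum_of_subset_of_nonneg sdiff_subset fun n _ _ =>
        sum_nonneg fun ν0 _ => hterm0 n r ν0
    refine h1.trans ?_
    simp only [hTm, sum_add_distrib]
    have e1 : ∑ n ∈ range (2 ^ (134 * e)), ∑ ν0 ∈ range (2 ^ (65 * e)), σ / 4 * (V : ℝ) =
        σ / 4 * T := by
      rw [sum_const, sum_const, card_range, card_range, nsmul_eq_mul, nsmul_eq_mul, hT,
        show 199 * e = 134 * e + 65 * e by ring, pow_add]
      push_cast; ring
    have e2 : ∑ n ∈ range (2 ^ (134 * e)), ∑ ν0 ∈ range (2 ^ (65 * e)),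
        2 * (cnt a b c d t e (398 * e) V (2 ^ (65 * e) * n + ν0) U
          (2 ^ (2 * e + ρ) * q n * r) : ℝ) ≤ 2 * (6 * U.card * ε3 * T) := by
      have := hcount r hr.2 (398 * e) (Or.inl rfl)
      simp only [← mul_sum]
      linarith
    have e3 : ∑ n ∈ range (2 ^ (134 * e)), ∑ ν0 ∈ range (2 ^ (65 * e)),
        1 / ε' * ∑ i ∈ range m, (cnt a b c d t e (199 * e + i * l) V (2 ^ (65 * e) * n + ν0) U
        (2 ^ (2 * e + ρ) * q n * r) : ℝ) ≤ 1 / ε' * (m * (6 * U.card * ε3 * T)) := by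
      simp only [← mul_sum]
      apply mul_le_mul_of_nonneg_left _ (by positivity)
      rw [sum_congr rfl fun n _ => sum_comm, sum_comm]
      calc ∑ i ∈ range m, ∑ n ∈ range (2 ^ (134 * e)), ∑ ν0 ∈ range (2 ^ (65 * e)),
          (cnt a b c d t e (199 * e + i * l) V (2 ^ (65 * e) * n + ν0) U
            (2 ^ (2 * e + ρ) * q n * r) : ℝ) ≤ ∑ i ∈ range m, 6 * U.card * ε3 * T :=
            sum_le_sum fun i hi => hcount r hr.2 _ (Or.inr ⟨i, mem_range.mp hi, rfl⟩)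
        _ = m * (6 * U.card * ε3 * T) := by rw [sum_const, card_range, nsmul_eq_mul]
    rw [e1, hAW]
    have e4 : 2 * (6 * U.card * ε3 * T) + 1 / ε' * (m * (6 * U.card * ε3 * T)) ≤ σ / 2 * T := by
      calc 2 * (6 * U.card * ε3 * T) + 1 / ε' * (m * (6 * U.card * ε3 * T))
          = ((12 * U.card + 1 / ε' * (m * (6 * U.card))) * ε3) * T := by ring
        _ ≤ σ / 2 * T := mul_le_mul_of_nonneg_right hc3 hTpos.le
    linarith
  have hS2 : ∀ n ∈ G, S n ^ 2 ≤ W ^ 2 * (2 * σ) + W * (2 / R) * ∑ r ∈ Ico 1 R, Tm n r := by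
    intro n hn
    rw [hG, Finset.mem_sdiff, mem_range] at hn
    have hv := vdc2 (2 ^ (65 * e)) V R (2 ^ (2 * e + ρ) * q n) (by positivity) hVpos hR
      (fun ν0 v => FU a b c d U (400 * e + ρ) (2 ^ (65 * e) * n + ν0 + 2 ^ (199 * e) * v))
      (fun ν0 v => (abs_FU _ _ _ _ _ _ _).le)
    have hNV : (((2 ^ (65 * e) : ℕ) : ℝ) * V) = W := by rw [hW]; push_cast; rfl
    rw [hNV] at hv
    refine hv.trans (add_le_add ?_ ?_)
    · apply mul_le_mul_of_nonneg_left _ (sq_nonneg _)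
      have h1 : (4 : ℝ) * ((2 ^ (2 * e + ρ) * q n : ℕ) : ℝ) * R / ((2 ^ (65 * e) : ℕ) : ℝ) ≤ σ := by
        rw [div_le_iff₀ (by positivity)]
        have h2 : ((2 ^ (2 * e + ρ) * q n : ℕ) : ℝ) * R ≤ 2 ^ (63 * e) := by
          have h3 := hqR n
          have h4 : 2 ^ (2 * e + ρ) * q n * R ≤ 2 ^ (63 * e) := by omega
          exact_mod_cast h4
        calc (4 : ℝ) * ((2 ^ (2 * e + ρ) * q n : ℕ) : ℝ) * R
            = 4 * (((2 ^ (2 * e + ρ) * q n : ℕ) : ℝ) * R) := by ring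
          _ ≤ (σ * 2 ^ (2 * e)) * 2 ^ (63 * e) := mul_le_mul heσ h2 (by positivity) (by positivity)
          _ = σ * ((2 ^ (65 * e) : ℕ) : ℝ) := by
              rw [show 65 * e = 2 * e + 63 * e by ring, pow_add]; push_cast; ring
      linarith
    · apply mul_le_mul_of_nonneg_left _ (by positivity)
      apply sum_le_sum
      intro r hr
      rw [mem_Ico] at hr
      refine (abs_sum_le_sum_abs _ _).trans ?_
      simp only [hTm]
      apply sum_le_sum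
      intro ν0 hν0
      rw [mem_range] at hν0
      obtain ⟨hd1, hd2⟩ := hq2 n hn.1 hn.2 ν0 hν0
      have hνlt : 2 ^ (65 * e) * n + ν0 < 2 ^ (199 * e) := by
        have h1 : 2 ^ (65 * e) * (n + 1) ≤ 2 ^ (65 * e) * 2 ^ (134 * e) :=
          Nat.mul_le_mul_left _ hn.1
        rw [← pow_add, show 65 * e + 134 * e = 199 * e by ring, mul_add, mul_one] at h1
        omega
      have hb := nu_bound a b c d U ρ lam t e l V (2 ^ (65 * e) * n + ν0)
        (2 ^ (2 * e + ρ) * q n * r) m (σ / 4) ε' (by positivity) hε' hlam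
        (good (2 ^ (65 * e) * n + ν0))
        (fun hg hc => hbp _ hνlt hg (q n) r hr.1 hr.2 (hq1 n) hd1 hd2 hc)
        (fun v hv u hu hdi => hxk _ v u (q n) r hνlt (by omega) (Finset.le_sup (f := id) hu) hr.2
          (hq1 n) hd1 hd2 hdi)
      refine le_trans (le_of_eq ?_) hb
      congr 1
      refine sum_congr rfl fun v _ => ?_
      congr 2
      ring
  have hCS := cs_cells G (2 ^ (134 * e)) R hGcard S W (2 * σ) σ hW0 (by positivity) hσ.le hR Tm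
    hS2 hT2
  rw [hAW] at hCS
  have hCS2 : ∑ n ∈ G, |S n| ≤ √(4 * σ) * T := by
    have h1 : 2 * σ + 2 * σ = 4 * σ := by ring
    rw [h1] at hCS
    have h2 : √(T ^ 2 * (4 * σ)) = T * √(4 * σ) := by
      rw [Real.sqrt_mul (sq_nonneg T), Real.sqrt_sq hTpos.le]
    rw [mul_comm, ← h2]
    exact Real.le_sqrt_of_sq_le hCS
  have hSW : ∀ n, |S n| ≤ W := by
    intro n
    refine (abs_sum_le_sum_abs _ _).trans ?_
    have : ∀ ν0 ∈ range (2 ^ (65 * e)), |∑ v ∈ range V,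
        FU a b c d U (400 * e + ρ) (2 ^ (65 * e) * n + ν0 + 2 ^ (199 * e) * v)| ≤ V := by
      intro ν0 _
      refine (abs_sum_le_sum_abs _ _).trans ?_
      rw [sum_congr rfl fun v _ => abs_FU a b c d U (400 * e + ρ) _]
      simp
    refine (sum_le_sum this).trans (le_of_eq ?_)
    rw [sum_const, card_range, nsmul_eq_mul, hW]; push_cast; rfl
  rw [cell_split e V]
  refine (abs_sum_le_sum_abs _ _).trans ?_
  have hsplit : ∑ n ∈ range (2 ^ (134 * e)), |S n| = ∑ n ∈ G, |S n| +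
      ∑ n ∈ (range (2 ^ (134 * e))) ∩ bad, |S n| := by
    rw [hG, ← sum_sdiff (s₁ := range (2 ^ (134 * e)) ∩ bad) (s₂ := range (2 ^ (134 * e)))
      inter_subset_left]
    congr 2
    ext x; simp only [Finset.mem_sdiff, Finset.mem_inter, not_and]
    constructor
    · rintro ⟨h1, h2⟩; exact ⟨h1, h2 h1⟩
    · rintro ⟨h1, h2⟩; exact ⟨h1, fun _ => h2⟩
  have hbadS : ∑ n ∈ (range (2 ^ (134 * e))) ∩ bad, |S n| ≤ ε / 4 * T := by
    calc ∑ n ∈ (range (2 ^ (134 * e))) ∩ bad, |S n| ≤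
        ∑ _n ∈ (range (2 ^ (134 * e))) ∩ bad, W := sum_le_sum fun n _ => hSW n
      _ = (((range (2 ^ (134 * e))) ∩ bad).card : ℝ) * W := by rw [sum_const, nsmul_eq_mul]
      _ ≤ (ε / 4 * 2 ^ (134 * e)) * W := by
          apply mul_le_mul_of_nonneg_right _ hW0
          refine le_trans ?_ hbad
          exact_mod_cast card_le_card inter_subset_right
      _ = ε / 4 * T := by rw [← hAW]; push_cast; ring
  calc ∑ n ∈ range (2 ^ (134 * e)), |∑ ν0 ∈ range (2 ^ (65 * e)), ∑ v ∈ range V,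
      FU a b c d U (400 * e + ρ) (2 ^ (65 * e) * n + ν0 + 2 ^ (199 * e) * v)|
      = ∑ n ∈ range (2 ^ (134 * e)), |S n| := rfl
    _ ≤ √(4 * σ) * T + ε / 4 * T := by rw [hsplit]; exact add_le_add hCS2 hbadS
    _ = (ε / 4 + √(4 * σ)) * T := by ring

theorem c3_nonneg (u m : ℕ) (ε' : ℝ) (h : 0 < ε') :
    0 ≤ 12 * (u : ℝ) + 1 / ε' * (m * (6 * u)) := by positivity

theorem cub (a b c d : ℕ) (ha : 1 ≤ a) (U : Finset ℕ) (hU : U.Nonempty) (ε : ℝ) (hε : 0 < ε) :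
    ∃ l0 : ℕ, 1 ≤ l0 ∧ ∀ r0 : ℕ, 1 ≤ r0 → ∀ᶠ N : ℕ in atTop,
      |∑ n ∈ range N, ∏ u ∈ U, sg (P a b c d (n + u)
        % 2 ^ (400 * ((4 * U.card + 6) * (Nat.log 2 N / (200 * (4 * U.card + 6)))) + r0 * l0))|
        ≤ ε * N := by
  classical
  obtain ⟨E, hE⟩ : ∃ E, E = 4 * U.card + 6 := ⟨_, rfl⟩
  rw [← hE]
  have hEpos : 1 ≤ E := by omega
  obtain ⟨κ, hκ⟩ : ∃ κ, κ = 2 ^ (200 * E) := ⟨_, rfl⟩
  set s := ε / 4 with hs
  have hs0 : 0 < s := by positivity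
  set σ := s ^ 2 / 4 with hσdef
  have hσ : 0 < σ := by positivity
  have hσs : √(4 * σ) = s := by
    rw [hσdef, show 4 * (s ^ 2 / 4) = s ^ 2 by ring, Real.sqrt_sq hs0.le]
  obtain ⟨R1, hR1, hBP⟩ := bphase a b c d ha U hU κ (σ / 4) (by positivity)
  obtain ⟨R2, hR2⟩ := exists_nat_gt (1 / σ)
  obtain ⟨R, hR⟩ : ∃ R, R = max R1 R2 + 1 := ⟨_, rfl⟩
  have hRR1 : R1 ≤ R := by omega
  have hR1' : 1 ≤ R := by omega
  have hRσ : 1 / (R : ℝ) ≤ σ := by
    have h1 : 1 / σ ≤ R := hR2.le.trans (by exact_mod_cast (by omega : R2 ≤ R))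
    have hRpos : (0 : ℝ) < R := by exact_mod_cast hR1'
    rw [div_le_iff₀ hσ] at h1
    rw [div_le_iff₀ hRpos]
    linarith
  obtain ⟨l0, y0, ε', hl0, hy0, hε', hBP⟩ := hBP R hRR1
  refine ⟨l0, hl0, fun r0 hr0 => ?_⟩
  obtain ⟨l1, Ξ, hl1, hBP⟩ := hBP r0 hr0
  obtain ⟨m, hm⟩ : ∃ m, m = 199 * E := ⟨_, rfl⟩
  obtain ⟨c3, hc3⟩ : ∃ c3 : ℝ, c3 = 12 * U.card + 1 / ε' * (m * (6 * U.card)) := ⟨_, rfl⟩
  have hc30 : 0 ≤ c3 := hc3 ▸ c3_nonneg U.card m ε' hε'
  obtain ⟨ε3, hε3⟩ : ∃ ε3 : ℝ, ε3 = σ / (2 * (c3 + 1)) := ⟨_, rfl⟩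
  have hε30 : 0 < ε3 := by rw [hε3]; positivity
  have hc3ε : c3 * ε3 ≤ σ / 2 := by
    rw [hε3]
    have : c3 * (σ / (2 * (c3 + 1))) = σ / 2 * (c3 / (c3 + 1)) := by field_simp
    rw [this]
    calc σ / 2 * (c3 / (c3 + 1)) ≤ σ / 2 * 1 := by
          apply mul_le_mul_of_nonneg_left _ (by positivity)
          rw [div_le_one (by positivity)]; linarith
      _ = σ / 2 := mul_one _
  obtain ⟨τ, hτ, hEQM⟩ := eqm a b c d (κ + 1) ha ε3 hε30
  obtain ⟨t, ht⟩ : ∃ t : ℕ, (1 : ℝ) / 2 ^ t ≤ τ := by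
    obtain ⟨t, ht⟩ := exists_pow_lt_of_lt_one hτ (show (1 / 2 : ℝ) < 1 by norm_num)
    refine ⟨t, ?_⟩
    rw [div_pow, one_pow] at ht
    exact ht.le
  have hBPt := hBP t
  obtain ⟨cst, hXK⟩ := xkill a b c d (U.sup id) κ R (r0 * l0) (l1 * l0) t
  have hCQ := cellq a b c cst ha (ε / 4) (by positivity)
  have hGOOD := good_most a b (r0 * l0) κ Ξ ha (σ / 4) (by positivity)
  obtain ⟨e3, he3⟩ := exists_nat_gt (1 / ε3)
  obtain ⟨e4, he4⟩ := exists_nat_gt (4 / σ)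
  obtain ⟨e5, he5⟩ := exists_nat_gt (4 / ε)
  have hte : Tendsto (fun l : ℕ => E * l) atTop atTop :=
    tendsto_id.const_mul_atTop' (by omega)
  have hall : ∀ᶠ l : ℕ in atTop, ∀ N : ℕ, 2 ^ (200 * (E * l)) ≤ N → N < κ * 2 ^ (200 * (E * l)) →
      |∑ n ∈ range N, ∏ u ∈ U, sg (P a b c d (n + u) % 2 ^ (400 * (E * l) + r0 * l0))|
        ≤ ε * N := by
    filter_upwards [hBPt, hte.eventually hXK, hte.eventually hCQ, hte.eventually hGOOD,
      hte.eventually hEQM, hte.eventually (eventually_ge_atTop (l1 * l0)),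
      hte.eventually (eventually_ge_atTop (U.sup id + 2 ^ (r0 * l0) * R)),
      hte.eventually (eventually_ge_atTop (max e3 (max e4 e5)))] with l hB hX hC hG hQ h1 h2 h3
    intro N hN1 hN2
    obtain ⟨e, he⟩ : ∃ e, e = E * l := ⟨_, rfl⟩
    rw [← he] at hX hC hG hQ h1 h2 h3 hN1 hN2 ⊢
    obtain ⟨bad, hbad, hcell⟩ := hC
    obtain ⟨badν, hbadν, hgood⟩ := hG
    obtain ⟨V, hV⟩ : ∃ V, V = N / 2 ^ (199 * e) := ⟨_, rfl⟩
    have hpow : 2 ^ (200 * e) = 2 ^ e * 2 ^ (199 * e) := by rw [← pow_add]; congr 1; ring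
    have hV1 : 2 ^ e ≤ V := by
      rw [hV, Nat.le_div_iff_mul_le (by positivity), ← hpow]; exact hN1
    have hV2 : V ≤ κ * 2 ^ e := by
      rw [hV]
      apply Nat.div_le_of_le_mul
      rw [hpow] at hN2
      calc N ≤ κ * (2 ^ e * 2 ^ (199 * e)) := hN2.le
        _ = 2 ^ (199 * e) * (κ * 2 ^ e) := by ring
    have hVN : 2 ^ (199 * e) * V ≤ N := by
      rw [hV]; exact Nat.mul_div_le N _
    have hrest : N < 2 ^ (199 * e) * V + 2 ^ (199 * e) := by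
      rw [hV]
      have := Nat.lt_div_mul_add (a := N) (b := 2 ^ (199 * e)) (by positivity)
      rw [mul_comm]; exact this
    have h2e : e < 2 ^ e := Nat.lt_two_pow_self
    have hsmall : ∀ x : ℝ, x < e → x ≤ 2 ^ (2 * e) := by
      intro x hx
      have h4 : (e : ℝ) ≤ 2 ^ (2 * e) := by
        have : e ≤ 2 ^ (2 * e) := h2e.le.trans (Nat.pow_le_pow_right (by norm_num) (by omega))
        exact_mod_cast this
      linarith
    have he3' : 1 ≤ ε3 * 2 ^ (2 * e) := by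
      have h4 : 1 / ε3 < e := he3.trans_le (by exact_mod_cast (by omega : e3 ≤ e))
      have h5 := hsmall _ h4
      rw [div_le_iff₀ hε30] at h5
      linarith
    have heσ : 4 ≤ σ * 2 ^ (2 * e) := by
      have h4 : 4 / σ < e := he4.trans_le (by exact_mod_cast (by omega : e4 ≤ e))
      have h5 := hsmall _ h4
      rw [div_le_iff₀ hσ] at h5
      linarith
    have hNbound : 2 ^ (199 * e) * V + 2 ^ (63 * e) ≤ (κ + 1) * 2 ^ (200 * e) := by
      have h4 : 2 ^ (63 * e) ≤ 2 ^ (200 * e) := Nat.pow_le_pow_right (by norm_num) (by omega)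
      have h5 : 2 ^ (199 * e) * V ≤ κ * 2 ^ (200 * e) := hVN.trans hN2.le
      rw [add_mul, one_mul]; omega
    have hNlow : 2 ^ (200 * e) ≤ 2 ^ (199 * e) * V + 2 ^ (63 * e) := by
      have : 2 ^ (199 * e) * 2 ^ e ≤ 2 ^ (199 * e) * V := Nat.mul_le_mul_left _ hV1
      rw [mul_comm (2 ^ (199 * e)) (2 ^ e), ← hpow] at this
      exact this.trans (Nat.le_add_right _ _)
    have hexp : (2 : ℝ) ^ (3 * e) ≤ 2 ^ (3 * e + cst) := pow_le_pow_right₀ (by norm_num) (by omega)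
    have hexp' : (1 : ℝ) / 2 ^ (3 * e + cst) ≤ 1 / 2 ^ (3 * e) :=
      one_div_le_one_div_of_le (by positivity) hexp
    have hWd : (l1 + r0) * l0 = l1 * l0 + r0 * l0 := by ring
    have core := cub_core a b c d U κ R (r0 * l0) (l1 * l0) t e l V m (rep y0 l0 (l1 + r0))
      (l1 * l0 + r0 * l0) cst ε σ ε' ε3 (Good a b (r0 * l0) κ Ξ e) bad badν hε hσ hε' hε30 hR1' hRσ
      (by rw [← hc3]; exact hc3ε) (by omega) hV1 hV2 (h2.trans h2e.le) he3' heσ hbad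
      (by
        intro n hn hnb
        obtain ⟨q, -, hq2, hq3⟩ := hcell n hn hnb
          ((rep y0 l0 (l1 + r0) : ℝ) / 2 ^ (l1 * l0 + r0 * l0))
        exact ⟨q, hq2, hq3⟩)
      hbadν hgood
      (by
        intro β hβ
        have hβ1 : 199 * e ≤ β ∧ β ≤ 398 * e := by
          rcases hβ with h | ⟨i, hi, h⟩
          · omega
          · rw [h]
            have : i * l ≤ 199 * e := by
              calc i * l ≤ m * l := Nat.mul_le_mul_right _ hi.le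
                _ = 199 * e := by rw [hm, he]; ring
            omega
        have h4 := hQ β (2 ^ (199 * e) * V + 2 ^ (63 * e)) hβ1.1 hβ1.2 hNlow hNbound
        have h5 : (((range (2 ^ (199 * e) * V + 2 ^ (63 * e))).filter fun n : ℕ =>
            di (P a b c d n / 2 ^ β) ≤ 1 / 2 ^ t).card : ℝ) ≤
            (((range (2 ^ (199 * e) * V + 2 ^ (63 * e))).filter fun n : ℕ =>
            di (P a b c d n / 2 ^ β) ≤ τ).card : ℝ) := by
          have h6 : ((range (2 ^ (199 * e) * V + 2 ^ (63 * e))).filter fun n : ℕ =>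
            di (P a b c d n / 2 ^ β) ≤ 1 / 2 ^ t) ⊆
            ((range (2 ^ (199 * e) * V + 2 ^ (63 * e))).filter fun n : ℕ =>
            di (P a b c d n / 2 ^ β) ≤ τ) := by
            intro n hn
            rw [mem_filter] at hn ⊢
            exact ⟨hn.1, hn.2.trans ht⟩
          exact_mod_cast card_le_card h6
        refine h5.trans (h4.trans_eq ?_)
        push_cast; ring)
      (by
        intro ν v u q r hν hv hu hr hq hd1 hd2 hdi
        exact hX ν v u q r (rep y0 l0 (l1 + r0)) hν hv hu hr hq hd1 hd2 hdi)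
      (by
        intro ν hν hg q r hr1 hr2 hq hd1 hd2 hcnt
        have h4 := hB e (by rw [he, hE]) ν hν hg V q r hV1 hV2 hr1 hr2 hq
          (by rw [hWd]; exact hd1.trans hexp') (hd2.trans hexp')
          (by
            intro i hi
            exact hcnt i (by rw [hm, hE]; exact hi))
        rw [hWd] at h4
        exact h4)
    rw [hσs] at core
    -- the rest
    have hFU : ∀ n, ∏ u ∈ U, sg (P a b c d (n + u) % 2 ^ (400 * e + r0 * l0)) =
        FU a b c d U (400 * e + r0 * l0) n := fun n => rfl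
    simp only [hFU]
    obtain ⟨w, hw⟩ : ∃ w, N = 2 ^ (199 * e) * V + w := ⟨N - 2 ^ (199 * e) * V, by omega⟩
    have hwlt : w < 2 ^ (199 * e) := by omega
    have hwR : (w : ℝ) ≤ ε / 4 * N := by
      have h4 : 4 / ε < e := he5.trans_le (by exact_mod_cast (by omega : e5 ≤ e))
      have h5 : (4 : ℝ) / ε ≤ 2 ^ e := by
        have : (e : ℝ) ≤ 2 ^ e := by exact_mod_cast h2e.le
        linarith
      rw [div_le_iff₀ hε] at h5
      have h6 : (w : ℝ) ≤ 2 ^ (199 * e) := by exact_mod_cast hwlt.le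
      have h7 : (2 : ℝ) ^ (200 * e) ≤ N := by exact_mod_cast hN1
      have h8 : (2 : ℝ) ^ (200 * e) = 2 ^ e * 2 ^ (199 * e) := by exact_mod_cast hpow
      calc (w : ℝ) ≤ 2 ^ (199 * e) := h6
        _ = 4 / 4 * 2 ^ (199 * e) := by ring
        _ ≤ (2 ^ e * ε) / 4 * 2 ^ (199 * e) := by gcongr
        _ = ε / 4 * 2 ^ (200 * e) := by rw [h8]; ring
        _ ≤ ε / 4 * N := by gcongr
    have hVNR : (2 : ℝ) ^ (199 * e) * V ≤ N := by exact_mod_cast hVN
    rw [hw, sum_range_add, ← hw]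
    refine (abs_add_le _ _).trans ?_
    have hr2 : |∑ x ∈ range w, FU a b c d U (400 * e + r0 * l0) (2 ^ (199 * e) * V + x)| ≤ w := by
      refine (abs_sum_le_sum_abs _ _).trans ?_
      rw [sum_congr rfl fun v _ => abs_FU a b c d U (400 * e + r0 * l0) _]
      simp
    calc |∑ x ∈ range (2 ^ (199 * e) * V), FU a b c d U (400 * e + r0 * l0) x| +
        |∑ x ∈ range w, FU a b c d U (400 * e + r0 * l0) (2 ^ (199 * e) * V + x)|
        ≤ (ε / 4 + s) * (2 ^ (199 * e) * V) + w := add_le_add core hr2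
      _ ≤ (ε / 4 + s) * N + ε / 4 * N := by
          apply add_le_add _ hwR
          exact mul_le_mul_of_nonneg_left hVNR (by positivity)
      _ ≤ ε * N := by
          rw [hs]
          have : (0 : ℝ) ≤ N := Nat.cast_nonneg _
          nlinarith
  have hlog := (tendsto_log_div (200 * E) (by omega)).eventually hall
  filter_upwards [hlog, eventually_ge_atTop 1] with N hN hN1
  apply hN
  · have h1 : 200 * E * (Nat.log 2 N / (200 * E)) ≤ Nat.log 2 N := Nat.mul_div_le _ _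
    calc 2 ^ (200 * (E * (Nat.log 2 N / (200 * E)))) = 2 ^ (200 * E * (Nat.log 2 N / (200 * E))) := by
          congr 1; ring
      _ ≤ 2 ^ Nat.log 2 N := Nat.pow_le_pow_right (by norm_num) h1
      _ ≤ N := Nat.pow_log_le_self 2 (by omega)
  · have h1 : Nat.log 2 N < 200 * E * (Nat.log 2 N / (200 * E)) + 200 * E := by
      have := Nat.lt_div_mul_add (a := Nat.log 2 N) (b := 200 * E) (by omega)
      rw [mul_comm] at this; exact this
    calc N < 2 ^ (Nat.log 2 N + 1) := Nat.lt_pow_succ_log_self (by norm_num) N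
      _ ≤ 2 ^ (200 * E * (Nat.log 2 N / (200 * E)) + 200 * E) :=
          Nat.pow_le_pow_right (by norm_num) (by omega)
      _ = κ * 2 ^ (200 * (E * (Nat.log 2 N / (200 * E)))) := by
          rw [hκ, ← pow_add]; congr 1; ring

end Pool.Agent.Lib.MP_8fac0f_nt.C3
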