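import Pool.Agent.Lib.MP_8fac0f_nt.C3.Defs

/-!
# CUB, part 1: splitting of sums and digits
-/

set_option autoImplicit false

namespace Pool.Agent.Lib.MP_8fac0f_nt.C3

open Finset Filter Topology
open Pool.Agent.Lib.MP_8fac0f_nt.N (sg CorrZero)

theorem sum_mul_split (A B : ℕ) (f : ℕ → ℝ) :
    ∑ n ∈ range (A * B), f n = ∑ ν ∈ range A, ∑ v ∈ range B, f (ν + A * v) := by
  rw [sum_comm]
  induction B with
  | zero => simp
  | succ B ih =>
    rw [mul_add, mul_one, sum_range_add, ih, sum_range_succ]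
    congr 1
    exact sum_congr rfl fun v _ => by rw [add_comm]

theorem cell_split (e V : ℕ) (f : ℕ → ℝ) :
    ∑ n ∈ range (2 ^ (199 * e) * V), f n =
      ∑ n ∈ range (2 ^ (134 * e)), ∑ ν0 ∈ range (2 ^ (65 * e)), ∑ v ∈ range V,
        f (2 ^ (65 * e) * n + ν0 + 2 ^ (199 * e) * v) := by
  rw [sum_mul_split (2 ^ (199 * e)) V f]
  have h : 2 ^ (199 * e) = 2 ^ (65 * e) * 2 ^ (134 * e) := by rw [← pow_add]; congr 1; ring
  conv_lhs => rw [h]
  rw [sum_mul_split (2 ^ (65 * e)) (2 ^ (134 * e)), sum_comm]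
  refine sum_congr rfl fun n _ => sum_congr rfl fun ν0 _ => sum_congr rfl fun v _ => ?_
  rw [← h]
  congr 1
  ring

theorem sg_mod_split (m T L : ℕ) : sg (m % 2 ^ (T + L)) = sg (m % 2 ^ T) * sg (m / 2 ^ T % 2 ^ L) := by
  rw [Pool.Agent.Lib.MP_8fac0f_nt.N.sg_mod_div T (m % 2 ^ (T + L))]
  congr 2
  · rw [pow_add, Nat.mod_mul_right_mod]
  · rw [pow_add, Nat.mod_mul_right_div_self]

theorem sg_three (m e lam ρ : ℕ) (h : lam ≤ 2 * e) :
    sg (m % 2 ^ (400 * e + ρ)) = (sg (m % 2 ^ (398 * e)) *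
      sg (m / 2 ^ (400 * e - lam) % 2 ^ (lam + ρ))) * sg (m / 2 ^ (398 * e) % 2 ^ (2 * e - lam)) := by
  have e1 : 400 * e + ρ = 398 * e + ((2 * e - lam) + (lam + ρ)) := by omega
  rw [e1, sg_mod_split, sg_mod_split (m / 2 ^ (398 * e)) (2 * e - lam) (lam + ρ), Nat.div_div_eq_div_mul,
    ← pow_add, show 398 * e + (2 * e - lam) = 400 * e - lam by omega]
  ring

/-- The product along `U`. -/
noncomputable def FU (a b c d : ℕ) (U : Finset ℕ) (K n : ℕ) : ℝ :=
  ∏ u ∈ U, sg (P a b c d (n + u) % 2 ^ K)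

theorem abs_FU (a b c d : ℕ) (U : Finset ℕ) (K n : ℕ) : |FU a b c d U K n| = 1 := by
  unfold FU
  rw [abs_prod]
  exact prod_eq_one fun u _ => Pool.Agent.Lib.MP_8fac0f_nt.N.abs_sg _

theorem cub_abs_prod {ι : Type} (s : Finset ι) (f : ι → ℝ) (h : ∀ i ∈ s, |f i| = 1) :
    |∏ i ∈ s, f i| = 1 := by
  rw [abs_prod]
  exact prod_eq_one h

theorem FU_mul (a b c d e lam ρ : ℕ) (U : Finset ℕ) (n x : ℕ) (h : lam ≤ 2 * e) :
    FU a b c d U (400 * e + ρ) n * FU a b c d U (400 * e + ρ) (n + x) =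
      (∏ u ∈ U, ∏ w1 ∈ range 2, (sg (P a b c d (n + u + w1 * x) % 2 ^ (398 * e)) *
        sg (P a b c d (n + u + w1 * x) / 2 ^ (400 * e - lam) % 2 ^ (lam + ρ)))) *
      ∏ u ∈ U, (sg (P a b c d (n + u) / 2 ^ (398 * e) % 2 ^ (2 * e - lam)) *
        sg (P a b c d (n + u + x) / 2 ^ (398 * e) % 2 ^ (2 * e - lam))) := by
  unfold FU
  rw [← prod_mul_distrib, ← prod_mul_distrib]
  refine prod_congr rfl fun u _ => ?_
  rw [prod_range_succ, prod_range_one, sg_three _ e lam ρ h, sg_three _ e lam ρ h]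
  rw [show n + x + u = n + u + x by ring, zero_mul, one_mul, add_zero]
  ring

/-- Sum over `v`: the middle digits may be dropped outside the exceptional set. -/
theorem vsum_bound (V : ℕ) (G Mid : ℕ → ℝ) (Bd : ℕ → Prop) [DecidablePred Bd]
    (hG : ∀ v, |G v| = 1) (hM : ∀ v, |Mid v| = 1) (h : ∀ v, v < V → ¬ Bd v → Mid v = 1) :
    |∑ v ∈ range V, G v * Mid v| ≤ |∑ v ∈ range V, G v|
      + 2 * ((range V).filter Bd).card := by
  have e1 : ∑ v ∈ range V, G v * Mid v = ∑ v ∈ range V, G v +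
      ∑ v ∈ range V, G v * (Mid v - 1) := by
    rw [← sum_add_distrib]; exact sum_congr rfl fun v _ => by ring
  rw [e1]
  refine (abs_add_le _ _).trans (add_le_add le_rfl ?_)
  refine (abs_sum_le_sum_abs _ _).trans ?_
  have : ∀ v ∈ range V, |G v * (Mid v - 1)| ≤ if Bd v then 2 else 0 := by
    intro v hv
    split_ifs with hb
    · rw [abs_mul, hG v, one_mul]
      calc |Mid v - 1| ≤ |Mid v| + |(1 : ℝ)| := abs_sub _ _
        _ = 2 := by rw [hM v, abs_one]; norm_num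
    · rw [h v (mem_range.mp hv) hb]; simp
  refine (sum_le_sum this).trans ?_
  rw [← sum_filter, sum_const, nsmul_eq_mul, mul_comm]

end Pool.Agent.Lib.MP_8fac0f_nt.C3
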