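import Pool.Agent.Lib.MP_8fac0f_nt.C3.Sq

/-!
# The values of a cubic polynomial are rarely close to an integer modulo a power of two
-/

set_option autoImplicit false

namespace Pool.Agent.Lib.MP_8fac0f_nt.C3

open Finset Filter Topology

/-- shift of the variable -/
theorem eqm_shift (E : ℕ → Prop) [DecidablePred E] (N x : ℕ) :
    ((range N).filter E).card ≤ ((range N).filter fun n => E (n + x)).card + x := by
  have h1 : (range N).filter E ⊆
      range x ∪ ((range N).filter fun n => E (n + x)).image fun n => n + x := by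
    intro n hn
    rw [mem_filter, mem_range] at hn
    rw [mem_union, mem_range, mem_image]
    by_cases hx : n < x
    · exact Or.inl hx
    · refine Or.inr ⟨n - x, ?_, by omega⟩
      rw [mem_filter, mem_range, show n - x + x = n by omega]
      exact ⟨by omega, hn.2⟩
  have h2 := (card_le_card h1).trans (card_union_le _ _)
  have h3 : (((range N).filter fun n => E (n + x)).image fun n => n + x).card ≤
    ((range N).filter fun n => E (n + x)).card := card_image_le
  rw [card_range] at h2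
  omega

/-- counting a periodic set -/
theorem eqm_per (p : ℕ → Prop) [DecidablePred p] (D N : ℕ) (hD : 0 < D)
    (hp : ∀ n, p n → p (n % D)) :
    ((range N).filter p).card ≤ (N / D + 1) * ((range D).filter p).card := by
  have h1 : ((range N).filter p).card ≤ (range (N / D + 1) ×ˢ (range D).filter p).card := by
    apply card_le_card_of_injOn (fun n => (n / D, n % D))
    · intro n hn
      rw [mem_coe, mem_filter, mem_range] at hn
      rw [mem_coe, mem_product, mem_filter, mem_range, mem_range]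
      refine ⟨?_, Nat.mod_lt _ hD, hp n hn.2⟩
      have := Nat.div_le_div_right (c := D) hn.1.le
      exact Nat.lt_succ_of_le this
    · intro n _ m _ hnm
      have h2 : n / D = m / D := congrArg Prod.fst hnm
      have h3 : n % D = m % D := congrArg Prod.snd hnm
      rw [← Nat.div_add_mod n D, ← Nat.div_add_mod m D, h2, h3]
  rwa [card_product, card_range] at h1

/-- the values along a progression are linear -/
theorem eqm_lin (a b c d n j b' m : ℕ) (h : b' ≤ j) :
    di (P a b c d (n + 2 ^ j * m) / 2 ^ (j + b')) =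
      di ((P a b c d n / 2 ^ (j + b') : ℝ) + m * (P1 a b c n / 2 ^ b')) := by
  obtain ⟨k, hk⟩ := Nat.exists_eq_add_of_le h
  have h1 := di_add_int ((P a b c d n / 2 ^ (j + b') : ℝ) + m * (P1 a b c n / 2 ^ b'))
    ((2 ^ k * m ^ 2 * (P2 a b n + a * (2 ^ j * m)) : ℕ) : ℤ)
  rw [← h1]
  congr 1
  rw [P_add, Int.cast_natCast]
  have h2 : (2 : ℝ) ^ j = 2 ^ b' * 2 ^ k := by rw [hk, pow_add]
  push_cast
  rw [pow_add, h2]
  field_simp
  ring

open Classical in
theorem eqm_bad (a b c H b' N : ℕ) (ha : 1 ≤ a) (γ : ℝ) (hγ : 0 < γ) (hN : 2 ^ b' ≤ N) :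
    (((range N).filter fun n : ℕ => ∃ m : ℕ, (1 ≤ m ∧ m ≤ H) ∧
      di (m * (P1 a b c n / 2 ^ b' : ℝ)) < γ).card : ℝ) ≤
      2 * N * (H * √(4 * γ + (6 * a * H * b' + 1) / 2 ^ b')) := by
  classical
  set D := 2 ^ b' with hD
  have hD0 : 0 < D := Nat.pos_of_ne_zero (by positivity)
  have hDr : ((2 : ℝ) ^ b') = (D : ℝ) := by rw [hD]; push_cast; rfl
  rw [hDr]
  have hDp : (0 : ℝ) < D := by exact_mod_cast hD0
  have h1 := eqm_per (fun n : ℕ => ∃ m : ℕ, (1 ≤ m ∧ m ≤ H) ∧
      di (m * (P1 a b c n / D : ℝ)) < γ) D N hD0 (by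
    rintro n ⟨m, hm, h2⟩
    refine ⟨m, hm, ?_⟩
    have h3 := Nat.div_add_mod n D
    have h4 := di_add_int (m * (P1 a b c (n % D) / D : ℝ))
      ((m * (n / D) * (2 * P2 a b (n % D) + 3 * a * (D * (n / D))) : ℕ) : ℤ)
    rw [Int.cast_natCast] at h4
    rw [← h4]
    have h5 : P1 a b c n = P1 a b c (n % D + D * (n / D)) := by
      rw [add_comm, h3]
    rw [h5, P1_add] at h2
    convert h2 using 2
    generalize n / D = x
    push_cast
    field_simp
    ring)
  have h2 : ((range D).filter fun n : ℕ => ∃ m : ℕ, (1 ≤ m ∧ m ≤ H) ∧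
      di (m * (P1 a b c n / D : ℝ)) < γ).card ≤ ∑ m ∈ Icc 1 H,
      ((range D).filter fun n : ℕ => di (m * P1 a b c n / D) ≤ γ).card := by
    refine (card_le_card ?_).trans card_biUnion_le
    intro n hn
    rw [mem_filter] at hn
    obtain ⟨hn1, m, hm, h3⟩ := hn
    rw [mem_biUnion]
    refine ⟨m, mem_Icc.2 hm, ?_⟩
    rw [mem_filter]
    refine ⟨hn1, ?_⟩
    rw [← mul_div_assoc] at h3
    exact h3.le
  have h3 : ∀ m ∈ Icc 1 H, (((range D).filter fun n : ℕ =>
      di (m * P1 a b c n / D) ≤ γ).card : ℝ) ≤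
      D * √(4 * γ + (6 * a * H * b' + 1) / D) := by
    intro m hm
    rw [mem_Icc] at hm
    have h4 := sq_count a b c m b' ha hm.1 γ hγ.le
    rw [hDr, ← hD] at h4
    refine h4.trans ?_
    apply mul_le_mul_of_nonneg_left _ hDp.le
    apply Real.sqrt_le_sqrt
    have h5 : (m : ℝ) ≤ H := by exact_mod_cast hm.2
    have h6 : (6 * a * m * b' + 1 : ℝ) / D ≤ (6 * a * H * b' + 1) / D := by
      apply div_le_div_of_nonneg_right _ hDp.le
      have h7 : (0 : ℝ) ≤ 6 * a := by positivity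
      have h8 : (6 * a * m : ℝ) ≤ 6 * a * H := mul_le_mul_of_nonneg_left h5 h7
      have h9 : (6 * a * m * b' : ℝ) ≤ 6 * a * H * b' :=
        mul_le_mul_of_nonneg_right h8 (Nat.cast_nonneg _)
      linarith
    linarith
  have h4 : (((range D).filter fun n : ℕ => ∃ m : ℕ, (1 ≤ m ∧ m ≤ H) ∧
      di (m * (P1 a b c n / D : ℝ)) < γ).card : ℝ) ≤
      H * (D * √(4 * γ + (6 * a * H * b' + 1) / D)) := by
    have h5 : (((range D).filter fun n : ℕ => ∃ m : ℕ, (1 ≤ m ∧ m ≤ H) ∧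
      di (m * (P1 a b c n / D : ℝ)) < γ).card : ℝ) ≤ ∑ m ∈ Icc 1 H,
      (((range D).filter fun n : ℕ => di (m * P1 a b c n / D) ≤ γ).card : ℝ) := by
      exact_mod_cast h2
    refine h5.trans ((sum_le_sum h3).trans_eq ?_)
    rw [sum_const, Nat.card_Icc, nsmul_eq_mul, Nat.add_sub_cancel]
  have h5 : (((range N).filter fun n : ℕ => ∃ m : ℕ, (1 ≤ m ∧ m ≤ H) ∧
      di (m * (P1 a b c n / D : ℝ)) < γ).card : ℝ) ≤ ((N / D : ℕ) + 1 : ℝ) *
      (((range D).filter fun n : ℕ => ∃ m : ℕ, (1 ≤ m ∧ m ≤ H) ∧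
      di (m * (P1 a b c n / D : ℝ)) < γ).card : ℝ) := by
    exact_mod_cast h1
  have h6 : ((N / D : ℕ) + 1 : ℝ) * D ≤ 2 * N := by
    have h7 : (N / D) * D ≤ N := Nat.div_mul_le_self _ _
    have h8 : ((N / D : ℕ) : ℝ) * D ≤ N := by exact_mod_cast h7
    have h9 : (D : ℝ) ≤ N := by exact_mod_cast hN
    linarith
  calc _ ≤ ((N / D : ℕ) + 1 : ℝ) * (H * (D * √(4 * γ + (6 * a * H * b' + 1) / D))) :=
        h5.trans (mul_le_mul_of_nonneg_left h4 (by positivity))
    _ = (((N / D : ℕ) + 1 : ℝ) * D) * (H * √(4 * γ + (6 * a * H * b' + 1) / D)) := by ring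
    _ ≤ 2 * N * (H * √(4 * γ + (6 * a * H * b' + 1) / D)) :=
        mul_le_mul_of_nonneg_right h6 (by positivity)

/-- the finite inequality -/
theorem eqm_fin (a b c d H j b' N M0 : ℕ) (ha : 1 ≤ a) (hH : 1 ≤ H) (γ τ : ℝ) (hγ : 0 < γ)
    (hτ : 0 ≤ τ) (hN : 2 ^ b' ≤ N) (hj : b' ≤ j) (hM : 0 < M0) :
    (((range N).filter fun n : ℕ => di (P a b c d n / 2 ^ (j + b')) ≤ τ).card : ℝ) ≤
      N * (2 * τ + 1 / H) + N * (H * (4 * τ / γ + 3)) / M0 +
      2 * N * (H * √(4 * γ + (6 * a * H * b' + 1) / 2 ^ b')) + 2 ^ j * M0 := by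
  classical
  have hMr : (0 : ℝ) < M0 := by exact_mod_cast hM
  have hHr : (0 : ℝ) < H := by exact_mod_cast hH
  set E : ℕ → Prop := fun n => di (P a b c d n / 2 ^ (j + b')) ≤ τ with hE
  set B : ℕ → Prop := fun n => ∃ m : ℕ, (1 ≤ m ∧ m ≤ H) ∧
      di (m * (P1 a b c n / 2 ^ b' : ℝ)) < γ with hB
  have h1 : ∀ m ∈ range M0, (((range N).filter E).card : ℝ) ≤
      (((range N).filter fun n => E (n + 2 ^ j * m)).card : ℝ) + 2 ^ j * M0 := by
    intro m hm
    have h2 := eqm_shift E N (2 ^ j * m)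
    have h3 : 2 ^ j * m ≤ 2 ^ j * M0 := Nat.mul_le_mul_left _ (mem_range.1 hm).le
    have h4 : ((range N).filter E).card ≤
      ((range N).filter fun n => E (n + 2 ^ j * m)).card + 2 ^ j * M0 := by omega
    exact_mod_cast h4
  have h2 : (M0 : ℝ) * (((range N).filter E).card : ℝ) ≤
      ∑ m ∈ range M0, (((range N).filter fun n => E (n + 2 ^ j * m)).card : ℝ)
        + M0 * (2 ^ j * M0) := by
    have := sum_le_sum h1
    rw [sum_const, card_range, nsmul_eq_mul, sum_add_distrib, sum_const, card_range,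
      nsmul_eq_mul] at this
    exact this
  have h3 : ∑ m ∈ range M0, (((range N).filter fun n => E (n + 2 ^ j * m)).card : ℝ) =
      ∑ n ∈ range N, (((range M0).filter fun m => E (n + 2 ^ j * m)).card : ℝ) := by
    have h4 : ∑ m ∈ range M0, ((range N).filter fun n => E (n + 2 ^ j * m)).card =
        ∑ n ∈ range N, ((range M0).filter fun m => E (n + 2 ^ j * m)).card := by
      simp only [card_filter]
      exact sum_comm
    exact_mod_cast h4
  have h4 : ∀ n ∈ range N, (((range M0).filter fun m => E (n + 2 ^ j * m)).card : ℝ) ≤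
      (M0 * (2 * τ + 1 / H) + H * (4 * τ / γ + 3)) + M0 * (if B n then 1 else 0) := by
    intro n _
    by_cases hn : B n
    · rw [if_pos hn, mul_one]
      have h5 : (((range M0).filter fun m => E (n + 2 ^ j * m)).card : ℝ) ≤ M0 := by
        have := card_filter_le (range M0) fun m => E (n + 2 ^ j * m)
        rw [card_range] at this
        exact_mod_cast this
      have h6 : 0 ≤ M0 * (2 * τ + 1 / H) + H * (4 * τ / γ + 3) := by positivity
      linarith
    · rw [if_neg hn, mul_zero, add_zero]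
      have h5 := lin_count (P1 a b c n / 2 ^ b' : ℝ) (P a b c d n / 2 ^ (j + b')) γ τ H M0 hH hγ
        hτ (by
          intro m hm1 hm2
          by_contra hcon
          exact hn ⟨m, ⟨hm1, hm2⟩, not_le.1 hcon⟩)
      refine le_trans (le_of_eq ?_) h5
      congr 2
      apply filter_congr
      intro m _
      simp only [hE]
      rw [eqm_lin a b c d n j b' m hj]
  have h5 := eqm_bad a b c H b' N ha γ hγ hN
  have h6 : ∑ n ∈ range N, (((range M0).filter fun m => E (n + 2 ^ j * m)).card : ℝ) ≤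
      N * (M0 * (2 * τ + 1 / H) + H * (4 * τ / γ + 3)) + M0 * (((range N).filter B).card : ℝ) := by
    refine (sum_le_sum h4).trans_eq ?_
    rw [sum_add_distrib, sum_const, card_range, nsmul_eq_mul, ← mul_sum, sum_boole]
  have h7 : (((range N).filter B).card : ℝ) ≤
      2 * N * (H * √(4 * γ + (6 * a * H * b' + 1) / 2 ^ b')) := h5
  have h8 : (M0 : ℝ) * (((range N).filter E).card : ℝ) ≤
      M0 * (N * (2 * τ + 1 / H) + N * (H * (4 * τ / γ + 3)) / M0 +
      2 * N * (H * √(4 * γ + (6 * a * H * b' + 1) / 2 ^ b')) + 2 ^ j * M0) := by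
    have h9 : (M0 : ℝ) * (N * (2 * τ + 1 / H) + N * (H * (4 * τ / γ + 3)) / M0 +
      2 * N * (H * √(4 * γ + (6 * a * H * b' + 1) / 2 ^ b')) + 2 ^ j * M0) =
      N * (M0 * (2 * τ + 1 / H) + H * (4 * τ / γ + 3)) +
      M0 * (2 * N * (H * √(4 * γ + (6 * a * H * b' + 1) / 2 ^ b'))) + M0 * (2 ^ j * M0) := by
      have h10 : (M0 : ℝ) * (N * (H * (4 * τ / γ + 3)) / M0) = N * (H * (4 * τ / γ + 3)) := by
        field_simp
      rw [mul_add, mul_add, mul_add, h10]
      ring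
    rw [h9]
    have h10 := mul_le_mul_of_nonneg_left h7 hMr.le
    linarith
  exact le_of_mul_le_mul_left h8 hMr

theorem eqm (a b c d κ : ℕ) (ha : 1 ≤ a) (ε : ℝ) (hε : 0 < ε) : ∃ τ : ℝ, 0 < τ ∧
    ∀ᶠ e : ℕ in atTop, ∀ β N : ℕ, 199 * e ≤ β → β ≤ 398 * e → 2 ^ (200 * e) ≤ N →
      N ≤ κ * 2 ^ (200 * e) →
      (((range N).filter fun n : ℕ => di (P a b c d n / 2 ^ β) ≤ τ).card : ℝ) ≤ ε * N := by
  obtain ⟨H, hH⟩ := exists_nat_gt (8 / ε)
  have hHr : (0 : ℝ) < H := lt_trans (by positivity) hH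
  have hH1 : 1 ≤ H := by exact_mod_cast hHr
  have hHε : 1 / (H : ℝ) ≤ ε / 8 := by
    rw [div_le_div_iff₀ hHr (by norm_num)]
    rw [div_lt_iff₀ hε] at hH
    linarith
  set γ : ℝ := (ε / (16 * H)) ^ 2 / 8 with hγdef
  have hγ : 0 < γ := by positivity
  set τ : ℝ := min (ε / 16) γ with hτdef
  have hτ : 0 < τ := lt_min (by positivity) hγ
  have hτ1 : τ ≤ ε / 16 := min_le_left _ _
  have hτ2 : τ ≤ γ := min_le_right _ _
  -- limits
  have hl1 : Tendsto (fun x : ℕ => (6 * a * H * x + 1 : ℝ) / 2 ^ x) atTop (𝓝 0) := by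
    have h1 := tendsto_pow_const_mul_const_pow_of_abs_lt_one 1
      (show |(1 / 2 : ℝ)| < 1 by rw [abs_of_pos] <;> norm_num)
    have h2 := tendsto_pow_const_mul_const_pow_of_abs_lt_one 0
      (show |(1 / 2 : ℝ)| < 1 by rw [abs_of_pos] <;> norm_num)
    have h3 := (h1.const_mul (6 * a * H : ℝ)).add h2
    simp only [mul_zero, add_zero] at h3
    refine h3.congr fun x => ?_
    rw [div_pow, one_pow, pow_zero, pow_one]
    ring
  have hl2 : ∀ᶠ x : ℕ in atTop, (6 * a * H * x + 1 : ℝ) / 2 ^ x ≤ 4 * γ := by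
    have h1 := hl1.eventually (gt_mem_nhds (show (0 : ℝ) < 4 * γ by linarith))
    exact h1.mono fun x hx => hx.le
  obtain ⟨B0, hB0⟩ := eventually_atTop.1 hl2
  have hl3 : Tendsto (fun x : ℕ => (2 : ℝ) ^ x) atTop atTop :=
    tendsto_pow_atTop_atTop_of_one_lt (by norm_num)
  obtain ⟨E0, hE0⟩ := eventually_atTop.1 (hl3.eventually_ge_atTop ((56 * H + 8) / ε))
  refine ⟨τ, hτ, eventually_atTop.2 ⟨max B0 (2 * E0), ?_⟩⟩
  intro e he β N hβ1 hβ2 hN _
  have he1 : B0 ≤ e := (le_max_left _ _).trans he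
  have he2 : 2 * E0 ≤ e := (le_max_right _ _).trans he
  set b' := β / 2 with hb'
  set j := (β + 1) / 2 with hj
  have hjb : j + b' = β := by omega
  have hbj : b' ≤ j := by omega
  have hb1 : B0 ≤ b' := by omega
  have hb2 : b' ≤ 200 * e := by omega
  have hj2 : j ≤ 199 * e := by omega
  have hNb : 2 ^ b' ≤ N := (Nat.pow_le_pow_right (by norm_num) hb2).trans hN
  have hM0 : 0 < 2 ^ (e / 2) := Nat.pos_of_ne_zero (by positivity)
  have hNr : (0 : ℝ) < N := by
    have : 0 < N := lt_of_lt_of_le (Nat.pos_of_ne_zero (by positivity)) hNb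
    exact_mod_cast this
  have hmain := eqm_fin a b c d H j b' N (2 ^ (e / 2)) ha hH1 γ τ hγ hτ.le hNb hbj hM0
  rw [hjb] at hmain
  refine hmain.trans ?_
  have hE1 : (56 * H + 8) / ε ≤ (2 : ℝ) ^ (e / 2) := hE0 _ (by omega)
  rw [div_le_iff₀ hε] at hE1
  have hpow : (0 : ℝ) < 2 ^ (e / 2) := by positivity
  -- first term
  have t1 : (N : ℝ) * (2 * τ + 1 / H) ≤ N * (ε / 4) := by
    apply mul_le_mul_of_nonneg_left _ hNr.le
    linarith
  -- second term
  have t2 : (N : ℝ) * (H * (4 * τ / γ + 3)) / ((2 ^ (e / 2) : ℕ) : ℝ) ≤ N * (ε / 8) := by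
    rw [mul_div_assoc]
    apply mul_le_mul_of_nonneg_left _ hNr.le
    push_cast
    rw [div_le_iff₀ hpow]
    have h1 : 4 * τ / γ ≤ 4 := by
      rw [div_le_iff₀ hγ]
      linarith
    have h2 : (H : ℝ) * (4 * τ / γ + 3) ≤ H * 7 :=
      mul_le_mul_of_nonneg_left (by linarith) hHr.le
    linarith
  -- third term
  have t3 : 2 * (N : ℝ) * (H * √(4 * γ + (6 * a * H * b' + 1) / 2 ^ b')) ≤ N * (ε / 8) := by
    have h1 : √(4 * γ + (6 * a * H * b' + 1) / 2 ^ b') ≤ ε / (16 * H) := by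
      rw [Real.sqrt_le_left (by positivity)]
      have h2 := hB0 b' hb1
      have h3 : (ε / (16 * H)) ^ 2 = 8 * γ := by rw [hγdef]; ring
      rw [h3]
      linarith
    have h2 : (H : ℝ) * √(4 * γ + (6 * a * H * b' + 1) / 2 ^ b') ≤ H * (ε / (16 * H)) :=
      mul_le_mul_of_nonneg_left h1 hHr.le
    have h3 : (H : ℝ) * (ε / (16 * H)) = ε / 16 := by field_simp
    rw [h3] at h2
    have h4 := mul_le_mul_of_nonneg_left h2 (show (0 : ℝ) ≤ 2 * N by positivity)
    linarith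
  -- fourth term
  have t4 : (2 : ℝ) ^ j * ((2 ^ (e / 2) : ℕ) : ℝ) ≤ N * (ε / 8) := by
    push_cast
    rw [← pow_add]
    have h1 : (2 : ℝ) ^ (j + e / 2) * 2 ^ (e / 2) ≤ 2 ^ (200 * e) := by
      rw [← pow_add]
      apply pow_le_pow_right₀ (by norm_num)
      omega
    have h2 : (2 : ℝ) ^ (200 * e) ≤ N := by exact_mod_cast hN
    have h3 : 8 ≤ (2 : ℝ) ^ (e / 2) * ε := by
      have : (0 : ℝ) ≤ 56 * H := by positivity
      linarith
    have h4 : (2 : ℝ) ^ (j + e / 2) * 8 ≤ 2 ^ (j + e / 2) * (2 ^ (e / 2) * ε) :=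
      mul_le_mul_of_nonneg_left h3 (by positivity)
    have h5 : (2 : ℝ) ^ (j + e / 2) * (2 ^ (e / 2) * ε) ≤ N * ε := by
      rw [← mul_assoc]
      exact mul_le_mul_of_nonneg_right (h1.trans h2) hε.le
    linarith
  have : (0 : ℝ) ≤ N * ε := by positivity
  linarith

end Pool.Agent.Lib.MP_8fac0f_nt.C3
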