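import Pool.Agent.Lib.MP_8fac0f_nt.C3.Defs

/-!
# Typical residues are good (module GOOD)
-/

set_option autoImplicit false

namespace Pool.Agent.Lib.MP_8fac0f_nt.C3

open Finset Filter Topology

/-- A finite set of integers of diameter at most `L` has at most `L + 1` elements. -/
theorem good_card_le_of_diam (S : Finset ℤ) (L : ℝ) (hL : 0 ≤ L)
    (h : ∀ x ∈ S, ∀ y ∈ S, ((x : ℝ) - y) ≤ L) : (S.card : ℝ) ≤ L + 1 := by
  rcases S.eq_empty_or_nonempty with rfl | hS
  · simp; linarith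
  · have h1 : S ⊆ Finset.Icc (S.min' hS) (S.max' hS) := fun x hx =>
      Finset.mem_Icc.2 ⟨S.min'_le x hx, S.le_max' x hx⟩
    have h2 := Finset.card_le_card h1
    rw [Int.card_Icc] at h2
    have h3 := h _ (S.max'_mem hS) _ (S.min'_mem hS)
    have h4 : S.min' hS ≤ S.max' hS := S.min'_le _ (S.max'_mem hS)
    have h5 : ((S.max' hS + 1 - S.min' hS).toNat : ℝ) = (S.max' hS : ℝ) + 1 - S.min' hS := by
      have : ((S.max' hS + 1 - S.min' hS).toNat : ℤ) = S.max' hS + 1 - S.min' hS :=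
        Int.toNat_of_nonneg (by linarith)
      exact_mod_cast this
    have h6 : (S.card : ℝ) ≤ ((S.max' hS + 1 - S.min' hS).toNat : ℝ) := by exact_mod_cast h2
    rw [h5] at h6
    linarith

/-- The number of `n < T` for which `(A n + B) / N` is close to an integer. -/
theorem prog_count (A B T : ℕ) (N δ : ℝ) (hA : 1 ≤ A) (hN : 0 < N) (hδ : 0 ≤ δ) :
    (((range T).filter fun n : ℕ => di (((A * n + B : ℕ) : ℝ) / N) < δ).card : ℝ)
      ≤ (A * T / N + 2) * (2 * δ * N / A + 1) := by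
  set S := (range T).filter fun n : ℕ => di (((A * n + B : ℕ) : ℝ) / N) < δ with hS
  set f : ℕ → ℤ := fun n => round (((A * n + B : ℕ) : ℝ) / N) with hf
  have hA' : (0 : ℝ) < A := by exact_mod_cast hA
  -- image
  have h1 : (((S.image f).card : ℕ) : ℝ) ≤ (A * T / N + 1) + 1 := by
    apply good_card_le_of_diam
    · positivity
    · intro x hx y hy
      obtain ⟨n, hn, rfl⟩ := Finset.mem_image.1 hx
      obtain ⟨m, hm, rfl⟩ := Finset.mem_image.1 hy
      have hn' := (Finset.mem_filter.1 hn).1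
      have hnT : (n : ℝ) ≤ T := by exact_mod_cast (Finset.mem_range.1 hn').le
      have e1 := abs_le.1 (abs_sub_round (((A * n + B : ℕ) : ℝ) / N))
      have e2 := abs_le.1 (abs_sub_round (((A * m + B : ℕ) : ℝ) / N))
      have e3 : ((A * n + B : ℕ) : ℝ) / N - ((A * m + B : ℕ) : ℝ) / N ≤ A * T / N := by
        rw [← sub_div]
        apply div_le_div_of_nonneg_right _ hN.le
        push_cast
        have : (A : ℝ) * n ≤ A * T := mul_le_mul_of_nonneg_left hnT hA'.le
        have h0 : (0 : ℝ) ≤ A * m := by positivity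
        linarith
      simp only [hf]
      linarith [e1.1, e2.2]
  have h2 : ∀ k ∈ S.image f, (((S.filter fun n => f n = k).card : ℕ) : ℝ)
      ≤ 2 * δ * N / A + 1 := by
    intro k _
    have hc : (S.filter fun n => f n = k).card
        = ((S.filter fun n => f n = k).image (fun n : ℕ => (n : ℤ))).card := by
      rw [Finset.card_image_of_injective _ Nat.cast_injective]
    rw [hc]
    apply good_card_le_of_diam
    · positivity
    · intro x hx y hy
      obtain ⟨n, hn, rfl⟩ := Finset.mem_image.1 hx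
      obtain ⟨m, hm, rfl⟩ := Finset.mem_image.1 hy
      obtain ⟨hn1, hn2⟩ := Finset.mem_filter.1 hn
      obtain ⟨hm1, hm2⟩ := Finset.mem_filter.1 hm
      have hn3 := (Finset.mem_filter.1 hn1).2
      have hm3 := (Finset.mem_filter.1 hm1).2
      unfold di at hn3 hm3
      simp only [hf] at hn2 hm2
      rw [hn2] at hn3
      rw [hm2] at hm3
      have e1 := (abs_lt.1 hn3).2
      have e2 := (abs_lt.1 hm3).1
      have e3 : ((A * n + B : ℕ) : ℝ) / N - ((A * m + B : ℕ) : ℝ) / N ≤ 2 * δ := by linarith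
      rw [← sub_div, div_le_iff₀ hN] at e3
      push_cast at e3
      push_cast
      rw [le_div_iff₀ hA']
      linarith
  have h3 : S.card = ∑ k ∈ S.image f, (S.filter fun n => f n = k).card :=
    Finset.card_eq_sum_card_image f S
  rw [h3]
  push_cast
  calc (∑ k ∈ S.image f, ((S.filter fun n => f n = k).card : ℝ))
      ≤ ∑ k ∈ S.image f, (2 * δ * N / A + 1) := Finset.sum_le_sum h2
    _ = (S.image f).card * (2 * δ * N / A + 1) := by rw [Finset.sum_const, nsmul_eq_mul]
    _ ≤ (A * T / N + 2) * (2 * δ * N / A + 1) := by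
      apply mul_le_mul_of_nonneg_right
      · linarith
      · positivity

/-- Convenient form: `A = 6 a m`, `B = 2 m b`. -/
theorem good_count (a b m M T : ℕ) (N δ : ℝ) (ha : 1 ≤ a) (hm : 1 ≤ m) (hmM : m ≤ M)
    (hN : 0 < N) (hδ : 0 ≤ δ) (hT : 1 ≤ δ * T) (hNT : N ≤ T) :
    (((range T).filter fun n : ℕ => di (2 * m * (P2 a b n / N : ℝ)) < δ).card : ℝ)
      ≤ (8 * δ + 6 * a * M / N) * T := by
  have h := prog_count (6 * a * m) (2 * m * b) T N δ (by nlinarith) hN hδ
  have he : (((range T).filter fun n : ℕ => di (2 * m * (P2 a b n / N : ℝ)) < δ))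
      = ((range T).filter fun n : ℕ => di (((6 * a * m * n + 2 * m * b : ℕ) : ℝ) / N) < δ) := by
    apply Finset.filter_congr
    intro n _
    have : (2 * m * (P2 a b n / N : ℝ)) = ((6 * a * m * n + 2 * m * b : ℕ) : ℝ) / N := by
      unfold P2; push_cast; ring
    rw [this]
  rw [he]
  refine h.trans ?_
  have hA : (1 : ℝ) ≤ ((6 * a * m : ℕ) : ℝ) := by
    have : 1 ≤ 6 * a * m := by nlinarith
    exact_mod_cast this
  have hA0 : (0 : ℝ) < ((6 * a * m : ℕ) : ℝ) := by linarith
  set A : ℝ := ((6 * a * m : ℕ) : ℝ) with hAdef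
  have hAM : A ≤ 6 * a * M := by
    rw [hAdef]; push_cast
    have : (m : ℝ) ≤ M := by exact_mod_cast hmM
    have ha0 : (0 : ℝ) ≤ a := by positivity
    nlinarith
  have hT0 : (0 : ℝ) ≤ T := by positivity
  have e1 : (A * T / N + 2) * (2 * δ * N / A + 1)
      = 2 * δ * T + A * T / N + 4 * δ * N / A + 2 := by
    field_simp
    ring
  rw [e1]
  have e2 : A * T / N ≤ 6 * a * M / N * T := by
    rw [div_mul_eq_mul_div]
    apply div_le_div_of_nonneg_right _ hN.le
    exact mul_le_mul_of_nonneg_right hAM hT0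
  have e3 : 4 * δ * N / A ≤ 4 * δ * T := by
    rw [div_le_iff₀ hA0]
    have : 4 * δ * N ≤ 4 * δ * T := mul_le_mul_of_nonneg_left hNT (by positivity)
    have h4 : 0 ≤ 4 * δ * T := by positivity
    nlinarith
  nlinarith

/-- Typical residues are good. -/
theorem good_most (a b ρ κ Ξ : ℕ) (ha : 1 ≤ a) (ε : ℝ) (hε : 0 < ε) : ∀ᶠ e : ℕ in atTop,
    ∃ bad : Finset ℕ, (bad.card : ℝ) ≤ ε * 2 ^ (199 * e) ∧
      ∀ ν < 2 ^ (199 * e), ν ∉ bad → Good a b ρ κ Ξ e ν := by
  classical
  set K : ℝ := Ξ * (8 + 6 * a * Ξ) + Ξ * κ * (8 + 6 * a * (Ξ * κ)) with hK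
  have hK0 : 0 ≤ K := by positivity
  -- choice of `e`
  have htend : Tendsto (fun e : ℕ => K * (1 / 2 : ℝ) ^ (e / 4)) atTop (𝓝 0) := by
    have h1 : Tendsto (fun n : ℕ => K * (1 / 2 : ℝ) ^ n) atTop (𝓝 (K * 0)) :=
      (tendsto_pow_atTop_nhds_zero_of_lt_one (by norm_num) (by norm_num)).const_mul K
    rw [mul_zero] at h1
    exact h1.comp (Nat.tendsto_div_const_atTop (by norm_num))
  have hev := (htend.eventually (gt_mem_nhds hε)).and (eventually_ge_atTop (ρ + 1))
  filter_upwards [hev] with e he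
  obtain ⟨he1, he2⟩ := he
  set T : ℕ := 2 ^ (199 * e) with hT
  set N : ℝ := 2 ^ (2 * e + ρ) with hN
  have hN0 : 0 < N := by positivity
  have hTr : (T : ℝ) = 2 ^ (199 * e) := by rw [hT]; push_cast; rfl
  have hT0 : (0 : ℝ) < T := by rw [hTr]; positivity
  have hNT : N ≤ T := by
    rw [hN, hTr]
    exact pow_le_pow_right₀ (by norm_num) (by omega)
  have hN2 : (2 : ℝ) ^ (2 * e) ≤ N := pow_le_pow_right₀ (by norm_num) (by omega)
  set D2 : ℝ := 1 / 2 ^ (e - e / 4) with hD2
  set D1 : ℝ := 1 / 2 ^ (e / 2) with hD1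
  have hD2T : 1 ≤ D2 * T := by
    rw [hD2, hTr, one_div, ← div_eq_inv_mul, le_div_iff₀ (by positivity), one_mul]
    exact pow_le_pow_right₀ (by norm_num) (by omega)
  have hD1T : 1 ≤ D1 * T := by
    rw [hD1, hTr, one_div, ← div_eq_inv_mul, le_div_iff₀ (by positivity), one_mul]
    exact pow_le_pow_right₀ (by norm_num) (by omega)
  -- the bad sets
  let B2 : ℕ → Finset ℕ := fun m => (range T).filter fun ν : ℕ =>
    di (2 * m * (P2 a b ν / N : ℝ)) < D2
  let B1 : ℕ → Finset ℕ := fun z => (range T).filter fun ν : ℕ =>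
    2 ^ (e - e / 4) < ((Ico 1 (κ * 2 ^ e)).filter fun t : ℕ =>
      di (2 * t * z * (P2 a b ν / N : ℝ)) < D1).card
  refine ⟨((Icc 1 (Ξ * 2 ^ (e / 2))).biUnion B2) ∪ ((Icc 1 Ξ).biUnion B1), ?_, ?_⟩
  · -- cardinality
    have c2 : ((((Icc 1 (Ξ * 2 ^ (e / 2))).biUnion B2).card : ℕ) : ℝ)
        ≤ Ξ * (8 + 6 * a * Ξ) * (1 / 2) ^ (e / 4) * T := by
      have h1 : ((((Icc 1 (Ξ * 2 ^ (e / 2))).biUnion B2).card : ℕ) : ℝ)
          ≤ ∑ m ∈ Icc 1 (Ξ * 2 ^ (e / 2)), ((B2 m).card : ℝ) := by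
        have := Finset.card_biUnion_le (s := Icc 1 (Ξ * 2 ^ (e / 2))) (t := B2)
        exact_mod_cast this
      have h2 : ∑ m ∈ Icc 1 (Ξ * 2 ^ (e / 2)), ((B2 m).card : ℝ)
          ≤ ∑ m ∈ Icc 1 (Ξ * 2 ^ (e / 2)), (8 * D2 + 6 * a * (Ξ * 2 ^ (e / 2) : ℕ) / N) * T := by
        apply Finset.sum_le_sum
        intro m hm
        rw [Finset.mem_Icc] at hm
        exact good_count a b m (Ξ * 2 ^ (e / 2)) T N D2 ha hm.1 hm.2 hN0 (by positivity) hD2T hNT
      refine h1.trans (h2.trans ?_)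
      rw [Finset.sum_const, nsmul_eq_mul, Nat.card_Icc, Nat.add_sub_cancel]
      push_cast
      have h3 : (2 : ℝ) ^ (e / 2) * D2 ≤ (1 / 2) ^ (e / 4) := by
        rw [hD2, one_div_pow, mul_one_div, div_le_div_iff₀ (by positivity) (by positivity),
          ← pow_add, one_mul]
        exact pow_le_pow_right₀ (by norm_num) (by omega)
      have h4 : (2 : ℝ) ^ (e / 2) * (2 ^ (e / 2) / N) ≤ (1 / 2) ^ (e / 4) := by
        rw [one_div_pow, ← mul_div_assoc, div_le_div_iff₀ hN0 (by positivity), one_mul,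
          ← pow_add, ← pow_add]
        refine (pow_le_pow_right₀ (by norm_num) ?_).trans hN2
        omega
      have h5 : (Ξ : ℝ) * 2 ^ (e / 2) * ((8 * D2 + 6 * a * (Ξ * 2 ^ (e / 2)) / N) * T)
          = Ξ * (8 * (2 ^ (e / 2) * D2) + 6 * a * Ξ * (2 ^ (e / 2) * (2 ^ (e / 2) / N))) * T := by
        ring
      rw [h5]
      have h6 : 8 * ((2 : ℝ) ^ (e / 2) * D2) + 6 * a * Ξ * (2 ^ (e / 2) * (2 ^ (e / 2) / N))
          ≤ (8 + 6 * a * Ξ) * (1 / 2) ^ (e / 4) := by
        have : 6 * (a : ℝ) * Ξ * (2 ^ (e / 2) * (2 ^ (e / 2) / N))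
            ≤ 6 * a * Ξ * (1 / 2) ^ (e / 4) := mul_le_mul_of_nonneg_left h4 (by positivity)
        linarith
      have h7 := mul_le_mul_of_nonneg_left h6 (show (0 : ℝ) ≤ Ξ by positivity)
      have h8 := mul_le_mul_of_nonneg_right h7 hT0.le
      linarith
    have c1 : ((((Icc 1 Ξ).biUnion B1).card : ℕ) : ℝ)
        ≤ Ξ * κ * (8 + 6 * a * (Ξ * κ)) * (1 / 2) ^ (e / 4) * T := by
      have h1 : ((((Icc 1 Ξ).biUnion B1).card : ℕ) : ℝ)
          ≤ ∑ z ∈ Icc 1 Ξ, ((B1 z).card : ℝ) := by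
        have := Finset.card_biUnion_le (s := Icc 1 Ξ) (t := B1)
        exact_mod_cast this
      have h2 : ∀ z ∈ Icc 1 Ξ, ((B1 z).card : ℝ)
          ≤ κ * (8 + 6 * a * (Ξ * κ)) * (1 / 2) ^ (e / 4) * T := by
        intro z hz
        rw [Finset.mem_Icc] at hz
        -- double counting
        have d1 : (2 : ℝ) ^ (e - e / 4) * (B1 z).card
            ≤ ∑ ν ∈ range T, (((Ico 1 (κ * 2 ^ e)).filter fun t : ℕ =>
              di (2 * t * z * (P2 a b ν / N : ℝ)) < D1).card : ℝ) := by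
          have q1 : (2 : ℝ) ^ (e - e / 4) * (B1 z).card = ∑ ν ∈ B1 z, (2 : ℝ) ^ (e - e / 4) := by
            rw [Finset.sum_const, nsmul_eq_mul, mul_comm]
          rw [q1]
          refine (Finset.sum_le_sum (fun ν hν => ?_)).trans
            (Finset.sum_le_sum_of_subset_of_nonneg (Finset.filter_subset _ _)
              (fun _ _ _ => by positivity))
          have := (Finset.mem_filter.1 hν).2
          exact_mod_cast this.le
        have d2 : ∑ ν ∈ range T, (((Ico 1 (κ * 2 ^ e)).filter fun t : ℕ =>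
              di (2 * t * z * (P2 a b ν / N : ℝ)) < D1).card : ℝ)
            = ∑ t ∈ Ico 1 (κ * 2 ^ e), (((range T).filter fun ν : ℕ =>
              di (2 * t * z * (P2 a b ν / N : ℝ)) < D1).card : ℝ) := by
          simp only [Finset.card_filter]
          push_cast
          exact Finset.sum_comm
        have d3 : ∀ t ∈ Ico 1 (κ * 2 ^ e), (((range T).filter fun ν : ℕ =>
              di (2 * t * z * (P2 a b ν / N : ℝ)) < D1).card : ℝ)
            ≤ (8 * D1 + 6 * a * (Ξ * (κ * 2 ^ e) : ℕ) / N) * T := by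
          intro t ht
          rw [Finset.mem_Ico] at ht
          have := good_count a b (t * z) (Ξ * (κ * 2 ^ e)) T N D1 ha (Nat.mul_pos ht.1 hz.1)
            (by rw [mul_comm]; exact Nat.mul_le_mul hz.2 ht.2.le) hN0 (by positivity) hD1T hNT
          have e1 : ((range T).filter fun ν : ℕ =>
              di (2 * t * z * (P2 a b ν / N : ℝ)) < D1)
              = ((range T).filter fun ν : ℕ =>
              di (2 * (t * z : ℕ) * (P2 a b ν / N : ℝ)) < D1) := by
            apply Finset.filter_congr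
            intro ν _
            push_cast
            rw [mul_assoc 2 (t : ℝ) (z : ℝ)]
          rw [e1]
          exact this
        have d4 : (2 : ℝ) ^ (e - e / 4) * (B1 z).card
            ≤ (κ * 2 ^ e) * ((8 * D1 + 6 * a * (Ξ * (κ * 2 ^ e)) / N) * T) := by
          refine d1.trans ?_
          rw [d2]
          refine (Finset.sum_le_sum d3).trans ?_
          rw [Finset.sum_const, nsmul_eq_mul, Nat.card_Ico]
          push_cast
          apply mul_le_mul_of_nonneg_right
          · have : ((κ * 2 ^ e - 1 : ℕ) : ℝ) ≤ ((κ * 2 ^ e : ℕ) : ℝ) := by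
              exact_mod_cast Nat.sub_le _ _
            push_cast at this
            exact this
          · positivity
        have d5 : ((B1 z).card : ℝ) = (2 : ℝ) ^ (e - e / 4) * (B1 z).card * D2 := by
          rw [hD2]; field_simp
        rw [d5]
        refine (mul_le_mul_of_nonneg_right d4 (by positivity)).trans ?_
        have g0 : (2 : ℝ) ^ e * D2 = 2 ^ (e / 4) := by
          rw [hD2, mul_one_div, div_eq_iff (by positivity), ← pow_add]
          congr 1
          omega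
        have g1 : (2 : ℝ) ^ (e / 4) * D1 ≤ (1 / 2) ^ (e / 4) := by
          rw [hD1, one_div_pow, mul_one_div, div_le_div_iff₀ (by positivity) (by positivity),
            ← pow_add, one_mul]
          exact pow_le_pow_right₀ (by norm_num) (by omega)
        have g2 : (2 : ℝ) ^ (e / 4) * (2 ^ e / N) ≤ (1 / 2) ^ (e / 4) := by
          rw [one_div_pow, ← mul_div_assoc, div_le_div_iff₀ hN0 (by positivity), one_mul,
            ← pow_add, ← pow_add]
          refine (pow_le_pow_right₀ (by norm_num) ?_).trans hN2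
          omega
        have g3 : (κ * 2 ^ e) * ((8 * D1 + 6 * a * (Ξ * (κ * 2 ^ e)) / N) * T) * D2
            = κ * (8 * (2 ^ e * D2 * D1) + 6 * a * (Ξ * κ) * (2 ^ e * D2 * (2 ^ e / N))) * T := by
          ring
        rw [g3, g0]
        have g4 : 8 * ((2 : ℝ) ^ (e / 4) * D1) + 6 * a * (Ξ * κ) * (2 ^ (e / 4) * (2 ^ e / N))
            ≤ (8 + 6 * a * (Ξ * κ)) * (1 / 2) ^ (e / 4) := by
          have : 6 * (a : ℝ) * (Ξ * κ) * (2 ^ (e / 4) * (2 ^ e / N))
              ≤ 6 * a * (Ξ * κ) * (1 / 2) ^ (e / 4) := mul_le_mul_of_nonneg_left g2 (by positivity)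
          linarith
        have g5 := mul_le_mul_of_nonneg_left g4 (show (0 : ℝ) ≤ κ by positivity)
        have g6 := mul_le_mul_of_nonneg_right g5 hT0.le
        linarith
      refine h1.trans ((Finset.sum_le_sum h2).trans ?_)
      rw [Finset.sum_const, nsmul_eq_mul, Nat.card_Icc, Nat.add_sub_cancel]
      apply le_of_eq
      ring
    have c3 : (((((Icc 1 (Ξ * 2 ^ (e / 2))).biUnion B2) ∪ ((Icc 1 Ξ).biUnion B1)).card : ℕ) : ℝ)
        ≤ (((Icc 1 (Ξ * 2 ^ (e / 2))).biUnion B2).card : ℝ) + ((Icc 1 Ξ).biUnion B1).card := by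
      exact_mod_cast Finset.card_union_le _ _
    rw [← hTr]
    have c4 : K * (1 / 2) ^ (e / 4) * T ≤ ε * T :=
      mul_le_mul_of_nonneg_right he1.le hT0.le
    have c5 : K * (1 / 2) ^ (e / 4) * (T : ℝ) = Ξ * (8 + 6 * a * Ξ) * (1 / 2) ^ (e / 4) * T
        + Ξ * κ * (8 + 6 * a * (Ξ * κ)) * (1 / 2) ^ (e / 4) * T := by rw [hK]; ring
    linarith
  · intro ν hν hbad
    rw [Finset.mem_union, not_or, Finset.mem_biUnion, Finset.mem_biUnion] at hbad
    obtain ⟨hb2, hb1⟩ := hbad
    push Not at hb1 hb2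
    constructor
    · intro z V hz hzΞ hV
      have h := hb1 z (Finset.mem_Icc.2 ⟨hz, hzΞ⟩)
      simp only [B1, Finset.mem_filter, Finset.mem_range, not_and, not_lt] at h
      refine le_trans (Finset.card_le_card ?_) (h hν)
      intro t ht
      rw [Finset.mem_filter, Finset.mem_Ico] at ht ⊢
      exact ⟨⟨ht.1.1, ht.1.2.trans_le hV⟩, ht.2⟩
    · intro m hm hmΞ
      have h := hb2 m (Finset.mem_Icc.2 ⟨hm, hmΞ⟩)
      simp only [B2, Finset.mem_filter, Finset.mem_range, not_and, not_lt] at h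
      exact h hν

end Pool.Agent.Lib.MP_8fac0f_nt.C3
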