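import Pool.Agent.Lib.MP_8fac0f_nt.C3.Defs

/-!
# Counting with shifts which depend on the cell
-/

set_option autoImplicit false

namespace Pool.Agent.Lib.MP_8fac0f_nt.C3

open Finset

theorem shift_sum_range_mul (f : ℕ → ℕ) (a b : ℕ) :
    ∑ i ∈ range (a * b), f i = ∑ j ∈ range b, ∑ i ∈ range a, f (a * j + i) := by
  induction b with
  | zero => simp
  | succ b ih => rw [mul_add, mul_one, Finset.sum_range_add, ih, Finset.sum_range_succ]

theorem shift_sum_overlap (f : ℕ → ℕ) (hf : ∀ i, f i ≤ 1) (s G x : ℕ) :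
    ∑ i ∈ range G, f (s + i + x) ≤ ∑ i ∈ range G, f (s + i) + x := by
  have h1 : ∑ i ∈ range (x + G), f (s + i)
      = ∑ i ∈ range x, f (s + i) + ∑ i ∈ range G, f (s + (x + i)) :=
    Finset.sum_range_add (fun i => f (s + i)) x G
  have h2 : ∑ i ∈ range (G + x), f (s + i)
      = ∑ i ∈ range G, f (s + i) + ∑ i ∈ range x, f (s + (G + i)) :=
    Finset.sum_range_add (fun i => f (s + i)) G x
  have h3 : ∑ i ∈ range x, f (s + (G + i)) ≤ x := by
    refine (Finset.sum_le_sum fun i _ => hf _).trans ?_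
    simp
  have h4 : ∑ i ∈ range G, f (s + i + x) = ∑ i ∈ range G, f (s + (x + i)) :=
    Finset.sum_congr rfl fun i _ => by congr 1; ring
  rw [add_comm G x] at h2
  omega

theorem shift_count (E : ℕ → Prop) [DecidablePred E] (A g V X : ℕ) (x : ℕ → ℕ)
    (hx : ∀ n < 2 ^ A, x n ≤ X) :
    ∑ n ∈ range (2 ^ A), ∑ ν0 ∈ range (2 ^ g), ∑ v ∈ range V,
      (if E (2 ^ g * n + ν0 + 2 ^ (A + g) * v + x n) then 1 else 0)
      ≤ ((range (2 ^ (A + g) * V + X)).filter E).card + 2 ^ A * V * X := by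
  set f : ℕ → ℕ := fun i => if E i then 1 else 0 with hf
  have hf1 : ∀ i, f i ≤ 1 := fun i => by simp only [hf]; split_ifs <;> simp
  calc ∑ n ∈ range (2 ^ A), ∑ ν0 ∈ range (2 ^ g), ∑ v ∈ range V,
        f (2 ^ g * n + ν0 + 2 ^ (A + g) * v + x n)
      = ∑ n ∈ range (2 ^ A), ∑ v ∈ range V, ∑ ν0 ∈ range (2 ^ g),
        f ((2 ^ g * n + 2 ^ (A + g) * v) + ν0 + x n) := by
        refine Finset.sum_congr rfl fun n _ => ?_
        rw [Finset.sum_comm]
        refine Finset.sum_congr rfl fun v _ => Finset.sum_congr rfl fun ν0 _ => ?_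
        congr 1; ring
    _ ≤ ∑ n ∈ range (2 ^ A), ∑ v ∈ range V, (∑ ν0 ∈ range (2 ^ g),
        f ((2 ^ g * n + 2 ^ (A + g) * v) + ν0) + X) := by
        refine Finset.sum_le_sum fun n hn => Finset.sum_le_sum fun v _ => ?_
        have := shift_sum_overlap f hf1 (2 ^ g * n + 2 ^ (A + g) * v) (2 ^ g) (x n)
        have := hx n (Finset.mem_range.1 hn)
        omega
    _ = ∑ i ∈ range (2 ^ (A + g) * V), f i + 2 ^ A * V * X := by
        simp only [Finset.sum_add_distrib, Finset.sum_const, Finset.card_range, smul_eq_mul]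
        rw [← mul_assoc, Finset.sum_comm, shift_sum_range_mul]
        congr 1
        refine Finset.sum_congr rfl fun v _ => ?_
        rw [show 2 ^ (A + g) = 2 ^ g * 2 ^ A by rw [pow_add, mul_comm], shift_sum_range_mul]
        refine Finset.sum_congr rfl fun n _ => Finset.sum_congr rfl fun ν0 _ => ?_
        congr 1; ring
    _ ≤ ((range (2 ^ (A + g) * V + X)).filter E).card + 2 ^ A * V * X := by
        have h1 : ((range (2 ^ (A + g) * V + X)).filter E).card
            = ∑ i ∈ range (2 ^ (A + g) * V + X), f i := Finset.card_filter _ _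
        rw [h1, Finset.sum_range_add]
        omega

end Pool.Agent.Lib.MP_8fac0f_nt.C3
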