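import Pool.Agent.Lib.MP_8fac0f_nt.C3.Defs

/-!
# The inequality of van der Corput for a double average
-/

set_option autoImplicit false

namespace Pool.Agent.Lib.MP_8fac0f_nt.C3

open Finset

theorem va_shift (f : ℕ → ℝ) (hf : ∀ n, |f n| ≤ 1) (N k : ℕ) :
    |∑ n ∈ range N, f n - ∑ n ∈ range N, f (n + k)| ≤ 2 * k := by
  have h1 : ∑ n ∈ range (N + k), f n = ∑ n ∈ range N, f n + ∑ n ∈ range k, f (N + n) :=
    Finset.sum_range_add f N k
  have h2 : ∑ n ∈ range (N + k), f n = ∑ n ∈ range k, f n + ∑ n ∈ range N, f (n + k) := by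
    rw [add_comm N k, Finset.sum_range_add f k N]
    simp_rw [add_comm k]
  have h3 : ∑ n ∈ range N, f n - ∑ n ∈ range N, f (n + k)
      = ∑ n ∈ range k, f n - ∑ n ∈ range k, f (N + n) := by
    linear_combination h2 - h1
  have h4 : ∀ g : ℕ → ℝ, (∀ n, |g n| ≤ 1) → |∑ n ∈ range k, g n| ≤ k := fun g hg => by
    refine (Finset.abs_sum_le_sum_abs _ _).trans ((Finset.sum_le_sum fun n _ => hg n).trans ?_)
    simp
  rw [h3]
  have a := h4 f hf
  have b := h4 (fun n => f (N + n)) (fun n => hf _)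
  have := abs_sub (∑ n ∈ range k, f n) (∑ n ∈ range k, f (N + n))
  linarith

theorem va_shift2 (N V k : ℕ) (f : ℕ → ℕ → ℝ) (hf : ∀ n v, |f n v| ≤ 1) :
    |∑ n ∈ range N, ∑ v ∈ range V, f n v - ∑ n ∈ range N, ∑ v ∈ range V, f (n + k) v|
      ≤ 2 * k * V := by
  rw [Finset.sum_comm, Finset.sum_comm (s := range N) (t := range V) (f := fun n v => f (n + k) v),
    ← Finset.sum_sub_distrib]
  refine (Finset.abs_sum_le_sum_abs _ _).trans ?_
  refine (Finset.sum_le_sum fun v _ => va_shift (fun n => f n v) (fun n => hf n v) N k).trans ?_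
  rw [Finset.sum_const, Finset.card_range, nsmul_eq_mul]
  linarith

/-- rows of the matrix `c |i - j|`. -/
theorem va_row (c : ℕ → ℝ) (hc : ∀ r, 0 ≤ c r) (hc0 : c 0 = 0) (R i : ℕ) (hi : i < R) :
    ∑ j ∈ range R, (c (i - j) + c (j - i)) ≤ 2 * ∑ r ∈ range R, c r := by
  obtain ⟨k, rfl⟩ : ∃ k, R = i + k := ⟨R - i, by omega⟩
  have hk : 0 < k := by omega
  rw [Finset.sum_add_distrib]
  have h1 : ∑ j ∈ range (i + k), c (i - j) ≤ ∑ r ∈ range (i + k), c r := by
    rw [Finset.sum_range_add]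
    have e1 : ∑ j ∈ range k, c (i - (i + j)) = 0 :=
      Finset.sum_eq_zero fun j _ => by rw [show i - (i + j) = 0 by omega, hc0]
    rw [e1, add_zero]
    have e2 : ∑ j ∈ range i, c (i - j) = ∑ j ∈ range i, c (j + 1) := by
      rw [← Finset.sum_range_reflect (fun j => c (j + 1)) i]
      refine Finset.sum_congr rfl fun j hj => ?_
      have := Finset.mem_range.1 hj
      congr 1; omega
    have e3 : ∑ j ∈ range i, c (j + 1) = ∑ j ∈ range (i + 1), c j := by
      rw [Finset.sum_range_succ' c i, hc0, add_zero]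
    rw [e2, e3]
    exact Finset.sum_le_sum_of_subset_of_nonneg
      (Finset.range_subset_range.2 (by omega)) (fun r _ _ => hc r)
  have h2 : ∑ j ∈ range (i + k), c (j - i) ≤ ∑ r ∈ range (i + k), c r := by
    rw [Finset.sum_range_add (fun j => c (j - i))]
    have e1 : ∑ j ∈ range i, c (j - i) = 0 :=
      Finset.sum_eq_zero fun j hj => by
        rw [show j - i = 0 by have := Finset.mem_range.1 hj; omega, hc0]
    rw [e1, zero_add]
    have e2 : ∑ j ∈ range k, c (i + j - i) = ∑ j ∈ range k, c j :=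
      Finset.sum_congr rfl fun j _ => by congr 1; omega
    rw [e2]
    exact Finset.sum_le_sum_of_subset_of_nonneg
      (Finset.range_subset_range.2 (by omega)) (fun r _ _ => hc r)
  linarith

theorem vdc2 (N V R q : ℕ) (hN : 0 < N) (hV : 0 < V) (hR : 0 < R) (F : ℕ → ℕ → ℝ)
    (hF : ∀ n v, |F n v| ≤ 1) :
    (∑ n ∈ range N, ∑ v ∈ range V, F n v) ^ 2
      ≤ (N * V) ^ 2 * (1 / R + 4 * q * R / N)
        + N * V * (2 / R) * ∑ r ∈ Ico 1 R, |∑ n ∈ range N, ∑ v ∈ range V, F n v * F (n + q * r) v| := by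
  have hNr : (0 : ℝ) < N := by exact_mod_cast hN
  have hVr : (0 : ℝ) < V := by exact_mod_cast hV
  have hRr : (0 : ℝ) < R := by exact_mod_cast hR
  set S : ℝ := ∑ n ∈ range N, ∑ v ∈ range V, F n v with hS
  set C : ℕ → ℝ := fun r => ∑ n ∈ range N, ∑ v ∈ range V, F n v * F (n + q * r) v with hC
  set c : ℕ → ℝ := fun r => if r = 0 then 0 else |C r| with hc
  have hc0 : c 0 = 0 := by simp [hc]
  have hcn : ∀ r, 0 ≤ c r := fun r => by simp only [hc]; split_ifs <;> positivity
  set T : ℕ → ℕ → ℝ := fun i j => ∑ n ∈ range N, ∑ v ∈ range V, F (n + q * i) v * F (n + q * j) v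
    with hT
  have hFF : ∀ n v n' v', |F n v * F n' v'| ≤ 1 := fun n v n' v' => by
    rw [abs_mul]; exact mul_le_one₀ (hF _ _) (abs_nonneg _) (hF _ _)
  have hsum : ∑ r ∈ range R, c r = ∑ r ∈ Ico 1 R, |C r| := by
    rw [Finset.range_eq_Ico, Finset.sum_eq_sum_Ico_succ_bot hR, hc0, zero_add]
    refine Finset.sum_congr rfl fun r hr => ?_
    have := (Finset.mem_Ico.1 hr).1
    simp only [hc]
    rw [if_neg (by omega)]
  have hTlt : ∀ i j, i < j → |T i j| ≤ c (j - i) + 2 * q * i * V := by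
    intro i j hij
    have h1 := va_shift2 N V (q * i) (fun n v => F n v * F (n + q * (j - i)) v)
      (fun n v => hFF _ _ _ _)
    have h2 : ∑ n ∈ range N, ∑ v ∈ range V, F (n + q * i) v * F (n + q * i + q * (j - i)) v
        = T i j := by
      refine Finset.sum_congr rfl fun n _ => Finset.sum_congr rfl fun v _ => ?_
      rw [show n + q * i + q * (j - i) = n + q * j by
        rw [add_assoc, ← mul_add, Nat.add_sub_cancel' hij.le]]
    rw [h2] at h1
    have h3 : c (j - i) = |C (j - i)| := by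
      simp only [hc]; rw [if_neg (by omega)]
    rw [h3]
    have h4 : |T i j| ≤ |C (j - i)| + |C (j - i) - T i j| := by
      have := abs_sub_abs_le_abs_sub (T i j) (C (j - i))
      rw [abs_sub_comm] at this
      linarith
    push_cast at h1
    have h5 : |C (j - i) - T i j| ≤ 2 * (q * i) * V := h1
    linarith
  have hTsymm : ∀ i j, T i j = T j i := fun i j =>
    Finset.sum_congr rfl fun n _ => Finset.sum_congr rfl fun v _ => mul_comm _ _
  have hTdiag : ∀ i, |T i i| ≤ N * V := by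
    intro i
    refine (Finset.abs_sum_le_sum_abs _ _).trans ?_
    refine (Finset.sum_le_sum fun n _ => (Finset.abs_sum_le_sum_abs _ _).trans
      (Finset.sum_le_sum fun v _ => hFF (n + q * i) v (n + q * i) v)).trans ?_
    simp
  have hTall : ∀ i j, T i j ≤ (if i = j then (N * V : ℝ) else 0) + (c (i - j) + c (j - i))
      + 2 * q * i * V := by
    intro i j
    rcases lt_trichotomy i j with h | h | h
    · have h1 := hTlt i j h
      rw [if_neg h.ne, show i - j = 0 by omega, hc0]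
      have := le_abs_self (T i j)
      linarith
    · subst h
      rw [if_pos rfl, Nat.sub_self, hc0]
      have := le_abs_self (T i i)
      have := hTdiag i
      have : (0 : ℝ) ≤ 2 * q * i * V := by positivity
      linarith
    · have h1 := hTlt j i h
      rw [hTsymm, if_neg (Ne.symm h.ne), show j - i = 0 by omega, hc0]
      have h2 := le_abs_self (T j i)
      have h3 : (2 : ℝ) * q * j * V ≤ 2 * q * i * V := by
        have : (j : ℝ) ≤ i := by exact_mod_cast h.le
        gcongr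
      linarith
  have hsumid : (∑ i ∈ range R, (i : ℝ)) ≤ R ^ 2 / 2 := by
    have h1 := Finset.sum_range_id_mul_two R
    have h2 : ((∑ i ∈ range R, i : ℕ) : ℝ) * 2 = R * (R - 1 : ℕ) := by exact_mod_cast h1
    rw [Nat.cast_sum, Nat.cast_sub hR] at h2
    push_cast at h2
    nlinarith
  have hTsum : ∑ i ∈ range R, ∑ j ∈ range R, T i j
      ≤ R * (N * V) + 2 * R * (∑ r ∈ Ico 1 R, |C r|) + q * V * R ^ 3 := by
    have h1 : ∀ i ∈ range R, ∑ j ∈ range R, T i j
        ≤ N * V + 2 * (∑ r ∈ Ico 1 R, |C r|) + R * (2 * q * i * V) := by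
      intro i hi
      refine (Finset.sum_le_sum fun j _ => hTall i j).trans ?_
      rw [Finset.sum_add_distrib, Finset.sum_add_distrib]
      have a1 : ∑ j ∈ range R, (if i = j then (N * V : ℝ) else 0) = N * V := by
        rw [Finset.sum_ite_eq, if_pos hi]
      have a2 := va_row c hcn hc0 R i (Finset.mem_range.1 hi)
      rw [hsum] at a2
      have a3 : ∑ j ∈ range R, (2 * q * i * V : ℝ) = R * (2 * q * i * V) := by
        rw [Finset.sum_const, Finset.card_range, nsmul_eq_mul]
      linarith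
    refine (Finset.sum_le_sum h1).trans ?_
    rw [Finset.sum_add_distrib, Finset.sum_const, Finset.card_range, nsmul_eq_mul,
      ← Finset.mul_sum]
    have h2 : ∑ i ∈ range R, (2 * q * i * V : ℝ) = 2 * q * V * ∑ i ∈ range R, (i : ℝ) := by
      rw [Finset.mul_sum]
      exact Finset.sum_congr rfl fun i _ => by ring
    rw [h2]
    have h3 : (R : ℝ) * (2 * q * V * ∑ i ∈ range R, (i : ℝ)) ≤ R * (2 * q * V * (R ^ 2 / 2)) := by
      gcongr
    have h4 : (R : ℝ) * (2 * q * V * (R ^ 2 / 2)) = q * V * R ^ 3 := by ring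
    linarith
  set G : ℕ → ℕ → ℝ := fun n v => ∑ i ∈ range R, F (n + q * i) v with hG
  set X : ℝ := ∑ n ∈ range N, ∑ v ∈ range V, G n v with hX
  have hGsq : ∑ n ∈ range N, ∑ v ∈ range V, G n v ^ 2 = ∑ i ∈ range R, ∑ j ∈ range R, T i j := by
    have h1 : ∀ n v, G n v ^ 2 = ∑ i ∈ range R, ∑ j ∈ range R, F (n + q * i) v * F (n + q * j) v := by
      intro n v
      rw [sq, hG, Finset.sum_mul_sum]
    simp_rw [h1, hT]
    have e1 : ∀ n, ∑ v ∈ range V, ∑ i ∈ range R, ∑ j ∈ range R,
        F (n + q * i) v * F (n + q * j) v = ∑ i ∈ range R, ∑ j ∈ range R, ∑ v ∈ range V,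
        F (n + q * i) v * F (n + q * j) v := by
      intro n
      rw [Finset.sum_comm]
      exact Finset.sum_congr rfl fun i _ => Finset.sum_comm
    simp_rw [e1]
    rw [Finset.sum_comm]
    exact Finset.sum_congr rfl fun i _ => Finset.sum_comm
  have hXsq : X ^ 2 ≤ (N * V) * (∑ i ∈ range R, ∑ j ∈ range R, T i j) := by
    have := sq_sum_le_card_mul_sum_sq (s := range N ×ˢ range V) (f := fun p => G p.1 p.2)
    rw [Finset.card_product, Finset.card_range, Finset.card_range, Finset.sum_product,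
      Finset.sum_product] at this
    push_cast at this
    rw [← hGsq]
    exact this
  have hRS : |R * S - X| ≤ V * q * R ^ 2 := by
    have h1 : R * S - X = ∑ i ∈ range R, (S - ∑ n ∈ range N, ∑ v ∈ range V, F (n + q * i) v) := by
      rw [Finset.sum_sub_distrib, Finset.sum_const, Finset.card_range, nsmul_eq_mul]
      congr 1
      have e1 : ∀ n, ∑ v ∈ range V, G n v = ∑ i ∈ range R, ∑ v ∈ range V, F (n + q * i) v :=
        fun n => Finset.sum_comm
      rw [hX]
      simp_rw [e1]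
      exact Finset.sum_comm
    rw [h1]
    refine (Finset.abs_sum_le_sum_abs _ _).trans ?_
    refine (Finset.sum_le_sum fun i _ => va_shift2 N V (q * i) F hF).trans ?_
    have h2 : ∑ i ∈ range R, (2 * ((q * i : ℕ) : ℝ) * V) = 2 * q * V * ∑ i ∈ range R, (i : ℝ) := by
      rw [Finset.mul_sum]
      exact Finset.sum_congr rfl fun i _ => by push_cast; ring
    rw [h2]
    have h3 : 2 * (q : ℝ) * V * ∑ i ∈ range R, (i : ℝ) ≤ 2 * q * V * (R ^ 2 / 2) := by gcongr
    linarith
  have hSle : |S| ≤ N * V := by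
    refine (Finset.abs_sum_le_sum_abs _ _).trans ?_
    refine (Finset.sum_le_sum fun n _ => (Finset.abs_sum_le_sum_abs _ _).trans
      (Finset.sum_le_sum fun v _ => hF n v)).trans ?_
    simp
  -- (R S)^2 ≤ X^2 + 2 |R S - X| |R S|
  have hmain : (R * S) ^ 2 ≤ X ^ 2 + 2 * (V * q * R ^ 2) * (R * (N * V)) := by
    have h1 : (R * S) ^ 2 ≤ X ^ 2 + 2 * (|R * S - X| * |R * S|) := by
      have : (R * S) ^ 2 = X ^ 2 + 2 * ((R * S - X) * (R * S)) - (R * S - X) ^ 2 := by ring
      rw [this]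
      have h2 : (R * S - X) * (R * S) ≤ |R * S - X| * |R * S| := by
        rw [← abs_mul]; exact le_abs_self _
      nlinarith [sq_nonneg (R * S - X)]
    have h3 : |R * S| ≤ R * (N * V) := by
      rw [abs_mul, Nat.abs_cast]
      exact mul_le_mul_of_nonneg_left hSle hRr.le
    have h4 : |R * S - X| * |R * S| ≤ (V * q * R ^ 2) * (R * (N * V)) :=
      mul_le_mul hRS h3 (abs_nonneg _) (by positivity)
    linarith
  have h5 : (R * S) ^ 2 ≤ (N * V) * (R * (N * V) + 2 * R * (∑ r ∈ Ico 1 R, |C r|) + q * V * R ^ 3)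
      + 2 * (V * q * R ^ 2) * (R * (N * V)) := by
    have := mul_le_mul_of_nonneg_left hTsum (show (0 : ℝ) ≤ N * V by positivity)
    linarith
  have h6 : (N * V : ℝ) * (R * (N * V) + 2 * R * (∑ r ∈ Ico 1 R, |C r|) + q * V * R ^ 3)
      + 2 * (V * q * R ^ 2) * (R * (N * V)) ≤ R ^ 2 * ((N * V) ^ 2 * (1 / R + 4 * q * R / N)
        + N * V * (2 / R) * ∑ r ∈ Ico 1 R, |C r|) := by
    have e1 : (R : ℝ) ^ 2 * ((N * V) ^ 2 * (1 / R + 4 * q * R / N)
        + N * V * (2 / R) * ∑ r ∈ Ico 1 R, |C r|) =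
        R * (N * V) ^ 2 + 4 * q * R ^ 3 * N * V ^ 2 + 2 * R * (N * V) * ∑ r ∈ Ico 1 R, |C r| := by
      field_simp
    rw [e1]
    have e2 : (0 : ℝ) ≤ q * R ^ 3 * N * V ^ 2 := by positivity
    nlinarith
  have h7 : (R : ℝ) ^ 2 * S ^ 2 ≤ R ^ 2 * ((N * V) ^ 2 * (1 / R + 4 * q * R / N)
        + N * V * (2 / R) * ∑ r ∈ Ico 1 R, |C r|) := by
    rw [← mul_pow]; exact h5.trans h6
  exact le_of_mul_le_mul_left h7 (by positivity)

end Pool.Agent.Lib.MP_8fac0f_nt.C3
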