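import Pool.Agent.Lib.MP_8fac0f_nt.C3.Exp

/-!
# The shift does not change the digits `[2 j, 2 k - lam)` (module XK)
-/

set_option autoImplicit false

namespace Pool.Agent.Lib.MP_8fac0f_nt.C3

open Finset Filter Topology

theorem xkill (a b c d Umax κ R ρ lam t : ℕ) : ∃ cst : ℕ, ∀ᶠ e : ℕ in atTop,
    ∀ ν v u q r Y : ℕ, ν < 2 ^ (199 * e) → v ≤ κ * 2 ^ e → u ≤ Umax → r < R →
    q ≤ 2 ^ (60 * e) →
    di (q * P1 a b c ν / 2 ^ (398 * e) - Y / 2 ^ (lam + ρ)) ≤ 1 / 2 ^ (3 * e + cst) →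
    di (q * (2 * P2 a b ν) / 2 ^ (199 * e)) ≤ 1 / 2 ^ (3 * e + cst) →
    1 / 2 ^ t < di (P a b c d (ν + 2 ^ (199 * e) * v + u) / 2 ^ (398 * e)) →
    P a b c d (ν + 2 ^ (199 * e) * v + u + 2 ^ (2 * e + ρ) * q * r) / 2 ^ (398 * e)
        % 2 ^ (2 * e - lam)
      = P a b c d (ν + 2 ^ (199 * e) * v + u) / 2 ^ (398 * e) % 2 ^ (2 * e - lam) := by
  set s := 3 * a + b + Umax + κ + R + ρ + lam with hs
  have hpow : ∀ t : ℕ, t ≤ s → t ≤ 2 ^ s := fun t ht =>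
    ht.trans (Nat.lt_two_pow_self).le
  refine ⟨3 * s + t + 10, ?_⟩
  filter_upwards [eventually_ge_atTop (100 * s + 100 * (3 * s + t + 10) + 1000)] with e he
  intro ν v u q r Y hν hv hu hr hq h2 h3 h4
  obtain ⟨z, D, hz, hD⟩ := exp_shift a b c d s ν v u q r Y e ρ lam (3 * s + t + 10) κ (by omega)
    (by omega) (hpow _ (by omega)) (hpow _ (by omega)) (hpow _ (by omega)) hν.le
    (hv.trans (Nat.le_add_right _ _)) (hpow _ (by omega)) (hpow _ (by omega)) hq (by omega)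
    (by omega) h2 h3
  refine stab _ _ (398 * e) (2 * e - lam) D (r * Y + z * 2 ^ (ρ + lam)) ?_ ?_
  · rw [hz]
    have p1 : (2 : ℤ) ^ (398 * e + (2 * e - lam)) = 2 ^ (400 * e - lam) := by congr 1; omega
    have p2 : (2 : ℤ) ^ (ρ + lam) * 2 ^ (400 * e - lam) = 2 ^ (400 * e + ρ) := by
      rw [← pow_add]; congr 1; omega
    rw [p1, ← p2]
    ring
  · have h5 : |(D : ℝ)| ≤ 2 ^ (398 * e - t - 1) := by
      have : EBd D (398 * e - t - 1) := hD.mono (by omega)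
      unfold EBd at this
      exact_mod_cast this
    have h6 : (2 : ℝ) ^ (398 * e - t - 1) < 2 ^ (398 * e - t) :=
      pow_lt_pow_right₀ (by norm_num) (by omega)
    have h7 : (2 : ℝ) ^ (398 * e - t) = 1 / 2 ^ t * 2 ^ (398 * e) := by
      rw [show (2 : ℝ) ^ (398 * e) = 2 ^ (398 * e - t) * 2 ^ t by
        rw [← pow_add]; congr 1; omega]
      field_simp
    calc |(D : ℝ)| ≤ 2 ^ (398 * e - t - 1) := h5
      _ < 2 ^ (398 * e - t) := h6
      _ = 1 / 2 ^ t * 2 ^ (398 * e) := h7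
      _ < _ := by gcongr

end Pool.Agent.Lib.MP_8fac0f_nt.C3
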