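import Pool.Agent.Lib.MP_8fac0f_nt.C3.Cub1
import Pool.Agent.Lib.MP_8fac0f_nt.C3.BPhase
import Pool.Agent.Lib.MP_8fac0f_nt.C3.CQ
import Pool.Agent.Lib.MP_8fac0f_nt.C3.XK
import Pool.Agent.Lib.MP_8fac0f_nt.C3.Eqm
import Pool.Agent.Lib.MP_8fac0f_nt.C3.Good
import Pool.Agent.Lib.MP_8fac0f_nt.C3.Shift
import Pool.Agent.Lib.MP_8fac0f_nt.C3.VA

/-!
# CUB, part 2: one `ν`, counting, Cauchy-Schwarz over the cells
-/

set_option autoImplicit false

namespace Pool.Agent.Lib.MP_8fac0f_nt.C3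

open Finset Filter Topology
open Pool.Agent.Lib.MP_8fac0f_nt.N (sg CorrZero)

/-- Number of `v` for which some point is close to a multiple of `2 ^ β`. -/
noncomputable def cnt (a b c d t e β V ν : ℕ) (U : Finset ℕ) (x : ℕ) : ℕ :=
  ((range V).filter fun v : ℕ => ∃ u ∈ U, ∃ w1 ∈ range 2,
    di (P a b c d (ν + 2 ^ (199 * e) * v + u + w1 * x) / 2 ^ β) ≤ 1 / 2 ^ t).card

theorem nu_bound (a b c d : ℕ) (U : Finset ℕ) (ρ lam t e l V ν x m : ℕ) (ε1 ε' : ℝ)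
    (hε1 : 0 ≤ ε1) (hε' : 0 < ε') (hlam : lam ≤ 2 * e) (good : Prop) [Decidable good]
    (hbp : good → (∀ i < m, (cnt a b c d t e (199 * e + i * l) V ν U x : ℝ) ≤ ε' * V) →
      |∑ v ∈ range V, ∏ u ∈ U, ∏ w1 ∈ range 2,
          (sg (P a b c d (ν + 2 ^ (199 * e) * v + u + w1 * x) % 2 ^ (398 * e)) *
            sg (P a b c d (ν + 2 ^ (199 * e) * v + u + w1 * x)
              / 2 ^ (400 * e - lam) % 2 ^ (lam + ρ)))| ≤ ε1 * V)
    (hxk : ∀ v < V, ∀ u ∈ U, 1 / 2 ^ t < di (P a b c d (ν + 2 ^ (199 * e) * v + u) / 2 ^ (398 * e)) →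
      P a b c d (ν + 2 ^ (199 * e) * v + u + x) / 2 ^ (398 * e) % 2 ^ (2 * e - lam)
      = P a b c d (ν + 2 ^ (199 * e) * v + u) / 2 ^ (398 * e) % 2 ^ (2 * e - lam)) :
    |∑ v ∈ range V, FU a b c d U (400 * e + ρ) (ν + 2 ^ (199 * e) * v) *
        FU a b c d U (400 * e + ρ) (ν + 2 ^ (199 * e) * v + x)|
      ≤ ε1 * V + 2 * cnt a b c d t e (398 * e) V ν U x + (if good then 0 else (V : ℝ))
        + 1 / ε' * ∑ i ∈ range m, (cnt a b c d t e (199 * e + i * l) V ν U x : ℝ) := by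
  have htriv : |∑ v ∈ range V, FU a b c d U (400 * e + ρ) (ν + 2 ^ (199 * e) * v) *
        FU a b c d U (400 * e + ρ) (ν + 2 ^ (199 * e) * v + x)| ≤ V := by
    refine (abs_sum_le_sum_abs _ _).trans ?_
    have : ∀ v ∈ range V, |FU a b c d U (400 * e + ρ) (ν + 2 ^ (199 * e) * v) *
        FU a b c d U (400 * e + ρ) (ν + 2 ^ (199 * e) * v + x)| ≤ 1 := by
      intro v _
      rw [abs_mul, abs_FU, abs_FU, one_mul]
    refine (sum_le_sum this).trans ?_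
    simp
  have hsum0 : 0 ≤ 1 / ε' * ∑ i ∈ range m, (cnt a b c d t e (199 * e + i * l) V ν U x : ℝ) := by
    positivity
  have hV0 : (0 : ℝ) ≤ V := Nat.cast_nonneg _
  have hc0 : (0 : ℝ) ≤ cnt a b c d t e (398 * e) V ν U x := Nat.cast_nonneg _
  by_cases hgood : good
  · rw [if_pos hgood]
    by_cases hcnt : ∀ i < m, (cnt a b c d t e (199 * e + i * l) V ν U x : ℝ) ≤ ε' * V
    · have hb := hbp hgood hcnt
      have hv := vsum_bound V
        (fun v => ∏ u ∈ U, ∏ w1 ∈ range 2,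
          (sg (P a b c d (ν + 2 ^ (199 * e) * v + u + w1 * x) % 2 ^ (398 * e)) *
            sg (P a b c d (ν + 2 ^ (199 * e) * v + u + w1 * x)
              / 2 ^ (400 * e - lam) % 2 ^ (lam + ρ))))
        (fun v => ∏ u ∈ U, (sg (P a b c d (ν + 2 ^ (199 * e) * v + u) / 2 ^ (398 * e)
            % 2 ^ (2 * e - lam)) *
          sg (P a b c d (ν + 2 ^ (199 * e) * v + u + x) / 2 ^ (398 * e) % 2 ^ (2 * e - lam))))
        (fun v => ∃ u ∈ U, ∃ w1 ∈ range 2,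
          di (P a b c d (ν + 2 ^ (199 * e) * v + u + w1 * x) / 2 ^ (398 * e)) ≤ 1 / 2 ^ t)
        (fun v => cub_abs_prod _ _ fun u _ => cub_abs_prod _ _ fun w1 _ => by
          rw [abs_mul, Pool.Agent.Lib.MP_8fac0f_nt.N.abs_sg,
            Pool.Agent.Lib.MP_8fac0f_nt.N.abs_sg, one_mul])
        (fun v => cub_abs_prod _ _ fun u _ => by
          rw [abs_mul, Pool.Agent.Lib.MP_8fac0f_nt.N.abs_sg,
            Pool.Agent.Lib.MP_8fac0f_nt.N.abs_sg, one_mul])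
        (by
          intro v hv hnb
          refine prod_eq_one fun u hu => ?_
          have hd : 1 / 2 ^ t < di (P a b c d (ν + 2 ^ (199 * e) * v + u) / 2 ^ (398 * e)) := by
            by_contra hcon
            apply hnb
            exact ⟨u, hu, 0, by simp, by simpa using not_lt.mp hcon⟩
          rw [hxk v hv u hu hd, Pool.Agent.Lib.MP_8fac0f_nt.N.sg_sq])
      have hrw : ∑ v ∈ range V, FU a b c d U (400 * e + ρ) (ν + 2 ^ (199 * e) * v) *
        FU a b c d U (400 * e + ρ) (ν + 2 ^ (199 * e) * v + x) = _ :=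
        sum_congr rfl fun v _ => FU_mul a b c d e lam ρ U (ν + 2 ^ (199 * e) * v) x hlam
      rw [hrw]
      have hcc : (((range V).filter fun v => ∃ u ∈ U, ∃ w1 ∈ range 2,
          di (P a b c d (ν + 2 ^ (199 * e) * v + u + w1 * x) / 2 ^ (398 * e)) ≤ 1 / 2 ^ t).card : ℝ)
          = cnt a b c d t e (398 * e) V ν U x := rfl
      rw [hcc] at hv
      linarith
    · push Not at hcnt
      obtain ⟨i, hi, hlt⟩ := hcnt
      have h1 : (V : ℝ) ≤ 1 / ε' * (cnt a b c d t e (199 * e + i * l) V ν U x : ℝ) := by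
        rw [one_div, inv_mul_eq_div, le_div_iff₀ hε']
        linarith
      have h2 : (cnt a b c d t e (199 * e + i * l) V ν U x : ℝ) ≤
          ∑ i ∈ range m, (cnt a b c d t e (199 * e + i * l) V ν U x : ℝ) :=
        single_le_sum (f := fun i => (cnt a b c d t e (199 * e + i * l) V ν U x : ℝ))
          (fun _ _ => Nat.cast_nonneg _) (mem_range.mpr hi)
      have h3 : 1 / ε' * (cnt a b c d t e (199 * e + i * l) V ν U x : ℝ) ≤
          1 / ε' * ∑ i ∈ range m, (cnt a b c d t e (199 * e + i * l) V ν U x : ℝ) :=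
        mul_le_mul_of_nonneg_left h2 (by positivity)
      have h4 : 0 ≤ ε1 * V := by positivity
      linarith
  · rw [if_neg hgood]
    have h4 : 0 ≤ ε1 * V := by positivity
    linarith

theorem cnt_sum_le (a b c d t e β V : ℕ) (U : Finset ℕ) (X : ℕ) (x : ℕ → ℕ)
    (hx : ∀ n < 2 ^ (134 * e), U.sup id + x n ≤ X) :
    ∑ n ∈ range (2 ^ (134 * e)), ∑ ν0 ∈ range (2 ^ (65 * e)),
      cnt a b c d t e β V (2 ^ (65 * e) * n + ν0) U (x n)
      ≤ 2 * U.card * (((range (2 ^ (199 * e) * V + X)).filter fun n : ℕ =>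
        di (P a b c d n / 2 ^ β) ≤ 1 / 2 ^ t).card + 2 ^ (134 * e) * V * X) := by
  classical
  have h1 : ∀ n ν0, cnt a b c d t e β V (2 ^ (65 * e) * n + ν0) U (x n) ≤
      ∑ u ∈ U, ∑ w1 ∈ range 2, ∑ v ∈ range V,
        (if di (P a b c d (2 ^ (65 * e) * n + ν0 + 2 ^ (199 * e) * v + (u + w1 * x n)) / 2 ^ β)
          ≤ 1 / 2 ^ t then 1 else 0) := by
    intro n ν0
    unfold cnt
    rw [card_filter]
    have : ∀ v ∈ range V, (if ∃ u ∈ U, ∃ w1 ∈ range 2,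
        di (P a b c d (2 ^ (65 * e) * n + ν0 + 2 ^ (199 * e) * v + u + w1 * x n) / 2 ^ β)
          ≤ 1 / 2 ^ t then 1 else 0) ≤ ∑ u ∈ U, ∑ w1 ∈ range 2,
        (if di (P a b c d (2 ^ (65 * e) * n + ν0 + 2 ^ (199 * e) * v + (u + w1 * x n)) / 2 ^ β)
          ≤ 1 / 2 ^ t then 1 else 0) := by
      intro v _
      split_ifs with hc
      · obtain ⟨u, hu, w1, hw1, hd⟩ := hc
        rw [add_assoc] at hd
        have e1 : (1 : ℕ) ≤ ∑ w1 ∈ range 2,
          (if di (P a b c d (2 ^ (65 * e) * n + ν0 + 2 ^ (199 * e) * v + (u + w1 * x n)) / 2 ^ β)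
          ≤ 1 / 2 ^ t then 1 else 0) := by
          refine le_trans ?_ (single_le_sum (f := fun w1 : ℕ => if di (P a b c d (2 ^ (65 * e) * n
            + ν0 + 2 ^ (199 * e) * v + (u + w1 * x n)) / 2 ^ β)
            ≤ 1 / 2 ^ t then 1 else 0) (fun _ _ => Nat.zero_le _) hw1)
          rw [if_pos hd]
        exact e1.trans (single_le_sum (f := fun u => ∑ w1 ∈ range 2, if di (P a b c d (2 ^ (65 * e) * n
            + ν0 + 2 ^ (199 * e) * v + (u + w1 * x n)) / 2 ^ β)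
            ≤ 1 / 2 ^ t then 1 else 0) (fun _ _ => Nat.zero_le _) hu)
      · exact Nat.zero_le _
    refine (sum_le_sum this).trans (le_of_eq ?_)
    rw [sum_comm]
    exact sum_congr rfl fun u _ => sum_comm
  refine (sum_le_sum fun n _ => sum_le_sum fun ν0 _ => h1 n ν0).trans ?_
  have h2 : ∑ n ∈ range (2 ^ (134 * e)), ∑ ν0 ∈ range (2 ^ (65 * e)), ∑ u ∈ U, ∑ w1 ∈ range 2,
      ∑ v ∈ range V, (if di (P a b c d (2 ^ (65 * e) * n + ν0 + 2 ^ (199 * e) * v + (u + w1 * x n))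
        / 2 ^ β) ≤ 1 / 2 ^ t then 1 else 0) =
      ∑ u ∈ U, ∑ w1 ∈ range 2, ∑ n ∈ range (2 ^ (134 * e)), ∑ ν0 ∈ range (2 ^ (65 * e)),
      ∑ v ∈ range V, (if di (P a b c d (2 ^ (65 * e) * n + ν0 + 2 ^ (199 * e) * v + (u + w1 * x n))
        / 2 ^ β) ≤ 1 / 2 ^ t then 1 else 0) := by
    rw [sum_congr rfl fun n _ => sum_comm, sum_comm]
    refine sum_congr rfl fun u _ => ?_
    rw [sum_congr rfl fun n _ => sum_comm, sum_comm]
  rw [h2]
  have h3 : ∀ u ∈ U, ∀ w1 ∈ range 2, ∑ n ∈ range (2 ^ (134 * e)), ∑ ν0 ∈ range (2 ^ (65 * e)),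
      ∑ v ∈ range V, (if di (P a b c d (2 ^ (65 * e) * n + ν0 + 2 ^ (199 * e) * v + (u + w1 * x n))
        / 2 ^ β) ≤ 1 / 2 ^ t then 1 else 0) ≤ ((range (2 ^ (199 * e) * V + X)).filter fun n : ℕ =>
        di (P a b c d n / 2 ^ β) ≤ 1 / 2 ^ t).card + 2 ^ (134 * e) * V * X := by
    intro u hu w1 hw1
    have h := shift_count (fun n => di (P a b c d n / 2 ^ β) ≤ 1 / 2 ^ t) (134 * e) (65 * e) V X
      (fun n => u + w1 * x n) (by
        intro n hn
        have h1 : u ≤ U.sup id := Finset.le_sup (f := id) hu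
        have h2 : w1 * x n ≤ 1 * x n := by
          have := mem_range.mp hw1
          exact Nat.mul_le_mul_right _ (by omega)
        have := hx n hn
        omega)
    rw [show 134 * e + 65 * e = 199 * e by ring] at h
    exact h
  refine (sum_le_sum fun u hu => sum_le_sum fun w1 hw1 => h3 u hu w1 hw1).trans (le_of_eq ?_)
  rw [sum_const, sum_const, card_range, smul_eq_mul, smul_eq_mul]
  ring

theorem cs_cells (s : Finset ℕ) (A R : ℕ) (hs : s.card ≤ A) (S : ℕ → ℝ) (W σ1 σ2 : ℝ)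
    (hW : 0 ≤ W) (hσ1 : 0 ≤ σ1) (hσ2 : 0 ≤ σ2) (hR : 1 ≤ R) (T : ℕ → ℕ → ℝ)
    (h1 : ∀ c ∈ s, S c ^ 2 ≤ W ^ 2 * σ1 + W * (2 / R) * ∑ r ∈ Ico 1 R, T c r)
    (h2 : ∀ r ∈ Ico 1 R, ∑ c ∈ s, T c r ≤ σ2 * (A * W)) :
    (∑ c ∈ s, |S c|) ^ 2 ≤ (A * W) ^ 2 * (σ1 + 2 * σ2) := by
  have hR' : (0 : ℝ) < R := by exact_mod_cast hR
  have hA : (s.card : ℝ) ≤ A := by exact_mod_cast hs
  have hA0 : (0 : ℝ) ≤ A := Nat.cast_nonneg _
  have e1 : (∑ c ∈ s, |S c|) ^ 2 ≤ s.card * ∑ c ∈ s, S c ^ 2 := by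
    have := sq_sum_le_card_mul_sum_sq (s := s) (f := fun c => |S c|)
    simpa [sq_abs] using this
  have e2 : ∑ c ∈ s, S c ^ 2 ≤ A * (W ^ 2 * σ1) + W * (2 / R) * (R * (σ2 * (A * W))) := by
    calc ∑ c ∈ s, S c ^ 2 ≤ ∑ c ∈ s, (W ^ 2 * σ1 + W * (2 / R) * ∑ r ∈ Ico 1 R, T c r) :=
          sum_le_sum h1
      _ = s.card * (W ^ 2 * σ1) + W * (2 / R) * ∑ r ∈ Ico 1 R, ∑ c ∈ s, T c r := by
          rw [sum_add_distrib, sum_const, nsmul_eq_mul, ← mul_sum, sum_comm]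
      _ ≤ A * (W ^ 2 * σ1) + W * (2 / R) * (R * (σ2 * (A * W))) := by
          apply add_le_add
          · exact mul_le_mul_of_nonneg_right hA (by positivity)
          · apply mul_le_mul_of_nonneg_left _ (by positivity)
            calc ∑ r ∈ Ico 1 R, ∑ c ∈ s, T c r ≤ ∑ r ∈ Ico 1 R, σ2 * (A * W) := sum_le_sum h2
              _ = ((R - 1 : ℕ) : ℝ) * (σ2 * (A * W)) := by
                  rw [sum_const, Nat.card_Ico, nsmul_eq_mul]
              _ ≤ R * (σ2 * (A * W)) := by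
                  apply mul_le_mul_of_nonneg_right _ (by positivity)
                  exact_mod_cast Nat.sub_le _ _
  have e3 : (0 : ℝ) ≤ A * (W ^ 2 * σ1) + W * (2 / R) * (R * (σ2 * (A * W))) := by positivity
  calc (∑ c ∈ s, |S c|) ^ 2 ≤ s.card * ∑ c ∈ s, S c ^ 2 := e1
    _ ≤ A * (A * (W ^ 2 * σ1) + W * (2 / R) * (R * (σ2 * (A * W)))) :=
        mul_le_mul hA e2 (sum_nonneg fun c _ => sq_nonneg _) hA0
    _ = (A * W) ^ 2 * (σ1 + 2 * σ2) := by field_simp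

end Pool.Agent.Lib.MP_8fac0f_nt.C3
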