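import Pool.Agent.Lib.MP_8fac0f_nt.N.Defs

/-!
# Thue-Morse along cubic polynomials: definitions and basic facts
-/

set_option autoImplicit false

namespace Pool.Agent.Lib.MP_8fac0f_nt.C3

open Finset

/-- Distance to the nearest integer. -/
noncomputable def di (x : ℝ) : ℝ := |x - round x|

/-- The character `exp (2 pi i x)`. -/
noncomputable def ex (x : ℝ) : ℂ := Complex.exp (2 * Real.pi * Complex.I * x)

/-- The cubic polynomial. -/
def P (a b c d n : ℕ) : ℕ := a * n ^ 3 + b * n ^ 2 + c * n + d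

/-- The derivative. -/
def P1 (a b c n : ℕ) : ℕ := 3 * a * n ^ 2 + 2 * b * n + c

/-- Half of the second derivative. -/
def P2 (a b n : ℕ) : ℕ := 3 * a * n + b

theorem P_add (a b c d n h : ℕ) :
    P a b c d (n + h) = P a b c d n + h * P1 a b c n + h ^ 2 * P2 a b n + a * h ^ 3 := by
  unfold P P1 P2; ring

theorem P1_add (a b c n h : ℕ) :
    P1 a b c (n + h) = P1 a b c n + 2 * h * P2 a b n + 3 * a * h ^ 2 := by
  unfold P1 P2; ring

theorem P2_add (a b n h : ℕ) : P2 a b (n + h) = P2 a b n + 3 * a * h := by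
  unfold P2; ring

/-! ### The distance to the nearest integer -/

theorem di_nonneg (x : ℝ) : 0 ≤ di x := abs_nonneg _

theorem di_le (x : ℝ) (k : ℤ) : di x ≤ |x - k| := round_le x k

theorem di_exists (x : ℝ) : ∃ k : ℤ, di x = |x - k| := ⟨round x, rfl⟩

theorem di_le_half (x : ℝ) : di x ≤ 1 / 2 := abs_sub_round x

theorem di_le_abs (x : ℝ) : di x ≤ |x| := by simpa using di_le x 0

theorem di_add_int (x : ℝ) (k : ℤ) : di (x + k) = di x := by
  unfold di; rw [round_add_intCast]; congr 1; push_cast; ring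

theorem di_sub_int (x : ℝ) (k : ℤ) : di (x - k) = di x := by
  have := di_add_int x (-k)
  push_cast at this
  rwa [← sub_eq_add_neg] at this

theorem di_int (k : ℤ) : di (k : ℝ) = 0 := by simp [di]

theorem di_neg (x : ℝ) : di (-x) = di x := by
  apply le_antisymm
  · obtain ⟨k, hk⟩ := di_exists x
    rw [hk]
    have := di_le (-x) (-k)
    push_cast at this
    rwa [show -x - -(k : ℝ) = -(x - k) by ring, abs_neg] at this
  · obtain ⟨k, hk⟩ := di_exists (-x)
    rw [hk]
    have := di_le x (-k)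
    push_cast at this
    rwa [show x - -(k : ℝ) = -(-x - k) by ring, abs_neg] at this

theorem di_add (x y : ℝ) : di (x + y) ≤ di x + di y := by
  obtain ⟨k, hk⟩ := di_exists x
  obtain ⟨l, hl⟩ := di_exists y
  rw [hk, hl]
  have := di_le (x + y) (k + l)
  push_cast at this
  refine this.trans ?_
  rw [show x + y - (k + l : ℝ) = (x - k) + (y - l) by ring]
  exact abs_add_le _ _

theorem di_sub (x y : ℝ) : di (x - y) ≤ di x + di y := by
  rw [sub_eq_add_neg]
  exact (di_add x (-y)).trans_eq (by rw [di_neg])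

theorem di_nat_mul (m : ℕ) (x : ℝ) : di (m * x) ≤ m * di x := by
  obtain ⟨k, hk⟩ := di_exists x
  rw [hk]
  have := di_le (m * x) (m * k)
  push_cast at this
  refine this.trans_eq ?_
  rw [← mul_sub, abs_mul, Nat.abs_cast]

theorem di_int_mul (m : ℤ) (x : ℝ) : di (m * x) ≤ |(m : ℝ)| * di x := by
  obtain ⟨k, hk⟩ := di_exists x
  rw [hk]
  have := di_le (m * x) (m * k)
  push_cast at this
  refine this.trans_eq ?_
  rw [← mul_sub, abs_mul]

theorem di_abs_diff (x y : ℝ) : |di x - di y| ≤ |x - y| := by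
  rw [abs_le]
  have h1 := di_add y (x - y)
  have h2 := di_add x (y - x)
  have h3 := di_le_abs (x - y)
  have h4 := di_le_abs (y - x)
  rw [abs_sub_comm] at h4
  rw [show y + (x - y) = x by ring] at h1
  rw [show x + (y - x) = y by ring] at h2
  constructor <;> linarith

/-! ### The character -/

theorem ex_add (x y : ℝ) : ex (x + y) = ex x * ex y := by
  unfold ex; rw [← Complex.exp_add]; congr 1; push_cast; ring

theorem ex_int (k : ℤ) : ex (k : ℝ) = 1 := by
  unfold ex
  rw [Complex.exp_eq_one_iff]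
  exact ⟨k, by push_cast; ring⟩

theorem ex_zero : ex 0 = 1 := by simpa using ex_int 0

theorem ex_add_int (x : ℝ) (k : ℤ) : ex (x + k) = ex x := by rw [ex_add, ex_int, mul_one]

theorem norm_ex (x : ℝ) : ‖ex x‖ = 1 := by
  unfold ex
  rw [show 2 * (Real.pi : ℂ) * Complex.I * x = ((2 * Real.pi * x : ℝ) : ℂ) * Complex.I by
    push_cast; ring]
  exact Complex.norm_exp_ofReal_mul_I _

/-- Typical `ν`: the numbers `2 t z C'` and `2 m C'`, `C' = P2 ν / 2 ^ (2 e + ρ)`, are rarely,
respectively never, close to an integer. -/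
def Good (a b ρ κ Ξ e ν : ℕ) : Prop :=
  (∀ z V : ℕ, 1 ≤ z → z ≤ Ξ → V ≤ κ * 2 ^ e →
    ((Ico 1 V).filter fun t : ℕ => di (2 * t * z * (P2 a b ν / 2 ^ (2 * e + ρ) : ℝ))
      < 1 / 2 ^ (e / 2)).card ≤ 2 ^ (e - e / 4)) ∧
  (∀ m : ℕ, 1 ≤ m → m ≤ Ξ * 2 ^ (e / 2) →
    1 / 2 ^ (e - e / 4) ≤ di (2 * m * (P2 a b ν / 2 ^ (2 * e + ρ) : ℝ)))

/-- The number with `B` equal blocks `y0` of `l0` digits. -/
def rep (y0 l0 B : ℕ) : ℕ := ∑ i ∈ range B, y0 * 2 ^ (i * l0)

end Pool.Agent.Lib.MP_8fac0f_nt.C3
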