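import Pool.Agent.Lib.MP_8fac0f_nt.C3.Defs
import Pool.Agent.Lib.MP_8fac0f_nt.N.Contr

/-!
# Thue-Morse along cubic polynomials: the good block
-/

set_option autoImplicit false

namespace Pool.Agent.Lib.MP_8fac0f_nt.C3

open Finset
open Pool.Agent.Lib.MP_8fac0f_nt.N (sg lin)

/-- The coefficients with the distinguished parameter. -/
def extC {G D : Type*} (C : G → D → ℕ) (g : G) (o : Option D) : ℕ := o.elim 1 (C g)

theorem lin_extC {G D : Type*} [Fintype D] (C : G → D → ℕ) (g : G) (p : Option D → ℕ) :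
    lin (extC C) g p = p none + ∑ i, C g i * p (some i) := by
  unfold lin
  rw [Fintype.sum_option]
  simp [extC]

theorem good_block {G D : Type} [Fintype G] [DecidableEq G] [Fintype D] [DecidableEq D]
    (C : G → D → ℕ) (gs : G) (hC : ∀ g, g ≠ gs → ∃ i, C g i = 0 ∧ 0 < C gs i)
    (OO : Finset (Finset (ℕ × ℕ))) (hOO : ∀ O ∈ OO, O.Nonempty) (cmax : ℕ) :
    ∃ l0 x0 y0 : ℕ, 1 ≤ l0 ∧ x0 < 2 ^ l0 ∧ y0 < 2 ^ l0 ∧ ∀ O ∈ OO, ∀ (κ : G → ℕ)
      (c : G → ℕ × ℕ → ℕ), (∀ g o, c g o ≤ cmax) →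
      ∃ p p' : Option D → ℕ, (∀ i, p i < 2 ^ l0) ∧ (∀ i, p' i < 2 ^ l0) ∧
        (∀ g, ∀ o ∈ O, (p none + ∑ i, C g i * p (some i) + κ g + o.1 * x0 + o.2 * y0 + c g o)
            / 2 ^ l0 =
          (p' none + ∑ i, C g i * p' (some i) + κ g + o.1 * x0 + o.2 * y0 + c g o) / 2 ^ l0) ∧
        ∏ g, ∏ o ∈ O,
          sg ((p none + ∑ i, C g i * p (some i) + κ g + o.1 * x0 + o.2 * y0 + c g o) % 2 ^ l0) =
        - ∏ g, ∏ o ∈ O,
          sg ((p' none + ∑ i, C g i * p' (some i) + κ g + o.1 * x0 + o.2 * y0 + c g o)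
            % 2 ^ l0) := by
  obtain ⟨l0, x0, y0, hl, hx, hy, hmain⟩ := Pool.Agent.Lib.MP_8fac0f_nt.N.good_block (extC C) none
    (fun g => rfl) gs (fun g hg => by
      obtain ⟨i, hi1, hi2⟩ := hC g hg
      exact ⟨some i, hi1, hi2⟩) OO hOO cmax
  refine ⟨l0, x0, y0, hl, hx, hy, fun O hO κ c hc => ?_⟩
  obtain ⟨u, u', hu, hu', h1, h2⟩ := hmain O hO κ c fun g o _ => hc g o
  simp only [lin_extC] at h1 h2
  exact ⟨u, u', hu, hu', h1, h2⟩

end Pool.Agent.Lib.MP_8fac0f_nt.C3
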