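import Pool.Agent.Lib.MP_8fac0f_nt.C3.Defs

/-!
# Linear sequences: number of terms close to an integer
-/

set_option autoImplicit false

namespace Pool.Agent.Lib.MP_8fac0f_nt.C3

open Finset

/-- a set of natural numbers with small diameter is small -/
theorem card_le_of_diam (S : Finset ℕ) (L : ℝ) (hL : 0 ≤ L)
    (h : ∀ i ∈ S, ∀ j ∈ S, (j : ℝ) - i ≤ L) : (S.card : ℝ) ≤ L + 1 := by
  rcases S.eq_empty_or_nonempty with rfl | hS
  · simp; linarith
  · have h1 : S ⊆ Icc (S.min' hS) (S.max' hS) := fun x hx =>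
      mem_Icc.2 ⟨S.min'_le x hx, S.le_max' x hx⟩
    have h2 := card_le_card h1
    rw [Nat.card_Icc] at h2
    have h3 := h _ (S.min'_mem hS) _ (S.max'_mem hS)
    have h4 : S.min' hS ≤ S.max' hS := S.min'_le_max' hS
    have h5 : (S.card : ℝ) ≤ ((S.max' hS + 1 - S.min' hS : ℕ) : ℝ) := by exact_mod_cast h2
    rw [Nat.cast_sub (by omega)] at h5
    push_cast at h5
    linarith

/-- the same for integers -/
theorem card_le_of_diam_int (S : Finset ℤ) (L : ℝ) (hL : 0 ≤ L)
    (h : ∀ i ∈ S, ∀ j ∈ S, (j : ℝ) - i ≤ L) : (S.card : ℝ) ≤ L + 1 := by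
  rcases S.eq_empty_or_nonempty with rfl | hS
  · simp; linarith
  · have h1 : S ⊆ Icc (S.min' hS) (S.max' hS) := fun x hx =>
      mem_Icc.2 ⟨S.min'_le x hx, S.le_max' x hx⟩
    have h2 := card_le_card h1
    rw [Int.card_Icc] at h2
    have h3 := h _ (S.min'_mem hS) _ (S.max'_mem hS)
    have h4 : S.min' hS ≤ S.max' hS := S.min'_le_max' hS
    have h5 : ((S.card : ℤ) : ℝ) ≤ ((S.max' hS + 1 - S.min' hS : ℤ) : ℝ) := by
      have h6 : (S.card : ℤ) ≤ S.max' hS + 1 - S.min' hS := by omega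
      exact_mod_cast h6
    push_cast at h5
    linarith

/-- points of an arithmetic progression with small positive difference near the integers -/
theorem lin_one (β d τ : ℝ) (I : ℕ) (hd : 0 < d) (hτ : 0 ≤ τ) (hτ2 : τ ≤ 1 / 2) :
    (((range (I + 1)).filter fun i : ℕ => di (β + i * d) ≤ τ).card : ℝ)
      ≤ (I * d + 2) * (2 * τ / d + 1) := by
  set S := (range (I + 1)).filter fun i : ℕ => di (β + i * d) ≤ τ with hS
  let f : ℕ → ℤ := fun i => round (β + i * d)
  have hf : ∀ i ∈ S, |β + i * d - (f i : ℝ)| ≤ τ := fun i hi => (mem_filter.1 hi).2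
  have h1 : ((S.image f).card : ℝ) ≤ (I * d + 1) + 1 := by
    apply card_le_of_diam_int
    · positivity
    · intro x hx y hy
      obtain ⟨i, hi, rfl⟩ := mem_image.1 hx
      obtain ⟨j, hj, rfl⟩ := mem_image.1 hy
      have h2 := abs_le.1 (hf i hi)
      have h3 := abs_le.1 (hf j hj)
      have h4 : (j : ℝ) ≤ I := by
        have := mem_range.1 (mem_filter.1 hj).1
        exact_mod_cast (by omega : j ≤ I)
      have h5 : (0 : ℝ) ≤ i := Nat.cast_nonneg i
      have h6 : (j : ℝ) * d ≤ I * d := mul_le_mul_of_nonneg_right h4 hd.le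
      have h7 : 0 ≤ (i : ℝ) * d := mul_nonneg h5 hd.le
      linarith [h2.1, h2.2, h3.1, h3.2]
  have h2 : ∀ z ∈ S.image f, (S.filter fun x => f x = z).card ≤ ⌊2 * τ / d + 1⌋₊ := by
    intro z _
    apply Nat.le_floor
    apply card_le_of_diam
    · positivity
    · intro i hi j hj
      have h3 := hf i (mem_filter.1 hi).1
      have h4 := hf j (mem_filter.1 hj).1
      rw [(mem_filter.1 hi).2] at h3
      rw [(mem_filter.1 hj).2] at h4
      rw [le_div_iff₀ hd]
      have h5 := abs_le.1 h3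
      have h6 := abs_le.1 h4
      nlinarith [h5.1, h5.2, h6.1, h6.2]
  have h3 := card_le_mul_card_image S _ h2
  have h4 : (S.card : ℝ) ≤ (⌊2 * τ / d + 1⌋₊ : ℝ) * ((S.image f).card : ℝ) := by
    exact_mod_cast h3
  have h5 : (⌊2 * τ / d + 1⌋₊ : ℝ) ≤ 2 * τ / d + 1 := Nat.floor_le (by positivity)
  calc (S.card : ℝ) ≤ (⌊2 * τ / d + 1⌋₊ : ℝ) * ((S.image f).card : ℝ) := h4
    _ ≤ (2 * τ / d + 1) * ((I * d + 1) + 1) := by
        apply mul_le_mul h5 h1 (by positivity) (by positivity)
    _ = (I * d + 2) * (2 * τ / d + 1) := by ring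

theorem lin_count (α β γ τ : ℝ) (H M0 : ℕ) (hH : 1 ≤ H) (hγ : 0 < γ) (hτ : 0 ≤ τ)
    (h : ∀ m : ℕ, 1 ≤ m → m ≤ H → γ ≤ di (m * α)) :
    (((range M0).filter fun m : ℕ => di (β + m * α) ≤ τ).card : ℝ)
      ≤ M0 * (2 * τ + 1 / H) + H * (4 * τ / γ + 3) := by
  have hH' : (0 : ℝ) < H := by exact_mod_cast hH
  have hM : (0 : ℝ) ≤ M0 := Nat.cast_nonneg M0
  rcases lt_or_ge (1 / 2) τ with hτ2 | hτ2
  · have h1 : (((range M0).filter fun m : ℕ => di (β + m * α) ≤ τ).card : ℝ) ≤ M0 := by
      have := card_filter_le (range M0) fun m : ℕ => di (β + m * α) ≤ τ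
      rw [card_range] at this
      exact_mod_cast this
    have h2 : (M0 : ℝ) ≤ M0 * (2 * τ + 1 / H) := by
      have : (0 : ℝ) < 1 / H := by positivity
      nlinarith
    have h3 : 0 ≤ H * (4 * τ / γ + 3) := by positivity
    linarith
  obtain ⟨q, hq0, hqH, hq⟩ := Real.exists_nat_abs_mul_sub_round_le α (n := H) (by omega)
  set d := di (q * α) with hd
  have hd' : d = |(q : ℝ) * α - round ((q : ℝ) * α)| := rfl
  have hγd : γ ≤ d := h q hq0 hqH
  have hd0 : 0 < d := hγ.trans_le hγd
  have hdH : d ≤ 1 / H := by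
    rw [hd']
    refine hq.trans ?_
    apply one_div_le_one_div_of_le hH'
    linarith
  have hq' : (0 : ℝ) < q := by exact_mod_cast hq0
  have hqH' : (q : ℝ) ≤ H := by exact_mod_cast hqH
  -- one residue class
  have key : ∀ r < q, (((range M0).filter fun m : ℕ => di (β + m * α) ≤ τ).filter
      fun m => m % q = r).card ≤ ⌊((M0 : ℝ) / q * d + 2) * (2 * τ / d + 1)⌋₊ := by
    intro r hr
    apply Nat.le_floor
    set z : ℤ := round ((q : ℝ) * α) with hz
    rcases M0.eq_zero_or_pos with hM0 | hM0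
    · subst hM0
      simp
      positivity
    set I := (M0 - 1) / q with hI
    have hIM : (I : ℝ) ≤ M0 / q := by
      rw [le_div_iff₀ hq']
      have h1 : (M0 - 1) / q * q ≤ M0 - 1 := Nat.div_mul_le_self _ _
      have h2 : I * q ≤ M0 := h1.trans (Nat.sub_le _ _)
      exact_mod_cast h2
    have hcl : ∃ β' : ℝ, ∀ i : ℕ, di (β + ((r + q * i : ℕ) : ℝ) * α) = di (β' + i * d) := by
      rcases le_total 0 ((q : ℝ) * α - z) with h1 | h1
      · refine ⟨β + r * α, fun i => ?_⟩
        rw [hd', abs_of_nonneg h1]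
        have h2 := di_add_int (β + r * α + i * (q * α - z)) (i * z)
        rw [← h2]
        congr 1
        push_cast
        ring
      · refine ⟨-(β + r * α), fun i => ?_⟩
        rw [hd', abs_of_nonpos h1]
        have h2 := di_add_int (β + r * α + i * (q * α - z)) (i * z)
        rw [show -(β + r * α) + i * -(q * α - z) = -(β + r * α + i * (q * α - z)) by ring,
          di_neg, ← h2]
        congr 1
        push_cast
        ring
    obtain ⟨β', hβ'⟩ := hcl
    have h1 := lin_one β' d τ I hd0 hτ hτ2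
    have h2 : (((range M0).filter fun m : ℕ => di (β + m * α) ≤ τ).filter
        fun m => m % q = r).card ≤ ((range (I + 1)).filter fun i : ℕ =>
          di (β' + i * d) ≤ τ).card := by
      apply card_le_card_of_injOn (fun m => m / q)
      · intro m hm
        rw [mem_coe, mem_filter, mem_filter, mem_range] at hm
        rw [mem_coe, mem_filter, mem_range]
        obtain ⟨⟨h3, h4⟩, h5⟩ := hm
        refine ⟨?_, ?_⟩
        · have : m / q ≤ (M0 - 1) / q := Nat.div_le_div_right (by omega)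
          exact Nat.lt_succ_of_le this
        · rw [← hβ' (m / q)]
          have h6 : r + q * (m / q) = m := by
            rw [← h5]
            exact Nat.mod_add_div m q
          rw [h6]
          exact h4
      · intro m hm m' hm' hmm
        rw [mem_coe, mem_filter] at hm hm'
        have h3 : m / q = m' / q := hmm
        have h4 := Nat.mod_add_div m q
        have h5 := Nat.mod_add_div m' q
        rw [hm.2] at h4
        rw [hm'.2] at h5
        rw [← h4, ← h5, h3]
    calc ((((range M0).filter fun m : ℕ => di (β + m * α) ≤ τ).filter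
        fun m => m % q = r).card : ℝ) ≤ _ := by exact_mod_cast h2
      _ ≤ (I * d + 2) * (2 * τ / d + 1) := h1
      _ ≤ ((M0 : ℝ) / q * d + 2) * (2 * τ / d + 1) := by
          apply mul_le_mul_of_nonneg_right _ (by positivity)
          have := mul_le_mul_of_nonneg_right hIM hd0.le
          linarith
  have h1 : (((range M0).filter fun m : ℕ => di (β + m * α) ≤ τ).card : ℝ) ≤
      q * (((M0 : ℝ) / q * d + 2) * (2 * τ / d + 1)) := by
    have h2 := card_le_mul_card_image_of_maps_to (f := fun m : ℕ => m % q)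
      (s := (range M0).filter fun m : ℕ => di (β + m * α) ≤ τ) (t := range q)
      (fun m _ => mem_range.2 (Nat.mod_lt m hq0))
      ⌊((M0 : ℝ) / q * d + 2) * (2 * τ / d + 1)⌋₊ (fun r hr => key r (mem_range.1 hr))
    rw [card_range] at h2
    have h3 : (((range M0).filter fun m : ℕ => di (β + m * α) ≤ τ).card : ℝ) ≤
      (⌊((M0 : ℝ) / q * d + 2) * (2 * τ / d + 1)⌋₊ : ℝ) * q := by exact_mod_cast h2
    have h4 : (⌊((M0 : ℝ) / q * d + 2) * (2 * τ / d + 1)⌋₊ : ℝ) ≤
      ((M0 : ℝ) / q * d + 2) * (2 * τ / d + 1) := Nat.floor_le (by positivity)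
    calc _ ≤ (⌊((M0 : ℝ) / q * d + 2) * (2 * τ / d + 1)⌋₊ : ℝ) * q := h3
      _ ≤ (((M0 : ℝ) / q * d + 2) * (2 * τ / d + 1)) * q :=
          mul_le_mul_of_nonneg_right h4 hq'.le
      _ = _ := by ring
  have h2 : (q : ℝ) * (((M0 : ℝ) / q * d + 2) * (2 * τ / d + 1)) =
      M0 * (2 * τ + d) + q * (4 * τ / d + 2) := by
    field_simp
    ring
  rw [h2] at h1
  have h3 : (M0 : ℝ) * (2 * τ + d) ≤ M0 * (2 * τ + 1 / H) :=
    mul_le_mul_of_nonneg_left (by linarith) hM
  have h4 : 4 * τ / d ≤ 4 * τ / γ := by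
    apply div_le_div_of_nonneg_left (by positivity) hγ hγd
  have h5 : (q : ℝ) * (4 * τ / d + 2) ≤ H * (4 * τ / γ + 3) := by
    apply mul_le_mul hqH' (by linarith) (by positivity) hH'.le
  linarith

end Pool.Agent.Lib.MP_8fac0f_nt.C3
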