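import Pool.Agent.Lib.MP_8fac0f_nt.C3.Defs
import Pool.Agent.Lib.MP_8fac0f_nt.N.NP

/-!
# Thue-Morse along cubic polynomials: no finite product relation
-/

set_option autoImplicit false

namespace Pool.Agent.Lib.MP_8fac0f_nt.C3

open Finset
open Pool.Agent.Lib.MP_8fac0f_nt.N (sg)

theorem np (J : Finset ℕ) (hJ : J.Nonempty) :
    ∃ x1 x2 : ℕ, ∏ j ∈ J, sg (x1 + j) ≠ ∏ j ∈ J, sg (x2 + j) :=
  Pool.Agent.Lib.MP_8fac0f_nt.N.np J hJ

end Pool.Agent.Lib.MP_8fac0f_nt.C3
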