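import Pool.Agent.Lib.MP_8fac0f_nt.C3.Defs

/-!
# Pigeonhole: many `q` for which all the phases `q A(y) / 2 ^ m` are close to integers
-/

set_option autoImplicit false

namespace Pool.Agent.Lib.MP_8fac0f_nt.C3

open Finset

theorem pigeon (Y : Finset ℕ) (A : ℕ → ℕ) (m L Q : ℕ) (hQ : 1 ≤ Q) :
    ∃ K : Finset ℕ, (∀ q ∈ K, 1 ≤ q ∧ q < Q ∧ ∀ y ∈ Y, di (q * A y / 2 ^ m) ≤ 1 / 2 ^ L) ∧
      Q ≤ (K.card + 1) * 2 ^ (L * Y.card) := by
  classical
  have hb : ∀ (q : ℕ) (y : Y), ⌊(2 : ℝ) ^ L * Int.fract ((q : ℝ) * A y / 2 ^ m)⌋₊ < 2 ^ L := by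
    intro q y
    rw [Nat.floor_lt (by positivity)]
    push_cast
    have := Int.fract_lt_one ((q : ℝ) * A y / 2 ^ m)
    have h2 : (0 : ℝ) < 2 ^ L := by positivity
    nlinarith
  let f : ℕ → (Y → Fin (2 ^ L)) := fun q y =>
    ⟨⌊(2 : ℝ) ^ L * Int.fract ((q : ℝ) * A y / 2 ^ m)⌋₊, hb q y⟩
  obtain ⟨b, -, hbmax⟩ := Finset.exists_max_image (Finset.univ : Finset (Y → Fin (2 ^ L)))
    (fun b => ((range Q).filter fun q => f q = b).card) ⟨f 0, Finset.mem_univ _⟩
  set F := (range Q).filter fun q => f q = b with hF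
  have hcard : Q ≤ F.card * 2 ^ (L * Y.card) := by
    have h1 : (range Q).card = ∑ b' ∈ (Finset.univ : Finset (Y → Fin (2 ^ L))),
        ((range Q).filter fun q => f q = b').card :=
      Finset.card_eq_sum_card_fiberwise (fun q _ => Finset.mem_coe.2 (Finset.mem_univ _))
    rw [Finset.card_range] at h1
    rw [h1]
    refine (Finset.sum_le_sum fun b' hb' => hbmax b' hb').trans ?_
    rw [Finset.sum_const, Finset.card_univ, Fintype.card_fun, Fintype.card_fin, Fintype.card_coe,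
      smul_eq_mul, ← pow_mul, mul_comm]
  have hFpos : 0 < F.card := by
    by_contra h
    have : F.card = 0 := by omega
    rw [this, zero_mul] at hcard
    omega
  have hFne : F.Nonempty := Finset.card_pos.1 hFpos
  obtain ⟨q0, hq0, hmin⟩ := Finset.exists_min_image F id hFne
  refine ⟨(F.erase q0).image (fun q => q - q0), ?_, ?_⟩
  · intro q' hq'
    obtain ⟨q, hq, rfl⟩ := Finset.mem_image.1 hq'
    obtain ⟨hne, hqF⟩ := Finset.mem_erase.1 hq
    have hle : q0 ≤ q := hmin q hqF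
    have hlt : q0 < q := lt_of_le_of_ne hle (Ne.symm hne)
    have hqQ : q < Q := Finset.mem_range.1 (Finset.mem_filter.1 hqF).1
    refine ⟨by omega, by omega, fun y hy => ?_⟩
    have e1 : f q = f q0 := (Finset.mem_filter.1 hqF).2.trans (Finset.mem_filter.1 hq0).2.symm
    have e2 : ⌊(2 : ℝ) ^ L * Int.fract ((q : ℝ) * A y / 2 ^ m)⌋₊
        = ⌊(2 : ℝ) ^ L * Int.fract ((q0 : ℝ) * A y / 2 ^ m)⌋₊ := by
      have := congrArg Fin.val (congrFun e1 ⟨y, hy⟩)
      exact this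
    set x := (q : ℝ) * A y / 2 ^ m with hx
    set x0 := (q0 : ℝ) * A y / 2 ^ m with hx0
    have e3 : |(2 : ℝ) ^ L * Int.fract x - 2 ^ L * Int.fract x0| < 1 := by
      have a1 := Nat.floor_le (show (0 : ℝ) ≤ 2 ^ L * Int.fract x by positivity)
      have a2 := Nat.lt_floor_add_one ((2 : ℝ) ^ L * Int.fract x)
      have a3 := Nat.floor_le (show (0 : ℝ) ≤ 2 ^ L * Int.fract x0 by positivity)
      have a4 := Nat.lt_floor_add_one ((2 : ℝ) ^ L * Int.fract x0)
      rw [e2] at a1 a2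
      rw [abs_lt]
      constructor <;> linarith
    have e4 : |Int.fract x - Int.fract x0| ≤ 1 / 2 ^ L := by
      rw [← mul_sub, abs_mul, abs_of_pos (show (0 : ℝ) < 2 ^ L by positivity)] at e3
      rw [le_div_iff₀ (by positivity), mul_comm]
      exact e3.le
    have e5 : (((q - q0 : ℕ) : ℝ)) * A y / 2 ^ m = x - x0 := by
      rw [Nat.cast_sub hle, hx, hx0]; ring
    rw [e5]
    refine (di_le (x - x0) (⌊x⌋ - ⌊x0⌋)).trans ?_
    have : x - x0 - ((⌊x⌋ - ⌊x0⌋ : ℤ) : ℝ) = Int.fract x - Int.fract x0 := by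
      have h1 := Int.self_sub_floor x
      have h2 := Int.self_sub_floor x0
      push_cast
      linarith
    rw [this]
    exact e4
  · have hc : ((F.erase q0).image (fun q => q - q0)).card = F.card - 1 := by
      rw [Finset.card_image_of_injOn, Finset.card_erase_of_mem hq0]
      intro q1 h1 q2 h2 h12
      have a1 : q0 ≤ q1 := hmin q1 (Finset.mem_of_mem_erase (Finset.mem_coe.1 h1))
      have a2 : q0 ≤ q2 := hmin q2 (Finset.mem_of_mem_erase (Finset.mem_coe.1 h2))
      have h12' : q1 - q0 = q2 - q0 := h12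
      omega
    rw [hc, Nat.sub_add_cancel hFpos]
    exact hcard

end Pool.Agent.Lib.MP_8fac0f_nt.C3
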