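import Pool.Agent.Lib.MP_8fac0f_nt.C3.Defs

/-!
# Linear and quadratic Weyl sums
-/

set_option autoImplicit false

namespace Pool.Agent.Lib.MP_8fac0f_nt.C3

open Finset

/-- `|1 - e(β)| ≥ 4 di β`. -/
theorem four_di_le (β : ℝ) : 4 * di β ≤ ‖1 - ex β‖ := by
  obtain ⟨k, hk⟩ : ∃ k : ℤ, k = round β := ⟨_, rfl⟩
  set x : ℝ := β - k with hx
  have h1 : di β = |x| := by rw [hx, hk]; rfl
  have h2 : ex β = ex x := by
    have := ex_add_int x k
    rw [← this, hx]; congr 1; ring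
  have h3 : |x| ≤ 1 / 2 := by rw [← h1]; exact di_le_half β
  rw [h1, h2]
  have h4 : ‖1 - ex x‖ = 2 * |Real.sin (Real.pi * x)| := by
    unfold ex
    have h5 : Complex.exp (2 * Real.pi * Complex.I * x)
        = Complex.exp ((Real.pi * x : ℝ) * Complex.I) * Complex.exp ((Real.pi * x : ℝ) * Complex.I) := by
      rw [← Complex.exp_add]; congr 1; push_cast; ring
    have h6 : (1 : ℂ) = Complex.exp ((Real.pi * x : ℝ) * Complex.I)
        * Complex.exp (-((Real.pi * x : ℝ) * Complex.I)) := by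
      rw [← Complex.exp_add]; simp
    have h7 : 1 - Complex.exp (2 * Real.pi * Complex.I * x)
        = Complex.exp ((Real.pi * x : ℝ) * Complex.I) *
          (-(2 * Complex.I * Complex.sin (Real.pi * x : ℝ))) := by
      rw [h5]
      nth_rewrite 1 [h6]
      rw [Complex.sin]
      ring_nf
      rw [Complex.I_sq]
      ring_nf
    rw [h7, norm_mul, Complex.norm_exp_ofReal_mul_I, one_mul, norm_neg, norm_mul, norm_mul,
      Complex.norm_I, ← Complex.ofReal_sin, Complex.norm_real, Real.norm_eq_abs]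
    norm_num
  rw [h4]
  have h8 : 2 * |x| ≤ |Real.sin (Real.pi * x)| := by
    rcases le_total 0 x with hx0 | hx0
    · rw [abs_of_nonneg hx0]
      rw [abs_of_nonneg hx0] at h3
      have := Real.mul_le_sin (x := Real.pi * x) (by positivity) (by nlinarith [Real.pi_pos])
      have e : 2 / Real.pi * (Real.pi * x) = 2 * x := by field_simp
      rw [e] at this
      exact this.trans (le_abs_self _)
    · rw [abs_of_nonpos hx0]
      rw [abs_of_nonpos hx0] at h3
      have := Real.mul_le_sin (x := Real.pi * (-x)) (by nlinarith [Real.pi_pos])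
        (by nlinarith [Real.pi_pos])
      have e : 2 / Real.pi * (Real.pi * (-x)) = 2 * (-x) := by field_simp
      rw [e] at this
      refine this.trans ?_
      rw [mul_neg, Real.sin_neg]
      exact neg_le_abs _
  linarith

theorem lin_weyl (β γ : ℝ) (hγ : 0 < γ) (h : γ ≤ di β) (v1 v2 : ℕ) :
    ‖∑ v ∈ Ico v1 v2, ex (β * v)‖ ≤ 1 / (2 * γ) := by
  rcases le_total v2 v1 with hle | hle
  · rw [Finset.Ico_eq_empty_of_le hle]
    simp only [Finset.sum_empty, norm_zero]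
    positivity
  have h1 : (1 - ex β) * ∑ v ∈ Ico v1 v2, ex (β * v) = ex (β * v1) - ex (β * v2) := by
    rw [Finset.mul_sum]
    have : ∀ v : ℕ, (1 - ex β) * ex (β * v) = ex (β * v) - ex (β * (v + 1 : ℕ)) := by
      intro v
      have : ex (β * (v + 1 : ℕ)) = ex β * ex (β * v) := by
        rw [← ex_add]; congr 1; push_cast; ring
      rw [this]; ring
    simp_rw [this]
    have := Finset.sum_Ico_sub (f := fun v : ℕ => ex (β * v)) hle
    rw [← neg_inj, ← Finset.sum_neg_distrib]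
    simp only [neg_sub]
    exact this
  have h2 : ‖1 - ex β‖ * ‖∑ v ∈ Ico v1 v2, ex (β * v)‖ ≤ 2 := by
    rw [← norm_mul, h1]
    refine (norm_sub_le _ _).trans ?_
    rw [norm_ex, norm_ex]; norm_num
  have h3 : 4 * γ ≤ ‖1 - ex β‖ := (mul_le_mul_of_nonneg_left h (by norm_num)).trans (four_di_le β)
  have h4 : 4 * γ * ‖∑ v ∈ Ico v1 v2, ex (β * v)‖ ≤ 2 :=
    (mul_le_mul_of_nonneg_right h3 (norm_nonneg _)).trans h2
  rw [le_div_iff₀ (by positivity)]
  linarith

/-- Sums over pairs `v < v'` rearranged by the difference. -/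
theorem pairs_by_diff (g : ℕ → ℕ → ℂ) (V v1 v2 : ℕ) (hV : v2 ≤ v1 + V) :
    ∑ v ∈ Ico v1 v2, ∑ v' ∈ Ico (v + 1) v2, g v v'
      = ∑ t ∈ Ico 1 V, ∑ v ∈ Ico v1 (v2 - t), g v (v + t) := by
  have h1 : ∀ v ∈ Ico v1 v2, ∑ v' ∈ Ico (v + 1) v2, g v v'
      = ∑ t ∈ Ico 1 V, if v + t < v2 then g v (v + t) else 0 := by
    intro v hv
    rw [Finset.mem_Ico] at hv
    rw [← Finset.sum_filter]
    symm
    refine Finset.sum_bij (fun t _ => v + t) ?_ ?_ ?_ ?_
    · intro t ht
      rw [Finset.mem_filter, Finset.mem_Ico] at ht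
      rw [Finset.mem_Ico]; omega
    · intro t _ t' _ h; simpa using h
    · intro w hw
      rw [Finset.mem_Ico] at hw
      refine ⟨w - v, ?_, by omega⟩
      rw [Finset.mem_filter, Finset.mem_Ico]; omega
    · intro t _; rfl
  rw [Finset.sum_congr rfl h1, Finset.sum_comm]
  refine Finset.sum_congr rfl fun t _ => ?_
  rw [← Finset.sum_filter]
  refine Finset.sum_congr ?_ fun _ _ => rfl
  ext v
  rw [Finset.mem_filter, Finset.mem_Ico, Finset.mem_Ico]; omega

theorem quad_weyl (α β γ : ℝ) (hγ : 0 < γ) (V v1 v2 : ℕ) (hV : v2 ≤ v1 + V) :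
    ‖∑ v ∈ Ico v1 v2, ex (α * v ^ 2 + β * v)‖ ^ 2
      ≤ V + 2 * V * ((Ico 1 V).filter fun t : ℕ => di (2 * t * α) < γ).card + V / γ := by
  set f : ℕ → ℝ := fun v => α * v ^ 2 + β * v with hf
  have hcard : ((Ico v1 v2).card : ℝ) ≤ V := by
    rw [Nat.card_Ico]; exact_mod_cast (by omega : v2 - v1 ≤ V)
  -- the square as a double sum
  set D : ℂ := ∑ v ∈ Ico v1 v2, ∑ v' ∈ Ico (v + 1) v2, ex (f v' - f v) with hD
  have hconj : ∀ x : ℝ, (starRingEnd ℂ) (ex x) = ex (-x) := by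
    intro x
    unfold ex
    rw [← Complex.exp_conj]
    congr 1
    simp only [map_mul, Complex.conj_ofReal, Complex.conj_I, Complex.ofReal_neg]
    rw [map_ofNat]
    ring
  have hsq : ((‖∑ v ∈ Ico v1 v2, ex (f v)‖ ^ 2 : ℝ) : ℂ)
      = (Ico v1 v2).card + D + (starRingEnd ℂ) D := by
    have e1 : ((‖∑ v ∈ Ico v1 v2, ex (f v)‖ ^ 2 : ℝ) : ℂ)
        = ∑ v ∈ Ico v1 v2, ∑ v' ∈ Ico v1 v2, ex (f v' - f v) := by
      have : ((‖∑ v ∈ Ico v1 v2, ex (f v)‖ ^ 2 : ℝ) : ℂ)
          = (starRingEnd ℂ) (∑ v ∈ Ico v1 v2, ex (f v)) * (∑ v ∈ Ico v1 v2, ex (f v)) := by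
        rw [mul_comm, Complex.mul_conj, Complex.normSq_eq_norm_sq]
      rw [this, map_sum, Finset.sum_mul_sum]
      refine Finset.sum_congr rfl fun v _ => Finset.sum_congr rfl fun v' _ => ?_
      rw [hconj, ← ex_add]; congr 1; ring
    have e2 : ∀ v ∈ Ico v1 v2, ∑ v' ∈ Ico v1 v2, ex (f v' - f v)
        = 1 + ∑ v' ∈ Ico (v + 1) v2, ex (f v' - f v) + ∑ v' ∈ Ico v1 v, ex (f v' - f v) := by
      intro v hv
      rw [Finset.mem_Ico] at hv
      rw [← Finset.sum_Ico_consecutive _ hv.1 hv.2.le, Finset.sum_eq_sum_Ico_succ_bot hv.2]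
      rw [sub_self, ex_zero]; ring
    have e3 : ∑ v ∈ Ico v1 v2, ∑ v' ∈ Ico v1 v, ex (f v' - f v)
        = (starRingEnd ℂ) D := by
      have e4 : ∀ v ∈ Ico v1 v2, ∑ v' ∈ Ico v1 v, ex (f v' - f v)
          = ∑ v' ∈ Ico v1 v2, if v' < v then ex (f v' - f v) else 0 := by
        intro v hv
        rw [Finset.mem_Ico] at hv
        rw [← Finset.sum_filter]
        refine Finset.sum_congr ?_ fun _ _ => rfl
        ext w; rw [Finset.mem_filter, Finset.mem_Ico, Finset.mem_Ico]; omega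
      rw [Finset.sum_congr rfl e4, Finset.sum_comm, hD, map_sum]
      refine Finset.sum_congr rfl fun v hv => ?_
      rw [Finset.mem_Ico] at hv
      rw [← Finset.sum_filter, map_sum]
      refine Finset.sum_congr ?_ fun w _ => ?_
      · ext w; rw [Finset.mem_filter, Finset.mem_Ico, Finset.mem_Ico]; omega
      · rw [hconj]; congr 1; ring
    rw [e1, Finset.sum_congr rfl e2, Finset.sum_add_distrib, Finset.sum_add_distrib, e3]
    simp [hD]
  have hle : ‖∑ v ∈ Ico v1 v2, ex (f v)‖ ^ 2 ≤ V + 2 * ‖D‖ := by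
    have e5 : ‖∑ v ∈ Ico v1 v2, ex (f v)‖ ^ 2
        = ‖((‖∑ v ∈ Ico v1 v2, ex (f v)‖ ^ 2 : ℝ) : ℂ)‖ := by
      rw [Complex.norm_real, Real.norm_of_nonneg (by positivity)]
    rw [e5, hsq]
    refine (norm_add_le _ _).trans ?_
    rw [RCLike.norm_conj]
    have := norm_add_le ((Ico v1 v2).card : ℂ) D
    rw [Complex.norm_natCast] at this
    linarith
  have hDle : ‖D‖ ≤ ∑ t ∈ Ico 1 V, if di (2 * t * α) < γ then (V : ℝ) else 1 / (2 * γ) := by
    rw [hD, pairs_by_diff _ V v1 v2 hV]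
    refine (norm_sum_le _ _).trans (Finset.sum_le_sum fun t ht => ?_)
    split_ifs with hb
    · refine (norm_sum_le _ _).trans ?_
      simp_rw [norm_ex]
      rw [Finset.sum_const, Nat.card_Ico, nsmul_eq_mul, mul_one]
      exact_mod_cast (by omega : v2 - t - v1 ≤ V)
    · have e6 : ∀ v : ℕ, ex (f (v + t) - f v) = ex (α * t ^ 2 + β * t) * ex (2 * t * α * v) := by
        intro v
        rw [← ex_add]; congr 1; simp only [hf]; push_cast; ring
      simp_rw [e6]
      rw [← Finset.mul_sum, norm_mul, norm_ex, one_mul]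
      exact lin_weyl _ γ hγ (not_lt.1 hb) _ _
  have hfin : ∑ t ∈ Ico 1 V, (if di (2 * t * α) < γ then (V : ℝ) else 1 / (2 * γ))
      ≤ V * ((Ico 1 V).filter fun t : ℕ => di (2 * t * α) < γ).card + V * (1 / (2 * γ)) := by
    rw [Finset.sum_ite, Finset.sum_const, Finset.sum_const, nsmul_eq_mul, nsmul_eq_mul]
    have e7 : (((Ico 1 V).filter fun t : ℕ => ¬ di (2 * t * α) < γ).card : ℝ) ≤ V := by
      have := Finset.card_filter_le (Ico 1 V) (fun t : ℕ => ¬ di (2 * t * α) < γ)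
      rw [Nat.card_Ico] at this
      exact Nat.cast_le.2 (this.trans (Nat.sub_le V 1))
    have e8 : 0 ≤ 1 / (2 * γ) := by positivity
    nlinarith [mul_le_mul_of_nonneg_right e7 e8]
  have e9 : (V : ℝ) / γ = 2 * (V * (1 / (2 * γ))) := by field_simp
  rw [e9]
  nlinarith [hle, hDle, hfin]

end Pool.Agent.Lib.MP_8fac0f_nt.C3
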