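import Pool.Agent.Lib.MP_8fac0f_nt.C3.Lin

/-!
# The derivative of a cubic polynomial is rarely close to an integer modulo a power of two
-/

set_option autoImplicit false

namespace Pool.Agent.Lib.MP_8fac0f_nt.C3

open Finset

/-- equally spaced points -/
theorem sq_equi (N : ℕ) (hN : 0 < N) (y δ : ℝ) (hδ : 0 ≤ δ) :
    (((range N).filter fun t : ℕ => di ((t : ℝ) / N + y) ≤ δ).card : ℝ) ≤ 2 * δ * N + 1 := by
  have hN' : (0 : ℝ) < N := by exact_mod_cast hN
  set T := (range N).filter fun t : ℕ => di ((t : ℝ) / N + y) ≤ δ with hT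
  let f : ℕ → ℤ := fun t => (t : ℤ) - N * round ((t : ℝ) / N + y)
  have hinj : Set.InjOn f T := by
    intro s hs t ht hst
    have h1 : (s : ℤ) - N * round ((s : ℝ) / N + y) = (t : ℤ) - N * round ((t : ℝ) / N + y) := hst
    have h2 : s < N := mem_range.1 (mem_filter.1 hs).1
    have h3 : t < N := mem_range.1 (mem_filter.1 ht).1
    have h4 : (s : ℤ) ≡ t [ZMOD N] := by
      rw [Int.modEq_iff_dvd]
      refine ⟨round ((t : ℝ) / N + y) - round ((s : ℝ) / N + y), ?_⟩
      linear_combination -h1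
    have h5 : s ≡ t [MOD N] := (Int.natCast_modEq_iff).1 h4
    unfold Nat.ModEq at h5
    rwa [Nat.mod_eq_of_lt h2, Nat.mod_eq_of_lt h3] at h5
  rw [← card_image_of_injOn hinj]
  apply card_le_of_diam_int
  · positivity
  · intro x hx z hz
    obtain ⟨s, hs, rfl⟩ := mem_image.1 hx
    obtain ⟨t, ht, rfl⟩ := mem_image.1 hz
    have h1 : |(s : ℝ) / N + y - round ((s : ℝ) / N + y)| ≤ δ := (mem_filter.1 hs).2
    have h2 : |(t : ℝ) / N + y - round ((t : ℝ) / N + y)| ≤ δ := (mem_filter.1 ht).2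
    have h3 := abs_le.1 h1
    have h4 := abs_le.1 h2
    have h5 : ((f t : ℤ) : ℝ) = N * ((t : ℝ) / N + y - round ((t : ℝ) / N + y)) - N * y := by
      simp only [f]
      push_cast
      field_simp
      ring
    have h6 : ((f s : ℤ) : ℝ) = N * ((s : ℝ) / N + y - round ((s : ℝ) / N + y)) - N * y := by
      simp only [f]
      push_cast
      field_simp
      ring
    rw [h5, h6]
    nlinarith [h3.1, h4.2]

/-- a linear congruence -/
theorem sq_lin (N A : ℕ) (hN : 0 < N) (y δ : ℝ) (hδ : 0 ≤ δ) :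
    (((range N).filter fun n : ℕ => di ((A * n : ℕ) / N + y) ≤ δ).card : ℝ)
      ≤ 2 * δ * N + Nat.gcd A N := by
  set g := Nat.gcd A N with hg
  have hg0 : 0 < g := Nat.gcd_pos_of_pos_right A hN
  obtain ⟨A', hA'⟩ : g ∣ A := Nat.gcd_dvd_left A N
  obtain ⟨N', hN'⟩ : g ∣ N := Nat.gcd_dvd_right A N
  have hN0 : 0 < N' := by
    rcases Nat.eq_zero_or_pos N' with h | h
    · rw [h, mul_zero] at hN'
      omega
    · exact h
  have hco : Nat.Coprime A' N' := by
    have h1 : Nat.gcd (g * A') (g * N') = g := by rw [← hA', ← hN']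
    rw [Nat.gcd_mul_left] at h1
    have h2 : g * Nat.gcd A' N' = g * 1 := by rw [h1, mul_one]
    exact Nat.eq_of_mul_eq_mul_left hg0 h2
  have hgr : (0 : ℝ) < g := by exact_mod_cast hg0
  have hNr : (0 : ℝ) < N' := by exact_mod_cast hN0
  have hred : ∀ n : ℕ, di (((A * n : ℕ) : ℝ) / N + y) = di (((A' * n % N' : ℕ) : ℝ) / N' + y) := by
    intro n
    have h1 := Nat.div_add_mod (A' * n) N'
    have h2 : ((A' * n : ℕ) : ℝ) = N' * ((A' * n / N' : ℕ) : ℝ) + ((A' * n % N' : ℕ) : ℝ) := by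
      exact_mod_cast h1.symm
    have h3 : ((A * n : ℕ) : ℝ) / N = ((A' * n : ℕ) : ℝ) / N' := by
      rw [hA', hN', mul_assoc]
      push_cast
      field_simp
    rw [h3, h2]
    have h4 := di_add_int (((A' * n % N' : ℕ) : ℝ) / N' + y) ((A' * n / N' : ℕ) : ℤ)
    rw [← h4]
    congr 1
    rw [Int.cast_natCast]
    field_simp
    ring
  have h1 : ((range N).filter fun n : ℕ => di ((A * n : ℕ) / N + y) ≤ δ).card ≤
      (range g ×ˢ ((range N').filter fun t : ℕ => di ((t : ℝ) / N' + y) ≤ δ)).card := by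
    apply card_le_card_of_injOn (fun n => (n / N', A' * n % N'))
    · intro n hn
      rw [mem_coe, mem_filter, mem_range] at hn
      rw [mem_coe, mem_product, mem_filter, mem_range, mem_range]
      refine ⟨?_, Nat.mod_lt _ hN0, ?_⟩
      · apply Nat.div_lt_of_lt_mul
        rw [mul_comm, ← hN']
        exact hn.1
      · rw [← hred n]
        exact hn.2
    · intro n _ m _ hnm
      have h2 : n / N' = m / N' := congrArg Prod.fst hnm
      have h3 : A' * n % N' = A' * m % N' := congrArg Prod.snd hnm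
      have h4 : n ≡ m [MOD N'] := Nat.ModEq.cancel_left_of_coprime
        (by rw [Nat.gcd_comm]; exact hco) h3
      have h5 := Nat.div_add_mod n N'
      have h6 := Nat.div_add_mod m N'
      unfold Nat.ModEq at h4
      rw [← h5, ← h6, h2, h4]
  rw [card_product, card_range] at h1
  have h2 := sq_equi N' hN0 y δ hδ
  have h3 : (((range N).filter fun n : ℕ => di ((A * n : ℕ) / N + y) ≤ δ).card : ℝ) ≤
      g * ((((range N').filter fun t : ℕ => di ((t : ℝ) / N' + y) ≤ δ).card : ℕ) : ℝ) := by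
    exact_mod_cast h1
  refine h3.trans ((mul_le_mul_of_nonneg_left h2 hgr.le).trans_eq ?_)
  rw [hN']
  push_cast
  ring

/-- the sum of the greatest common divisors -/
theorem sq_gcd (β : ℕ) : ∑ h ∈ Ico 1 (2 ^ β), Nat.gcd h (2 ^ β) ≤ β * 2 ^ β := by
  have h1 : ∀ h ∈ Ico 1 (2 ^ β), Nat.gcd h (2 ^ β) ≤ ∑ i ∈ range β, if 2 ^ i ∣ h then 2 ^ i else 0 := by
    intro h hh
    rw [mem_Ico] at hh
    obtain ⟨i, hi, h2⟩ := (Nat.dvd_prime_pow Nat.prime_two).1 (Nat.gcd_dvd_right h (2 ^ β))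
    have h3 : 2 ^ i ∣ h := h2 ▸ Nat.gcd_dvd_left h (2 ^ β)
    have h4 : i < β := by
      have h5 := Nat.le_of_dvd (by omega) h3
      exact (Nat.pow_lt_pow_iff_right (by norm_num)).1 (h5.trans_lt hh.2)
    rw [h2]
    have h5 := single_le_sum (f := fun i => if 2 ^ i ∣ h then 2 ^ i else 0)
      (fun _ _ => Nat.zero_le _) (mem_range.2 h4)
    simpa [h3] using h5
  calc ∑ h ∈ Ico 1 (2 ^ β), Nat.gcd h (2 ^ β)
      ≤ ∑ h ∈ Ico 1 (2 ^ β), ∑ i ∈ range β, (if 2 ^ i ∣ h then 2 ^ i else 0) := sum_le_sum h1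
    _ = ∑ i ∈ range β, ∑ h ∈ Ico 1 (2 ^ β), (if 2 ^ i ∣ h then 2 ^ i else 0) := sum_comm
    _ ≤ ∑ i ∈ range β, 2 ^ β := by
        apply sum_le_sum
        intro i hi
        rw [mem_range] at hi
        rw [← sum_filter, sum_const, smul_eq_mul]
        have h2 : ((Ico 1 (2 ^ β)).filter fun h => 2 ^ i ∣ h).card ≤ 2 ^ (β - i) := by
          have h3 : (Ico 1 (2 ^ β)).filter (fun h => 2 ^ i ∣ h) ⊆
              (range (2 ^ (β - i))).image fun x => 2 ^ i * x := by
            intro h hh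
            rw [mem_filter, mem_Ico] at hh
            obtain ⟨x, hx⟩ := hh.2
            rw [mem_image]
            refine ⟨x, ?_, hx.symm⟩
            rw [mem_range]
            have h4 : 2 ^ i * x < 2 ^ i * 2 ^ (β - i) := by
              rw [← pow_add, ← hx, show i + (β - i) = β by omega]
              exact hh.1.2
            exact lt_of_mul_lt_mul_left h4 (Nat.zero_le _)
          refine (card_le_card h3).trans (card_image_le.trans ?_)
          rw [card_range]
        calc _ ≤ 2 ^ (β - i) * 2 ^ i := Nat.mul_le_mul_right _ h2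
          _ = 2 ^ β := by rw [← pow_add]; congr 1; omega
    _ = β * 2 ^ β := by rw [sum_const, card_range, smul_eq_mul]

theorem sq_count (a b c m0 β : ℕ) (ha : 1 ≤ a) (hm : 1 ≤ m0) (δ : ℝ) (hδ : 0 ≤ δ) :
    (((range (2 ^ β)).filter fun n : ℕ => di (m0 * P1 a b c n / 2 ^ β) ≤ δ).card : ℝ)
      ≤ 2 ^ β * √(4 * δ + (6 * a * m0 * β + 1) / 2 ^ β) := by
  set N := 2 ^ β with hN
  have hN0 : 0 < N := Nat.pos_of_ne_zero (by positivity)
  have hNr : (0 : ℝ) < N := by exact_mod_cast hN0
  have hNc : ((2 : ℝ) ^ β) = (N : ℝ) := by rw [hN]; push_cast; rfl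
  rw [hNc]
  let p : ℕ → Prop := fun n => di ((m0 : ℝ) * P1 a b c n / N) ≤ δ
  have hper : Function.Periodic p N := by
    intro n
    simp only [p]
    rw [P1_add]
    have h1 := di_add_int ((m0 : ℝ) * P1 a b c n / N)
      (m0 * (2 * P2 a b n + 3 * a * N) : ℕ)
    have h2 : (m0 : ℝ) * ((P1 a b c n + 2 * N * P2 a b n + 3 * a * N ^ 2 : ℕ) : ℝ) / N =
        (m0 : ℝ) * P1 a b c n / N + (((m0 * (2 * P2 a b n + 3 * a * N) : ℕ) : ℤ) : ℝ) := by
      push_cast
      field_simp
      ring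
    rw [h2, h1]
  set S := (range N).filter p with hS
  have hcount : ∀ n, ((range N).filter fun h => p (n + h)).card = S.card := by
    intro n
    have h1 := Nat.filter_Ico_card_eq_of_periodic n N p hper
    have h2 := Nat.filter_Ico_card_eq_of_periodic 0 N p hper
    have h3 : ((range N).filter fun h => p (n + h)).card = ((Ico n (n + N)).filter p).card := by
      apply card_bij (fun h _ => n + h)
      · intro h hh
        rw [mem_filter, mem_range] at hh
        rw [mem_filter, mem_Ico]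
        exact ⟨⟨by omega, by omega⟩, hh.2⟩
      · intro h _ h' _ he
        omega
      · intro x hx
        rw [mem_filter, mem_Ico] at hx
        refine ⟨x - n, ?_, by omega⟩
        rw [mem_filter, mem_range]
        refine ⟨by omega, ?_⟩
        rw [show n + (x - n) = x by omega]
        exact hx.2
    rw [h3, h1, hS, range_eq_Ico, ← h2, zero_add]
  -- second moment
  have hsq : (S.card : ℝ) * S.card = ∑ h ∈ range N, ((S.filter fun n => p (n + h)).card : ℝ) := by
    have h1 : S.card * S.card = ∑ h ∈ range N, (S.filter fun n => p (n + h)).card := by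
      calc S.card * S.card = ∑ n ∈ S, ((range N).filter fun h => p (n + h)).card := by
            rw [sum_congr rfl (fun n _ => hcount n), sum_const, smul_eq_mul]
        _ = ∑ n ∈ S, ∑ h ∈ range N, (if p (n + h) then 1 else 0) := by
            apply sum_congr rfl
            intro n _
            rw [card_filter]
        _ = ∑ h ∈ range N, ∑ n ∈ S, (if p (n + h) then 1 else 0) := sum_comm
        _ = _ := by
            apply sum_congr rfl
            intro h _
            rw [card_filter]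
    exact_mod_cast h1
  have hoff : ∀ h ∈ Ico 1 N, ((S.filter fun n => p (n + h)).card : ℝ) ≤
      4 * δ * N + 6 * a * m0 * (Nat.gcd h N : ℝ) := by
    intro h hh
    have h1 : (S.filter fun n => p (n + h)).card ≤ ((range N).filter fun n : ℕ =>
        di (((6 * a * m0 * h * n : ℕ) : ℝ) / N + (m0 * h * (3 * a * h + 2 * b) : ℝ) / N)
          ≤ 2 * δ).card := by
      apply card_le_card
      intro n hn
      rw [hS, mem_filter, mem_filter] at hn
      rw [mem_filter]
      refine ⟨hn.1.1, ?_⟩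
      have h2 : di ((m0 : ℝ) * P1 a b c n / N) ≤ δ := hn.1.2
      have h3 : di ((m0 : ℝ) * P1 a b c (n + h) / N) ≤ δ := hn.2
      have h4 := di_sub ((m0 : ℝ) * P1 a b c (n + h) / N) ((m0 : ℝ) * P1 a b c n / N)
      have h5 : (m0 : ℝ) * P1 a b c (n + h) / N - (m0 : ℝ) * P1 a b c n / N =
          ((6 * a * m0 * h * n : ℕ) : ℝ) / N + (m0 * h * (3 * a * h + 2 * b) : ℝ) / N := by
        unfold P1
        push_cast
        field_simp
        ring
      rw [h5] at h4
      linarith
    have h2 := sq_lin N (6 * a * m0 * h) hN0 ((m0 * h * (3 * a * h + 2 * b) : ℝ) / N) (2 * δ)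
      (by linarith)
    have h3 : Nat.gcd (6 * a * m0 * h) N ≤ 6 * a * m0 * Nat.gcd h N := by
      have h4 : Nat.gcd (6 * a * m0 * h) N ∣ Nat.gcd (6 * a * m0) N * Nat.gcd h N :=
        Nat.gcd_mul_left_dvd_mul_gcd _ _ _
      have hh' := mem_Ico.1 hh
      have h5 : 0 < Nat.gcd (6 * a * m0) N := Nat.gcd_pos_of_pos_right _ hN0
      have h6 : 0 < Nat.gcd h N := Nat.gcd_pos_of_pos_right _ hN0
      refine (Nat.le_of_dvd (Nat.mul_pos h5 h6) h4).trans ?_
      apply Nat.mul_le_mul_right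
      apply Nat.gcd_le_left
      have : 0 < a * m0 := Nat.mul_pos ha hm
      rw [mul_assoc]
      omega
    have h4 : ((Nat.gcd (6 * a * m0 * h) N : ℕ) : ℝ) ≤ 6 * a * m0 * (Nat.gcd h N : ℝ) := by
      exact_mod_cast h3
    have h5 : ((S.filter fun n => p (n + h)).card : ℝ) ≤ _ := Nat.cast_le.2 h1
    refine h5.trans (h2.trans ?_)
    linarith
  have hS0 : (S.card : ℝ) ≤ N := by
    have := card_filter_le (range N) p
    rw [card_range] at this
    exact_mod_cast this
  have hmain : (S.card : ℝ) * S.card ≤ N * N * (4 * δ + (6 * a * m0 * β + 1) / N) := by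
    rw [hsq, range_eq_Ico, sum_eq_sum_Ico_succ_bot hN0]
    have h1 : ((S.filter fun n => p (n + 0)).card : ℝ) ≤ N :=
      (Nat.cast_le.2 (card_filter_le S _)).trans hS0
    have h2 : ∑ h ∈ Ico (0 + 1) N, ((S.filter fun n => p (n + h)).card : ℝ) ≤
        ∑ h ∈ Ico 1 N, (4 * δ * N + 6 * a * m0 * (Nat.gcd h N : ℝ)) := sum_le_sum hoff
    have h3 : ∑ h ∈ Ico 1 N, (4 * δ * N + 6 * a * m0 * (Nat.gcd h N : ℝ)) =
        ((N - 1 : ℕ) : ℝ) * (4 * δ * N) + 6 * a * m0 * ((∑ h ∈ Ico 1 N, Nat.gcd h N : ℕ) : ℝ) := by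
      rw [sum_add_distrib, sum_const, Nat.card_Ico, nsmul_eq_mul, ← mul_sum]
      push_cast
      rfl
    have h4 : ((∑ h ∈ Ico 1 N, Nat.gcd h N : ℕ) : ℝ) ≤ β * N := by
      have := sq_gcd β
      rw [← hN] at this
      exact_mod_cast this
    have h5 : ((N - 1 : ℕ) : ℝ) ≤ N := by exact_mod_cast Nat.sub_le _ _
    have h6 : ((N - 1 : ℕ) : ℝ) * (4 * δ * N) ≤ N * (4 * δ * N) :=
      mul_le_mul_of_nonneg_right h5 (by positivity)
    have h7 : 6 * (a : ℝ) * m0 * ((∑ h ∈ Ico 1 N, Nat.gcd h N : ℕ) : ℝ) ≤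
        6 * a * m0 * (β * N) := mul_le_mul_of_nonneg_left h4 (by positivity)
    have h8 : (N : ℝ) * N * (4 * δ + (6 * a * m0 * β + 1) / N) =
        N * (4 * δ * N) + 6 * a * m0 * (β * N) + N := by
      field_simp
      ring
    rw [h8]
    linarith
  have h1 : (S.card : ℝ) ≤ √(N * N * (4 * δ + (6 * a * m0 * β + 1) / N)) := by
    apply Real.le_sqrt_of_sq_le
    rw [sq]
    exact hmain
  refine h1.trans_eq ?_
  rw [Real.sqrt_mul (by positivity), Real.sqrt_mul_self hNr.le]

end Pool.Agent.Lib.MP_8fac0f_nt.C3
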