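import Pool.Agent.Lib.MP_8fac0f_nt.C3.Defs
import Pool.Agent.Lib.MP_8fac0f_nt.N.A

/-!
# The Weyl criterion for boxes in several dimensions

Majorants by products of grid averages of the Fejer kernel; the lower bound follows from the upper
bounds for all the other boxes.
-/

set_option autoImplicit false

namespace Pool.Agent.Lib.MP_8fac0f_nt.C3

open Finset Filter Topology
open Pool.Agent.Lib.MP_8fac0f_nt.N (A_E A_K A_K_nonneg A_K_expand A_K_small A_grid A_E_add
  A_E_add_int A_E_norm A_E_zero)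

theorem WC_E (x : ℝ) : A_E x = ex x := rfl

theorem WC_K_add_int (H : ℕ) (x : ℝ) (n : ℤ) : A_K H (x + n) = A_K H x := by
  unfold A_K
  congr 2
  refine Finset.sum_congr rfl fun h _ => ?_
  have : (h : ℝ) * (x + n) = h * x + ((h * n : ℤ) : ℝ) := by push_cast; ring
  rw [this, A_E_add_int]

theorem WC_K_small (H : ℕ) (x η : ℝ) (hη : 0 < η) (h : η ≤ di x) :
    A_K H x ≤ 1 / (4 * η ^ 2) := by
  have h1 := di_le x ⌈x⌉
  have h2 := di_le x (⌈x⌉ - 1)
  have h3 := Int.le_ceil x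
  have h4 := Int.ceil_lt_add_one x
  push_cast at h2
  have h5 : A_K H x = A_K H (x - ⌈x⌉) := by
    have := WC_K_add_int H x (-⌈x⌉)
    push_cast at this
    rw [← this]
    rfl
  rw [h5]
  apply A_K_small H _ η hη
  · rw [abs_of_nonneg (by linarith)] at h2
    linarith
  · rw [abs_of_nonpos (by linarith)] at h1
    linarith

/-- a sum of products of kernels -/
theorem WC_prodK {ι : Type} [Fintype ι] [DecidableEq ι] (H : ℕ) (I : Finset ℕ) (θ : ℕ → ι → ℝ)
    (ε0 : ℝ) (hε0 : 0 ≤ ε0) (hyp : ∀ ξ : ι → ℤ, ξ ≠ 0 → (∀ i, |ξ i| ≤ H) →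
        ‖∑ v ∈ I, ex (∑ i, (ξ i : ℝ) * θ v i)‖ ≤ ε0 * I.card) (y : ι → ℝ) :
    ∑ v ∈ I, ∏ i, A_K H (θ v i - y i) ≤
      ((H : ℝ) ^ Fintype.card ι + (H : ℝ) ^ (2 * Fintype.card ι) * ε0) * I.card := by
  classical
  set FF := Fintype.piFinset (fun _ : ι => range H ×ˢ range H) with hFF
  have e1 : ((∑ v ∈ I, ∏ i, A_K H (θ v i - y i) : ℝ) : ℂ) =
      ∑ f ∈ FF, ex (-∑ i, (((f i).1 : ℝ) - (f i).2) * y i) *
        ∑ v ∈ I, ex (∑ i, ((((f i).1 : ℤ) - (f i).2 : ℤ) : ℝ) * θ v i) := by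
    push_cast
    have e2 : ∀ v ∈ I, ∏ i, ((A_K H (θ v i - y i) : ℝ) : ℂ) =
        ∑ f ∈ FF, ex (-∑ i, (((f i).1 : ℝ) - (f i).2) * y i) *
          ex (∑ i, ((((f i).1 : ℤ) - (f i).2 : ℤ) : ℝ) * θ v i) := by
      intro v _
      have e3 : ∀ i, ((A_K H (θ v i - y i) : ℝ) : ℂ) =
          ∑ hh ∈ range H ×ˢ range H, ex (((hh.1 : ℝ) - hh.2) * (θ v i - y i)) := by
        intro i
        rw [A_K_expand, Finset.sum_product]
        rfl
      rw [Finset.prod_congr rfl fun i _ => e3 i, Finset.prod_univ_sum]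
      refine Finset.sum_congr rfl fun f _ => ?_
      have e4 : ∀ s : Finset ι, ∏ i ∈ s, ex ((((f i).1 : ℝ) - (f i).2) * (θ v i - y i)) =
          ex (∑ i ∈ s, (((f i).1 : ℝ) - (f i).2) * (θ v i - y i)) := by
        intro s
        induction s using Finset.induction_on with
        | empty => simp [ex_zero]
        | insert a s ha ih => rw [Finset.prod_insert ha, Finset.sum_insert ha, ex_add, ih]
      rw [e4, ← ex_add]
      congr 1
      rw [← Finset.sum_neg_distrib, ← Finset.sum_add_distrib]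
      refine Finset.sum_congr rfl fun i _ => ?_
      push_cast
      ring
    rw [Finset.sum_congr rfl e2, Finset.sum_comm]
    refine Finset.sum_congr rfl fun f _ => ?_
    rw [Finset.mul_sum]
    simp
  have hnn : 0 ≤ ∑ v ∈ I, ∏ i, A_K H (θ v i - y i) :=
    Finset.sum_nonneg fun v _ => Finset.prod_nonneg fun i _ => A_K_nonneg _ _
  have e5 : ∑ v ∈ I, ∏ i, A_K H (θ v i - y i) ≤
      ∑ f ∈ FF, ‖∑ v ∈ I, ex (∑ i, ((((f i).1 : ℤ) - (f i).2 : ℤ) : ℝ) * θ v i)‖ := by
    have h1 : ‖((∑ v ∈ I, ∏ i, A_K H (θ v i - y i) : ℝ) : ℂ)‖ =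
        ∑ v ∈ I, ∏ i, A_K H (θ v i - y i) := by
      rw [Complex.norm_real, Real.norm_of_nonneg hnn]
    rw [← h1, e1]
    refine (norm_sum_le _ _).trans (Finset.sum_le_sum fun f _ => ?_)
    rw [norm_mul, norm_ex, one_mul]
  refine e5.trans ?_
  set ξ : (ι → ℕ × ℕ) → ι → ℤ := fun f i => ((f i).1 : ℤ) - (f i).2 with hξ
  have e6 : ∀ f ∈ FF, ‖∑ v ∈ I, ex (∑ i, ((((f i).1 : ℤ) - (f i).2 : ℤ) : ℝ) * θ v i)‖ ≤
      (if ξ f = 0 then (1 : ℝ) else 0) * I.card + ε0 * I.card := by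
    intro f hf
    rw [hFF, Fintype.mem_piFinset] at hf
    have hc0 : 0 ≤ ε0 * (I.card : ℝ) := by positivity
    split_ifs with h
    · refine (norm_sum_le _ _).trans ?_
      simp only [norm_ex, Finset.sum_const, nsmul_eq_mul, mul_one, one_mul]
      linarith
    · rw [zero_mul, zero_add]
      apply hyp (ξ f) h
      intro i
      have := hf i
      rw [Finset.mem_product, mem_range, mem_range] at this
      simp only [hξ]
      rw [abs_le]
      constructor <;> omega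
  refine (Finset.sum_le_sum e6).trans ?_
  rw [Finset.sum_add_distrib, ← Finset.sum_mul, Finset.sum_const, nsmul_eq_mul]
  have e7 : ∑ f ∈ FF, (if ξ f = 0 then (1 : ℝ) else 0) ≤ (H : ℝ) ^ Fintype.card ι := by
    rw [Finset.sum_boole]
    have h1 : FF.filter (fun f => ξ f = 0) ⊆ Fintype.piFinset (fun _ : ι => (range H).diag) := by
      intro f hf
      rw [Finset.mem_filter, hFF, Fintype.mem_piFinset] at hf
      rw [Fintype.mem_piFinset]
      intro i
      have h2 := hf.1 i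
      rw [Finset.mem_product] at h2
      rw [Finset.mem_diag]
      refine ⟨h2.1, ?_⟩
      have h3 := congrFun hf.2 i
      simp only [hξ, Pi.zero_apply] at h3
      omega
    have h2 := Finset.card_le_card h1
    rw [Fintype.card_piFinset] at h2
    simp only [Finset.diag_card, card_range, Finset.prod_const, Finset.card_univ] at h2
    exact_mod_cast h2
  have e8 : (FF.card : ℝ) = (H : ℝ) ^ (2 * Fintype.card ι) := by
    rw [hFF, Fintype.card_piFinset]
    simp only [Finset.card_product, card_range, Finset.prod_const, Finset.card_univ]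
    push_cast
    rw [pow_mul, pow_two]
  rw [e8]
  have hI : (0 : ℝ) ≤ I.card := Nat.cast_nonneg _
  nlinarith [mul_le_mul_of_nonneg_right e7 hI]

/-- number of grid points in an arc -/
theorem WC_arc (N : ℕ) (hN : 0 < N) (y r : ℝ) (hr : 0 ≤ r) :
    (((range N).filter fun j : ℕ => di (j / N - y) ≤ r).card : ℝ) ≤ 2 * r * N + 1 := by
  have hN' : (0 : ℝ) < N := by exact_mod_cast hN
  have h1 : ((range N).filter fun j : ℕ => di (j / N - y) ≤ r).card ≤
      (Icc ⌈(N : ℝ) * (y - r)⌉ ⌊(N : ℝ) * (y + r)⌋).card := by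
    apply Finset.card_le_card_of_injOn
      (fun j : ℕ => (j : ℤ) - N * round ((j : ℝ) / N - y))
    · intro j hj
      rw [Finset.mem_coe, Finset.mem_filter] at hj
      rw [Finset.mem_coe, Finset.mem_Icc]
      have h2 := hj.2
      unfold di at h2
      rw [abs_le] at h2
      constructor
      · rw [Int.ceil_le]
        push_cast
        have h3 : (N : ℝ) * (-r) ≤ N * ((j : ℝ) / N - y - round ((j : ℝ) / N - y)) :=
          mul_le_mul_of_nonneg_left h2.1 hN'.le
        have h4 : (N : ℝ) * ((j : ℝ) / N - y - round ((j : ℝ) / N - y)) =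
            j - N * y - N * round ((j : ℝ) / N - y) := by field_simp
        rw [h4] at h3
        linarith
      · rw [Int.le_floor]
        push_cast
        have h3 : (N : ℝ) * ((j : ℝ) / N - y - round ((j : ℝ) / N - y)) ≤ N * r :=
          mul_le_mul_of_nonneg_left h2.2 hN'.le
        have h4 : (N : ℝ) * ((j : ℝ) / N - y - round ((j : ℝ) / N - y)) =
            j - N * y - N * round ((j : ℝ) / N - y) := by field_simp
        rw [h4] at h3
        linarith
    · intro j hj j' hj' hjj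
      rw [Finset.mem_coe, Finset.mem_filter, mem_range] at hj hj'
      simp only at hjj
      have h2 : (j : ℤ) % N = (j' : ℤ) % N := by
        have h3 : (j : ℤ) = j' + N * (round ((j : ℝ) / N - y) - round ((j' : ℝ) / N - y)) := by
          linarith
        rw [h3, Int.add_mul_emod_self_left]
      rw [Int.emod_eq_of_lt (by positivity) (by exact_mod_cast hj.1),
        Int.emod_eq_of_lt (by positivity) (by exact_mod_cast hj'.1)] at h2
      exact_mod_cast h2
  have h2 : ((Icc ⌈(N : ℝ) * (y - r)⌉ ⌊(N : ℝ) * (y + r)⌋).card : ℝ) ≤ 2 * r * N + 1 := by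
    rw [Int.card_Icc]
    have h3 := Int.le_ceil ((N : ℝ) * (y - r))
    have h4 := Int.floor_le ((N : ℝ) * (y + r))
    rcases le_total 0 (⌊(N : ℝ) * (y + r)⌋ + 1 - ⌈(N : ℝ) * (y - r)⌉) with h | h
    · have h5 : (((⌊(N : ℝ) * (y + r)⌋ + 1 - ⌈(N : ℝ) * (y - r)⌉).toNat : ℕ) : ℝ) =
          (⌊(N : ℝ) * (y + r)⌋ : ℝ) + 1 - ⌈(N : ℝ) * (y - r)⌉ := by
        have := Int.toNat_of_nonneg h
        have h6 : (((⌊(N : ℝ) * (y + r)⌋ + 1 - ⌈(N : ℝ) * (y - r)⌉).toNat : ℤ) : ℝ) =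
          ((⌊(N : ℝ) * (y + r)⌋ + 1 - ⌈(N : ℝ) * (y - r)⌉ : ℤ) : ℝ) := by rw [this]
        push_cast at h6
        exact h6
      rw [h5]
      linarith
    · rw [Int.toNat_of_nonpos h]
      push_cast
      positivity
  calc _ ≤ ((Icc ⌈(N : ℝ) * (y - r)⌉ ⌊(N : ℝ) * (y + r)⌋).card : ℝ) := by exact_mod_cast h1
    _ ≤ _ := h2

/-- the cell of a real number -/
noncomputable def WC_cell (L : ℕ) (x : ℝ) : ℕ := (⌊(L : ℝ) * x⌋ % (L : ℤ)).toNat

theorem WC_cell_lt (L : ℕ) (hL : 0 < L) (x : ℝ) : WC_cell L x < L := by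
  unfold WC_cell
  have h1 : (0 : ℤ) < L := by exact_mod_cast hL
  have h2 := Int.emod_nonneg ⌊(L : ℝ) * x⌋ h1.ne'
  have h3 := Int.emod_lt_of_pos ⌊(L : ℝ) * x⌋ h1
  omega

theorem WC_cell_di (L : ℕ) (hL : 0 < L) (x : ℝ) :
    di (x - (WC_cell L x + 1 / 2) / L) ≤ 1 / (2 * L) := by
  have hL' : (0 : ℝ) < L := by exact_mod_cast hL
  have h1 : (0 : ℤ) < L := by exact_mod_cast hL
  have h2 := Int.emod_nonneg ⌊(L : ℝ) * x⌋ h1.ne'
  have h3 : ((WC_cell L x : ℕ) : ℤ) = ⌊(L : ℝ) * x⌋ - L * (⌊(L : ℝ) * x⌋ / L) := by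
    unfold WC_cell
    rw [Int.toNat_of_nonneg h2, Int.emod_def]
  have h4 : ((WC_cell L x : ℕ) : ℝ) = ⌊(L : ℝ) * x⌋ - L * ((⌊(L : ℝ) * x⌋ / (L : ℤ) : ℤ) : ℝ) := by
    exact_mod_cast h3
  refine (di_le _ (⌊(L : ℝ) * x⌋ / (L : ℤ))).trans ?_
  rw [h4]
  have h5 := Int.floor_le ((L : ℝ) * x)
  have h6 := Int.lt_floor_add_one ((L : ℝ) * x)
  have h7 : x - (⌊(L : ℝ) * x⌋ - L * ((⌊(L : ℝ) * x⌋ / (L : ℤ) : ℤ) : ℝ) + 1 / 2) / L -
      ((⌊(L : ℝ) * x⌋ / (L : ℤ) : ℤ) : ℝ) = ((L : ℝ) * x - ⌊(L : ℝ) * x⌋ - 1 / 2) / L := by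
    field_simp
    ring
  rw [h7, abs_div, abs_of_pos hL', div_le_div_iff₀ hL' (by positivity)]
  have h8 : |(L : ℝ) * x - ⌊(L : ℝ) * x⌋ - 1 / 2| ≤ 1 / 2 := by
    rw [abs_le]
    constructor <;> linarith
  nlinarith

/-- upper bound for the number of points in a cell -/
theorem WC_upper {ι : Type} [Fintype ι] [DecidableEq ι] (L : ℕ) (hL : 0 < L) (ε1 : ℝ)
    (hε1 : 0 < ε1) : ∃ (Ξ : ℕ) (ε0 : ℝ), 0 < ε0 ∧ ∀ (I : Finset ℕ) (θ : ℕ → ι → ℝ),
      (∀ ξ : ι → ℤ, ξ ≠ 0 → (∀ i, |ξ i| ≤ Ξ) →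
        ‖∑ v ∈ I, ex (∑ i, (ξ i : ℝ) * θ v i)‖ ≤ ε0 * I.card) →
      ∀ p : ι → ℕ, ((I.filter fun v => (fun i => WC_cell L (θ v i)) = p).card : ℝ) ≤
        (1 + ε1) * I.card / (L : ℝ) ^ Fintype.card ι := by
  set n := Fintype.card ι with hn
  have hL' : (0 : ℝ) < L := by exact_mod_cast hL
  obtain ⟨ε2, hε2, hε21⟩ : ∃ ε2 : ℝ, 0 < ε2 ∧ (1 + ε2) * (1 + ε2) ≤ 1 + ε1 := by
    refine ⟨min (ε1 / 3) 1, by positivity, ?_⟩
    have h1 := min_le_left (ε1 / 3) 1
    have h2 := min_le_right (ε1 / 3) 1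
    have h3 : 0 < min (ε1 / 3) 1 := by positivity
    nlinarith
  have hlim : Tendsto (fun m : ℕ => ((1 + 3 / (m : ℝ)) / (1 - 1 / (m : ℝ))) ^ n) atTop
      (𝓝 (((1 + 0) / (1 - 0)) ^ n)) := by
    apply Tendsto.pow
    apply Tendsto.div
    · exact tendsto_const_nhds.add (tendsto_const_div_atTop_nhds_zero_nat 3)
    · exact tendsto_const_nhds.sub (tendsto_const_div_atTop_nhds_zero_nat 1)
    · norm_num
  have h1 : ((1 + 0 : ℝ) / (1 - 0)) ^ n = 1 := by norm_num
  rw [h1] at hlim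
  obtain ⟨m, hm1, hm2⟩ := ((hlim.eventually (gt_mem_nhds (show (1 : ℝ) < 1 + ε2 by linarith))).and
    (eventually_ge_atTop 2)).exists
  have hm0 : (2 : ℝ) ≤ m := by exact_mod_cast hm2
  set H : ℕ := L ^ 2 * m ^ 3 with hH
  have hHpos : 0 < H := by positivity
  have hH' : (0 : ℝ) < H := by exact_mod_cast hHpos
  set N : ℕ := L * m * H with hN
  have hNpos : 0 < N := by positivity
  have hN' : (0 : ℝ) < N := by exact_mod_cast hNpos
  have hHN : H ≤ N := by
    rw [hN]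
    exact Nat.le_mul_of_pos_left _ (by positivity)
  set η : ℝ := 1 / (L * m) with hη
  have hη0 : 0 < η := by positivity
  refine ⟨H, ε2 / (H : ℝ) ^ n, by positivity, fun I θ hyp p => ?_⟩
  -- the set of grid points
  set J : ℕ → Finset ℕ := fun q =>
    (range N).filter fun j : ℕ => di (j / N - (q + 1 / 2) / L) ≤ 1 / (2 * L) + η with hJ
  have hJcard : ∀ q, ((J q).card : ℝ) ≤ (m + 3) * H := by
    intro q
    have h2 := WC_arc N hNpos ((q + 1 / 2) / L) (1 / (2 * L) + η) (by positivity)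
    have h3 : 2 * (1 / (2 * L) + η) * (N : ℝ) = (m + 2) * H := by
      rw [hη, hN]
      push_cast
      field_simp
    rw [h3] at h2
    have h4 : (1 : ℝ) ≤ H := by exact_mod_cast hHpos
    calc ((J q).card : ℝ) ≤ (m + 2) * H + 1 := h2
      _ ≤ _ := by linarith
  set T : ℕ → ℝ → ℝ := fun q x => (∑ j ∈ J q, A_K H (x - j / N)) / (N * H * (1 - 1 / m)) with hT
  have hm1' : (0 : ℝ) < 1 - 1 / m := by
    have : (1 : ℝ) / m ≤ 1 / 2 := one_div_le_one_div_of_le (by norm_num) hm0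
    linarith
  have hT0 : ∀ q x, 0 ≤ T q x := by
    intro q x
    simp only [hT]
    apply div_nonneg (Finset.sum_nonneg fun j _ => A_K_nonneg _ _)
    positivity
  have hT1 : ∀ x, 1 ≤ T (WC_cell L x) x := by
    intro x
    simp only [hT]
    rw [le_div_iff₀ (by positivity), one_mul]
    have h2 := A_grid N H hNpos hHN x
    have h3 : ∑ j ∈ (range N) \ J (WC_cell L x), A_K H (x - j / N) ≤ N * (1 / (4 * η ^ 2)) := by
      calc _ ≤ ∑ j ∈ (range N) \ J (WC_cell L x), 1 / (4 * η ^ 2) := by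
            refine Finset.sum_le_sum fun j hj => ?_
            rw [Finset.mem_sdiff] at hj
            apply WC_K_small H _ η hη0
            by_contra hcon
            push Not at hcon
            apply hj.2
            simp only [hJ]
            rw [Finset.mem_filter]
            refine ⟨hj.1, ?_⟩
            have h4 := WC_cell_di L hL x
            have h5 := di_sub (x - (WC_cell L x + 1 / 2) / L) (x - j / N)
            have h6 : x - (WC_cell L x + 1 / 2) / L - (x - j / N) =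
                (j / N - ((WC_cell L x : ℝ) + 1 / 2) / L) := by ring
            rw [h6] at h5
            linarith
        _ = (((range N) \ J (WC_cell L x)).card : ℝ) * (1 / (4 * η ^ 2)) := by
            rw [Finset.sum_const, nsmul_eq_mul]
        _ ≤ _ := by
            apply mul_le_mul_of_nonneg_right _ (by positivity)
            have := Finset.card_le_card (Finset.sdiff_subset (s := range N)
              (t := J (WC_cell L x)))
            rw [card_range] at this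
            exact_mod_cast this
    have h4 : J (WC_cell L x) ⊆ range N := Finset.filter_subset _ _
    have h5 := Finset.sum_sdiff h4 (f := fun j : ℕ => A_K H (x - j / N))
    have h6 : (N : ℝ) * (1 / (4 * η ^ 2)) ≤ N * H * (1 / m) := by
      have h7 : 1 / (4 * η ^ 2) = (L : ℝ) ^ 2 * m ^ 2 / 4 := by
        rw [hη]
        field_simp
      have h8 : (H : ℝ) * (1 / m) = (L : ℝ) ^ 2 * m ^ 2 := by
        rw [hH]
        push_cast
        field_simp
      rw [h7, mul_assoc, h8]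
      apply mul_le_mul_of_nonneg_left _ hN'.le
      have : 0 ≤ (L : ℝ) ^ 2 * m ^ 2 := by positivity
      linarith
    have h7 : (N : ℝ) * H * (1 - 1 / m) = N * H - N * H * (1 / m) := by ring
    rw [h7]
    linarith
  -- count
  have hcount : ((I.filter fun v => (fun i => WC_cell L (θ v i)) = p).card : ℝ) ≤
      ∑ v ∈ I, ∏ i, T (p i) (θ v i) := by
    rw [Finset.card_filter]
    push_cast
    refine Finset.sum_le_sum fun v _ => ?_
    split_ifs with h
    · rw [← h]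
      rw [← Finset.prod_const_one (s := (Finset.univ : Finset ι))]
      exact Finset.prod_le_prod (fun _ _ => zero_le_one) fun i _ => hT1 _
    · exact Finset.prod_nonneg fun i _ => hT0 _ _
  refine hcount.trans ?_
  set cc : ℝ := 1 / (N * H * (1 - 1 / m)) with hcc
  have hcc0 : 0 < cc := by positivity
  have hexp : ∑ v ∈ I, ∏ i, T (p i) (θ v i) =
      cc ^ n * ∑ f ∈ Fintype.piFinset (fun i => J (p i)),
        ∑ v ∈ I, ∏ i, A_K H (θ v i - (f i : ℝ) / N) := by
    rw [Finset.sum_comm, Finset.mul_sum]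
    refine Finset.sum_congr rfl fun v _ => ?_
    have h2 : ∀ i, T (p i) (θ v i) = cc * ∑ j ∈ J (p i), A_K H (θ v i - j / N) := by
      intro i
      simp only [hT, hcc]
      ring
    rw [Finset.prod_congr rfl fun i _ => h2 i, Finset.prod_mul_distrib, Finset.prod_const,
      Finset.card_univ, ← hn, Finset.prod_univ_sum]
  rw [hexp]
  have hbd : ∑ f ∈ Fintype.piFinset (fun i => J (p i)),
        ∑ v ∈ I, ∏ i, A_K H (θ v i - (f i : ℝ) / N) ≤
      (((m : ℝ) + 3) * H) ^ n * ((H : ℝ) ^ n * (1 + ε2) * I.card) := by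
    have h2 : ∀ f ∈ Fintype.piFinset (fun i => J (p i)),
        ∑ v ∈ I, ∏ i, A_K H (θ v i - (f i : ℝ) / N) ≤ (H : ℝ) ^ n * (1 + ε2) * I.card := by
      intro f _
      refine (WC_prodK H I θ (ε2 / (H : ℝ) ^ n) (by positivity) hyp
        (fun i => (f i : ℝ) / N)).trans (le_of_eq ?_)
      have h3 : (H : ℝ) ^ (2 * n) = (H : ℝ) ^ n * (H : ℝ) ^ n := by
        rw [two_mul, pow_add]
      have h4 : (0 : ℝ) < (H : ℝ) ^ n := by positivity
      rw [← hn, h3]
      field_simp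
      try ring
    refine (Finset.sum_le_sum h2).trans ?_
    rw [Finset.sum_const, nsmul_eq_mul]
    apply mul_le_mul_of_nonneg_right _ (by positivity)
    rw [Fintype.card_piFinset]
    push_cast
    calc ∏ i, ((J (p i)).card : ℝ) ≤ ∏ _i : ι, (((m : ℝ) + 3) * H) :=
          Finset.prod_le_prod (fun _ _ => by positivity) fun i _ => hJcard _
      _ = _ := by rw [Finset.prod_const, Finset.card_univ]
  refine (mul_le_mul_of_nonneg_left hbd (by positivity)).trans ?_
  have h2 : cc ^ n * ((((m : ℝ) + 3) * H) ^ n * ((H : ℝ) ^ n * (1 + ε2) * I.card)) =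
      (((1 + 3 / (m : ℝ)) / (1 - 1 / (m : ℝ))) ^ n) * (1 + ε2) * I.card / (L : ℝ) ^ n := by
    have h3 : cc * (((m : ℝ) + 3) * H) * H = (1 + 3 / (m : ℝ)) / (1 - 1 / (m : ℝ)) / L := by
      rw [hcc, hN]
      push_cast
      field_simp
    have h4 : (cc * (((m : ℝ) + 3) * H) * H) ^ n =
        cc ^ n * (((m : ℝ) + 3) * H) ^ n * (H : ℝ) ^ n := by
      rw [mul_pow, mul_pow]
    calc _ = (cc ^ n * (((m : ℝ) + 3) * H) ^ n * (H : ℝ) ^ n) * ((1 + ε2) * I.card) := by
          generalize (((m : ℝ) + 3) * H) ^ n = z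
          ring
      _ = ((1 + 3 / (m : ℝ)) / (1 - 1 / (m : ℝ)) / L) ^ n * ((1 + ε2) * I.card) := by
          rw [← h4, h3]
      _ = _ := by rw [div_pow]; ring
  rw [h2]
  apply div_le_div_of_nonneg_right _ (by positivity)
  apply mul_le_mul_of_nonneg_right _ (by positivity)
  calc _ ≤ (1 + ε2) * (1 + ε2) := mul_le_mul_of_nonneg_right hm1.le (by linarith)
    _ ≤ _ := hε21

theorem weyl_box {ι : Type} [Fintype ι] [DecidableEq ι] (L : ℕ) (hL : 0 < L) (ε : ℝ)
    (hε : 0 < ε) : ∃ (Ξ : ℕ) (ε0 : ℝ), 0 < ε0 ∧ ∀ (I : Finset ℕ) (θ : ℕ → ι → ℝ), I.Nonempty →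
      (∀ ξ : ι → ℤ, ξ ≠ 0 → (∀ i, |ξ i| ≤ Ξ) →
        ‖∑ v ∈ I, ex (∑ i, (ξ i : ℝ) * θ v i)‖ ≤ ε0 * I.card) →
      ∀ G : (ι → ℕ) → ℝ, (∀ p, |G p| ≤ 1) →
        |(∑ v ∈ I, G (fun i => (⌊(L : ℝ) * θ v i⌋ % (L : ℤ)).toNat)) / I.card
          - (∑ p ∈ Fintype.piFinset (fun _ : ι => range L), G p) / (L : ℝ) ^ Fintype.card ι|
          ≤ ε := by
  set n := Fintype.card ι with hn
  obtain ⟨Ξ, ε0, hε0, hU⟩ := WC_upper (ι := ι) L hL (ε / 2) (by positivity)
  refine ⟨Ξ, ε0, hε0, fun I θ hI hyp G hG => ?_⟩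
  have hL' : (0 : ℝ) < L := by exact_mod_cast hL
  have hLn : (0 : ℝ) < (L : ℝ) ^ n := by positivity
  have hI' : (0 : ℝ) < I.card := by exact_mod_cast hI.card_pos
  set box := Fintype.piFinset (fun _ : ι => range L) with hbox
  set cell : ℕ → ι → ℕ := fun v i => WC_cell L (θ v i) with hcell
  set cnt : (ι → ℕ) → ℝ := fun p => ((I.filter fun v => cell v = p).card : ℝ) with hcnt
  have hmaps : ∀ v ∈ I, cell v ∈ box := by
    intro v _
    rw [hbox, Fintype.mem_piFinset]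
    intro i
    rw [mem_range]
    exact WC_cell_lt L hL _
  have h1 : ∑ v ∈ I, G (fun i => (⌊(L : ℝ) * θ v i⌋ % (L : ℤ)).toNat) =
      ∑ p ∈ box, G p * cnt p := by
    have : ∑ v ∈ I, G (fun i => (⌊(L : ℝ) * θ v i⌋ % (L : ℤ)).toNat) = ∑ v ∈ I, G (cell v) := rfl
    rw [this, ← Finset.sum_fiberwise_of_maps_to hmaps]
    refine Finset.sum_congr rfl fun p _ => ?_
    rw [Finset.sum_congr rfl (g := fun _ => G p)]
    · rw [Finset.sum_const, nsmul_eq_mul, mul_comm]
    · intro v hv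
      rw [(Finset.mem_filter.mp hv).2]
  have h2 : ∑ p ∈ box, cnt p = I.card := by
    have := Finset.card_eq_sum_card_fiberwise hmaps
    rw [this]
    push_cast
    rfl
  have hbc : (box.card : ℝ) = (L : ℝ) ^ n := by
    rw [hbox, Fintype.card_piFinset]
    simp only [card_range, Finset.prod_const, Finset.card_univ]
    push_cast
    rfl
  have h3 : (∑ p ∈ box, G p * cnt p) / I.card - (∑ p ∈ box, G p) / (L : ℝ) ^ n =
      ∑ p ∈ box, G p * (cnt p / I.card - 1 / (L : ℝ) ^ n) := by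
    rw [Finset.sum_div, Finset.sum_div, ← Finset.sum_sub_distrib]
    refine Finset.sum_congr rfl fun p _ => ?_
    ring
  rw [h1, h3]
  have h4 : ∀ p ∈ box, |G p * (cnt p / I.card - 1 / (L : ℝ) ^ n)| ≤
      2 * ((ε / 2) / (L : ℝ) ^ n) - (cnt p / I.card - 1 / (L : ℝ) ^ n) := by
    intro p _
    rw [abs_mul]
    have h5 : cnt p / I.card - 1 / (L : ℝ) ^ n ≤ (ε / 2) / (L : ℝ) ^ n := by
      have h6 := hU I θ hyp p
      have h7 : cnt p / I.card ≤ (1 + ε / 2) / (L : ℝ) ^ n := by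
        rw [div_le_iff₀ hI']
        calc cnt p ≤ (1 + ε / 2) * I.card / (L : ℝ) ^ n := h6
          _ = _ := by ring
      rw [add_div] at h7
      linarith
    have h8 : |G p| * |cnt p / I.card - 1 / (L : ℝ) ^ n| ≤
        1 * |cnt p / I.card - 1 / (L : ℝ) ^ n| :=
      mul_le_mul_of_nonneg_right (hG p) (abs_nonneg _)
    refine h8.trans ?_
    rw [one_mul]
    have h9 : 0 < (ε / 2) / (L : ℝ) ^ n := by positivity
    rcases abs_cases (cnt p / I.card - 1 / (L : ℝ) ^ n) with h | h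
    · linarith [h.1]
    · linarith [h.1]
  refine (Finset.abs_sum_le_sum_abs _ _).trans ((Finset.sum_le_sum h4).trans ?_)
  rw [Finset.sum_sub_distrib, Finset.sum_sub_distrib, Finset.sum_const, Finset.sum_const,
    ← Finset.sum_div, h2, nsmul_eq_mul, nsmul_eq_mul, hbc, div_self hI'.ne']
  have h10 : (L : ℝ) ^ n * (2 * ((ε / 2) / (L : ℝ) ^ n)) = ε := by field_simp
  have h11 : (L : ℝ) ^ n * (1 / (L : ℝ) ^ n) = 1 := by field_simp
  rw [h10, h11]
  linarith

end Pool.Agent.Lib.MP_8fac0f_nt.C3
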